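import Pool.Agent.MP_94f265_co.MM1.Geom2

/-!
# Infinite assembly for a general family of rectangles
-/

namespace Pool.Agent.MM2

open Pool.Agent.MM1

/-- one step of the assembly -/
theorem assemble_stepG (u : ℕ → ℝ × ℝ) (A : Finset ℕ) (G G' : Multiset (ℝ × ℝ))
    (hcut : Cut G (A.val.map u + G')) (P : List PR) (hP : P.Pairwise PR.Sep)
    (hR : Multiset.Rel PR.Has (P : Multiset PR) G) :
    ∃ (h : ℕ → PR) (P' : List PR), P'.Pairwise PR.Sep ∧ Multiset.Rel PR.Has (P' : Multiset PR) G' ∧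
      (∀ n ∈ A, (h n).Has (u n) ∧ ∃ p ∈ P, (h n).Sub p) ∧
      (∀ n ∈ A, ∀ m ∈ A, n ≠ m → (h n).Sep (h m)) ∧
      (∀ p' ∈ P', ∃ p ∈ P, p'.Sub p) ∧ (∀ n ∈ A, ∀ p' ∈ P', (h n).Sep p') := by
  obtain ⟨Q, hQ, hQR, hQs⟩ := hcut.2 P hP hR
  rw [Multiset.rel_add_right] at hQR
  obtain ⟨U, B, hU, hB, hUB⟩ := hQR
  obtain ⟨P', rfl⟩ := Quot.exists_rep B
  rw [Multiset.rel_map_right] at hU
  obtain ⟨h, hUh, hh⟩ := rel_finset A U hU
  have hperm : Q.Perm (A.toList.map h ++ P') := by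
    have : (Q : Multiset PR) = ((A.toList.map h ++ P' : List PR) : Multiset PR) := by
      rw [hUB, hUh, ← Multiset.coe_add, ← Multiset.map_coe, Finset.coe_toList]; rfl
    exact Multiset.coe_eq_coe.1 this
  have hpw : (A.toList.map h ++ P').Pairwise PR.Sep :=
    (hperm.pairwise_iff (fun h => PR.Sep.symm h)).1 hQ
  rw [List.pairwise_append] at hpw
  obtain ⟨hp0, hp1, hp01⟩ := hpw
  have hmem : ∀ n ∈ A, h n ∈ A.toList.map h := fun n hn =>
    List.mem_map_of_mem (by simpa using hn)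
  refine ⟨h, P', hp1, hB, ?_, ?_, ?_, ?_⟩
  · intro n hn
    refine ⟨hh n hn, ?_⟩
    exact hQs _ (hperm.mem_iff.2 (List.mem_append_left _ (hmem n hn)))
  · intro n hn m hm hnm
    rw [List.pairwise_map] at hp0
    have key : ∀ n ∈ A.toList, ∀ m ∈ A.toList, n ≠ m → (h n).Sep (h m) := by
      have e1 : List.Pairwise (fun n m => n ≠ m → (h n).Sep (h m)) A.toList :=
        List.Pairwise.imp (S := fun n m => n ≠ m → (h n).Sep (h m))
          (fun {a b} (hh : (h a).Sep (h b)) (_ : a ≠ b) => hh) hp0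
      have e2 : List.Pairwise (flip (fun n m => n ≠ m → (h n).Sep (h m))) A.toList :=
        List.Pairwise.imp (S := flip (fun n m => n ≠ m → (h n).Sep (h m)))
          (fun {a b} (hh : (h a).Sep (h b)) (_ : b ≠ a) => hh.symm) hp0
      have := List.Pairwise.forall_of_forall_of_flip (R := fun n m => n ≠ m → (h n).Sep (h m))
        (l := A.toList) (by intro x _ hx; exact absurd rfl hx) e1 e2
      intro n hn m hm hnm
      exact this hn hm hnm
    exact key n (by simpa using hn) m (by simpa using hm) hnm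
  · intro p' hp'
    exact hQs _ (hperm.mem_iff.2 (List.mem_append_right _ hp'))
  · intro n hn p' hp'
    exact hp01 _ (hmem n hn) p' hp'

/-- Infinite assembly. -/
theorem assembleG (u : ℕ → ℝ × ℝ) (a b : ℝ) (G : ℕ → Multiset (ℝ × ℝ)) (A : ℕ → Finset ℕ)
    (hG0 : G 0 = {(a, b)}) (hcut : ∀ i, Cut (G i) ((A i).val.map u + G (i + 1)))
    (hdisj : ∀ i j, i < j → Disjoint (A i) (A j)) :
    ∃ R : ℕ → PR, (∀ i, ∀ n ∈ A i, (R n).Has (u n) ∧ (R n).Sub ⟨0, 0, a, b⟩) ∧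
      (∀ i j, ∀ n ∈ A i, ∀ m ∈ A j, n ≠ m → (R n).Sep (R m)) := by
  classical
  let T : ℕ → Type := fun i => {P : List PR // P.Pairwise PR.Sep ∧ Multiset.Rel PR.Has (P : Multiset PR) (G i)}
  have hstep : ∀ i (P : T i), ∃ hP : (ℕ → PR) × T (i + 1),
      (∀ n ∈ A i, (hP.1 n).Has (u n) ∧ ∃ p ∈ P.1, (hP.1 n).Sub p) ∧
      (∀ n ∈ A i, ∀ m ∈ A i, n ≠ m → (hP.1 n).Sep (hP.1 m)) ∧
      (∀ p' ∈ hP.2.1, ∃ p ∈ P.1, p'.Sub p) ∧ (∀ n ∈ A i, ∀ p' ∈ hP.2.1, (hP.1 n).Sep p') := by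
    intro i P
    obtain ⟨h, P', h1, h2, h3, h4, h5, h6⟩ :=
      assemble_stepG u (A i) (G i) (G (i + 1)) (hcut i) P.1 P.2.1 P.2.2
    exact ⟨⟨h, ⟨P', h1, h2⟩⟩, h3, h4, h5, h6⟩
  choose nxt hn1 hn2 hn3 hn4 using hstep
  have h0 : ([⟨0, 0, a, b⟩] : List PR).Pairwise PR.Sep ∧
      Multiset.Rel PR.Has (([⟨0, 0, a, b⟩] : List PR) : Multiset PR) (G 0) := by
    refine ⟨by simp, ?_⟩
    rw [hG0]
    change Multiset.Rel PR.Has ((⟨0, 0, a, b⟩ : PR) ::ₘ 0) ((a, b) ::ₘ 0)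
    exact Multiset.Rel.cons (Or.inl ⟨rfl, rfl⟩) Multiset.Rel.zero
  let P : ∀ i, T i := fun i => Nat.rec ⟨_, h0⟩ (fun i p => (nxt i p).2) i
  have hP : ∀ i, P (i + 1) = (nxt i (P i)).2 := fun i => rfl
  have hP0 : (P 0).1 = [⟨0, 0, a, b⟩] := rfl
  -- containment chain
  have hchain : ∀ i d, ∀ p' ∈ (P (i + d)).1, ∃ p ∈ (P i).1, p'.Sub p := by
    intro i d
    induction d with
    | zero => intro p' hp'; exact ⟨p', hp', PR.Sub.refl p'⟩
    | succ d ih =>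
      intro p' hp'
      rw [show i + (d + 1) = (i + d) + 1 from rfl, hP] at hp'
      obtain ⟨p, hp, hs⟩ := hn3 _ _ p' hp'
      obtain ⟨q, hq, hs'⟩ := ih p hp
      exact ⟨q, hq, hs.trans hs'⟩
  -- the index of a number
  let idx : ℕ → ℕ := fun n => if h : ∃ i, n ∈ A i then Nat.find h else 0
  have hidx : ∀ i, ∀ n ∈ A i, idx n = i := by
    intro i n hn
    have h : ∃ i, n ∈ A i := ⟨i, hn⟩
    have h1 : idx n = Nat.find h := dif_pos h
    rw [h1]
    have h2 := Nat.find_spec h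
    rcases lt_trichotomy (Nat.find h) i with h3 | h3 | h3
    · exact absurd hn (Finset.disjoint_left.1 (hdisj _ _ h3) h2)
    · exact h3
    · exact absurd h2 (Finset.disjoint_left.1 (hdisj _ _ h3) hn)
  let R : ℕ → PR := fun n => (nxt (idx n) (P (idx n))).1 n
  have hR : ∀ i, ∀ n ∈ A i, R n = (nxt i (P i)).1 n := by
    intro i n hn
    change (nxt (idx n) (P (idx n))).1 n = _
    rw [hidx i n hn]
  have hlt : ∀ i j, i < j → ∀ n ∈ A i, ∀ m ∈ A j, (R n).Sep (R m) := by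
    intro i j hij n hn m hm
    rw [hR i n hn, hR j m hm]
    obtain ⟨p, hp, hs⟩ := (hn1 j (P j) m hm).2
    obtain ⟨d, rfl⟩ := Nat.exists_eq_add_of_le (Nat.succ_le_of_lt hij)
    obtain ⟨q, hq, hs'⟩ := hchain (i + 1) d p hp
    rw [hP] at hq
    exact (hn4 i (P i) n hn q hq).mono (PR.Sub.refl _) (hs.trans hs')
  refine ⟨R, ?_, ?_⟩
  · intro i n hn
    rw [hR i n hn]
    refine ⟨(hn1 i (P i) n hn).1, ?_⟩
    obtain ⟨p, hp, hs⟩ := (hn1 i (P i) n hn).2
    obtain ⟨q, hq, hs'⟩ := hchain 0 i p (by rw [zero_add]; exact hp)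
    rw [hP0, List.mem_singleton] at hq
    subst hq
    exact hs.trans hs'
  · intro i j n hn m hm hnm
    rcases lt_trichotomy i j with h | h | h
    · exact hlt i j h n hn m hm
    · subst h
      rw [hR i n hn, hR i m hm]
      exact hn2 i (P i) n hn m hm hnm
    · exact (hlt j i h m hm n hn).symm

end Pool.Agent.MM2
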