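import Pool.Agent.MP_94f265_co.MM2.Count

/-!
# Lengths of slivers and potential bits of a phase, as multisets; total of the potential bits
-/

namespace Pool.Agent.MM2

theorem lenIn_map {ι : Type*} (a b : ℝ) (S : Finset ι) (f : ι → ℝ × ℝ) :
    lenIn a b (S.val.map f) = by
      classical exact ∑ n ∈ S.filter (fun n => a ≤ (f n).1 ∧ (f n).1 < b), (f n).2 := by
  classical
  unfold lenIn
  rw [Multiset.filter_map, Multiset.map_map]
  rfl

theorem lenK_map {ι : Type*} (K : ℕ) (S : Finset ι) (f : ι → ℝ × ℝ) :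
    lenK K (S.val.map f) = by
      classical exact ∑ n ∈ S.filter (fun n => Th K ≤ (f n).1 ∧ (f n).1 < Th (K - 1)), (f n).2 :=
  lenIn_map _ _ S f

variable {j : ℕ} {W : ℕ → ℝ}

theorem yu_nonneg (n : ℕ) : 0 ≤ yu n := by unfold yu; positivity

theorem xu_nonneg (n : ℕ) : 0 ≤ xu n := by unfold xu; positivity

/-- the slivers of a phase (any set of slots of it) -/
theorem lenK_cells_le (hW : ∀ n ∈ PP j, Th j ≤ W n ∧ W n ≤ Th (j - 1))
    (hmono : ∀ n ∈ PP j, ∀ m ∈ PP j, n ≤ m → W n ≤ W m) {K : ℕ} (hK : 2 ≤ K)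
    (S : Finset ℕ) (hS : S ⊆ PP j) :
    lenK K (S.val.map (fun n => (W n - xu n, yu n))) ≤ cL j K := by
  classical
  rw [lenK_map]
  refine le_trans (Finset.sum_le_sum_of_subset_of_nonneg ?_ (fun n _ _ => yu_nonneg n))
    (count_len hW hmono hK)
  intro n hn
  rw [Finset.mem_filter] at hn
  exact mem_slotK.2 ⟨hS hn.1, hn.2.1, hn.2.2⟩

theorem xu_sub {n : ℕ} (hn : 0 < n) : xu n - xu (n + 16) = 16 / ((n : ℝ) * (n + 16)) := by
  unfold xu
  have : (0 : ℝ) < n := by exact_mod_cast hn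
  push_cast
  field_simp
  ring

theorem mem_potSet {K n : ℕ} : n ∈ potSet j K ↔ n ∈ PP j ∧ Th K ≤ 16 / ((n : ℝ) * (n + 16)) ∧
    16 / ((n : ℝ) * (n + 16)) < Th (K - 1) := by
  unfold potSet; rw [Finset.mem_filter]

theorem gmax_nonneg_of_mem (hj : 2 ≤ j) {n : ℕ} (_hn : n ∈ PP j) : 0 ≤ gmax j := by
  have h1 : 1 / TT ((j : ℝ) + 16) < Th (j - 1) := by
    rw [Th_eq]
    have h2 : (2 : ℝ) ≤ j := by exact_mod_cast hj
    have h3 : ((j - 1 : ℕ) : ℝ) = (j : ℝ) - 1 := by rw [Nat.cast_sub (by omega)]; simp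
    rw [h3]
    apply one_div_lt_one_div_of_lt (TT_pos (by linarith))
    unfold TT
    have h4 : ((j : ℝ) - 1 - 1 / 5) ^ 3 < ((j : ℝ) + 16) ^ 3 :=
      pow_lt_pow_left₀ (by linarith) (by linarith) (by norm_num)
    linarith
  unfold gmax; linarith

/-- the potential bits of a phase (any set of pairs `n, n + 16` of it) -/
theorem lenK_pots_le (hj : 2 ≤ j) (hW : ∀ n ∈ PP j, Th j ≤ W n ∧ W n ≤ Th (j - 1)) {K : ℕ}
    (S : Finset ℕ) (hS : S ⊆ PP j) :
    53 / 50 * lenK K (S.val.map (fun n => (xu n - xu (n + 16), W n - xu n))) ≤ cP j K := by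
  classical
  rw [lenK_map]
  have h1 : ∑ n ∈ S.filter (fun n => Th K ≤ ((xu n - xu (n + 16), W n - xu n) : ℝ × ℝ).1 ∧
      ((xu n - xu (n + 16), W n - xu n) : ℝ × ℝ).1 < Th (K - 1)), (W n - xu n) ≤
      ∑ n ∈ S.filter (fun n => Th K ≤ ((xu n - xu (n + 16), W n - xu n) : ℝ × ℝ).1 ∧
      ((xu n - xu (n + 16), W n - xu n) : ℝ × ℝ).1 < Th (K - 1)), gmax j := by
    apply Finset.sum_le_sum
    intro n hn
    exact (sig_lt_gmax hW (hS (Finset.mem_filter.1 hn).1)).le
  have h2 : ∑ n ∈ S.filter (fun n => Th K ≤ ((xu n - xu (n + 16), W n - xu n) : ℝ × ℝ).1 ∧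
      ((xu n - xu (n + 16), W n - xu n) : ℝ × ℝ).1 < Th (K - 1)), gmax j ≤
      ∑ n ∈ potSet j K, gmax j := by
    apply Finset.sum_le_sum_of_subset_of_nonneg
    · intro n hn
      rw [Finset.mem_filter] at hn
      obtain ⟨a, b, c⟩ := hn
      simp only at b c
      rw [xu_sub (PP_pos (hS a))] at b c
      exact mem_potSet.2 ⟨hS a, b, c⟩
    · intro n hn _
      exact gmax_nonneg_of_mem hj (mem_potSet.1 hn).1
  have h5 := h1.trans h2
  rw [Finset.sum_const, nsmul_eq_mul] at h5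
  rw [cP_eq]
  have h3 : 53 / 50 * gmax j * ((potSet j K).card : ℝ) = 53 / 50 * (((potSet j K).card : ℝ) * gmax j) := by
    ring
  rw [h3]
  linarith

theorem cP_nonneg (hj : 2 ≤ j) (K : ℕ) : 0 ≤ cP j K := by
  rw [cP_eq]
  rcases (potSet j K).eq_empty_or_nonempty with h | ⟨n, hn⟩
  · rw [h, Finset.card_empty, Nat.cast_zero, mul_zero]
  · exact mul_nonneg (mul_nonneg (by norm_num) (gmax_nonneg_of_mem hj (mem_potSet.1 hn).1))
      (Nat.cast_nonneg _)

/-- before class `425000` there are no potential bits -/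
theorem cP_zero {K : ℕ} (hK : K < 425000) (hK2 : 1 ≤ K) (j : ℕ) : cP j K = 0 := by
  rw [cP_eq]
  have h : potSet j K = ∅ := by
    rw [Finset.eq_empty_iff_forall_notMem]
    intro n hn
    obtain ⟨h1, h2, _⟩ := mem_potSet.1 hn
    have h3 : (300000000 : ℝ) ≤ n := by
      have := (mem_PP.1 h1).1
      unfold NN at this
      exact_mod_cast this
    have h4 : Th 424999 ≤ Th K := Th_anti hK2 (by omega)
    have h5 : 16 / ((n : ℝ) * (n + 16)) ≤ 16 / (300000000 * (300000000 + 16)) := by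
      apply div_le_div_of_nonneg_left (by norm_num) (by norm_num)
      nlinarith
    have h6 : (16 : ℝ) / (300000000 * (300000000 + 16)) < Th 424999 := by
      unfold Th; norm_num
    linarith
  rw [h, Finset.card_empty, Nat.cast_zero, mul_zero]

/-- `n * gmax j ≤ 33/1000` on the phase `j` -/
theorem gmax_mul_le (hj : 1585 ≤ j) {n : ℕ} (hn : n ∈ PP j) : gmax j * n ≤ 33 / 1000 := by
  have h0 := gmax_nonneg_of_mem (by omega) hn
  have h1 := (PP_lt hn).le
  have hjR : (1585 : ℝ) ≤ j := by exact_mod_cast hj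
  have h3 : ((j - 1 : ℕ) : ℝ) = (j : ℝ) - 1 := by rw [Nat.cast_sub (by omega)]; simp
  have hT : 0 < TT ((j : ℝ) + 16) := TT_pos (by positivity)
  calc gmax j * n ≤ gmax j * TT ((j : ℝ) + 16) := mul_le_mul_of_nonneg_left h1 h0
    _ = Th (j - 1) * TT ((j : ℝ) + 16) - 1 := by
        unfold gmax
        field_simp
    _ ≤ 33 / 1000 := by
        rw [Th_eq, h3]
        unfold TT
        have h5 : (0 : ℝ) < (j : ℝ) - 1 - 1 / 5 := by linarith
        have h6 : 1 / (75 * ((j : ℝ) - 1 - 1 / 5) ^ 3 / 1024) * (75 * ((j : ℝ) + 16) ^ 3 / 1024) =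
            (((j : ℝ) + 16) / ((j : ℝ) - 1 - 1 / 5)) ^ 3 := by
          field_simp
        rw [h6]
        have h7 : ((j : ℝ) + 16) / ((j : ℝ) - 1 - 1 / 5) ≤ 1601 / (1583 + 4 / 5) := by
          rw [div_le_div_iff₀ h5 (by norm_num)]
          linarith
        have h8 : (((j : ℝ) + 16) / ((j : ℝ) - 1 - 1 / 5)) ^ 3 ≤ (1601 / (1583 + 4 / 5)) ^ 3 :=
          pow_le_pow_left₀ (by positivity) h7 3
        have h9 : ((1601 : ℝ) / (1583 + 4 / 5)) ^ 3 ≤ 1033 / 1000 := by norm_num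
        linarith

/-- all bits together: a load of at most `.0185` in any class -/
theorem sum_cP_fin {K : ℕ} (hK : 2 ≤ K) (J : Finset ℕ) (hJ : ∀ j ∈ J, 1585 ≤ j) :
    ∑ j ∈ J, cP j K ≤ 37 / 2000 * (3 / K) := by
  classical
  rcases Nat.lt_or_ge K 425000 with hlt | hge
  · rw [Finset.sum_eq_zero (fun j _ => cP_zero hlt (by omega) j)]
    positivity
  obtain ⟨U, hU⟩ : ∃ U : Finset ℕ, U = J.biUnion (fun j => potSet j K) := ⟨_, rfl⟩
  have hKR : (425000 : ℝ) ≤ K := by exact_mod_cast hge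
  have step1 : ∑ j ∈ J, cP j K ≤ 53 / 50 * (33 / 1000) * ∑ n ∈ U, (1 / (n : ℝ)) := by
    rw [hU, Finset.sum_biUnion, Finset.mul_sum]
    · apply Finset.sum_le_sum
      intro j hj
      rw [cP_eq]
      rw [mul_assoc, mul_assoc, mul_comm (gmax j), ← nsmul_eq_mul, ← Finset.sum_const]
      refine mul_le_mul_of_nonneg_left ?_ (by norm_num)
      rw [Finset.mul_sum]
      apply Finset.sum_le_sum
      intro n hn
      have h1 := (mem_potSet.1 hn).1
      have h2 := gmax_mul_le (hJ j hj) h1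
      have h3 := PP_posR h1
      rw [mul_one_div, le_div_iff₀ h3]
      exact h2
    · intro i _ j _ hij
      rw [Function.onFun, Finset.disjoint_left]
      intro n hn hm
      exact hij (PP_unique (mem_potSet.1 hn).1 (mem_potSet.1 hm).1)
  have hmem : ∀ n ∈ U, NN ≤ n ∧ Th K ≤ 16 / ((n : ℝ) * (n + 16)) ∧
      16 / ((n : ℝ) * (n + 16)) < Th (K - 1) := by
    intro n hn
    rw [hU, Finset.mem_biUnion] at hn
    obtain ⟨j, _, h⟩ := hn
    obtain ⟨h1, h2, h3⟩ := mem_potSet.1 h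
    exact ⟨(mem_PP.1 h1).1, h2, h3⟩
  have step2 : ∑ n ∈ U, (1 / (n : ℝ)) ≤ 1 / 2 * (301 / 100) / K + 3 / 1000 / K := by
    rcases U.eq_empty_or_nonempty with h0 | h0
    · rw [h0, Finset.sum_empty]; positivity
    obtain ⟨a, ha, b, hb, hab⟩ : ∃ a ∈ U, ∃ b ∈ U, ∀ n ∈ U, a ≤ n ∧ n ≤ b :=
      ⟨U.min' h0, U.min'_mem h0, U.max' h0, U.max'_mem h0, fun n hn =>
        ⟨U.min'_le n hn, U.le_max' n hn⟩⟩
    have hsub : U ⊆ Finset.Icc a b := fun n hn => Finset.mem_Icc.2 (hab n hn)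
    have hle : a ≤ b := (hab b hb).1
    obtain ⟨a1, a2, a3⟩ := hmem a ha
    obtain ⟨b1, b2, b3⟩ := hmem b hb
    have haN : (300000000 : ℝ) ≤ a := by unfold NN at a1; exact_mod_cast a1
    have habR : (a : ℝ) ≤ b := by exact_mod_cast hle
    have haR : (0 : ℝ) < a := by linarith
    have hbR : (0 : ℝ) < b := by linarith
    have s1 : ∑ n ∈ U, (1 / (n : ℝ)) ≤ ((b : ℝ) - a + 1) / a := by
      have h1 : ∑ n ∈ U, (1 / (n : ℝ)) ≤ ∑ n ∈ Finset.Icc a b, (1 / (a : ℝ)) := by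
        refine le_trans (Finset.sum_le_sum (g := fun _ => 1 / (a : ℝ)) ?_)
          (Finset.sum_le_sum_of_subset_of_nonneg hsub (fun _ _ _ => by positivity))
        intro n hn
        have : (a : ℝ) ≤ n := by exact_mod_cast (hab n hn).1
        exact one_div_le_one_div_of_le haR this
      rw [Finset.sum_const, Nat.card_Icc, nsmul_eq_mul, mul_one_div] at h1
      have h2 : ((b + 1 - a : ℕ) : ℝ) = (b : ℝ) - a + 1 := by
        rw [Nat.cast_sub (by omega)]; push_cast; ring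
      rw [h2] at h1
      exact h1
    -- the thresholds
    have hK1 : ((K - 1 : ℕ) : ℝ) = (K : ℝ) - 1 := by rw [Nat.cast_sub (by omega)]; simp
    have p1 : 0 < 5 * (K : ℝ) - 6 := by linarith
    have p2 : 0 < 5 * (K : ℝ) - 1 := by linarith
    have t1 : 3 / 320 * (5 * (K : ℝ) - 6) ^ 3 < a * (a + 16) := by
      rw [div_lt_iff₀ (by positivity)] at a3
      unfold Th at a3
      rw [hK1] at a3
      have e : 5 * ((K : ℝ) - 1) - 1 = 5 * K - 6 := by ring
      rw [e, div_mul_eq_mul_div, lt_div_iff₀ (by positivity)] at a3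
      nlinarith
    have t2 : (b : ℝ) * (b + 16) ≤ 3 / 320 * (5 * (K : ℝ) - 1) ^ 3 := by
      rw [le_div_iff₀ (by positivity)] at b2
      unfold Th at b2
      rw [div_mul_eq_mul_div, div_le_iff₀ (by positivity)] at b2
      nlinarith
    -- (b - a) 2 (a + 8) ≤ b (b + 16) - a (a + 16)
    have t3 : ((b : ℝ) - a) * (2 * a) ≤ b * (b + 16) - a * (a + 16) := by
      nlinarith [mul_nonneg (sub_nonneg.2 habR) (sub_nonneg.2 habR), sub_nonneg.2 habR]
    have t4 : (5 * (K : ℝ) - 1) ^ 3 - (5 * (K : ℝ) - 6) ^ 3 ≤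
        (3005 / 1000) / K * (5 * (K : ℝ) - 6) ^ 3 := by
      rw [div_mul_eq_mul_div, le_div_iff₀ (by linarith)]
      have hx : 0 ≤ (K : ℝ) - 425000 := by linarith
      nlinarith [mul_nonneg hx hx, mul_nonneg (mul_nonneg hx hx) hx, pow_pos p1 3]
    have t5 : ((b : ℝ) - a) * (2 * a) ≤ (3005 / 1000) / K * (a * (a + 16)) := by
      have h1 : 3 / 320 * (5 * (K : ℝ) - 1) ^ 3 - 3 / 320 * (5 * (K : ℝ) - 6) ^ 3 ≤
          (3005 / 1000) / K * (3 / 320 * (5 * (K : ℝ) - 6) ^ 3) := by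
        have := mul_le_mul_of_nonneg_left t4 (by norm_num : (0:ℝ) ≤ 3 / 320)
        linarith
      have h2 : (3005 / 1000) / (K : ℝ) * (3 / 320 * (5 * (K : ℝ) - 6) ^ 3) ≤
          (3005 / 1000) / K * (a * (a + 16)) :=
        mul_le_mul_of_nonneg_left t1.le (by positivity)
      nlinarith
    have t6 : ((b : ℝ) - a) / a ≤ 1 / 2 * (301 / 100) / K := by
      rw [div_le_iff₀ haR]
      have h1 : (a : ℝ) + 16 ≤ (1 + 1 / 1000000) * a := by linarith
      have h2 : (3005 / 1000) / (K : ℝ) * (a * (a + 16)) ≤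
          (3005 / 1000) / K * (a * ((1 + 1 / 1000000) * a)) :=
        mul_le_mul_of_nonneg_left (mul_le_mul_of_nonneg_left h1 haR.le) (by positivity)
      have h3 : ((b : ℝ) - a) * 2 ≤ (3005 / 1000) / K * ((1 + 1 / 1000000) * a) := by
        have h4 : (((b : ℝ) - a) * 2) * a ≤ ((3005 / 1000) / K * ((1 + 1 / 1000000) * a)) * a := by
          nlinarith
        exact le_of_mul_le_mul_right h4 haR
      have h5 : (0 : ℝ) < 1 / K * a := by positivity
      have e1 : (3005 / 1000) / (K : ℝ) * ((1 + 1 / 1000000) * a) =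
          (3005 / 1000) * (1 + 1 / 1000000) * (1 / K * a) := by ring
      have e2 : 1 / 2 * (301 / 100) / (K : ℝ) * a = 1 / 2 * (301 / 100) * (1 / K * a) := by ring
      rw [e1] at h3
      rw [e2]
      linarith
    have t7 : 1 / (a : ℝ) ≤ 3 / 1000 / K := by
      rw [div_div, div_le_div_iff₀ haR (by positivity)]
      by_contra hcon
      push Not at hcon
      have h1 : (a : ℝ) < 1000 / 3 * K := by linarith
      have h2 : (a : ℝ) * (a + 16) < 1000 / 3 * K * (1000 / 3 * K + 16) := by nlinarith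
      have h3 : 1000 / 3 * (K : ℝ) * (1000 / 3 * K + 16) ≤ 3 / 320 * (5 * (K : ℝ) - 6) ^ 3 := by
        have hx : 0 ≤ (K : ℝ) - 425000 := by linarith
        nlinarith [mul_nonneg hx hx, mul_nonneg (mul_nonneg hx hx) hx]
      linarith
    have e3 : ((b : ℝ) - a + 1) / a = ((b : ℝ) - a) / a + 1 / a := by ring
    rw [e3] at s1
    linarith
  have hK0 : (0 : ℝ) < 1 / K := by positivity
  have e4 : 1 / 2 * (301 / 100) / (K : ℝ) + 3 / 1000 / K = (1 / 2 * (301 / 100) + 3 / 1000) * (1 / K) := by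
    ring
  rw [e4] at step2
  have e5 : 37 / 2000 * (3 / (K : ℝ)) = 37 / 2000 * 3 * (1 / K) := by ring
  rw [e5]
  nlinarith

end Pool.Agent.MM2
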