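import Pool.Agent.MP_94f265_co.MM2.Step
import Pool.Agent.MP_94f265_co.MM2.CountP

/-!
# The class loads (I2) of the next state
-/

namespace Pool.Agent.MM2

open Pool.Agent.MM1

theorem lenK_zero (K : ℕ) : lenK K 0 = 0 := by
  classical
  simp [lenK, lenIn]

theorem lenK_add (K : ℕ) (S T : Multiset (ℝ × ℝ)) : lenK K (S + T) = lenK K S + lenK K T := by
  classical
  simp [lenK, lenIn, Multiset.filter_add]

theorem lenK_cons (K : ℕ) (p : ℝ × ℝ) (S : Multiset (ℝ × ℝ)) :
    lenK K (p ::ₘ S) = lenK K {p} + lenK K S := by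
  rw [← Multiset.singleton_add, lenK_add]

theorem lenK_single (K : ℕ) (p : ℝ × ℝ) :
    lenK K {p} = by classical exact if Th K ≤ p.1 ∧ p.1 < Th (K - 1) then p.2 else 0 := by
  classical
  unfold lenK lenIn
  rw [Multiset.filter_singleton]
  split_ifs with h
  · simp
  · simp

theorem lenK_nonneg (K : ℕ) {S : Multiset (ℝ × ℝ)} (h : ∀ p ∈ S, 0 ≤ p.2) : 0 ≤ lenK K S := by
  classical
  unfold lenK lenIn
  apply Multiset.sum_nonneg
  intro x hx
  obtain ⟨p, hp, rfl⟩ := Multiset.mem_map.1 hx
  exact h p (Multiset.mem_filter.1 hp).1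

theorem lenK_le_of_le (K : ℕ) {S T : Multiset (ℝ × ℝ)} (h : S ≤ T) (hT : ∀ p ∈ T, 0 ≤ p.2) :
    lenK K S ≤ lenK K T := by
  obtain ⟨U, rfl⟩ := Multiset.le_iff_exists_add.1 h
  rw [lenK_add]
  have := lenK_nonneg K (S := U) (fun p hp => hT p (Multiset.mem_add.2 (Or.inr hp)))
  linarith

/-- pieces of thickness `≤ 0` do not count -/
theorem lenK_filter_pos {K : ℕ} (hK : 1 ≤ K) (S : Multiset (ℝ × ℝ)) :
    lenK K (by classical exact S.filter (fun p => 0 < p.1)) = lenK K S := by
  classical
  unfold lenK lenIn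
  rw [Multiset.filter_filter]
  congr 2
  apply Multiset.filter_congr
  intro p _
  have := Th_pos hK
  constructor
  · rintro ⟨h1, _⟩; exact h1
  · intro h1; exact ⟨h1, lt_of_lt_of_le this h1.1⟩

theorem lenK_rel (K : ℕ) {S T : Multiset (ℝ × ℝ)} (h : Multiset.Rel BitLe' S T) :
    lenK K S ≤ 53 / 50 * lenK K T := by
  classical
  induction h with
  | zero => simp [lenK_zero]
  | @cons a b as bs hab _ ih =>
    rw [lenK_cons, lenK_cons K b, mul_add]
    refine add_le_add ?_ ih
    obtain ⟨h1, _, h3⟩ := hab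
    rw [lenK_single, lenK_single, h1]
    split_ifs
    · exact h3
    · simp

theorem potOf_plain (S : Multiset (ℝ × ℝ)) : potOf (S.map plainObj) = 0 := by
  induction S using Multiset.induction_on with
  | empty => simp [potOf_zero]
  | cons p S ih =>
    rw [Multiset.map_cons, ← Multiset.singleton_add, potOf_add, ih, potOf_single, plainObj_pot]
    simp

theorem pots_sum (R : List Res) : (R.map (fun r => Multiset.ofList r.o.pot)).sum =
    potOf (Multiset.ofList (R.map Res.o)) := by
  induction R with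
  | nil => simp [potOf_zero]
  | cons r R ih =>
    rw [List.map_cons, List.sum_cons, ih, List.map_cons, ← Multiset.cons_coe, ← Multiset.singleton_add,
      potOf_add, potOf_single]

theorem lenK_bits (K : ℕ) (R : List Res)
    (h : ∀ r ∈ R, Multiset.Rel BitLe' (Multiset.ofList (r.bits yu)) (Multiset.ofList r.o.pot)) :
    lenK K ((R.map (fun r => Multiset.ofList (r.bits yu))).sum) ≤
      53 / 50 * lenK K (potOf (Multiset.ofList (R.map Res.o))) := by
  rw [← pots_sum]
  apply lenK_rel
  induction R with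
  | nil => simp
  | cons r R ih =>
    rw [List.map_cons, List.sum_cons, List.map_cons, List.sum_cons]
    exact Multiset.Rel.add (h r (by simp)) (ih (fun r' hr' => h r' (by simp [hr'])))

/-- second entries of potential bits are thicknesses -/
theorem potL_snd_nonneg (t : ℝ) (l : List (ℝ × ℝ)) (h : ∀ p ∈ l, 0 ≤ t - p.1) :
    ∀ p ∈ Obj.potL t l, 0 ≤ p.2 := by
  induction l with
  | nil => simp [Obj.potL]
  | cons a l ih =>
    cases l with
    | nil => simp [Obj.potL]
    | cons b l =>
      intro p hp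
      simp only [Obj.potL, List.mem_cons] at hp
      rcases hp with rfl | hp
      · exact h a (by simp)
      · exact ih (fun q hq => h q (by simp [hq])) p hp

theorem potOf_snd_nonneg {T : ℝ} {Q : Multiset Obj} (hQ : ∀ o ∈ Q, OInv T o) :
    ∀ p ∈ potOf Q, 0 ≤ p.2 := by
  induction Q using Multiset.induction_on with
  | empty => simp [potOf_zero]
  | cons o Q ih =>
    intro p hp
    rw [← Multiset.singleton_add, potOf_add, Multiset.mem_add, potOf_single] at hp
    rcases hp with hp | hp
    · exact potL_snd_nonneg o.t o.run (fun q hq => ((hQ o (Multiset.mem_cons_self _ _)).pos q hq).le) p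
        (show p ∈ o.pot from by simpa using hp)
    · exact ih (fun o' ho' => hQ o' (Multiset.mem_cons_of_mem ho')) p hp

theorem cellsOf_snd_nonneg {T : ℝ} {Q : Multiset Obj} (hQ : ∀ o ∈ Q, OInv T o) :
    ∀ p ∈ cellsOf Q, 0 ≤ p.2 := by
  induction Q using Multiset.induction_on with
  | empty => simp [cellsOf_zero]
  | cons o Q ih =>
    intro p hp
    rw [← Multiset.singleton_add, cellsOf_add, Multiset.mem_add, cellsOf_single] at hp
    rcases hp with hp | hp
    · obtain ⟨q, hq, rfl⟩ := List.mem_map.1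
        (show p ∈ o.run.map (fun p => (o.t - p.1, p.2)) from by simpa [Obj.cells] using hp)
      exact (hQ o (Multiset.mem_cons_self _ _)).ok.hL q hq
    · exact ih (fun o' ho' => hQ o' (Multiset.mem_cons_of_mem ho')) p hp

/-- **(I2) for the next state.** -/
theorem load_step {i : ℕ} {s : TState} {d : PhaseData} {T : ℝ} (h : PhaseOK i s d)
    (hT : T ≤ Th (i - 1)) (hs : SInvT T i s) (hi : 1585 ≤ i) (F : Multiset (ℝ × ℝ)) {K : ℕ} (hK : 2 ≤ K) :
    lenK K (cellsOf ((nextState i s d F).QR + (nextState i s d F).QE)) +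
      53 / 50 * lenK K (potOf ((nextState i s d F).QR + (nextState i s d F).QE)) ≤
    lenK K (cellsOf (s.QR + s.QE)) + 53 / 50 * lenK K (potOf (s.QR + s.QE)) + (cL i K + cP i K) := by
  classical
  -- the split of the old objects
  obtain ⟨_, _, _, _, c1, p1⟩ := split_spec (Th i) s.QR (fun o ho => (hs.hR o ho).ok)
  obtain ⟨_, _, _, _, c2, p2⟩ := split_spec (Th i) s.QE (fun o ho => (hs.hQ o ho).ok)
  have hsR : ∀ o ∈ sufQ (Th i) s.QR, OInv T o := fun o ho => (OInv.sufQ hs.hR o ho).1
  have hsQ : ∀ o ∈ sufQ (Th i) s.QE, OInv T o := fun o ho => (OInv.sufQ hs.hQ o ho).1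
  have e1 : lenK K (cellsOf (preQ (Th i) s.QR)) ≤ lenK K (cellsOf s.QR) := by
    rw [c1, lenK_add]
    linarith [lenK_nonneg K (cellsOf_snd_nonneg hsR)]
  have e2 : lenK K (cellsOf (preQ (Th i) s.QE)) ≤ lenK K (cellsOf s.QE) := by
    rw [c2, lenK_add]
    linarith [lenK_nonneg K (cellsOf_snd_nonneg hsQ)]
  have e3 : lenK K (potOf (preQ (Th i) s.QR)) + lenK K (potOf (sufQ (Th i) s.QR)) ≤
      lenK K (potOf s.QR) := by
    rw [← lenK_add]
    exact lenK_le_of_le K p1 (potOf_snd_nonneg hs.hR)
  have e4 : lenK K (potOf (preQ (Th i) s.QE)) + lenK K (potOf (sufQ (Th i) s.QE)) ≤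
      lenK K (potOf s.QE) := by
    rw [← lenK_add]
    exact lenK_le_of_le K p2 (potOf_snd_nonneg hs.hQ)
  -- the bits
  have e5 : lenK K d.bitS ≤ 53 / 50 * (lenK K (potOf (sufQ (Th i) s.QR)) +
      lenK K (potOf (sufQ (Th i) s.QE))) := by
    have h1 : lenK K d.bitS = lenK K ((d.Rs.map (fun r => Multiset.ofList (r.bits yu))).sum) :=
      lenK_filter_pos (by omega) _
    have h2 := lenK_bits K d.Rs (h.bits_rel hT hs (by omega))
    have h3 : potOf (Multiset.ofList (d.Rs.map Res.o)) =
        potOf (sufQ (Th i) s.QR) + potOf (sufQ (Th i) s.QE) := by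
      unfold PhaseData.Rs
      rw [List.map_append, List.map_append, List.map_append, ← Multiset.coe_add, ← Multiset.coe_add,
        ← Multiset.coe_add, h.hRP, h.hRR, h.hRQ, h.hRE, potOf_add, potOf_add, potOf_add, potOf_plain,
        potOf_plain]
      simp
    rw [h1]
    rw [h3, lenK_add] at h2
    exact h2
  -- the new objects
  have hW : ∀ n ∈ PP i, Th i ≤ d.W n ∧ d.W n ≤ Th (i - 1) := h.range
  have e6 : lenK K (cellsOf d.newR) + lenK K (cellsOf d.newE) + lenK K (cellsOf (d.rowO i)) ≤
      cL i K := by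
    rw [← lenK_add, ← lenK_add, h.new_cells]
    exact lenK_cells_le hW h.mono hK (PP i) (Finset.Subset.refl _)
  have e7 : 53 / 50 * (lenK K (potOf d.newR) + lenK K (potOf d.newE) + lenK K (potOf (d.rowO i))) ≤
      cP i K := by
    rw [← lenK_add, ← lenK_add]
    have h1 := lenK_pots_le (j := i) (W := d.W) (by omega) hW (K := K) (PP i) (Finset.Subset.refl _)
    have h2 := lenK_le_of_le K h.new_pots (by
      intro p hp
      obtain ⟨n, hn, rfl⟩ := Multiset.mem_map.1 hp
      have hn' : n ∈ PP i := hn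
      have h3 := (hW n hn').1
      have h4 := (xu_le hn').2
      have h5 := inv_Nj_lt_Th (i := i) (by omega)
      simp only
      linarith)
    linarith
  -- assembly
  have g1 : cellsOf ((nextState i s d F).QR + (nextState i s d F).QE) =
      cellsOf (preQ (Th i) s.QR) + cellsOf d.newR + d.bitS + cellsOf (d.rowO i) +
        (cellsOf (preQ (Th i) s.QE) + cellsOf d.newE) := by
    simp only [nextState, cellsOf_add, cells_plain]
  have g2 : potOf ((nextState i s d F).QR + (nextState i s d F).QE) =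
      potOf (preQ (Th i) s.QR) + potOf d.newR + potOf (d.rowO i) +
        (potOf (preQ (Th i) s.QE) + potOf d.newE) := by
    simp only [nextState, potOf_add, potOf_plain, add_zero]
  rw [g1, g2, cellsOf_add, potOf_add]
  simp only [lenK_add]
  linarith

/-- the field `load` of the invariants, from phase `i` to phase `i + 1` -/
theorem load_next {i : ℕ} {s : TState} {d : PhaseData} {T : ℝ} (h : PhaseOK i s d)
    (hT : T ≤ Th (i - 1)) (hs : SInvT T i s) (hi : 1585 ≤ i) (F : Multiset (ℝ × ℝ))
    (hl : ∀ K, max i i0 ≤ K → lenK K (cellsOf (s.QR + s.QE)) + (53 / 50) * lenK K (potOf (s.QR + s.QE)) ≤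
      betaK K * (3 / K) + ∑ j ∈ Finset.Ico j0 i, (cL j K + cP j K)) :
    ∀ K, max (i + 1) i0 ≤ K →
      lenK K (cellsOf ((nextState i s d F).QR + (nextState i s d F).QE)) +
        (53 / 50) * lenK K (potOf ((nextState i s d F).QR + (nextState i s d F).QE)) ≤
      betaK K * (3 / K) + ∑ j ∈ Finset.Ico j0 (i + 1), (cL j K + cP j K) := by
  intro K hK
  have hK1 : max i i0 ≤ K := le_trans (max_le_max (by omega) le_rfl) hK
  have hK2 : i0 ≤ K := le_trans (le_max_right _ _) hK
  have hK3 : 2 ≤ K := by unfold i0 at hK2; omega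
  have h1 := hl K hK1
  have h2 := load_step h hT hs hi F hK3
  rw [Finset.sum_Ico_succ_top (by unfold j0; omega)]
  linarith

end Pool.Agent.MM2
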