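import Pool.Agent.MP_94f265_co.MM2.PhaseGeom

/-!
# Consequences of the geometry of a phase
-/

namespace Pool.Agent.MM2

open Pool.Agent.MM1

/-- potential bits of a strip filled with the increasing list of slots `l` -/
noncomputable def potN (x W : ℕ → ℝ) : List ℕ → List (ℝ × ℝ)
  | n :: m :: l => (x n - x m, W n - x n) :: potN x W (m :: l)
  | _ => []

theorem mkObj_cells (x y W : ℕ → ℝ) (w : ℝ) (a : List ℕ) (h : ∀ n ∈ a, W n = w) :
    (mkObj x y w a).cells = a.map (fun n => (W n - x n, y n)) := by
  unfold mkObj Obj.cells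
  rw [List.map_map]
  apply List.map_congr_left
  intro n hn
  simp [h n hn]

theorem mkObj_pot (x y W : ℕ → ℝ) (w : ℝ) (a : List ℕ) (h : ∀ n ∈ a, W n = w) :
    (mkObj x y w a).pot = potN x W a := by
  unfold mkObj Obj.pot
  simp only
  induction a with
  | nil => simp [Obj.potL, potN]
  | cons n a ih =>
    cases a with
    | nil => simp [Obj.potL, potN]
    | cons m a =>
      have ih' := ih (fun k hk => h k (by simp [hk]))
      simp only [List.map_cons, Obj.potL, potN] at ih' ⊢
      rw [ih', h n (by simp)]

theorem mkObj_ok (x y : ℕ → ℝ) (w : ℝ) (a : List ℕ) (hne : a ≠ []) (hinc : a.Pairwise (· < ·))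
    (hx : ∀ n ∈ a, 0 ≤ x n ∧ x n ≤ w) (hxa : ∀ n ∈ a, ∀ m ∈ a, n < m → x m ≤ x n)
    (hy : ∀ n ∈ a, 0 ≤ y n) : (mkObj x y w a).Ok := by
  refine ⟨?_, ?_, ?_, ?_⟩
  · simpa [mkObj] using hne
  · intro p hp
    obtain ⟨n, hn, rfl⟩ := List.mem_map.1 (show p ∈ a.map (fun n => (x n, y n)) from hp)
    exact hx n hn
  · intro p hp
    obtain ⟨n, hn, rfl⟩ := List.mem_map.1 (show p ∈ a.map (fun n => (x n, y n)) from hp)
    exact hy n hn
  · change (a.map (fun n => (x n, y n))).Pairwise _
    rw [List.pairwise_map]
    exact hinc.imp_of_mem (fun {n m} hn hm h => hxa n hn m hm h)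

/-- the new objects, as a function of the cells and the lists of slots -/
noncomputable def newsL (x y : ℕ → ℝ) (c : List (ℝ × ℝ)) (A : List (List ℕ)) : List Obj := by
  classical
  exact ((List.zipWith (fun (p : ℝ × ℝ) (a : List ℕ) => (p.1, a)) c A).filter
    (fun b => decide (b.2 ≠ []))).map (fun b => mkObj x y b.1 b.2.reverse)

theorem Res.news_eq (x y : ℕ → ℝ) (r : Res) : r.news x y = newsL x y r.cells r.A := rfl

theorem newsL_cons_nil (x y : ℕ → ℝ) (p : ℝ × ℝ) (c : List (ℝ × ℝ)) (A : List (List ℕ)) :
    newsL x y (p :: c) ([] :: A) = newsL x y c A := by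
  simp [newsL]

theorem newsL_cons (x y : ℕ → ℝ) (p : ℝ × ℝ) (a : List ℕ) (ha : a ≠ []) (c : List (ℝ × ℝ))
    (A : List (List ℕ)) :
    newsL x y (p :: c) (a :: A) = mkObj x y p.1 a.reverse :: newsL x y c A := by
  simp [newsL, ha]

theorem newsL_nil (x y : ℕ → ℝ) (A : List (List ℕ)) : newsL x y [] A = [] := by
  simp [newsL]

/-- members of `newsL` -/
theorem mem_newsL (x y W : ℕ → ℝ) (c : List (ℝ × ℝ)) (A : List (List ℕ))
    (h : List.Forall₂ (fun (p : ℝ × ℝ) (a : List ℕ) => ∀ n ∈ a, W n = p.1) c A) (o : Obj)
    (ho : o ∈ newsL x y c A) :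
    ∃ p ∈ c, ∃ a ∈ A, a ≠ [] ∧ (∀ n ∈ a, W n = p.1) ∧ o = mkObj x y p.1 a.reverse := by
  induction h with
  | nil => simp [newsL_nil] at ho
  | @cons p a c A hpa _ ih =>
    by_cases ha : a = []
    · subst ha
      rw [newsL_cons_nil] at ho
      obtain ⟨p', hp', a', ha', h⟩ := ih ho
      exact ⟨p', by simp [hp'], a', by simp [ha'], h⟩
    · rw [newsL_cons x y p a ha] at ho
      rcases List.mem_cons.1 ho with rfl | ho
      · exact ⟨p, by simp, a, by simp, ha, hpa, rfl⟩
      · obtain ⟨p', hp', a', ha', h⟩ := ih ho
        exact ⟨p', by simp [hp'], a', by simp [ha'], h⟩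

theorem newsL_length (x y : ℕ → ℝ) (c : List (ℝ × ℝ)) (A : List (List ℕ)) :
    (newsL x y c A).length ≤ c.length := by
  classical
  unfold newsL
  rw [List.length_map]
  refine (List.length_filter_le _ _).trans ?_
  rw [List.length_zipWith]
  exact min_le_left _ _

/-- the cells of the new objects -/
theorem newsL_cells (x y W : ℕ → ℝ) (c : List (ℝ × ℝ)) (A : List (List ℕ))
    (h : List.Forall₂ (fun (p : ℝ × ℝ) (a : List ℕ) => ∀ n ∈ a, W n = p.1) c A) :
    cellsOf (Multiset.ofList (newsL x y c A)) =
      Multiset.ofList (A.flatten.map (fun n => (W n - x n, y n))) := by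
  induction h with
  | nil => simp [newsL_nil, cellsOf_zero]
  | @cons p a c A hpa _ ih =>
    by_cases ha : a = []
    · subst ha
      rw [newsL_cons_nil, ih]
      simp
    · rw [newsL_cons x y p a ha, ← Multiset.cons_coe, ← Multiset.singleton_add, cellsOf_add, ih,
        cellsOf_single, mkObj_cells x y W p.1 a.reverse (fun n hn => hpa n (by simpa using hn)),
        List.flatten_cons, List.map_append, ← Multiset.coe_add]
      congr 1
      rw [Multiset.coe_eq_coe]
      exact (List.reverse_perm a).map _

/-- the potential bits of the new objects -/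
theorem newsL_pot (x y W : ℕ → ℝ) (c : List (ℝ × ℝ)) (A : List (List ℕ))
    (h : List.Forall₂ (fun (p : ℝ × ℝ) (a : List ℕ) => ∀ n ∈ a, W n = p.1) c A) :
    potOf (Multiset.ofList (newsL x y c A)) =
      (A.map (fun a => Multiset.ofList (potN x W a.reverse))).sum := by
  induction h with
  | nil => simp [newsL_nil, potOf_zero]
  | @cons p a c A hpa _ ih =>
    by_cases ha : a = []
    · subst ha
      rw [newsL_cons_nil, ih]
      simp [potN]
    · rw [newsL_cons x y p a ha, ← Multiset.cons_coe, ← Multiset.singleton_add, potOf_add, ih,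
        potOf_single, mkObj_pot x y W p.1 a.reverse (fun n hn => hpa n (by simpa using hn)),
        List.map_cons, List.sum_cons]

/-- the cells of the objects of the rows -/
theorem rows_cells (x y W : ℕ → ℝ) (τ : ℝ) (rows : List (List ℕ))
    (h : ∀ n ∈ rows.flatten, W n = τ) :
    cellsOf (Multiset.ofList (rows.map (fun a => mkObj x y τ a.reverse))) =
      Multiset.ofList (rows.flatten.map (fun n => (W n - x n, y n))) := by
  induction rows with
  | nil => simp [cellsOf_zero]
  | cons a rows ih =>
    have ih' := ih (fun n hn => h n (by rw [List.flatten_cons]; exact List.mem_append_right _ hn))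
    rw [List.map_cons, ← Multiset.cons_coe, ← Multiset.singleton_add, cellsOf_add, ih',
      cellsOf_single, mkObj_cells x y W τ a.reverse (fun n hn => h n (by
        rw [List.flatten_cons]; exact List.mem_append_left _ (by simpa using hn))),
      List.flatten_cons, List.map_append, ← Multiset.coe_add]
    congr 1
    rw [Multiset.coe_eq_coe]
    exact (List.reverse_perm a).map _

theorem rows_pot (x y W : ℕ → ℝ) (τ : ℝ) (rows : List (List ℕ))
    (h : ∀ n ∈ rows.flatten, W n = τ) :
    potOf (Multiset.ofList (rows.map (fun a => mkObj x y τ a.reverse))) =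
      (rows.map (fun a => Multiset.ofList (potN x W a.reverse))).sum := by
  induction rows with
  | nil => simp [potOf_zero]
  | cons a rows ih =>
    have ih' := ih (fun n hn => h n (by rw [List.flatten_cons]; exact List.mem_append_right _ hn))
    rw [List.map_cons, ← Multiset.cons_coe, ← Multiset.singleton_add, potOf_add, ih',
      potOf_single, mkObj_pot x y W τ a.reverse (fun n hn => h n (by
        rw [List.flatten_cons]; exact List.mem_append_left _ (by simpa using hn))),
      List.map_cons, List.sum_cons]

theorem potN_append (x W : ℕ → ℝ) (l m : List ℕ) :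
    Multiset.ofList (potN x W l) + Multiset.ofList (potN x W m) ≤
      Multiset.ofList (potN x W (l ++ m)) := by
  induction l with
  | nil => simp [potN]
  | cons p l ih =>
    cases l with
    | nil =>
      cases m with
      | nil => simp [potN]
      | cons q m =>
        simp only [List.singleton_append, potN, Multiset.coe_nil, zero_add]
        rw [← Multiset.cons_coe]
        exact Multiset.le_cons_self _ _
    | cons q l =>
      have e : p :: q :: l ++ m = p :: q :: (l ++ m) := rfl
      rw [e]
      simp only [potN]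
      rw [← Multiset.cons_coe, ← Multiset.cons_coe, Multiset.cons_add]
      exact Multiset.cons_le_cons _ ih

theorem potN_flatten (x W : ℕ → ℝ) (C : List (List ℕ)) :
    (C.map (fun a => Multiset.ofList (potN x W a.reverse))).sum ≤
      Multiset.ofList (potN x W C.flatten.reverse) := by
  induction C with
  | nil => simp [potN]
  | cons a C ih =>
    rw [List.map_cons, List.sum_cons, List.flatten_cons, List.reverse_append]
    calc Multiset.ofList (potN x W a.reverse) + (C.map (fun a =>
            Multiset.ofList (potN x W a.reverse))).sum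
        ≤ Multiset.ofList (potN x W a.reverse) + Multiset.ofList (potN x W C.flatten.reverse) :=
          add_le_add le_rfl ih
      _ = Multiset.ofList (potN x W C.flatten.reverse) + Multiset.ofList (potN x W a.reverse) :=
          add_comm _ _
      _ ≤ _ := potN_append x W _ _

/-- consecutive slots with difference `d` -/
theorem potN_chain (x W : ℕ → ℝ) (d : ℕ) (l : List ℕ) (h : l.IsChain (fun n m => m = n + d)) :
    Multiset.ofList (potN x W l) ≤
      Multiset.ofList (l.map (fun n => (x n - x (n + d), W n - x n))) := by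
  induction l with
  | nil => simp [potN]
  | cons n l ih =>
    cases l with
    | nil => simp [potN]
    | cons m l =>
      rw [List.isChain_cons_cons] at h
      obtain ⟨rfl, h2⟩ := h
      simp only [potN]
      rw [List.map_cons, ← Multiset.cons_coe, ← Multiset.cons_coe]
      exact Multiset.cons_le_cons _ (ih h2)

/-- the cells of all objects made in a phase -/
theorem all_cells (x y W : ℕ → ℝ) (κ δ yM τ : ℝ) (Rs : List Res) (Bs rows : List (List ℕ))
    (ns : List ℕ) (hG : ∀ r ∈ Rs, r.Good y κ δ yM W)
    (hns : ns = Bs.flatten ++ rows.flatten)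
    (hB : Multiset.ofList Bs = (Rs.map (fun r => Multiset.ofList r.A)).sum)
    (hrows : ∀ n ∈ rows.flatten, W n = τ) :
    (Rs.map (fun r => cellsOf (Multiset.ofList (r.news x y)))).sum +
      cellsOf (Multiset.ofList (rows.map (fun a => mkObj x y τ a.reverse))) =
      Multiset.ofList (ns.map (fun n => (W n - x n, y n))) := by
  have key : ∀ C : List (List ℕ), Multiset.ofList (C.flatten.map (fun n => (W n - x n, y n))) =
      ((Multiset.ofList C).map (fun a => Multiset.ofList (a.map (fun n => (W n - x n, y n))))).sum := by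
    intro C
    induction C with
    | nil => simp
    | cons a C ih =>
      rw [List.flatten_cons, List.map_append, ← Multiset.coe_add, ih, ← Multiset.cons_coe,
        Multiset.map_cons, Multiset.sum_cons]
  have h1 : (Rs.map (fun r => cellsOf (Multiset.ofList (r.news x y)))).sum =
      Multiset.ofList (Bs.flatten.map (fun n => (W n - x n, y n))) := by
    rw [key, hB]
    clear hB hns
    induction Rs with
    | nil => simp
    | cons r Rs ih =>
      rw [List.map_cons, List.sum_cons, List.map_cons, List.sum_cons, Multiset.map_add,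
        Multiset.sum_add, ih (fun r' hr' => hG r' (by simp [hr'])), ← key]
      congr 1
      rw [Res.news_eq]
      exact newsL_cells x y W r.cells r.A (hG r (by simp)).hW
  rw [h1, rows_cells x y W τ rows hrows, hns, List.map_append, ← Multiset.coe_add]

/-- the potential bits of all objects made in a phase -/
theorem all_pots (x y W : ℕ → ℝ) (κ δ yM τ : ℝ) (Rs : List Res) (Bs rows : List (List ℕ))
    (ns : List ℕ) (hG : ∀ r ∈ Rs, r.Good y κ δ yM W)
    (hns : ns = Bs.flatten ++ rows.flatten)
    (hB : Multiset.ofList Bs = (Rs.map (fun r => Multiset.ofList r.A)).sum)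
    (hrows : ∀ n ∈ rows.flatten, W n = τ) :
    (Rs.map (fun r => potOf (Multiset.ofList (r.news x y)))).sum +
      potOf (Multiset.ofList (rows.map (fun a => mkObj x y τ a.reverse))) ≤
      Multiset.ofList (potN x W ns.reverse) := by
  have h1 : (Rs.map (fun r => potOf (Multiset.ofList (r.news x y)))).sum =
      (Bs.map (fun a => Multiset.ofList (potN x W a.reverse))).sum := by
    have e : (Bs.map (fun a => Multiset.ofList (potN x W a.reverse))).sum =
        ((Multiset.ofList Bs).map (fun a => Multiset.ofList (potN x W a.reverse))).sum := by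
      simp
    rw [e, hB]
    clear hB hns e
    induction Rs with
    | nil => simp
    | cons r Rs ih =>
      rw [List.map_cons, List.sum_cons, List.map_cons, List.sum_cons, Multiset.map_add,
        Multiset.sum_add, ih (fun r' hr' => hG r' (by simp [hr']))]
      congr 1
      rw [Res.news_eq, newsL_pot x y W r.cells r.A (hG r (by simp)).hW]
      simp
  rw [h1, rows_pot x y W τ rows hrows, hns]
  have e2 : (Bs.map (fun a => Multiset.ofList (potN x W a.reverse))).sum +
      (rows.map (fun a => Multiset.ofList (potN x W a.reverse))).sum =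
      ((Bs ++ rows).map (fun a => Multiset.ofList (potN x W a.reverse))).sum := by
    rw [List.map_append, List.sum_append]
  rw [e2, ← List.flatten_append]
  exact potN_flatten x W (Bs ++ rows)

/-- actual bits against potential bits (with the constants of the tail) -/
def BitLe' (b p : ℝ × ℝ) : Prop := b.1 = p.1 ∧ (51 / 50) * b.1 ≤ b.2 ∧ b.2 ≤ (53 / 50) * p.2

/-- potential bits, cells listed from the thickest to the thinnest one -/
noncomputable def potC : List (ℝ × ℝ) → List (ℝ × ℝ)
  | p :: q :: r => (p.1 - q.1, q.1) :: potC (q :: r)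
  | _ => []

theorem potC_snoc (l : List (ℝ × ℝ)) (a b : ℝ × ℝ) :
    potC (l ++ [a] ++ [b]) = potC (l ++ [a]) ++ [(a.1 - b.1, b.1)] := by
  induction l with
  | nil => simp [potC]
  | cons c l ih =>
    cases l with
    | nil => simp [potC]
    | cons d l =>
      simp only [List.cons_append, potC] at ih ⊢
      rw [ih]

theorem potL_reverse (t : ℝ) (run : List (ℝ × ℝ)) :
    (Obj.potL t run).reverse = potC ((run.map (fun p => (t - p.1, p.2))).reverse) := by
  induction run with
  | nil => simp [Obj.potL, potC]
  | cons p run ih =>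
    cases run with
    | nil => simp [Obj.potL, potC]
    | cons q run =>
      simp only [Obj.potL]
      rw [List.reverse_cons, ih]
      simp only [List.map_cons, List.reverse_cons]
      rw [potC_snoc]
      congr 2
      simp only
      congr 1
      ring

/-- **The bits of a service are bounded by the potential bits.** -/
theorem Res.bits_rel {y : ℕ → ℝ} {δ yM : ℝ} {W : ℕ → ℝ} (r : Res)
    (hr : r.Good y (51 / 50) δ yM W)
    (hyM : ∀ p ∈ r.o.run, yM ≤ r.o.t - p.1)
    (hη : ∀ p ∈ r.o.pot, 0 ≤ p.1 ∧ p.1 ≤ p.2 / 20) :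
    Multiset.Rel BitLe' (Multiset.ofList (r.bits y)) (Multiset.ofList r.o.pot) := by
  have h1 : Multiset.ofList r.o.pot = Multiset.ofList (potC r.cells) := by
    unfold Res.cells Obj.cells
    rw [← potL_reverse, Multiset.coe_eq_coe]
    exact (List.reverse_perm _).symm
  rw [h1]
  have hη' : ∀ p ∈ potC r.cells, 0 ≤ p.1 ∧ p.1 ≤ p.2 / 20 := by
    intro p hp
    apply hη
    have : p ∈ Multiset.ofList (potC r.cells) := by simpa using hp
    rw [← h1] at this
    simpa using this
  have hyM' : ∀ c ∈ r.cells, yM ≤ c.1 := by
    intro c hc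
    unfold Res.cells at hc
    rw [List.mem_reverse] at hc
    obtain ⟨q, hq, rfl⟩ := List.mem_map.1
      (show c ∈ r.o.run.map (fun p => (r.o.t - p.1, p.2)) from hc)
    exact hyM q hq
  have key : ∀ (c : List (ℝ × ℝ)) (A : List (List ℕ)) (s e : ℝ),
      BCarry y (51 / 50) δ yM s c A e → (∀ p ∈ potC c, 0 ≤ p.1 ∧ p.1 ≤ p.2 / 20) →
      (∀ p ∈ c, yM ≤ p.1) →
      List.Forall₂ BitLe' (bitsB y s c A) (potC c) := by
    intro c
    induction c with
    | nil => intro A s e _ _ _; simp [bitsB, potC]
    | cons p c ih =>
      intro A s e hC hp hy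
      cases c with
      | nil => rcases A with _ | ⟨a, A⟩ <;> simp [bitsB, potC]
      | cons q c =>
        rcases A with _ | ⟨a, A⟩
        · simp [BCarry] at hC
        · simp only [BCarry] at hC
          obtain ⟨g1, g2, g3⟩ := hC
          simp only [bitsB, potC]
          have hpq := hp (p.1 - q.1, q.1) (by simp [potC])
          simp only at hpq
          refine List.Forall₂.cons ⟨rfl, g1, ?_⟩ (ih A _ e g3
            (fun p' hp' => hp p' (by simp only [potC, List.mem_cons]; exact Or.inr hp'))
            (fun p' hp' => hy p' (by simp [hp'])))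
          simp only
          have := hy q (by simp)
          linarith [hpq.1, hpq.2]
  have := key r.cells r.A 0 r.e hr.carry hη' hyM'
  have conv : ∀ (l m : List (ℝ × ℝ)), List.Forall₂ BitLe' l m →
      Multiset.Rel BitLe' (Multiset.ofList l) (Multiset.ofList m) := by
    intro l m h
    induction h with
    | nil => exact Multiset.Rel.zero
    | cons h _ ih => exact Multiset.Rel.cons h ih
  exact conv _ _ this

/-- the service of a plain piece -/
theorem Res.plain {y : ℕ → ℝ} {κ δ yM : ℝ} {W : ℕ → ℝ} (r : Res) (p : ℝ × ℝ)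
    (ho : r.o = plainObj p) (hr : r.Good y κ δ yM W) :
    ∃ a : List ℕ, r.A = [a] ∧ p.2 = (a.map y).sum + r.e ∧ δ ≤ r.e ∧ r.e ≤ δ + yM ∧
      (∀ n ∈ a, W n = p.1) ∧ r.bits y = [] ∧ r.tau = p.1 ∧ a.Pairwise (· > ·) ∧
      (δ + yM < p.2 → a ≠ []) := by
  have hc : r.cells = [p] := by
    unfold Res.cells
    rw [ho, plainObj_cells]
    rfl
  have h1 := hr.carry
  have h2 := hr.hW
  have h3 := hr.hdec
  rw [hc] at h1 h2
  obtain ⟨a, hA⟩ : ∃ a, r.A = [a] := by
    have := h2.length_eq
    rw [List.length_singleton] at this
    exact List.length_eq_one_iff.1 this.symm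
  rw [hA] at h1 h2 h3
  simp only [BCarry, zero_add] at h1
  refine ⟨a, hA, h1.1, h1.2.1, h1.2.2, ?_, ?_, ?_, h3 a (by simp), ?_⟩
  · simpa using h2
  · unfold Res.bits
    rw [hc, hA]
    simp [bitsB]
  · unfold Res.tau
    rw [ho, plainObj_cells]
    rfl
  · rintro hlt rfl
    simp only [List.map_nil, List.sum_nil, zero_add] at h1
    linarith [h1.1, h1.2.2]

theorem Res.news_length (x y : ℕ → ℝ) (r : Res) : (r.news x y).length ≤ r.o.run.length := by
  rw [Res.news_eq]
  refine (newsL_length x y r.cells r.A).trans ?_
  unfold Res.cells Obj.cells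
  simp

end Pool.Agent.MM2
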