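import Mathlib

/-!
# The potential of the end pieces (block ENDS)

An E piece is a plain rectangle of thickness `r` and length `l`.  It is served by units `y ≤ r ≤ (1 + u) y` placed along its
length; the end `e × r` is cut into `x e × r` and `(1 - x) e × r`, `1/4 ≤ x ≤ 12/25`.
-/

namespace Pool.Agent.MM2

/-- potential of an E piece of thickness `r` and length `l` -/
noncomputable def EV (r l : ℝ) : ℝ := if (101 / 50) * r ≤ l then l + (2 / 5) * r else l + (6 / 5) * r

theorem EV_le (r l : ℝ) (hr : 0 ≤ r) : EV r l ≤ l + (6 / 5) * r := by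
  unfold EV; split_ifs <;> linarith

theorem le_EV (r l : ℝ) (hr : 0 ≤ r) : l + (2 / 5) * r ≤ EV r l := by
  unfold EV; split_ifs <;> linarith

theorem EV_nonneg (r l : ℝ) (hr : 0 ≤ r) (hl : 0 ≤ l) : 0 ≤ EV r l := by
  have := le_EV r l hr; linarith

theorem EV_thin (r l : ℝ) (h : (101 / 50) * r ≤ l) : EV r l = l + (2 / 5) * r := by
  unfold EV; rw [if_pos h]

/-- the two halves of an end `e × τ` -/
theorem EV_split (τ e r1 : ℝ) (he : 0 ≤ e) (heτ : e ≤ (101 / 100) * τ) (h1 : e / 4 ≤ r1)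
    (h2 : r1 ≤ (12 / 25) * e) : EV r1 τ + EV (e - r1) τ ≤ 2 * τ + e := by
  have hτ : 0 ≤ τ := by linarith
  have hthin : (101 / 50) * r1 ≤ τ := by nlinarith
  rw [EV_thin r1 τ hthin]
  have h3 := EV_le (e - r1) τ (by linarith)
  linarith

theorem EV_split' (τ e r1 : ℝ) (he : 0 ≤ e) (heτ : e ≤ (101 / 100) * τ) (h1 : e / 4 ≤ r1)
    (h2 : r1 ≤ (12 / 25) * e) : EV r1 τ + EV (e - r1) τ ≤ (301 / 100) * τ := by
  have := EV_split τ e r1 he heτ h1 h2
  linarith

/-- lower bounds for the total length of the units placed in an E piece -/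
theorem units_ge_one (r u l e : ℝ) (us : List ℕ) (y : ℕ → ℝ) (hr : 0 < r)
    (hus : ∀ n ∈ us, 0 ≤ y n ∧ r ≤ (1 + u) * y n) (hl : l = (us.map y).sum + e)
    (he : e ≤ (101 / 100) * r) (hA : (13 / 10) * r ≤ l) (hu : 0 ≤ u) : r ≤ (1 + u) * (us.map y).sum := by
  cases us with
  | nil => simp at hl; nlinarith
  | cons n us =>
    have h0 := hus n (by simp)
    have h1 : 0 ≤ (us.map y).sum := by
      apply List.sum_nonneg
      intro z hz
      obtain ⟨m, hm, rfl⟩ := List.mem_map.1 hz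
      exact (hus m (by simp [hm])).1
    simp only [List.map_cons, List.sum_cons]
    nlinarith

theorem units_ge_two (r u l e : ℝ) (us : List ℕ) (y : ℕ → ℝ) (hr : 0 < r)
    (hus : ∀ n ∈ us, 0 ≤ y n ∧ y n ≤ r ∧ r ≤ (1 + u) * y n) (hl : l = (us.map y).sum + e)
    (he : e ≤ (101 / 100) * r) (hA : (101 / 50) * r ≤ l) (hu : 0 ≤ u) : 2 * r ≤ (1 + u) * (us.map y).sum := by
  match us with
  | [] => simp at hl; nlinarith
  | [n] =>
    have h0 := hus n (by simp)
    simp at hl
    nlinarith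
  | n :: m :: us =>
    have h0 := hus n (by simp)
    have h0' := hus m (by simp)
    have h1 : 0 ≤ (us.map y).sum := by
      apply List.sum_nonneg
      intro z hz
      obtain ⟨k, hk, rfl⟩ := List.mem_map.1 hz
      exact (hus k (by simp [hk])).1
    simp only [List.map_cons, List.sum_cons]
    nlinarith

/-- **Service of an E piece** lowers the potential by a fixed multiple of the length of the units. -/
theorem EV_service (r u l e r1 : ℝ) (us : List ℕ) (y : ℕ → ℝ) (hr : 0 < r) (hu : 0 ≤ u)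
    (hus : ∀ n ∈ us, 0 ≤ y n ∧ y n ≤ r ∧ r ≤ (1 + u) * y n) (hl : l = (us.map y).sum + e)
    (he0 : 0 ≤ e) (he : e ≤ (101 / 100) * r) (hA : (13 / 10) * r ≤ l)
    (h1 : e / 4 ≤ r1) (h2 : r1 ≤ (12 / 25) * e) :
    EV r1 r + EV (e - r1) r + (1 / 5 - (4 / 5) * u) * (us.map y).sum ≤ EV r l := by
  have hs := EV_split r e r1 he0 he h1 h2
  by_cases hA2 : (101 / 50) * r ≤ l
  · have h3 := units_ge_two r u l e us y hr hus hl he hA2 hu
    rw [EV_thin r l hA2, hl]
    nlinarith
  · have h3 := units_ge_one r u l e us y hr (fun n hn => ⟨(hus n hn).1, (hus n hn).2.2⟩) hl he hA hu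
    have h4 : EV r l = l + (6 / 5) * r := by unfold EV; rw [if_neg hA2]
    rw [h4, hl]
    nlinarith

end Pool.Agent.MM2
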