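import Pool.Agent.MP_94f265_co.MM2.State
import Pool.Agent.MP_94f265_co.MM2.EndsV

/-!
# The tail: invariants, potential, start, step  (state, phase data, next state: `State.lean`)
-/

namespace Pool.Agent.MM2

open Pool.Agent.MM1

/-- the free area, without the owed pieces -/
noncomputable def TState.net (s : TState) : ℝ :=
  area (cellsOf s.QR) + area (cellsOf s.QE) + area s.E + area s.P + s.X * s.Y

/-- the units of a finite set of slots -/
noncomputable def unitsT (A : Finset ℕ) : Multiset (ℝ × ℝ) := A.val.map (fun n => (xu n, yu n))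

/-- area of the units not used before phase `i` -/
noncomputable def rem (i : ℕ) : ℝ := 1 / (NN : ℝ) - ∑ j ∈ Finset.Ico j0 i, ∑ n ∈ PP j, xu n * yu n

/-- the classes touched by an object -/
noncomputable def touched (o : Obj) : Finset ℕ := (o.cells.map (fun c => kc c.1)).toFinset

/-- the price of an end in class `K` -/
noncomputable def wK (K : ℕ) : ℝ := (301 / 100) * Th (K - 1)

/-- The potential. -/
noncomputable def Psi (QR QE : Multiset Obj) (E : Multiset (ℝ × ℝ)) : ℝ :=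
  (E.map (fun p => EV p.1 p.2)).sum +
  ((cellsOf QE).map (fun c => wK (kc c.1))).sum +
  (QR.map (fun o => ∑ K ∈ touched o, wK K)).sum +
  ((cellsOf (QR + QE)).map (fun c => mK (kc c.1))).sum +
  ((potOf (QR + QE)).map (fun p => wK (kc p.1) + mK (kc p.1))).sum

/-- the first class touched by the slivers of phase `i` -/
noncomputable def k1 (i : ℕ) : ℕ := kc (gmax i)

/-- bound for the number of rows of phase `i` plus one -/
noncomputable def rowsB (i : ℕ) : ℝ := (101 / 100) * (3 / (i : ℝ)) / (134 / 1000) * Real.sqrt (Nj i) + 3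

/-- increase of the potential in phase `i` -/
noncomputable def dPsi (i : ℕ) : ℝ :=
  (∑ K ∈ Finset.Icc (k1 i) (kc (gmin i)), wK K) +
  rowsB i * ((301 / 100) * Th (i - 1) + mK i) +
  ((PP i).card : ℝ) * (mK (k1 i) + 50 / (Nj i) ^ 2)

/-- Invariants before phase `i`; `θ` is the least thickness of a cell of the start. -/
structure Inv (θ : ℝ) (i : ℕ) (s : TState) : Prop where
  sinv : SInv i s
  obj : ∀ o ∈ s.QR + s.QE, OInv (Th (max i i0 - 1)) o
  epc : ∀ p ∈ s.E, EInv (Th (max i i0 - 1)) p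
  pend : ∀ p ∈ s.P, p.2 ^ 2 ≤ 1 / Nj (i - 1)
  load : ∀ K, max i i0 ≤ K → lenK K (cellsOf (s.QR + s.QE)) + (53 / 50) * lenK K (potOf (s.QR + s.QE)) ≤
    betaK K * (3 / K) + ∑ j ∈ Finset.Ico j0 i, (cL j K + cP j K)
  eload : ∀ K, 1 ≤ K → lenK K s.E ≤ rho * (3 / K)
  psi : Psi s.QR s.QE s.E ≤ 61 / 10000 + ∑ j ∈ Finset.Ico j0 i, dPsi j
  net : s.net = rem i
  gap : ∀ o ∈ s.QR + s.QE, ∀ p ∈ o.run, 0 < p.1 → θ ≤ o.t - p.1 ∨ p.1 ^ 2 ≤ o.t - p.1

/-- The start state, see MM_INTERFACE.md. -/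
structure StartOK (Q : Multiset Obj) (X Y : ℝ) : Prop where
  obj : ∀ o ∈ Q, OInv (Th (i0 - 1)) o
  load : ∀ K, i0 ≤ K → lenK K (cellsOf Q) + (53 / 50) * lenK K (potOf Q) ≤ betaK K * (3 / K)
  psi0 : (301 / 100) * (Q.map (fun o => ∑ K ∈ touched o, Th (K - 1))).sum +
    (302 / 100) * ((cellsOf Q).map (fun c => (52 / (kc c.1 : ℝ)) * Th (kc c.1 - 1))).sum +
    (16 / 5) * ((potOf Q).map (fun p => Th (kc p.1 - 1))).sum ≤ 61 / 10000
  potk : ∀ p ∈ potOf Q, i0 ≤ kc p.1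
  box : 0 < X ∧ X ≤ Y ∧ Y ≤ 2 * X ∧ (1 / 20) / (NN : ℝ) ≤ X * Y
  geo : ∃ (P0 : Multiset (ℝ × ℝ)) (LS : Multiset (Finset ℕ)),
    Cut {(1, 1)} (P0 + rects Q + {(X, Y)}) ∧
    Multiset.Rel (fun p S => Cut {p} (S.val.map (fun k : ℕ => (1 / (k : ℝ), 1 / ((k : ℝ) + 1)))))
      (P0 + owedR Q) LS ∧
    (LS.map Finset.val).sum = (Finset.Ico 1 NN).val

/-- One phase. -/
def TStep (i : ℕ) (s t : TState) (e : Multiset (ℝ × ℝ)) : Prop :=
  Cut s.free (e + t.free) ∧ owedR (s.QR + s.QE) + unitsT (PP i) = e + owedR (t.QR + t.QE)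

/-- The full packing. -/
def FullPacking : Prop := ∃ R : ℕ → PR,
  (∀ n, 1 ≤ n → (R n).Has (1 / (n : ℝ), 1 / ((n : ℝ) + 1)) ∧ (R n).Sub ⟨0, 0, 1, 1⟩) ∧
  (∀ n m, 1 ≤ n → 1 ≤ m → n ≠ m → (R n).Sep (R m))

end Pool.Agent.MM2
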