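import Pool.Agent.MP_94f265_co.MM2.CountP
import Pool.Agent.MP_94f265_co.MM2.PhaseCor
import Pool.Agent.MP_94f265_co.MM2.TDefs

/-!
# The count lemma in the form in which the step of the tail needs it
-/

namespace Pool.Agent.MM2

/-- more strips, more length -/
theorem lenK_mono {K : ℕ} {S T : Multiset (ℝ × ℝ)} (h : S ≤ T) (hT : ∀ p ∈ T, 0 ≤ p.2) :
    lenK K S ≤ lenK K T := by
  classical
  obtain ⟨U, rfl⟩ := Multiset.le_iff_exists_add.1 h
  unfold lenK lenIn
  rw [Multiset.filter_add, Multiset.map_add, Multiset.sum_add]
  have : 0 ≤ ((U.filter (fun p => Th K ≤ p.1 ∧ p.1 < Th (K - 1))).map Prod.snd).sum := by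
    apply Multiset.sum_nonneg
    intro x hx
    obtain ⟨p, hp, rfl⟩ := Multiset.mem_map.1 hx
    exact hT p (Multiset.mem_add.2 (Or.inr (Multiset.mem_filter.1 hp).1))
  linarith

variable {j : ℕ} {W : ℕ → ℝ}

/-- all new cells of the phase `j` -/
theorem lenK_new_cells {ns : List ℕ} (hns : Multiset.ofList ns = (PP j).val)
    (hW : ∀ n ∈ ns, Th j ≤ W n ∧ W n ≤ Th (j - 1))
    (hmono : ∀ n ∈ ns, ∀ m ∈ ns, n ≤ m → W n ≤ W m) {K : ℕ} (hK : 2 ≤ K) :
    lenK K (Multiset.ofList (ns.map (fun n => (W n - xu n, yu n)))) ≤ cL j K := by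
  have mem : ∀ n, n ∈ PP j ↔ n ∈ ns := by
    intro n
    rw [← Finset.mem_val, ← hns, Multiset.mem_coe]
  have h := lenK_cells_le (j := j) (W := W) (fun n hn => hW n ((mem n).1 hn))
    (fun n hn m hm => hmono n ((mem n).1 hn) m ((mem m).1 hm)) hK (PP j) (Finset.Subset.refl _)
  rw [← hns, Multiset.map_coe] at h
  exact h

/-- all new potential bits of the phase `j` -/
theorem lenK_new_pots (hj : 2 ≤ j) {ns : List ℕ} (hns : Multiset.ofList ns = (PP j).val)
    (hsort : ns.Pairwise (· > ·))
    (hW : ∀ n ∈ ns, Th j ≤ W n ∧ W n ≤ Th (j - 1)) {K : ℕ}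
    (P : Multiset (ℝ × ℝ)) (hP : P ≤ Multiset.ofList (potN xu W ns.reverse)) :
    53 / 50 * lenK K P ≤ cP j K := by
  have mem : ∀ n, n ∈ PP j ↔ n ∈ ns := by
    intro n
    rw [← Finset.mem_val, ← hns, Multiset.mem_coe]
  -- consecutive members differ by 16
  have hchain : ns.reverse.IsChain (fun n m => m = n + 16) := by
    have h1 : ns.reverse.Pairwise (· < ·) := by
      rw [List.pairwise_reverse]; exact hsort
    have hall : ∀ n, NN ≤ n → n % 16 = j % 16 → 75 * j ^ 3 ≤ 1024 * n →
        1024 * n < 75 * (j + 16) ^ 3 → n ∈ ns.reverse := by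
      intro n a b c d
      rw [List.mem_reverse, ← mem]
      exact mem_PP.2 ⟨a, b, c, d⟩
    have hsub : ∀ n ∈ ns.reverse, n ∈ PP j := by
      intro n hn
      rw [List.mem_reverse] at hn
      exact (mem n).2 hn
    -- general fact by induction on suffixes
    have gen : ∀ l : List ℕ, l.Pairwise (· < ·) → (∀ n ∈ l, n ∈ PP j) →
        (∀ n ∈ PP j, (∃ m ∈ l, m ≤ n) → n ∈ l) → l.IsChain (fun n m => m = n + 16) := by
      intro l
      induction l with
      | nil => intro _ _ _; exact List.isChain_nil
      | cons a l ih =>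
        intro hp hm hc
        cases l with
        | nil => exact List.isChain_singleton _
        | cons b l =>
          rw [List.isChain_cons_cons]
          rw [List.pairwise_cons] at hp
          have hab : a < b := hp.1 b (by simp)
          have ha := hm a (by simp)
          have hb := hm b (by simp)
          have hgap := PP_gap ha hb hab
          constructor
          · by_contra hne
            have h16 : a + 16 ∈ PP j := by
              obtain ⟨a1, a2, a3, a4⟩ := mem_PP.1 ha
              obtain ⟨b1, b2, b3, b4⟩ := mem_PP.1 hb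
              exact mem_PP.2 ⟨by omega, by omega, by omega, by omega⟩
            have h17 := hc (a + 16) h16 ⟨a, by simp, by omega⟩
            rcases List.mem_cons.1 h17 with h18 | h18
            · omega
            · rcases List.mem_cons.1 h18 with h19 | h19
              · omega
              · have h20 := (List.pairwise_cons.1 hp.2).1 (a + 16) h19
                omega
          · apply ih hp.2 (fun n hn => hm n (List.mem_cons_of_mem _ hn))
            rintro n hn ⟨m, hm1, hm2⟩
            have h21 := hc n hn ⟨m, List.mem_cons_of_mem _ hm1, hm2⟩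
            rcases List.mem_cons.1 h21 with h22 | h22
            · exfalso
              have : a < m := hp.1 m hm1
              omega
            · exact h22
    exact gen ns.reverse h1 hsub (fun n hn _ => by rw [List.mem_reverse]; exact (mem n).1 hn)
  have hle : P ≤ Multiset.ofList (ns.reverse.map (fun n => (xu n - xu (n + 16), W n - xu n))) :=
    hP.trans (potN_chain xu W 16 ns.reverse hchain)
  have h := lenK_pots_le (j := j) (W := W) hj (fun n hn => hW n ((mem n).1 hn)) (K := K) (PP j)
    (Finset.Subset.refl _)
  have e : Multiset.ofList (ns.reverse.map (fun n => (xu n - xu (n + 16), W n - xu n))) =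
      (PP j).val.map (fun n => (xu n - xu (n + 16), W n - xu n)) := by
    rw [← hns, Multiset.map_coe, Multiset.coe_eq_coe]
    exact (List.reverse_perm ns).map _
  rw [e] at hle
  have h2 := lenK_mono (K := K) hle (by
    intro p hp
    obtain ⟨n, hn, rfl⟩ := Multiset.mem_map.1 hp
    have hn' : n ∈ PP j := hn
    have h3 := (hW n ((mem n).1 hn')).1
    have h4 := PP_ge hn'
    have h5 : 0 ≤ W n - xu n := by
      have h6 : xu n ≤ Th j := by
        unfold xu
        have h7 : (TT (j : ℝ)) ≤ n := (mem_PP_real hn').1
        have h8 : TT ((j : ℝ) - 1 / 5) ≤ TT (j : ℝ) := by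
          apply TT_mono
          · have : (2 : ℝ) ≤ j := by exact_mod_cast hj
            linarith
          · linarith
        rw [Th_eq]
        apply one_div_le_one_div_of_le
        · apply TT_pos
          have : (2 : ℝ) ≤ j := by exact_mod_cast hj
          linarith
        · linarith
      linarith
    exact h5)
  linarith

/-- bits: the form of the table of numbers -/
theorem sum_cP_range {K : ℕ} (hK : 2 ≤ K) (i : ℕ) :
    ∑ j ∈ Finset.Ico j0 i, cP j K ≤ (if K < 425000 then 0 else 37 / 2000) * (3 / K) := by
  split_ifs with h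
  · rw [Finset.sum_eq_zero (fun j _ => cP_zero h (by omega) j), zero_mul]
  · exact sum_cP_fin hK _ (fun j hj => by
      have := (Finset.mem_Ico.1 hj).1
      unfold j0 at this
      exact this)

end Pool.Agent.MM2
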