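import Pool.Agent.MP_94f265_co.MM2.NumL
import Pool.Agent.MP_94f265_co.MM2.TDefs

/-!
# Numbers of the tail (block NUM): the rows fit in the box (C4), final forms of L6, L8
-/

namespace Pool.Agent.MM2

/-- L6: size of the gap -/
theorem slot_gap (i : ℕ) (hi : j0 ≤ i) (n : ℕ) (hn : n ∈ PP i) :
    gmax i ≤ (345 / 10000) * yu n ∧ Th (i - 1) ≤ (1 + 345 / 10000) * yu n ∧ 0 < yu n ∧ yu n ≤ yM i ∧
      xu n < Th i ∧ yM i < Th i ∧ Th (i - 1) ≤ (104 / 100) * yM i := Num.gap_le' i hi n hn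

/-- L8: price of the last class of a block -/
theorem last_class (i : ℕ) (hi : j0 ≤ i) (t : ℝ) (h1 : gmin i ≤ t) (h2 : t ≤ gmax i) :
    (301 / 100) * Th (kc t - 1) ≤ mK i ∧ (301 / 100) * Th (kc t - 1) ≤ (302 / 100) * t ∧ i0 ≤ kc t ∧
      k1 i ≤ kc t ∧ kc t ≤ kc (gmin i) ∧ mK (kc t) ≤ mK (k1 i) := Num.last_class i hi t h1 h2

theorem Num.Th_yM (i : ℕ) (hi : 1585 ≤ i) : Th i * Nj i ≤ 1035 / 1000 := by
  have h1 : (1585 : ℝ) ≤ i := by exact_mod_cast hi
  have hq : 0 < 5 * (i : ℝ) - 1 := by linarith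
  unfold Nj
  rcases le_total (TT (i : ℝ)) (NN : ℝ) with h | h
  · rw [max_eq_right h]
    have e : (NN : ℝ) = 300000000 := by norm_num [NN]
    unfold Th
    rw [e, div_mul_eq_mul_div, div_le_iff₀ (by positivity)]
    have : (7924 : ℝ) ^ 3 ≤ (5 * (i : ℝ) - 1) ^ 3 := pow_le_pow_left₀ (by norm_num) (by linarith) 3
    norm_num at this ⊢
    linarith
  · rw [max_eq_left h]
    unfold Th TT
    have e : 5120 / (3 * (5 * (i : ℝ) - 1) ^ 3) * (75 * (i : ℝ) ^ 3 / 1024) = (5 * (i : ℝ)) ^ 3 / (5 * (i : ℝ) - 1) ^ 3 := by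
      rw [mul_pow]
      field_simp
      norm_num
    rw [e, div_le_iff₀ (by positivity)]
    have h3 : 5 * (i : ℝ) ≤ (7925 / 7924) * (5 * (i : ℝ) - 1) := by linarith
    have h4 := pow_le_pow_left₀ (by linarith) h3 3
    rw [mul_pow] at h4
    have h5 : ((7925 / 7924 : ℝ)) ^ 3 ≤ 1035 / 1000 := by norm_num
    have h6 : ((7925 / 7924 : ℝ)) ^ 3 * (5 * (i : ℝ) - 1) ^ 3 ≤ (1035 / 1000) * (5 * (i : ℝ) - 1) ^ 3 :=
      mul_le_mul_of_nonneg_right h5 (by positivity)
    linarith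

/-- C4 from C1 -/
theorem Num.rows_fit (i : ℕ) (hi : j0 ≤ i) (S : ℝ) (hS0 : 0 ≤ S) (hS : S ≤ (1005 / 1000) * (3 / (i : ℝ)))
    (X Y : ℝ) (hX : 0 < X) (_hXY : X ≤ Y) (hYX : Y ≤ 2 * X)
    (hA : (9 / 250) / Nj i ≤ X * Y) :
    0 < X - del i - yM i ∧ (S / (X - del i - yM i) + 1) * Th i ≤ X / 4 ∧
      S / (X - del i - yM i) + 2 ≤ rowsB i := by
  have hi' : 1585 ≤ i := hi
  have h1 : (1585 : ℝ) ≤ i := by exact_mod_cast hi'
  have hN3 := NN_le_Nj i
  have hN := Nj_pos i
  have hTN := Num.Th_yM i hi'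
  have hTh0 : 0 < Th i := Th_pos (by omega)
  unfold rowsB
  set s := Real.sqrt (Nj i) with hs
  have hs2 : s ^ 2 = Nj i := Real.sq_sqrt hN.le
  have hs0 : (17320 : ℝ) ≤ s := by
    apply Real.le_sqrt_of_sq_le
    norm_num
    linarith
  have hsp : 0 < s := by linarith
  have hdel : del i + yM i ≤ (101 / 100) / Nj i := by
    unfold del yM
    have : 1 / (Nj i + 1) ≤ 1 / Nj i := one_div_le_one_div_of_le hN (by linarith)
    have e : (101 / 100) / Nj i = (101 / 100) * (1 / Nj i) := by ring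
    rw [e]
    linarith
  -- X s ≥ .13416
  have hXs : (13416 / 100000 : ℝ) ≤ X * s := by
    have h3 : (9 / 250) / Nj i ≤ 2 * X ^ 2 := by nlinarith
    rw [div_le_iff₀ hN] at h3
    have h4 : (13416 / 100000 : ℝ) ^ 2 ≤ (X * s) ^ 2 := by
      rw [mul_pow, hs2]
      norm_num
      linarith
    exact le_of_sq_le_sq h4 (by positivity)
  have hX2 : (1341 / 10000) / s ≤ X - del i - yM i := by
    have h5 : (101 / 100) / Nj i ≤ (6 / 100000) / s := by
      rw [← hs2, div_le_div_iff₀ (by positivity) hsp]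
      nlinarith
    have h6 : (13416 / 100000) / s ≤ X := by
      rw [div_le_iff₀ hsp]; exact hXs
    have h7 : (1341 / 10000) / s + (6 / 100000) / s = (13416 / 100000) / s := by ring
    linarith
  set X' := X - del i - yM i with hX'
  have hXp : 0 < X' := lt_of_lt_of_le (by positivity) hX2
  have hq : S / X' ≤ (1005 / 1000) * (3 / (i : ℝ)) / (1341 / 10000) * s := by
    have h8 : S / X' ≤ ((1005 / 1000) * (3 / (i : ℝ))) / ((1341 / 10000) / s) :=
      div_le_div₀ (by positivity) hS (by positivity) hX2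
    have e : ((1005 / 1000) * (3 / (i : ℝ))) / ((1341 / 10000) / s) = (1005 / 1000) * (3 / (i : ℝ)) / (1341 / 10000) * s := by
      field_simp
    rw [e] at h8
    exact h8
  refine ⟨hXp, ?_, ?_⟩
  · have h9 : (13416 / 100000) / s / 4 ≤ X / 4 := by
      have h6 : (13416 / 100000) / s ≤ X := by
        rw [div_le_iff₀ hsp]; exact hXs
      linarith
    refine le_trans ?_ h9
    have h10 : (3 : ℝ) / i ≤ 3 / 1585 := div_le_div_of_nonneg_left (by norm_num) (by norm_num) h1
    have h11 : (1005 / 1000) * (3 / (i : ℝ)) / (1341 / 10000) * s ≤ (1005 / 1000) * (3 / 1585) / (1341 / 10000) * s := by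
      apply mul_le_mul_of_nonneg_right _ hsp.le
      apply div_le_div_of_nonneg_right _ (by norm_num)
      exact mul_le_mul_of_nonneg_left h10 (by norm_num)
    have h12 : (S / X' + 1) * Th i ≤ ((1005 / 1000) * (3 / 1585) / (1341 / 10000) * s + 1) * Th i := by
      apply mul_le_mul_of_nonneg_right _ hTh0.le
      linarith
    refine h12.trans ?_
    have h13 : Th i ≤ (1035 / 1000) / s ^ 2 := by
      rw [hs2, le_div_iff₀ hN]; exact hTN
    have h14 : ((1005 / 1000) * (3 / 1585) / (1341 / 10000) * s + 1) * Th i ≤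
        ((1005 / 1000) * (3 / 1585) / (1341 / 10000) * s + 1) * ((1035 / 1000) / s ^ 2) :=
      mul_le_mul_of_nonneg_left h13 (by positivity)
    refine h14.trans ?_
    have h15 : ((1005 / 1000) * (3 / 1585) / (1341 / 10000) * s + 1) ≤ (15 / 1000) * s := by
      have : (1005 / 1000) * (3 / 1585) / (1341 / 10000) * s ≤ (145 / 10000) * s := by
        apply mul_le_mul_of_nonneg_right _ hsp.le
        norm_num
      linarith
    calc ((1005 / 1000) * (3 / 1585) / (1341 / 10000) * s + 1) * ((1035 / 1000) / s ^ 2)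
        ≤ ((15 / 1000) * s) * ((1035 / 1000) / s ^ 2) := mul_le_mul_of_nonneg_right h15 (by positivity)
      _ = (15 / 1000 * (1035 / 1000)) / s := by field_simp
      _ ≤ (13416 / 100000 / 4) / s := by
          apply div_le_div_of_nonneg_right _ hsp.le
          norm_num
      _ = _ := by ring
  · have h16 : (1005 / 1000) * (3 / (i : ℝ)) / (1341 / 10000) * s ≤ (101 / 100) * (3 / (i : ℝ)) / (134 / 1000) * s := by
      apply mul_le_mul_of_nonneg_right _ hsp.le
      have e1 : (1005 / 1000) * (3 / (i : ℝ)) / (1341 / 10000) = ((1005 / 1000) / (1341 / 10000)) * (3 / (i : ℝ)) := by ring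
      have e2 : (101 / 100) * (3 / (i : ℝ)) / (134 / 1000) = ((101 / 100) / (134 / 1000)) * (3 / (i : ℝ)) := by ring
      rw [e1, e2]
      apply mul_le_mul_of_nonneg_right _ (by positivity)
      norm_num
    linarith

end Pool.Agent.MM2
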