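import Pool.Agent.MP_94f265_co.MM2.NumL
import Pool.Agent.MP_94f265_co.MM2.TDefs

/-!
# Numbers of the tail (block NUM): the potential (P1)
-/

namespace Pool.Agent.MM2.Num

/-- telescoping for `x ^ (-5/2)` -/
theorem inv52 (x : ℝ) (hx : 2 ≤ x) : 1 / (x ^ 2 * Real.sqrt x) ≤
    2 / 3 * (1 / ((x - 1) * Real.sqrt (x - 1)) - 1 / (x * Real.sqrt x)) := by
  set p := Real.sqrt (x - 1) with hp
  set q := Real.sqrt x with hq
  have hp2 : p ^ 2 = x - 1 := Real.sq_sqrt (by linarith)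
  have hq2 : q ^ 2 = x := Real.sq_sqrt (by linarith)
  have hp0 : 0 < p := Real.sqrt_pos.2 (by linarith)
  have hq0 : 0 < q := Real.sqrt_pos.2 (by linarith)
  have hpq : p ≤ q := Real.sqrt_le_sqrt (by linarith)
  rw [← hp2, ← hq2]
  have e1 : 2 / 3 * (1 / (p ^ 2 * p) - 1 / (q ^ 2 * q)) = (2 * (q ^ 3 - p ^ 3)) / (3 * p ^ 3 * q ^ 3) := by
    field_simp
  rw [e1, div_le_div_iff₀ (by positivity) (by positivity)]
  have h1 : (q - p) * (q + p) = 1 := by nlinarith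
  have h2 : 3 * p ^ 3 * (q + p) ≤ 2 * q ^ 2 * (q ^ 2 + q * p + p ^ 2) := by
    have a1 : p ^ 3 ≤ q ^ 3 := pow_le_pow_left₀ hp0.le hpq 3
    have a2 : p ^ 2 ≤ q ^ 2 := pow_le_pow_left₀ hp0.le hpq 2
    have b1 : 2 * p ^ 3 * q ≤ 2 * q ^ 3 * q := by nlinarith
    have b2 : p ^ 3 * q ≤ q ^ 3 * p := by
      have : p ^ 2 * (p * q) ≤ q ^ 2 * (p * q) := mul_le_mul_of_nonneg_right a2 (by positivity)
      nlinarith
    have b3 : p ^ 4 ≤ q ^ 3 * p := by nlinarith
    have b4 : 2 * p ^ 4 ≤ 2 * q ^ 2 * p ^ 2 := by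
      have : p ^ 2 * p ^ 2 ≤ q ^ 2 * p ^ 2 := mul_le_mul_of_nonneg_right a2 (by positivity)
      nlinarith
    nlinarith
  have h3 : 3 * p ^ 3 ≤ 2 * q ^ 2 * (q ^ 3 - p ^ 3) := by
    have h4 : (3 * p ^ 3) * ((q - p) * (q + p)) ≤ (2 * q ^ 2 * (q ^ 2 + q * p + p ^ 2)) * (q - p) := by
      have := mul_le_mul_of_nonneg_right h2 (by linarith : 0 ≤ q - p)
      linarith
    rw [h1, mul_one] at h4
    have e : (2 * q ^ 2 * (q ^ 2 + q * p + p ^ 2)) * (q - p) = 2 * q ^ 2 * (q ^ 3 - p ^ 3) := by ring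
    linarith
  calc 1 * (3 * p ^ 3 * q ^ 3) = (3 * p ^ 3) * q ^ 3 := by ring
    _ ≤ (2 * q ^ 2 * (q ^ 3 - p ^ 3)) * q ^ 3 := mul_le_mul_of_nonneg_right h3 (by positivity)
    _ = 2 * (q ^ 3 - p ^ 3) * ((q ^ 2) ^ 2 * q) := by ring

theorem sum52 (M : ℕ) : ∑ i ∈ Finset.Ico 1585 M, 1 / ((i : ℝ) ^ 2 * Real.sqrt i) ≤ 10576 / 1000000000 := by
  have hgen : ∀ m : ℕ, ∑ i ∈ Finset.Ico 1585 (1585 + m), 1 / ((i : ℝ) ^ 2 * Real.sqrt i) ≤
      2 / 3 * (1 / ((1584 : ℝ) * Real.sqrt 1584) - 1 / (((1584 : ℝ) + m) * Real.sqrt (1584 + m))) := by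
    intro m
    induction m with
    | zero => simp
    | succ m ih =>
      rw [← Nat.add_assoc, Finset.sum_Ico_succ_top (by omega)]
      have h := inv52 ((1585 : ℝ) + m) (by have : (0:ℝ) ≤ m := Nat.cast_nonneg m
                                           linarith)
      have e : (1585 : ℝ) + m - 1 = 1584 + m := by ring
      rw [e] at h
      push_cast
      have e2 : (1584 : ℝ) + (m + 1) = 1585 + m := by ring
      rw [e2]
      linarith
  have h1584 : (39799 : ℝ) / 1000 ≤ Real.sqrt 1584 := by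
    apply Real.le_sqrt_of_sq_le
    norm_num
  have hfin : 2 / 3 * (1 / ((1584 : ℝ) * Real.sqrt 1584)) ≤ 10576 / 1000000000 := by
    have : 1 / ((1584 : ℝ) * Real.sqrt 1584) ≤ 1 / (1584 * (39799 / 1000)) :=
      one_div_le_one_div_of_le (by norm_num) (by linarith)
    have h2 : (2 : ℝ) / 3 * (1 / (1584 * (39799 / 1000))) ≤ 10576 / 1000000000 := by norm_num
    linarith
  rcases le_total M 1585 with h | h
  · rw [Finset.Ico_eq_empty_of_le h, Finset.sum_empty]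
    norm_num
  · obtain ⟨m, rfl⟩ := Nat.exists_eq_add_of_le h
    have := hgen m
    have h0 : 0 ≤ 1 / (((1584 : ℝ) + m) * Real.sqrt (1584 + m)) := by positivity
    linarith

theorem sum3 (M : ℕ) : ∑ i ∈ Finset.Ico 1585 M, 1 / (i : ℝ) ^ 3 ≤ 19916 / 100000000000 := by
  rcases le_total M 1585 with h | h
  · rw [Finset.Ico_eq_empty_of_le h, Finset.sum_empty]
    norm_num
  · obtain ⟨m, hm⟩ := Nat.exists_eq_add_of_le h
    have h1 := sum_inv 1585 (M - 1) (by norm_num) (by omega)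
    have e : M - 1 + 1 = M := by omega
    rw [e] at h1
    have h2 : ∑ i ∈ Finset.Ico 1585 M, 1 / TT (i : ℝ) = 1024 / 75 * ∑ i ∈ Finset.Ico 1585 M, 1 / (i : ℝ) ^ 3 := by
      rw [Finset.mul_sum]
      apply Finset.sum_congr rfl
      intro i hi
      rw [Finset.mem_Ico] at hi
      have : (0 : ℝ) < i := by
        have : 0 < i := by omega
        exact_mod_cast this
      unfold TT
      field_simp
    rw [h2] at h1
    have h3 : 0 ≤ 1 / (((M - 1 : ℕ) : ℝ) + 1 / 2) ^ 2 := one_div_nonneg.2 (sq_nonneg _)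
    have h4 : (512 : ℝ) / 75 * (1 / (((1585 : ℕ) : ℝ) - 1 / 2) ^ 2) ≤ 1024 / 75 * (19916 / 100000000000) := by norm_num
    nlinarith

/-- the first class of the slivers -/
theorem k1_bound (i : ℕ) (hi : 1585 ≤ i) : (5 * (i : ℝ) - 6) ^ 4 ≤ 258 * (5 * (k1 i : ℝ) - 1) ^ 3 ∧ 4959 ≤ k1 i := by
  have h1 : (1585 : ℝ) ≤ i := by exact_mod_cast hi
  have hg0 : 0 < gmax i := by
    have h3 : Nj i ≤ TT ((i : ℝ) + 16) := by
      unfold Nj
      apply max_le
      · exact TT_mono (by linarith) (by linarith)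
      · have := TT_mono (x := 1600) (y := (i : ℝ) + 16) (by norm_num) (by linarith)
        rw [TT_i0] at this
        have e : (NN : ℝ) = 300000000 := by norm_num [NN]
        rw [e]; exact this
    have h4 := one_div_le_one_div_of_le (Nj_pos i) h3
    have h5 : gmin i ≤ gmax i := by
      unfold gmin gmax
      have h2 : Th i ≤ Th (i - 1) := Th_anti (by omega) (by omega)
      linarith
    have := gmin_pos (i := i) (by omega)
    linarith
  have hk := kc_spec hg0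
  have hlow : 1600 ≤ k1 i := by
    by_contra hcon
    have hTh := (gmax_le_Th i hi).2
    have h3 : kc (gmax i) ≤ i0 - 1 := by unfold k1 at hcon; unfold i0; omega
    have h5 : Th (max (i + 1) i0 - 1) ≤ Th (i0 - 1) := Th_anti (by unfold i0; omega) (by unfold i0; omega)
    have h6 : Th (i0 - 1) ≤ Th (kc (gmax i)) := Th_anti hk.1 h3
    linarith [hk.2]
  have hk1 : (1600 : ℝ) ≤ k1 i := by exact_mod_cast hlow
  have h2 : Th (k1 i) ≤ 440320 / (5 * (i : ℝ) - 6) ^ 4 := hk.2.trans (gmax_le5 (by omega))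
  have hP : 0 < 5 * (i : ℝ) - 6 := by linarith
  have hK : 0 < 5 * (k1 i : ℝ) - 1 := by linarith
  have h3 : (5 * (i : ℝ) - 6) ^ 4 ≤ 258 * (5 * (k1 i : ℝ) - 1) ^ 3 := by
    unfold Th at h2
    rw [div_le_div_iff₀ (by positivity) (by positivity)] at h2
    nlinarith
  refine ⟨h3, ?_⟩
  by_contra hcon
  have h4 : (k1 i : ℝ) ≤ 4958 := by exact_mod_cast (show k1 i ≤ 4958 by omega)
  have h5 : (5 * (k1 i : ℝ) - 1) ^ 3 ≤ (5 * 4958 - 1) ^ 3 := pow_le_pow_left₀ hK.le (by linarith) 3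
  have h6 : (5 * (1585 : ℝ) - 6) ^ 4 ≤ (5 * (i : ℝ) - 6) ^ 4 := pow_le_pow_left₀ (by norm_num) (by linarith) 4
  norm_num at h5 h6
  linarith

/-- (a) the span -/
theorem span_sum (a b : ℕ) (ha : 4959 ≤ a) : ∑ K ∈ Finset.Icc a b, wK K ≤
    (301 / 100) * (512 / 75) / ((a : ℝ) - 17 / 10) ^ 2 := by
  have hgen : ∀ m : ℕ, ∑ K ∈ Finset.Ico a (a + m), wK K ≤
      (301 / 100) * (512 / 75) * (1 / ((a : ℝ) - 17 / 10) ^ 2 - 1 / ((a : ℝ) + m - 17 / 10) ^ 2) := by
    intro m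
    have ha' : (4959 : ℝ) ≤ a := by exact_mod_cast ha
    induction m with
    | zero => simp
    | succ m ih =>
      rw [← Nat.add_assoc, Finset.sum_Ico_succ_top (by omega)]
      have hm : (0 : ℝ) ≤ m := Nat.cast_nonneg m
      have h1 : wK (a + m) ≤ (301 / 100) * (512 / 75) * (1 / ((a : ℝ) + m - 17 / 10) ^ 2 - 1 / ((a : ℝ) + (m + 1 : ℕ) - 17 / 10) ^ 2) := by
        unfold wK
        rw [Th_pred (by omega)]
        push_cast
        set x : ℝ := (a : ℝ) + m - 6 / 5 with hx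
        have hx1 : 4000 ≤ x := by linarith
        have e0 : (a : ℝ) + m - 17 / 10 = x - 1 / 2 := by rw [hx]; ring
        have e : (a : ℝ) + (m + 1) - 17 / 10 = x + 1 / 2 := by rw [hx]; ring
        have e3 : 5 * ((a : ℝ) + m) - 6 = 5 * x := by rw [hx]; ring
        rw [e, e0, e3]
        have p1 : 0 < x - 1 / 2 := by linarith
        have p2 : 0 < x + 1 / 2 := by linarith
        have p0 : 0 < x := by linarith
        have e1 : (301 / 100) * (512 / 75) * (1 / (x - 1 / 2) ^ 2 - 1 / (x + 1 / 2) ^ 2) =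
            (301 / 100) * (1024 / 75) * (x / ((x - 1 / 2) ^ 2 * (x + 1 / 2) ^ 2)) := by
          rw [div_sub_div _ _ (by positivity) (by positivity)]
          ring
        have e2 : (301 / 100 : ℝ) * (5120 / (3 * (5 * x) ^ 3)) = (301 / 100) * (1024 / 75) * (1 / x ^ 3) := by
          field_simp
          norm_num
        rw [e1, e2]
        apply mul_le_mul_of_nonneg_left _ (by norm_num)
        rw [div_le_div_iff₀ (by positivity) (by positivity)]
        have : (x - 1 / 2) ^ 2 * (x + 1 / 2) ^ 2 = (x ^ 2 - 1 / 4) ^ 2 := by ring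
        rw [this]
        nlinarith [sq_nonneg x]
      calc _ ≤ (301 / 100) * (512 / 75) * (1 / ((a : ℝ) - 17 / 10) ^ 2 - 1 / ((a : ℝ) + m - 17 / 10) ^ 2) +
          (301 / 100) * (512 / 75) * (1 / ((a : ℝ) + m - 17 / 10) ^ 2 - 1 / ((a : ℝ) + (m + 1 : ℕ) - 17 / 10) ^ 2) := add_le_add ih h1
        _ = _ := by ring
  have ha' : (4959 : ℝ) ≤ a := by exact_mod_cast ha
  rcases Nat.lt_or_ge b a with h | h
  · rw [Finset.Icc_eq_empty (by omega), Finset.sum_empty]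
    positivity
  · obtain ⟨m, hm⟩ := Nat.exists_eq_add_of_le h
    have e : Finset.Icc a b = Finset.Ico a (a + (m + 1)) := by
      ext K
      rw [Finset.mem_Icc, Finset.mem_Ico]
      omega
    rw [e]
    have h1 := hgen (m + 1)
    have h2 : 0 ≤ 1 / ((a : ℝ) + (m + 1 : ℕ) - 17 / 10) ^ 2 := by positivity
    calc _ ≤ _ := h1
      _ ≤ (301 / 100) * (512 / 75) * (1 / ((a : ℝ) - 17 / 10) ^ 2) := by
          apply mul_le_mul_of_nonneg_left _ (by norm_num)
          linarith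
      _ = _ := by ring


/-- `√i` facts -/
theorem sqrt_facts (i : ℕ) (hi : 1585 ≤ i) : (398 : ℝ) / 10 ≤ Real.sqrt i ∧ Real.sqrt i ^ 2 = i := by
  have h1 : (1585 : ℝ) ≤ i := by exact_mod_cast hi
  refine ⟨?_, Real.sq_sqrt (by linarith)⟩
  apply Real.le_sqrt_of_sq_le
  norm_num
  linarith

/-- (a) -/
theorem span_le (i : ℕ) (hi : 1585 ≤ i) : ∑ K ∈ Finset.Icc (k1 i) (kc (gmin i)), wK K ≤
    84 / ((i : ℝ) ^ 2 * Real.sqrt i) := by
  obtain ⟨hk, hk2⟩ := k1_bound i hi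
  refine (span_sum (k1 i) _ hk2).trans ?_
  obtain ⟨hr, hr2⟩ := sqrt_facts i hi
  have h1 : (1585 : ℝ) ≤ i := by exact_mod_cast hi
  have ha : (4959 : ℝ) ≤ k1 i := by exact_mod_cast hk2
  set r := Real.sqrt i with hrdef
  set a := (k1 i : ℝ) with hadef
  set x := (i : ℝ) with hx
  have hr0 : 0 < r := by linarith
  have hx0 : 0 < x := by linarith
  have hb : 0 < a - 17 / 10 := by linarith
  -- `(a - 1.7) ≥ (5a-1) λ / 5`
  have e1 : (9996 / 10000) * (5 * a - 1) / 5 ≤ a - 17 / 10 := by linarith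
  have e2 : (5 * (9992 / 10000)) * x ≤ 5 * x - 6 := by linarith
  have hk0 : 0 < 5 * a - 1 := by linarith
  have e3 : ((9996 / 10000) * (5 * a - 1) / 5) ^ 6 ≤ (a - 17 / 10) ^ 6 := pow_le_pow_left₀ (by positivity) e1 6
  have e4 : ((5 * (9992 / 10000)) * x) ^ 8 ≤ (5 * x - 6) ^ 8 := pow_le_pow_left₀ (by positivity) e2 8
  have e5 : (5 * x - 6) ^ 8 ≤ (258 * (5 * a - 1) ^ 3) ^ 2 := by
    have := pow_le_pow_left₀ (by have : 0 < 5 * x - 6 := by linarith
                                 positivity) hk 2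
    calc (5 * x - 6) ^ 8 = ((5 * x - 6) ^ 4) ^ 2 := by ring
      _ ≤ _ := this
  -- `x^7 r ≤ x^8 / 39.8`
  have e6 : x ^ 7 * r ≤ x ^ 8 * (10 / 398) := by
    have : r ≤ x * (10 / 398) := by
      rw [← hr2]
      nlinarith
    calc x ^ 7 * r ≤ x ^ 7 * (x * (10 / 398)) := mul_le_mul_of_nonneg_left this (by positivity)
      _ = _ := by ring
  have e7 : (x ^ 2 * r) ^ 3 ≤ ((408 / 100) * (a - 17 / 10) ^ 2) ^ 3 := by
    have f1 : (x ^ 2 * r) ^ 3 = x ^ 7 * r := by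
      calc (x ^ 2 * r) ^ 3 = x ^ 6 * (r ^ 2) * r := by ring
        _ = x ^ 7 * r := by rw [hr2]; ring
    rw [f1]
    have f2 : ((408 / 100) * (a - 17 / 10) ^ 2) ^ 3 = (408 / 100) ^ 3 * (a - 17 / 10) ^ 6 := by ring
    rw [f2]
    have f3 : x ^ 8 * (5 * (9992 / 10000)) ^ 8 ≤ 258 ^ 2 * (5 * a - 1) ^ 6 := by
      calc x ^ 8 * (5 * (9992 / 10000)) ^ 8 = ((5 * (9992 / 10000)) * x) ^ 8 := by ring
        _ ≤ _ := e4.trans e5
        _ = _ := by ring
    have f4 : (9996 / 10000 / 5) ^ 6 * (5 * a - 1) ^ 6 ≤ (a - 17 / 10) ^ 6 := by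
      calc (9996 / 10000 / 5) ^ 6 * (5 * a - 1) ^ 6 = ((9996 / 10000) * (5 * a - 1) / 5) ^ 6 := by ring
        _ ≤ _ := e3
    have g1 : x ^ 8 * (10 / 398) ≤ (408 / 100) ^ 3 * ((9996 / 10000 / 5) ^ 6 * (5 * a - 1) ^ 6) := by
      have c0 : (0 : ℝ) < 258 ^ 2 := by norm_num
      have c1 : (5 * a - 1) ^ 6 ≥ x ^ 8 * (5 * (9992 / 10000)) ^ 8 / 258 ^ 2 := by
        rw [ge_iff_le, div_le_iff₀ c0]; linarith
      have c2 : (10 / 398 : ℝ) ≤ (408 / 100) ^ 3 * ((9996 / 10000 / 5) ^ 6 * ((5 * (9992 / 10000)) ^ 8 / 258 ^ 2)) := by norm_num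
      have c3 : x ^ 8 * (10 / 398) ≤ x ^ 8 * ((408 / 100) ^ 3 * ((9996 / 10000 / 5) ^ 6 * ((5 * (9992 / 10000)) ^ 8 / 258 ^ 2))) :=
        mul_le_mul_of_nonneg_left c2 (by positivity)
      calc _ ≤ _ := c3
        _ = (408 / 100) ^ 3 * ((9996 / 10000 / 5) ^ 6 * (x ^ 8 * (5 * (9992 / 10000)) ^ 8 / 258 ^ 2)) := by ring
        _ ≤ _ := by
            apply mul_le_mul_of_nonneg_left _ (by norm_num)
            exact mul_le_mul_of_nonneg_left c1 (by norm_num)
    have g2 : (408 / 100 : ℝ) ^ 3 * ((9996 / 10000 / 5) ^ 6 * (5 * a - 1) ^ 6) ≤ (408 / 100) ^ 3 * (a - 17 / 10) ^ 6 :=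
      mul_le_mul_of_nonneg_left f4 (by norm_num)
    linarith
  have e8 : x ^ 2 * r ≤ (408 / 100) * (a - 17 / 10) ^ 2 := le_of_pow_le_pow_left₀ (by norm_num) (by positivity) e7
  rw [div_le_div_iff₀ (by positivity) (by positivity)]
  calc (301 / 100 : ℝ) * (512 / 75) * (x ^ 2 * r) ≤ (301 / 100) * (512 / 75) * ((408 / 100) * (a - 17 / 10) ^ 2) :=
        mul_le_mul_of_nonneg_left e8 (by norm_num)
    _ = ((301 / 100) * (512 / 75) * (408 / 100)) * (a - 17 / 10) ^ 2 := by ring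
    _ ≤ 84 * (a - 17 / 10) ^ 2 := by
        apply mul_le_mul_of_nonneg_right _ (by positivity)
        norm_num

/-- (b) the rows -/
theorem rows_le (i : ℕ) (hi : 1585 ≤ i) : rowsB i * ((301 / 100) * Th (i - 1) + mK i) ≤
    26406 / 100 / ((i : ℝ) ^ 2 * Real.sqrt i) + 128 / (i : ℝ) ^ 3 := by
  obtain ⟨hr, hr2⟩ := sqrt_facts i hi
  have h1 : (1585 : ℝ) ≤ i := by exact_mod_cast hi
  set r := Real.sqrt i with hrdef
  have hTh := Th_pred (K := i) (by omega)
  have hg := gmax_le5 (i := i) (by omega)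
  unfold rowsB mK
  rw [hTh]
  have hN : Real.sqrt (Nj i) ≤ (2745 / 10000) * ((i : ℝ) * r) := by
    apply Real.sqrt_le_iff.2
    refine ⟨by positivity, ?_⟩
    have e : ((2745 / 10000) * ((i : ℝ) * r)) ^ 2 = (2745 / 10000) ^ 2 * (i : ℝ) ^ 3 := by
      calc ((2745 / 10000) * ((i : ℝ) * r)) ^ 2 = (2745 / 10000) ^ 2 * (i : ℝ) ^ 2 * r ^ 2 := by ring
        _ = _ := by rw [hr2]; ring
    rw [e]
    have h3 : (1585 : ℝ) ^ 3 ≤ (i : ℝ) ^ 3 := pow_le_pow_left₀ (by norm_num) h1 3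
    unfold Nj
    apply max_le
    · unfold TT
      nlinarith
    · have e : (NN : ℝ) = 300000000 := by norm_num [NN]
      rw [e]
      have : (300000000 : ℝ) ≤ (2745 / 10000) ^ 2 * (1585 : ℝ) ^ 3 := by norm_num
      nlinarith
  set x := (i : ℝ) with hx
  have hx0 : 0 < x := by linarith
  have hr0 : 0 < r := by linarith
  have hP : 0 < 5 * x - 6 := by linarith
  have hA : (101 / 100) * (3 / x) / (134 / 1000) * Real.sqrt (Nj i) + 3 ≤ (6207 / 1000) * r + 3 := by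
    have : (101 / 100) * (3 / x) / (134 / 1000) * Real.sqrt (Nj i) ≤
        (101 / 100) * (3 / x) / (134 / 1000) * ((2745 / 10000) * (x * r)) :=
      mul_le_mul_of_nonneg_left hN (by positivity)
    have e : (101 / 100) * (3 / x) / (134 / 1000) * ((2745 / 10000) * (x * r)) = ((101 / 100) * 3 / (134 / 1000) * (2745 / 10000)) * r := by
      field_simp
    rw [e] at this
    have h5 : ((101 / 100) * 3 / (134 / 1000) * (2745 / 10000)) * r ≤ (6207 / 1000) * r := by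
      apply mul_le_mul_of_nonneg_right _ hr0.le
      norm_num
    linarith
  have hB : (301 / 100) * (5120 / (3 * (5 * x - 6) ^ 3)) + 151 / 50 * gmax i ≤ (4254 / 100) / x ^ 3 := by
    have h6 : (301 / 100) * (5120 / (3 * (5 * x - 6) ^ 3)) + 151 / 50 * gmax i ≤
        (301 / 100) * (5120 / (3 * (5 * x - 6) ^ 3)) + 151 / 50 * (440320 / (5 * x - 6) ^ 4) := by linarith
    refine h6.trans ?_
    have h7 : 440320 / (5 * x - 6) ^ 4 ≤ (440320 / 7919) / (5 * x - 6) ^ 3 := by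
      rw [div_div]
      apply div_le_div_of_nonneg_left (by norm_num) (by positivity)
      have : (7919 : ℝ) ≤ 5 * x - 6 := by linarith
      calc 7919 * (5 * x - 6) ^ 3 ≤ (5 * x - 6) * (5 * x - 6) ^ 3 := mul_le_mul_of_nonneg_right this (by positivity)
        _ = _ := by ring
    have h8 : (301 / 100) * (5120 / (3 * (5 * x - 6) ^ 3)) + 151 / 50 * ((440320 / 7919) / (5 * x - 6) ^ 3) =
        ((301 / 100) * (5120 / 3) + 151 / 50 * (440320 / 7919)) / (5 * x - 6) ^ 3 := by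
      field_simp
    have h9 : (5 * (15838 / 15850)) * x ≤ 5 * x - 6 := by linarith
    have h10 : ((5 * (15838 / 15850)) * x) ^ 3 ≤ (5 * x - 6) ^ 3 := pow_le_pow_left₀ (by positivity) h9 3
    have h11 : ((301 / 100) * (5120 / 3) + 151 / 50 * (440320 / 7919)) / (5 * x - 6) ^ 3 ≤ (4254 / 100) / x ^ 3 := by
      rw [div_le_div_iff₀ (by positivity) (by positivity)]
      have h12 : ((301 / 100) * (5120 / 3) + 151 / 50 * (440320 / 7919) : ℝ) ≤ (4254 / 100) * (5 * (15838 / 15850)) ^ 3 := by norm_num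
      calc ((301 / 100) * (5120 / 3) + 151 / 50 * (440320 / 7919)) * x ^ 3 ≤
            ((4254 / 100) * (5 * (15838 / 15850)) ^ 3) * x ^ 3 := mul_le_mul_of_nonneg_right h12 (by positivity)
        _ = (4254 / 100) * ((5 * (15838 / 15850)) * x) ^ 3 := by ring
        _ ≤ _ := mul_le_mul_of_nonneg_left h10 (by norm_num)
    linarith
  have hB0 : 0 ≤ (301 / 100) * (5120 / (3 * (5 * x - 6) ^ 3)) + 151 / 50 * gmax i := by
    have : 0 ≤ gmax i := by
      have h3 := (gmax_eq i (by omega))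
      have h4 := k1_bound i hi
      rw [h3]
      have h5 : 1 / (5 * (i : ℝ) - 6 + 86) ^ 3 ≤ 1 / (5 * (i : ℝ) - 6) ^ 3 :=
        one_div_le_one_div_of_le (by positivity) (pow_le_pow_left₀ hP.le (by linarith) 3)
      have : 0 ≤ 1 / (5 * (i : ℝ) - 6) ^ 3 - 1 / (5 * (i : ℝ) - 6 + 86) ^ 3 := by linarith
      positivity
    positivity
  calc _ ≤ ((6207 / 1000) * r + 3) * ((4254 / 100) / x ^ 3) := mul_le_mul hA hB hB0 (by positivity)
    _ = ((6207 / 1000) * (4254 / 100)) * (r / x ^ 3) + (3 * (4254 / 100)) / x ^ 3 := by ring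
    _ = ((6207 / 1000) * (4254 / 100)) / (x ^ 2 * r) + (3 * (4254 / 100)) / x ^ 3 := by
        congr 1
        have : r / x ^ 3 = 1 / (x ^ 2 * r) := by
          rw [div_eq_div_iff (by positivity) (by positivity)]
          calc r * (x ^ 2 * r) = x ^ 2 * r ^ 2 := by ring
            _ = 1 * x ^ 3 := by rw [hr2]; ring
        rw [this]; ring
    _ ≤ _ := by
        apply add_le_add
        · apply div_le_div_of_nonneg_right _ (by positivity)
          norm_num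
        · apply div_le_div_of_nonneg_right _ (by positivity)
          norm_num


theorem card_gap (S : Finset ℕ) : (∀ n ∈ S, ∀ m ∈ S, n < m → n + 16 ≤ m) → S.Nonempty →
    ∃ a ∈ S, ∃ b ∈ S, (∀ n ∈ S, n ≤ b) ∧ a + 16 * S.card ≤ b + 16 := by
  classical
  induction S using Finset.induction_on_max with
  | empty => intro _ h; exact absurd h (by simp)
  | insert b s hb ih =>
    intro h2 _
    have hbs : b ∉ s := fun h => lt_irrefl _ (hb b h)
    rcases s.eq_empty_or_nonempty with hs | hs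
    · subst hs
      refine ⟨b, by simp, b, by simp, by simp, by simp⟩
    · obtain ⟨a, ha, c, hc, hac, hcard⟩ := ih
        (fun n hn m hm => h2 n (Finset.mem_insert_of_mem hn) m (Finset.mem_insert_of_mem hm)) hs
      have hcb : c + 16 ≤ b := h2 c (Finset.mem_insert_of_mem hc) b (Finset.mem_insert_self _ _) (hb c hc)
      refine ⟨a, Finset.mem_insert_of_mem ha, b, Finset.mem_insert_self _ _, ?_, ?_⟩
      · intro n hn
        rcases Finset.mem_insert.1 hn with rfl | hn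
        · exact le_rfl
        · exact (hb n hn).le
      · rw [Finset.card_insert_of_notMem hbs]
        omega

theorem card_PP_le (i : ℕ) (hi : 1585 ≤ i) : ((PP i).card : ℝ) ≤ (2220 / 10000) * (i : ℝ) ^ 2 := by
  have h1 : (1585 : ℝ) ≤ i := by exact_mod_cast hi
  rcases (PP i).eq_empty_or_nonempty with h | h
  · rw [h]
    have : (0 : ℝ) ≤ (2220 / 10000) * (i : ℝ) ^ 2 := mul_nonneg (by norm_num) (sq_nonneg _)
    simpa using this
  · obtain ⟨a, ha, b, hb, _, hcard⟩ := card_gap (PP i) (by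
      intro n hn m hm hnm
      have h1 := (mem_PP.1 hn).2.1
      have h2 := (mem_PP.1 hm).2.1
      omega) h
    obtain ⟨a1, _, _, _⟩ := mem_PP_real ha
    obtain ⟨_, b2, _, _⟩ := mem_PP_real hb
    have hc : (a : ℝ) + 16 * ((PP i).card : ℝ) ≤ b + 16 := by exact_mod_cast hcard
    unfold TT at a1 b2
    have e : 75 * ((i : ℝ) + 16) ^ 3 / 1024 = 75 * (i : ℝ) ^ 3 / 1024 + (3515625 / 1000000) * (i : ℝ) ^ 2 + (5625 / 100) * i + 300 := by
      ring
    rw [e] at b2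
    have h2 : 1585 * (i : ℝ) ≤ (i : ℝ) ^ 2 := by
      rw [sq]
      exact mul_le_mul_of_nonneg_right h1 (by linarith)
    linarith

/-- (c) the cells -/
theorem cells_le (i : ℕ) (hi : 1585 ≤ i) : ((PP i).card : ℝ) * (mK (k1 i) + 50 / (Nj i) ^ 2) ≤
    7860 / (i : ℝ) ^ 3 := by
  have h1 : (1585 : ℝ) ≤ i := by exact_mod_cast hi
  obtain ⟨hk, hk2⟩ := k1_bound i hi
  have ha : (4959 : ℝ) ≤ k1 i := by exact_mod_cast hk2
  have hg := gmax_le5 (i := k1 i) (by omega)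
  have hc := card_PP_le i hi
  have hN : 75 * (i : ℝ) ^ 3 / 1024 ≤ Nj i := TT_le_Nj i
  set a := (k1 i : ℝ) with hadef
  set x := (i : ℝ) with hx
  have hx0 : 0 < x := by linarith
  have hP : 0 < 5 * x - 6 := by linarith
  have hQ : 0 < 5 * a - 6 := by linarith
  have e1 : (9997 / 10000) * (5 * a - 1) ≤ 5 * a - 6 := by linarith
  have hk0 : 0 < 5 * a - 1 := by linarith
  have e2 : (5 * (15838 / 15850)) * x ≤ 5 * x - 6 := by linarith
  have e3 : ((9997 / 10000) * (5 * a - 1)) ^ 12 ≤ (5 * a - 6) ^ 12 := pow_le_pow_left₀ (by positivity) e1 12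
  have e4 : ((5 * (15838 / 15850)) * x) ^ 16 ≤ (5 * x - 6) ^ 16 := pow_le_pow_left₀ (by positivity) e2 16
  have e5 : (5 * x - 6) ^ 16 ≤ 258 ^ 4 * (5 * a - 1) ^ 12 := by
    have := pow_le_pow_left₀ (by positivity) hk 4
    calc (5 * x - 6) ^ 16 = ((5 * x - 6) ^ 4) ^ 4 := by ring
      _ ≤ _ := this
      _ = _ := by ring
  have e6 : 1585 * x ^ 15 ≤ x ^ 16 := by
    calc 1585 * x ^ 15 ≤ x * x ^ 15 := mul_le_mul_of_nonneg_right h1 (by positivity)
      _ = _ := by ring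
  have e7 : ((376 / 10) * x ^ 5) ^ 3 ≤ ((5 * a - 6) ^ 4) ^ 3 := by
    have f1 : ((5 * a - 6) ^ 4) ^ 3 = (5 * a - 6) ^ 12 := by ring
    rw [f1]
    have f2 : (9997 / 10000) ^ 12 * (5 * a - 1) ^ 12 ≤ (5 * a - 6) ^ 12 := by
      calc (9997 / 10000) ^ 12 * (5 * a - 1) ^ 12 = ((9997 / 10000) * (5 * a - 1)) ^ 12 := by ring
        _ ≤ _ := e3
    have f3 : (5 * (15838 / 15850)) ^ 16 * x ^ 16 ≤ 258 ^ 4 * (5 * a - 1) ^ 12 := by
      calc (5 * (15838 / 15850)) ^ 16 * x ^ 16 = ((5 * (15838 / 15850)) * x) ^ 16 := by ring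
        _ ≤ _ := e4.trans e5
    have f4 : ((376 / 10) * x ^ 5) ^ 3 = (376 / 10) ^ 3 * x ^ 15 := by ring
    rw [f4]
    have f5 : (376 / 10 : ℝ) ^ 3 ≤ (9997 / 10000) ^ 12 * ((5 * (15838 / 15850)) ^ 16 * 1585 / 258 ^ 4) := by norm_num
    calc (376 / 10 : ℝ) ^ 3 * x ^ 15 ≤ ((9997 / 10000) ^ 12 * ((5 * (15838 / 15850)) ^ 16 * 1585 / 258 ^ 4)) * x ^ 15 :=
          mul_le_mul_of_nonneg_right f5 (by positivity)
      _ = (9997 / 10000) ^ 12 * ((5 * (15838 / 15850)) ^ 16 * (1585 * x ^ 15)) / 258 ^ 4 := by ring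
      _ ≤ (9997 / 10000) ^ 12 * ((5 * (15838 / 15850)) ^ 16 * x ^ 16) / 258 ^ 4 := by
          apply div_le_div_of_nonneg_right _ (by positivity)
          apply mul_le_mul_of_nonneg_left _ (by positivity)
          exact mul_le_mul_of_nonneg_left e6 (by positivity)
      _ ≤ (9997 / 10000) ^ 12 * (258 ^ 4 * (5 * a - 1) ^ 12) / 258 ^ 4 := by
          apply div_le_div_of_nonneg_right _ (by positivity)
          exact mul_le_mul_of_nonneg_left f3 (by positivity)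
      _ = (9997 / 10000) ^ 12 * (5 * a - 1) ^ 12 := by ring
      _ ≤ _ := f2
  have e8 : (376 / 10) * x ^ 5 ≤ (5 * a - 6) ^ 4 := le_of_pow_le_pow_left₀ (by norm_num) (by positivity) e7
  have hm : mK (k1 i) ≤ (35367 : ℝ) / x ^ 5 := by
    unfold mK
    have : 440320 / (5 * a - 6) ^ 4 ≤ 440320 / ((376 / 10) * x ^ 5) :=
      div_le_div_of_nonneg_left (by norm_num) (by positivity) e8
    have h2 : (151 / 50 : ℝ) * (440320 / ((376 / 10) * x ^ 5)) ≤ 35367 / x ^ 5 := by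
      have : (151 / 50 : ℝ) * (440320 / ((376 / 10) * x ^ 5)) = (151 / 50 * 440320 / (376 / 10)) / x ^ 5 := by
        field_simp
      rw [this]
      apply div_le_div_of_nonneg_right _ (by positivity)
      norm_num
    have h3 : (151 / 50 : ℝ) * gmax (k1 i) ≤ (151 / 50) * (440320 / ((376 / 10) * x ^ 5)) :=
      mul_le_mul_of_nonneg_left (hg.trans this) (by norm_num)
    linarith
  have hm2 : 50 / (Nj i) ^ 2 ≤ 10 / x ^ 5 := by
    have hN0 : 0 < 75 * x ^ 3 / 1024 := by positivity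
    have : 50 / (Nj i) ^ 2 ≤ 50 / (75 * x ^ 3 / 1024) ^ 2 :=
      div_le_div_of_nonneg_left (by norm_num) (by positivity) (pow_le_pow_left₀ hN0.le hN 2)
    refine this.trans ?_
    rw [div_le_div_iff₀ (by positivity) (by positivity)]
    have e : (75 * x ^ 3 / 1024) ^ 2 = (75 / 1024) ^ 2 * x ^ 5 * x := by ring
    rw [e]
    have : (50 : ℝ) ≤ 10 * ((75 / 1024) ^ 2 * x) := by linarith
    calc 50 * x ^ 5 ≤ (10 * ((75 / 1024) ^ 2 * x)) * x ^ 5 := mul_le_mul_of_nonneg_right this (by positivity)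
      _ = _ := by ring
  have hsum : mK (k1 i) + 50 / (Nj i) ^ 2 ≤ 35377 / x ^ 5 := by
    have : (35367 : ℝ) / x ^ 5 + 10 / x ^ 5 = 35377 / x ^ 5 := by ring
    linarith
  calc ((PP i).card : ℝ) * (mK (k1 i) + 50 / (Nj i) ^ 2) ≤ ((PP i).card : ℝ) * (35377 / x ^ 5) :=
        mul_le_mul_of_nonneg_left hsum (Nat.cast_nonneg _)
    _ ≤ ((2220 / 10000) * x ^ 2) * (35377 / x ^ 5) := mul_le_mul_of_nonneg_right hc (by positivity)
    _ = (2220 / 10000 * 35377) / x ^ 3 := by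
        rw [mul_div_assoc', div_eq_div_iff (by positivity) (by positivity)]
        ring
    _ ≤ _ := by
        apply div_le_div_of_nonneg_right _ (by positivity)
        norm_num

theorem dPsi_le (i : ℕ) (hi : 1585 ≤ i) : dPsi i ≤
    34806 / 100 * (1 / ((i : ℝ) ^ 2 * Real.sqrt i)) + 7990 * (1 / (i : ℝ) ^ 3) := by
  have h1 := span_le i hi
  have h2 := rows_le i hi
  have h3 := cells_le i hi
  have h0 : 0 ≤ 1 / (i : ℝ) ^ 3 := by positivity
  unfold dPsi
  have e1 : 84 / ((i : ℝ) ^ 2 * Real.sqrt i) = 84 * (1 / ((i : ℝ) ^ 2 * Real.sqrt i)) := by ring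
  have e2 : 26406 / 100 / ((i : ℝ) ^ 2 * Real.sqrt i) = 26406 / 100 * (1 / ((i : ℝ) ^ 2 * Real.sqrt i)) := by ring
  have e3 : 128 / (i : ℝ) ^ 3 = 128 * (1 / (i : ℝ) ^ 3) := by ring
  have e4 : 7860 / (i : ℝ) ^ 3 = 7860 * (1 / (i : ℝ) ^ 3) := by ring
  linarith

end Pool.Agent.MM2.Num

namespace Pool.Agent.MM2

/-- P1 -/
theorem sum_dPsi_le (M : ℕ) : ∑ j ∈ Finset.Ico j0 M, dPsi j ≤ 54 / 10000 := by
  have h1 : ∑ j ∈ Finset.Ico j0 M, dPsi j ≤ ∑ j ∈ Finset.Ico 1585 M,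
      (34806 / 100 * (1 / ((j : ℝ) ^ 2 * Real.sqrt j)) + 7990 * (1 / (j : ℝ) ^ 3)) := by
    apply Finset.sum_le_sum
    intro j hj
    exact Num.dPsi_le j (Finset.mem_Ico.1 hj).1
  rw [Finset.sum_add_distrib, ← Finset.mul_sum, ← Finset.mul_sum] at h1
  have h2 := Num.sum52 M
  have h3 := Num.sum3 M
  linarith

end Pool.Agent.MM2
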