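import Pool.Agent.MP_94f265_co.MM2.Par

/-!
# Numbers of the tail: capacity, remaining area, area bound
-/

namespace Pool.Agent.MM2

theorem NN_real : ((NN : ℕ) : ℝ) = 300000000 := by norm_num [NN]

theorem Nj_ge_NN (i : ℕ) : (300000000 : ℝ) ≤ Nj i := by
  unfold Nj; rw [NN_real]; exact le_max_right _ _

theorem Nj_ge_TT (i : ℕ) : TT (i : ℝ) ≤ Nj i := le_max_left _ _

/-- the slots of a phase as an arithmetic progression -/
theorem PP_param (i : ℕ) (hi : 1585 ≤ i) : ∃ n0 m : ℕ, NN ≤ n0 ∧ Nj i ≤ (n0 : ℝ) ∧ (n0 : ℝ) < Nj i + 16 ∧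
    TT ((i : ℝ) + 16) ≤ (n0 : ℝ) + 16 * m ∧ (n0 : ℝ) + 16 * m < TT ((i : ℝ) + 16) + 16 ∧
    ∀ f : ℕ → ℝ, ∑ n ∈ PP i, f n = ∑ k ∈ Finset.range m, f (n0 + 16 * k) := by
  classical
  -- A = max NN (ceil (75 i^3 / 1024)), B = ceil (75 (i+16)^3/1024)
  obtain ⟨C, hC⟩ : ∃ C, C = 75 * i ^ 3 := ⟨_, rfl⟩
  obtain ⟨D, hD⟩ : ∃ D, D = 75 * (i + 16) ^ 3 := ⟨_, rfl⟩
  have hD0 : 75 * 1601 ^ 3 ≤ D := by
    rw [hD]
    exact Nat.mul_le_mul_left _ (Nat.pow_le_pow_left (by omega) 3)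
  have hCD : C + 16 * 1024 ≤ D := by
    have h1 : i ^ 3 + 16 * 1024 ≤ (i + 16) ^ 3 := by
      nlinarith [Nat.zero_le (i ^ 2)]
    rw [hC, hD]; omega
  set A := max NN ((C + 1023) / 1024) with hA
  set n0 := A + (16 + i % 16 - A % 16) % 16 with hn0
  set B := (D + 1023) / 1024 with hB
  set m := (B + 15 - n0) / 16 with hm
  have hNNe : NN = 300000000 := rfl
  have hA1 : NN ≤ A := le_max_left _ _
  have hA2 : (C + 1023) / 1024 ≤ A := le_max_right _ _
  have hA3 : A = NN ∨ A = (C + 1023) / 1024 := by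
    rcases le_total NN ((C + 1023) / 1024) with h | h
    · right; exact max_eq_right h
    · left; exact max_eq_left h
  have hmod : n0 % 16 = i % 16 := by omega
  have hn0A : A ≤ n0 ∧ n0 < A + 16 := by omega
  have hBn : n0 ≤ B := by
    rcases hA3 with h | h
    · have : n0 < 300000016 := by omega
      have : 300000016 ≤ B := by omega
      omega
    · omega
  have hmem : ∀ n, n ∈ PP i ↔ ∃ k, k < m ∧ n = n0 + 16 * k := by
    intro n
    rw [mem_PP, ← hC, ← hD]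
    constructor
    · rintro ⟨h1, h2, h3, h4⟩
      have hAn : A ≤ n := by
        rcases hA3 with h | h
        · omega
        · omega
      have : n0 ≤ n := by omega
      refine ⟨(n - n0) / 16, by omega, by omega⟩
    · rintro ⟨k, hk, rfl⟩
      refine ⟨by omega, by omega, by omega, by omega⟩
  have hCr : TT (i : ℝ) = (C : ℝ) / 1024 := by
    unfold TT; rw [hC]; push_cast; ring
  have hDr : TT ((i : ℝ) + 16) = (D : ℝ) / 1024 := by
    unfold TT; rw [hD]; push_cast; ring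
  have hBm : B ≤ n0 + 16 * m ∧ n0 + 16 * m < B + 16 := by omega
  have hB1 : D ≤ 1024 * B ∧ 1024 * B < D + 1024 := by omega
  have hB1' : ((D : ℝ)) ≤ 1024 * B ∧ 1024 * (B : ℝ) < D + 1024 := by
    constructor <;> [exact_mod_cast hB1.1; exact_mod_cast hB1.2]
  have hBm' : (B : ℝ) ≤ n0 + 16 * m ∧ (n0 : ℝ) + 16 * m + 1 ≤ B + 16 := by
    constructor
    · exact_mod_cast hBm.1
    · exact_mod_cast hBm.2
  have hNj : Nj i ≤ A ∧ (A : ℝ) < Nj i + 1 := by
    constructor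
    · unfold Nj
      apply max_le
      · rw [hCr, div_le_iff₀ (by norm_num)]
        have : C ≤ A * 1024 := by omega
        exact_mod_cast this
      · exact_mod_cast hA1
    · rcases hA3 with h | h
      · rw [h]
        have := Nj_ge_NN i
        rw [NN_real]; linarith
      · have h5 := Nj_ge_TT i
        have h6 : A * 1024 < C + 1024 := by omega
        have h7 : (A : ℝ) * 1024 < C + 1024 := by exact_mod_cast h6
        rw [hCr] at h5
        have : (C : ℝ) / 1024 * 1024 = C := by ring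
        nlinarith
  have hn0A' : (A : ℝ) ≤ n0 ∧ (n0 : ℝ) + 1 ≤ A + 16 := by
    constructor
    · exact_mod_cast hn0A.1
    · exact_mod_cast hn0A.2
  refine ⟨n0, m, by omega, by linarith, by linarith, ?_, ?_, ?_⟩
  · rw [hDr]; linarith
  · rw [hDr]; linarith
  · intro f
    have : PP i = (Finset.range m).image (fun k => n0 + 16 * k) := by
      ext n
      rw [hmem, Finset.mem_image]
      constructor
      · rintro ⟨k, hk, rfl⟩
        exact ⟨k, Finset.mem_range.2 hk, rfl⟩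
      · rintro ⟨k, hk, rfl⟩
        exact ⟨k, Finset.mem_range.1 hk, rfl⟩
    rw [this, Finset.sum_image]
    intro a _ b _ hab
    simp only at hab
    omega

/-! ## length of the slots of a phase -/

theorem log_up (x : ℝ) (hx : 16 < x) : 16 / x ≤ Real.log x - Real.log (x - 16) := by
  have h1 : 0 < (x - 16) / x := div_pos (by linarith) (by linarith)
  have h2 := Real.log_le_sub_one_of_pos h1
  rw [Real.log_div (by linarith) (by linarith)] at h2
  have h3 : (x - 16) / x - 1 = -(16 / x) := by field_simp; ring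
  linarith

theorem log_lo (x : ℝ) (hx : 0 < x) : Real.log (x + 16) - Real.log x ≤ 16 / x := by
  have h1 : 0 < (x + 16) / x := div_pos (by linarith) (by linarith)
  have h2 := Real.log_le_sub_one_of_pos h1
  rw [Real.log_div (by linarith) (by linarith)] at h2
  have h3 : (x + 16) / x - 1 = 16 / x := by field_simp; ring
  linarith

theorem SY_up (i : ℕ) (hi : 1585 ≤ i) :
    16 * ∑ n ∈ PP i, yu n ≤ Real.log (TT ((i : ℝ) + 16) + 1) - Real.log (Nj i - 15) := by
  obtain ⟨n0, m, h1, h2, h3, h4, h5, h6⟩ := PP_param i hi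
  have hN := Nj_ge_NN i
  rw [h6, Finset.mul_sum]
  have hb : ∀ k ∈ Finset.range m, 16 * yu (n0 + 16 * k) ≤
      Real.log ((n0 : ℝ) + 16 * ((k + 1 : ℕ) : ℝ) - 15) - Real.log ((n0 : ℝ) + 16 * (k : ℝ) - 15) := by
    intro k _
    have hk : (0 : ℝ) ≤ k := Nat.cast_nonneg k
    have := log_up ((n0 : ℝ) + 16 * k + 1) (by linarith)
    unfold yu
    push_cast
    rw [mul_one_div]
    have e1 : (n0 : ℝ) + 16 * ((k : ℝ) + 1) - 15 = n0 + 16 * k + 1 := by ring
    have e2 : (n0 : ℝ) + 16 * (k : ℝ) - 15 = n0 + 16 * k + 1 - 16 := by ring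
    rw [e1, e2]
    exact this
  refine (Finset.sum_le_sum hb).trans ?_
  rw [Finset.sum_range_sub (fun k : ℕ => Real.log ((n0 : ℝ) + 16 * (k : ℝ) - 15))]
  have h7 : Real.log ((n0 : ℝ) + 16 * (m : ℝ) - 15) ≤ Real.log (TT ((i : ℝ) + 16) + 1) := by
    apply Real.log_le_log _ (by linarith)
    have : (0 : ℝ) ≤ m := Nat.cast_nonneg m
    linarith
  have h8 : Real.log (Nj i - 15) ≤ Real.log ((n0 : ℝ) + 16 * ((0 : ℕ) : ℝ) - 15) := by
    apply Real.log_le_log (by linarith)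
    push_cast; linarith
  linarith

theorem SY_lo (i : ℕ) (hi : 1585 ≤ i) :
    Real.log (TT ((i : ℝ) + 16) + 1) - Real.log (Nj i + 17) ≤ 16 * ∑ n ∈ PP i, yu n := by
  obtain ⟨n0, m, h1, h2, h3, h4, h5, h6⟩ := PP_param i hi
  have hN := Nj_ge_NN i
  rw [h6, Finset.mul_sum]
  have hb : ∀ k ∈ Finset.range m, Real.log ((n0 : ℝ) + 16 * ((k + 1 : ℕ) : ℝ) + 1) -
      Real.log ((n0 : ℝ) + 16 * (k : ℝ) + 1) ≤ 16 * yu (n0 + 16 * k) := by
    intro k _
    have hk : (0 : ℝ) ≤ k := Nat.cast_nonneg k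
    have := log_lo ((n0 : ℝ) + 16 * k + 1) (by linarith)
    unfold yu
    push_cast
    rw [mul_one_div]
    have e1 : (n0 : ℝ) + 16 * ((k : ℝ) + 1) + 1 = n0 + 16 * k + 1 + 16 := by ring
    rw [e1]
    exact this
  refine le_trans ?_ (Finset.sum_le_sum hb)
  rw [Finset.sum_range_sub (fun k : ℕ => Real.log ((n0 : ℝ) + 16 * (k : ℝ) + 1))]
  have hT : 0 < TT ((i : ℝ) + 16) := TT_pos (by positivity)
  have h7 : Real.log (TT ((i : ℝ) + 16) + 1) ≤ Real.log ((n0 : ℝ) + 16 * (m : ℝ) + 1) :=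
    Real.log_le_log (by linarith) (by linarith)
  have h8 : Real.log ((n0 : ℝ) + 16 * ((0 : ℕ) : ℝ) + 1) ≤ Real.log (Nj i + 17) := by
    apply Real.log_le_log (by push_cast; linarith)
    push_cast; linarith
  linarith

theorem log_TT (x : ℝ) (hx : 0 < x) : Real.log (TT (x + 16)) - Real.log (TT x) = 3 * Real.log (1 + 16 / x) := by
  rw [← Real.log_div (TT_pos (by linarith)).ne' (TT_pos hx).ne']
  have : TT (x + 16) / TT x = (1 + 16 / x) ^ 3 := by
    unfold TT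
    field_simp
  rw [this, Real.log_pow]
  norm_num

/-- C1 -/
theorem SY_le_aux (i : ℕ) (hi : 1585 ≤ i) : ∑ n ∈ PP i, yu n ≤ (1005 / 1000) * (3 / (i : ℝ)) := by
  have h0 := SY_up i hi
  have hi' : (1585 : ℝ) ≤ i := by exact_mod_cast hi
  have hip : (0 : ℝ) < i := by linarith
  have h1 := log_TT (i : ℝ) hip
  have h2 : Real.log (1 + 16 / (i : ℝ)) ≤ 16 / i := by
    have := Real.log_le_sub_one_of_pos (x := 1 + 16 / (i : ℝ)) (by positivity)
    linarith
  have hT1 : (290000000 : ℝ) ≤ TT (i : ℝ) := by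
    have : TT 1585 ≤ TT (i : ℝ) := TT_mono (by norm_num) hi'
    have h : (290000000 : ℝ) ≤ TT 1585 := by unfold TT; norm_num
    linarith
  have hT2 : TT (i : ℝ) ≤ TT ((i : ℝ) + 16) := TT_mono hip.le (by linarith)
  have hT0 : 0 < TT (i : ℝ) := by linarith
  -- the corrections
  have h3 : Real.log (TT ((i : ℝ) + 16) + 1) ≤ Real.log (TT ((i : ℝ) + 16)) + 1 / TT (i : ℝ) := by
    have hp : 0 < TT ((i : ℝ) + 16) := by linarith
    have e : TT ((i : ℝ) + 16) + 1 = TT ((i : ℝ) + 16) * (1 + 1 / TT ((i : ℝ) + 16)) := by field_simp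
    rw [e, Real.log_mul hp.ne' (by positivity)]
    have h4 := Real.log_le_sub_one_of_pos (x := 1 + 1 / TT ((i : ℝ) + 16)) (by positivity)
    have h5 : 1 / TT ((i : ℝ) + 16) ≤ 1 / TT (i : ℝ) := one_div_le_one_div_of_le hT0 hT2
    linarith
  have h4 : Real.log (TT (i : ℝ)) - 16 / TT (i : ℝ) ≤ Real.log (Nj i - 15) := by
    have h5 : Real.log (TT (i : ℝ) - 15) ≤ Real.log (Nj i - 15) :=
      Real.log_le_log (by linarith) (by linarith [Nj_ge_TT i])
    have e : TT (i : ℝ) - 15 = TT (i : ℝ) * (1 - 15 / TT (i : ℝ)) := by field_simp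
    have h6 : (0 : ℝ) < 1 - 15 / TT (i : ℝ) := by
      rw [sub_pos, div_lt_one hT0]; linarith
    have h7 := Real.one_sub_inv_le_log_of_pos h6
    rw [e, Real.log_mul hT0.ne' h6.ne'] at h5
    have h8 : -(16 / TT (i : ℝ)) ≤ 1 - (1 - 15 / TT (i : ℝ))⁻¹ := by
      have e2 : (1 - 15 / TT (i : ℝ))⁻¹ = TT (i : ℝ) / (TT (i : ℝ) - 15) := by
        rw [← inv_div]
        field_simp
      rw [e2]
      have h9 : TT (i : ℝ) / (TT (i : ℝ) - 15) - 1 = 15 / (TT (i : ℝ) - 15) := by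
        have : TT (i : ℝ) - 15 ≠ 0 := by
          intro h; linarith
        field_simp
        ring
      have h10 : 15 / (TT (i : ℝ) - 15) ≤ 16 / TT (i : ℝ) := by
        rw [div_le_div_iff₀ (by linarith) hT0]
        linarith
      linarith
    linarith
  have h5 : 17 / TT (i : ℝ) ≤ (24 / 100) / i := by
    rw [div_le_div_iff₀ hT0 hip]
    unfold TT
    have : (1585 : ℝ) ^ 2 ≤ (i : ℝ) ^ 2 := pow_le_pow_left₀ (by norm_num) hi' 2
    nlinarith
  have h6 : 1 / TT (i : ℝ) + 16 / TT (i : ℝ) = 17 / TT (i : ℝ) := by ring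
  have h7 : (1005 / 1000) * (3 / (i : ℝ)) = 3 / i + (15 / 1000) / i := by ring
  rw [h7]
  have h8 : 16 * (3 / (i : ℝ)) = 3 * (16 / i) := by ring
  have h9 : 16 * ((15 / 1000) / (i : ℝ)) = (24 / 100) / i := by ring
  linarith

/-- lower bound for the length of the slots, `i ≥ 1600` -/
theorem SY_ge_aux (i : ℕ) (hi : 1600 ≤ i) :
    (3 / (i : ℝ)) * (1 - 8 / i) - (1 / 5000) / i ≤ ∑ n ∈ PP i, yu n := by
  have h0 := SY_lo i (by omega)
  have hi' : (1600 : ℝ) ≤ i := by exact_mod_cast hi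
  have hip : (0 : ℝ) < i := by linarith
  have h1 := log_TT (i : ℝ) hip
  have hT1 : (300000000 : ℝ) ≤ TT (i : ℝ) := by
    have : TT 1600 ≤ TT (i : ℝ) := TT_mono (by norm_num) hi'
    rw [TT_i0] at this
    linarith
  have hN : Nj i = TT (i : ℝ) := by
    unfold Nj
    rw [NN_real]
    exact max_eq_left hT1
  have hT0 : 0 < TT (i : ℝ) := by linarith
  have hT2 : TT (i : ℝ) ≤ TT ((i : ℝ) + 16) := TT_mono hip.le (by linarith)
  have h2 : (16 / (i : ℝ)) * (1 - 8 / i) ≤ Real.log (1 + 16 / (i : ℝ)) := by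
    have h3 := Real.le_log_one_add_of_nonneg (x := 16 / (i : ℝ)) (by positivity)
    refine le_trans ?_ h3
    have e : 2 * (16 / (i : ℝ)) / (16 / i + 2) = 16 / (i + 8) := by field_simp; ring
    rw [e, le_div_iff₀ (by linarith)]
    have e2 : 16 / (i : ℝ) * (1 - 8 / i) * (i + 8) = 16 - 16 * 64 / i ^ 2 := by field_simp; ring
    rw [e2]
    have : 0 ≤ 16 * 64 / (i : ℝ) ^ 2 := by positivity
    linarith
  have h3 : Real.log (TT ((i : ℝ) + 16)) ≤ Real.log (TT ((i : ℝ) + 16) + 1) :=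
    Real.log_le_log (by linarith) (by linarith)
  have h4 : Real.log (TT (i : ℝ) + 17) ≤ Real.log (TT (i : ℝ)) + 17 / TT (i : ℝ) := by
    have e : TT (i : ℝ) + 17 = TT (i : ℝ) * (1 + 17 / TT (i : ℝ)) := by field_simp
    rw [e, Real.log_mul hT0.ne' (by positivity)]
    have h5 := Real.log_le_sub_one_of_pos (x := 1 + 17 / TT (i : ℝ)) (by positivity)
    linarith
  rw [hN] at h0
  have h5 : 17 / TT (i : ℝ) ≤ 16 * ((1 / 5000) / i) := by
    rw [← mul_div_assoc, div_le_div_iff₀ hT0 hip]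
    unfold TT
    have : (1600 : ℝ) ^ 2 ≤ (i : ℝ) ^ 2 := pow_le_pow_left₀ (by norm_num) hi' 2
    nlinarith
  have h8 : 16 * ((3 / (i : ℝ)) * (1 - 8 / i)) = 3 * ((16 / i) * (1 - 8 / i)) := by ring
  linarith

/-- the shorter side of the box is short against the phase -/
theorem side_le (i : ℕ) (hi : 1600 ≤ i) (l : ℝ) (hl : l ^ 2 ≤ 1 / Nj (i - 1)) : l ≤ (93 / 1000) / i := by
  have hi' : (1600 : ℝ) ≤ i := by exact_mod_cast hi
  have hip : (0 : ℝ) < i := by linarith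
  have e1 : ((i - 1 : ℕ) : ℝ) = (i : ℝ) - 1 := by rw [Nat.cast_sub (by omega)]; simp
  have hN := Nj_ge_NN (i - 1)
  have hT := Nj_ge_TT (i - 1)
  rw [e1] at hT
  have hkey : (i : ℝ) ^ 2 ≤ (8649 / 1000000) * Nj (i - 1) := by
    by_cases h : (i : ℝ) ≤ 1605
    · nlinarith
    · push Not at h
      have h2 : (i : ℝ) ^ 2 ≤ (8649 / 1000000) * TT ((i : ℝ) - 1) := by
        unfold TT
        obtain ⟨s, hs⟩ : ∃ s : ℝ, s = i - 1605 := ⟨_, rfl⟩
        have hs0 : 0 ≤ s := by linarith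
        have e : (i : ℝ) = s + 1605 := by linarith
        rw [e]
        nlinarith [mul_nonneg hs0 hs0, mul_nonneg (mul_nonneg hs0 hs0) hs0]
      linarith
  apply le_of_sq_le_sq' _ (by positivity)
  refine hl.trans ?_
  rw [div_pow, div_le_div_iff₀ (by linarith) (by positivity)]
  linarith
where
  le_of_sq_le_sq' {a b : ℝ} (h : a ^ 2 ≤ b ^ 2) (hb : 0 ≤ b) : a ≤ b := by
    exact le_of_sq_le_sq h hb

/-- C2, `b` = load without the pending strip -/
theorem capacity_aux (i : ℕ) (hi : 1600 ≤ i) (l b : ℝ) (hl : l ^ 2 ≤ 1 / Nj (i - 1)) (hb : b ≤ 963 / 1000) :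
    l + b * (3 / (i : ℝ)) < ∑ n ∈ PP i, yu n := by
  have h1 := SY_ge_aux i hi
  have h2 := side_le i hi l hl
  have hi' : (1600 : ℝ) ≤ i := by exact_mod_cast hi
  have hip : (0 : ℝ) < i := by linarith
  refine lt_of_lt_of_le ?_ h1
  have h3 : b * (3 / (i : ℝ)) ≤ (963 / 1000) * (3 / i) := mul_le_mul_of_nonneg_right hb (by positivity)
  have h4 : 8 / (i : ℝ) ≤ 1 / 200 := by rw [div_le_div_iff₀ hip (by norm_num)]; linarith
  have h5 : (3 / (i : ℝ)) * (1 - 1 / 200) ≤ (3 / (i : ℝ)) * (1 - 8 / i) :=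
    mul_le_mul_of_nonneg_left (by linarith) (by positivity)
  have e1 : (93 / 1000) / (i : ℝ) + (963 / 1000) * (3 / i) + (1 / 5000) / i = (29822 / 10000) * (1 / i) := by ring
  have e2 : (3 / (i : ℝ)) * (1 - 1 / 200) = (2985 / 1000) * (1 / i) := by ring
  have h6 : (0 : ℝ) < 1 / i := by positivity
  nlinarith

/-- C3 -/
theorem capacity0_aux (i : ℕ) (hi : 1585 ≤ i) (hi' : i < 1600) (l : ℝ) (hl : l ^ 2 ≤ 1 / Nj (i - 1)) :
    l < ∑ n ∈ PP i, yu n := by
  have h0 := SY_lo i hi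
  have h1 : (1585 : ℝ) ≤ i := by exact_mod_cast hi
  have h2 : (i : ℝ) ≤ 1600 := by exact_mod_cast hi'.le
  have hN : Nj i = 300000000 := by
    unfold Nj
    rw [NN_real]
    apply max_eq_right
    have := TT_mono (by linarith) h2
    rw [TT_i0] at this
    exact this
  rw [hN] at h0
  have h3 : TT 1601 ≤ TT ((i : ℝ) + 16) := TT_mono (by norm_num) (by linarith)
  have h4 : (300500017 : ℝ) ≤ TT 1601 := by unfold TT; norm_num
  have h5 : Real.log ((300000017 : ℝ) * (1 + 500000 / 300000017)) ≤ Real.log (TT ((i : ℝ) + 16) + 1) :=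
    Real.log_le_log (by norm_num) (by norm_num; linarith)
  rw [Real.log_mul (by norm_num) (by norm_num)] at h5
  have h6 := Real.le_log_one_add_of_nonneg (x := (500000 : ℝ) / 300000017) (by norm_num)
  have h7 : (16 : ℝ) * (1 / 17000) < 2 * (500000 / 300000017) / (500000 / 300000017 + 2) := by norm_num
  have h8 : (300000000 : ℝ) + 17 = 300000017 := by norm_num
  rw [h8] at h0
  have h9 : l ≤ 1 / 17000 := by
    apply le_of_sq_le_sq _ (by norm_num)
    refine hl.trans ?_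
    have := Nj_ge_NN (i - 1)
    rw [div_pow, div_le_div_iff₀ (by linarith) (by norm_num)]
    linarith
  linarith

/-! ## the remaining area -/


theorem tele_area (a b : ℕ) (ha : 1 ≤ a) (hab : a ≤ b) :
    ∑ n ∈ Finset.Ico a b, xu n * yu n = 1 / (a : ℝ) - 1 / (b : ℝ) := by
  induction b, hab using Nat.le_induction with
  | base => simp
  | succ b hb ih =>
    rw [Finset.sum_Ico_succ_top hb, ih]
    unfold xu yu
    have h1 : (0 : ℝ) < b := by exact_mod_cast (by omega : 0 < b)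
    push_cast
    field_simp
    ring

/-- the slots used before the phase `i` -/
@[irreducible] def usedT (i : ℕ) : Finset ℕ := (Finset.Ico j0 i).biUnion PP

theorem usedT_sum (i : ℕ) (f : ℕ → ℝ) : ∑ n ∈ usedT i, f n = ∑ j ∈ Finset.Ico j0 i, ∑ n ∈ PP j, f n := by
  unfold usedT
  apply Finset.sum_biUnion
  intro a _ b _ hab
  rw [Function.onFun, Finset.disjoint_left]
  intro n h1 h2
  exact hab (PP_unique h1 h2)

/-- C5 -/
theorem rem_le_aux (i : ℕ) :
    1 / (NN : ℝ) - ∑ j ∈ Finset.Ico j0 i, ∑ n ∈ PP j, xu n * yu n ≤ 1 / Nj i := by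
  classical
  rw [← usedT_sum i (fun n => xu n * yu n)]
  set M := ⌈Nj i⌉₊ with hM
  have hN := Nj_ge_NN i
  have h1 : Nj i ≤ M := Nat.le_ceil _
  have hNM : NN ≤ M := by
    have : ((NN : ℕ) : ℝ) ≤ M := by rw [NN_real]; linarith
    exact_mod_cast this
  have hsub : Finset.Ico NN M ⊆ usedT i := by
    intro n hn
    rw [Finset.mem_Ico] at hn
    have h2 : (n : ℝ) < Nj i := Nat.lt_ceil.1 hn.2
    obtain ⟨j, hj, hnj⟩ := exists_PP hn.1
    unfold usedT
    rw [Finset.mem_biUnion]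
    refine ⟨j, Finset.mem_Ico.2 ⟨hj, ?_⟩, hnj⟩
    by_contra h
    push Not at h
    have h3 := (mem_PP_real hnj).2.2.2
    have h4 : Nj i ≤ Nj j := by
      unfold Nj
      apply max_le_max _ le_rfl
      apply TT_mono (Nat.cast_nonneg i)
      exact_mod_cast h
    linarith
  have h2 : ∑ n ∈ Finset.Ico NN M, xu n * yu n ≤ ∑ n ∈ usedT i, xu n * yu n := by
    apply Finset.sum_le_sum_of_subset_of_nonneg hsub
    intro n _ _
    unfold xu yu
    positivity
  rw [tele_area NN M (by unfold NN; norm_num) hNM] at h2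
  have h3 : 1 / (M : ℝ) ≤ 1 / Nj i := one_div_le_one_div_of_le (by linarith) h1
  linarith

/-- lower bound for the remaining area -/
theorem rem_ge_aux (i : ℕ) (hi : 1585 ≤ i) :
    1 / (TT ((i : ℝ) + 15) + 1) ≤ 1 / (NN : ℝ) - ∑ j ∈ Finset.Ico j0 i, ∑ n ∈ PP j, xu n * yu n := by
  classical
  rw [← usedT_sum i (fun n => xu n * yu n)]
  have hi' : (1585 : ℝ) ≤ i := by exact_mod_cast hi
  have hT : (300000000 : ℝ) ≤ TT ((i : ℝ) + 15) := by
    have : TT 1600 ≤ TT ((i : ℝ) + 15) := TT_mono (by norm_num) (by linarith)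
    rw [TT_i0] at this
    linarith
  set M := ⌈TT ((i : ℝ) + 15)⌉₊ with hM
  have h1 : (M : ℝ) < TT ((i : ℝ) + 15) + 1 := Nat.ceil_lt_add_one (by linarith)
  have h1' : TT ((i : ℝ) + 15) ≤ M := Nat.le_ceil _
  have hNM : NN ≤ M := by
    have : ((NN : ℕ) : ℝ) ≤ M := by rw [NN_real]; linarith
    exact_mod_cast this
  have hsub : usedT i ⊆ Finset.Ico NN M := by
    intro n hn
    unfold usedT at hn
    rw [Finset.mem_biUnion] at hn
    obtain ⟨j, hj, hnj⟩ := hn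
    rw [Finset.mem_Ico] at hj
    have h2 := mem_PP_real hnj
    rw [Finset.mem_Ico]
    refine ⟨(mem_PP.1 hnj).1, Nat.lt_ceil.2 (h2.2.1.trans_le ?_)⟩
    apply TT_mono (by positivity)
    have : (j : ℝ) + 1 ≤ i := by exact_mod_cast hj.2
    linarith
  have h2 : ∑ n ∈ usedT i, xu n * yu n ≤ ∑ n ∈ Finset.Ico NN M, xu n * yu n := by
    apply Finset.sum_le_sum_of_subset_of_nonneg hsub
    intro n _ _
    unfold xu yu
    positivity
  rw [tele_area NN M (by unfold NN; norm_num) hNM] at h2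
  have h3 : 1 / (TT ((i : ℝ) + 15) + 1) ≤ 1 / (M : ℝ) :=
    one_div_le_one_div_of_le (by linarith) h1.le
  linarith

/-- part of an arithmetic progression with difference `16` -/
theorem ap_up (n0 m : ℕ) (hn : 100 ≤ n0) :
    ∑ k ∈ Finset.range m, xu (n0 + 16 * k) * yu (n0 + 16 * k) ≤
      (1 / 16) * (1 / ((n0 : ℝ) - 8)) - (1 / 16) * (1 / ((n0 : ℝ) + 16 * m - 8)) := by
  have hn' : (100 : ℝ) ≤ n0 := by exact_mod_cast hn
  induction m with
  | zero => simp
  | succ m ih =>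
    rw [Finset.sum_range_succ]
    have hm : (0 : ℝ) ≤ m := Nat.cast_nonneg m
    have h1 : xu (n0 + 16 * m) * yu (n0 + 16 * m) ≤
        (1 / 16) * (1 / ((n0 : ℝ) + 16 * m - 8)) - (1 / 16) * (1 / ((n0 : ℝ) + 16 * ((m + 1 : ℕ) : ℝ) - 8)) := by
      unfold xu yu
      push_cast
      set x : ℝ := (n0 : ℝ) + 16 * m with hx
      have hx1 : 100 ≤ x := by rw [hx]; linarith
      have e1 : (n0 : ℝ) + 16 * ((m : ℝ) + 1) - 8 = x + 8 := by rw [hx]; ring
      rw [e1]
      have e2 : (1 / 16) * (1 / (x - 8)) - (1 / 16) * (1 / (x + 8)) = 1 / ((x - 8) * (x + 8)) := by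
        have h2 : x - 8 ≠ 0 := by intro h; linarith
        have h3 : x + 8 ≠ 0 := by intro h; linarith
        field_simp
        ring
      rw [e2, one_div_mul_one_div]
      have h4 : 0 < x - 8 := by linarith
      apply one_div_le_one_div_of_le (by positivity)
      nlinarith
    linarith

theorem ap_set_up (a b r : ℕ) (ha : 100 ≤ a) (hr : r < 16) :
    ∑ n ∈ (Finset.Ico a b).filter (fun n => n % 16 = r), xu n * yu n ≤
      (1 / 16) * (1 / ((a : ℝ) - 8)) - (1 / 16) * (1 / (((max a b : ℕ) : ℝ) + 8)) := by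
  classical
  obtain ⟨n0, hn0⟩ : ∃ n0, n0 = a + (r + 16 - a % 16) % 16 := ⟨_, rfl⟩
  obtain ⟨m, hm⟩ : ∃ m, m = (b + 15 - n0) / 16 := ⟨_, rfl⟩
  have ha' : (100 : ℝ) ≤ a := by exact_mod_cast ha
  have hset : (Finset.Ico a b).filter (fun n => n % 16 = r) = (Finset.range m).image (fun k => n0 + 16 * k) := by
    ext n
    rw [Finset.mem_filter, Finset.mem_Ico, Finset.mem_image]
    constructor
    · rintro ⟨⟨h1, h2⟩, h3⟩
      refine ⟨(n - n0) / 16, Finset.mem_range.2 (by omega), by omega⟩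
    · rintro ⟨k, hk, rfl⟩
      rw [Finset.mem_range] at hk
      refine ⟨⟨by omega, by omega⟩, by omega⟩
  rw [hset, Finset.sum_image (by intro x _ y _ hxy; simp only at hxy; omega)]
  rcases Nat.eq_zero_or_pos m with h0 | h0
  · rw [h0, Finset.range_zero, Finset.sum_empty, sub_nonneg]
    have h1 : (a : ℝ) ≤ ((max a b : ℕ) : ℝ) := by exact_mod_cast le_max_left a b
    have := one_div_le_one_div_of_le (show (0 : ℝ) < a - 8 by linarith) (show (a : ℝ) - 8 ≤ ((max a b : ℕ) : ℝ) + 8 by linarith)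
    linarith
  · refine (ap_up n0 m (by omega)).trans ?_
    have h1 : (a : ℝ) ≤ n0 := by exact_mod_cast (by omega : a ≤ n0)
    have h2 : n0 + 16 * m ≤ max a b + 15 := by
      have := le_max_right a b
      omega
    have h2' : (n0 : ℝ) + 16 * m ≤ ((max a b : ℕ) : ℝ) + 15 := by exact_mod_cast h2
    have h3 : 1 / ((n0 : ℝ) - 8) ≤ 1 / ((a : ℝ) - 8) := one_div_le_one_div_of_le (by linarith) (by linarith)
    have hm0 : (0 : ℝ) ≤ m := Nat.cast_nonneg m
    have h4 : 1 / (((max a b : ℕ) : ℝ) + 8) ≤ 1 / ((n0 : ℝ) + 16 * m - 8) :=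
      one_div_le_one_div_of_le (by linarith) (by linarith)
    linarith

/-- better lower bound for the remaining area -/
theorem rem_ge2_aux (i : ℕ) (hi : 1585 ≤ i) (M : ℕ) (hM : M = ⌈Nj i⌉₊) :
    1 / (M : ℝ) - (15 / 16) * (1 / ((M : ℝ) - 8)) +
      ∑ s ∈ Finset.Icc (1 : ℕ) 15, (1 / 16) * (1 / (((max M ⌈TT ((i : ℝ) + (s : ℝ))⌉₊ : ℕ) : ℝ) + 8)) ≤
      1 / (NN : ℝ) - ∑ j ∈ Finset.Ico j0 i, ∑ n ∈ PP j, xu n * yu n := by
  classical
  rw [← usedT_sum i (fun n => xu n * yu n)]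
  have hi' : (1585 : ℝ) ≤ i := by exact_mod_cast hi
  have hN := Nj_ge_NN i
  have h1 : Nj i ≤ M := by rw [hM]; exact Nat.le_ceil _
  have hNM : NN ≤ M := by
    have : ((NN : ℕ) : ℝ) ≤ M := by rw [NN_real]; linarith
    exact_mod_cast this
  have hnn : ∀ n : ℕ, 0 ≤ xu n * yu n := by
    intro n; unfold xu yu; positivity
  set A : ℕ → Finset ℕ := fun s => (Finset.Ico M ⌈TT ((i : ℝ) + s)⌉₊).filter (fun n => n % 16 = (i + s) % 16) with hA
  have hsub : usedT i ⊆ Finset.Ico NN M ∪ (Finset.Icc 1 15).biUnion A := by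
    intro n hn
    unfold usedT at hn
    rw [Finset.mem_biUnion] at hn
    obtain ⟨j, hj, hnj⟩ := hn
    rw [Finset.mem_Ico] at hj
    have h2 := mem_PP_real hnj
    have h3 := mem_PP.1 hnj
    rw [Finset.mem_union]
    by_cases hlt : n < M
    · left; exact Finset.mem_Ico.2 ⟨h3.1, hlt⟩
    · right
      push Not at hlt
      have h4 : (M : ℝ) ≤ n := by exact_mod_cast hlt
      have h5 : TT (i : ℝ) ≤ n := by
        have := Nj_ge_TT i
        linarith
      have h6 : i < j + 16 := by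
        by_contra hc
        push Not at hc
        have hc' : (j : ℝ) + 16 ≤ i := by exact_mod_cast hc
        have := TT_mono (by positivity) hc'
        linarith [h2.2.1]
      rw [Finset.mem_biUnion]
      refine ⟨j + 16 - i, Finset.mem_Icc.2 (by omega), ?_⟩
      rw [hA]
      simp only [Finset.mem_filter, Finset.mem_Ico]
      have h7 : i + (j + 16 - i) = j + 16 := by omega
      refine ⟨⟨hlt, Nat.lt_ceil.2 ?_⟩, by rw [h7]; omega⟩
      have h8 : (i : ℝ) + ((j + 16 - i : ℕ) : ℝ) = (j : ℝ) + 16 := by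
        have : ((i + (j + 16 - i) : ℕ) : ℝ) = ((j + 16 : ℕ) : ℝ) := by rw [h7]
        push_cast at this
        exact this
      rw [h8]
      exact h2.2.1
  have h2 : ∑ n ∈ usedT i, xu n * yu n ≤
      ∑ n ∈ Finset.Ico NN M, xu n * yu n + ∑ s ∈ Finset.Icc 1 15, ∑ n ∈ A s, xu n * yu n := by
    calc ∑ n ∈ usedT i, xu n * yu n ≤ ∑ n ∈ Finset.Ico NN M ∪ (Finset.Icc 1 15).biUnion A, xu n * yu n :=
          Finset.sum_le_sum_of_subset_of_nonneg hsub (fun n _ _ => hnn n)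
      _ ≤ ∑ n ∈ Finset.Ico NN M, xu n * yu n + ∑ n ∈ (Finset.Icc 1 15).biUnion A, xu n * yu n := by
          rw [← Finset.sum_union_inter]
          have : 0 ≤ ∑ n ∈ Finset.Ico NN M ∩ (Finset.Icc 1 15).biUnion A, xu n * yu n :=
            Finset.sum_nonneg (fun n _ => hnn n)
          linarith
      _ ≤ _ := by
          have := Finset.sum_biUnion_le_sum_of_nonneg A
          linarith
  rw [tele_area NN M (by unfold NN; norm_num) hNM] at h2
  have h3 : ∑ s ∈ Finset.Icc (1 : ℕ) 15, ∑ n ∈ A s, xu n * yu n ≤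
      ∑ s ∈ Finset.Icc (1 : ℕ) 15, ((1 / 16) * (1 / ((M : ℝ) - 8)) -
        (1 / 16) * (1 / (((max M ⌈TT ((i : ℝ) + (s : ℝ))⌉₊ : ℕ) : ℝ) + 8))) := by
    apply Finset.sum_le_sum
    intro s _
    exact ap_set_up M _ _ (by unfold NN at hNM; omega) (Nat.mod_lt _ (by norm_num))
  rw [Finset.sum_sub_distrib, Finset.sum_const, Nat.card_Icc, nsmul_eq_mul] at h3
  push_cast at h3 ⊢
  linarith
where
  Finset.sum_biUnion_le_sum_of_nonneg (A : ℕ → Finset ℕ) :
      ∑ n ∈ (Finset.Icc 1 15).biUnion A, xu n * yu n ≤ ∑ s ∈ Finset.Icc 1 15, ∑ n ∈ A s, xu n * yu n := by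
    classical
    have hnn : ∀ n : ℕ, 0 ≤ xu n * yu n := by
      intro n; unfold xu yu; positivity
    induction (Finset.Icc 1 15 : Finset ℕ) using Finset.induction_on with
    | empty => simp
    | insert a S ha ih =>
      rw [Finset.biUnion_insert, Finset.sum_insert ha]
      have h1 : ∑ n ∈ A a ∪ S.biUnion A, xu n * yu n ≤ ∑ n ∈ A a, xu n * yu n + ∑ n ∈ S.biUnion A, xu n * yu n := by
        rw [← Finset.sum_union_inter]
        have : 0 ≤ ∑ n ∈ A a ∩ S.biUnion A, xu n * yu n :=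
          Finset.sum_nonneg (fun n _ => hnn n)
        linarith
      linarith

/-! ## the area of the thin things -/

theorem sum_le_tele (F : Finset ℕ) (m : ℕ) (hF : ∀ K ∈ F, m ≤ K) (f g : ℕ → ℝ) (hf : ∀ K, m ≤ K → 0 ≤ f K)
    (hg : ∀ K, m ≤ K → f K ≤ g K - g (K + 1)) (hg0 : ∀ K, m ≤ K → 0 ≤ g K) : ∑ K ∈ F, f K ≤ g m := by
  classical
  obtain ⟨M, hM⟩ : ∃ M, ∀ K ∈ F, K < m + M := by
    refine ⟨F.sup id + 1, fun K hK => ?_⟩
    have := Finset.le_sup (f := id) hK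
    simp only [id] at this
    omega
  have h1 : ∑ K ∈ F, f K ≤ ∑ K ∈ Finset.Ico m (m + M), f K := by
    apply Finset.sum_le_sum_of_subset_of_nonneg
    · intro K hK
      exact Finset.mem_Ico.2 ⟨hF K hK, hM K hK⟩
    · intro K hK _
      exact hf K (Finset.mem_Ico.1 hK).1
  have h2 : ∑ K ∈ Finset.Ico m (m + M), f K ≤ g m - g (m + M) := by
    clear h1 hM
    induction M with
    | zero => simp
    | succ M ih =>
      rw [← Nat.add_assoc, Finset.sum_Ico_succ_top (by omega)]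
      have := hg (m + M) (by omega)
      rw [Nat.add_assoc] at this ⊢
      linarith
  have h3 := hg0 (m + M) (by omega)
  linarith

/-- `1 / TT (K - 3/2)` -/
noncomputable def sT (K : ℕ) : ℝ := 1 / TT ((K : ℝ) - 3 / 2)

theorem cls_term (K : ℕ) (hK : 1600 ≤ K) : Th (K - 1) * (3 / (K : ℝ)) ≤ sT K - sT (K + 1) := by
  have h1 : (1600 : ℝ) ≤ K := by exact_mod_cast hK
  have e1 : ((K - 1 : ℕ) : ℝ) = (K : ℝ) - 1 := by rw [Nat.cast_sub (by omega)]; simp
  unfold sT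
  rw [Th_eq, e1]
  push_cast
  have e2 : (K : ℝ) - 1 - 1 / 5 = K - 6 / 5 := by ring
  have e3 : (K : ℝ) + 1 - 3 / 2 = K - 1 / 2 := by ring
  rw [e2, e3]
  unfold TT
  set a := (K : ℝ) - 1 with ha
  have ha1 : (1599 : ℝ) ≤ a := by linarith
  have e4 : (K : ℝ) - 6 / 5 = a - 1 / 5 := by rw [ha]; ring
  have e5 : (K : ℝ) - 3 / 2 = a - 1 / 2 := by rw [ha]; ring
  have e6 : (K : ℝ) - 1 / 2 = a + 1 / 2 := by rw [ha]; ring
  have e7 : (K : ℝ) = a + 1 := by rw [ha]; ring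
  rw [e4, e5, e6, e7]
  have hA : 1 / (75 * (a - 1 / 5) ^ 3 / 1024) * (3 / (a + 1)) ≤ (1024 / 75) * (3 / a ^ 4) := by
    have h2 : a ^ 4 ≤ (a - 1 / 5) ^ 3 * (a + 1) := by nlinarith [mul_nonneg (by linarith : (0:ℝ) ≤ a - 1599) (by positivity : (0:ℝ) ≤ a ^ 2)]
    have h3 : 1 / (75 * (a - 1 / 5) ^ 3 / 1024) * (3 / (a + 1)) = (1024 / 75) * (3 / ((a - 1 / 5) ^ 3 * (a + 1))) := by
      have : (a - 1 / 5) ≠ 0 := by intro h; linarith
      have : a + 1 ≠ 0 := by intro h; linarith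
      field_simp
    rw [h3]
    apply mul_le_mul_of_nonneg_left _ (by norm_num)
    apply div_le_div_of_nonneg_left (by norm_num) (by positivity) h2
  have hB : (1024 / 75) * (3 / a ^ 4) ≤ 1 / (75 * (a - 1 / 2) ^ 3 / 1024) - 1 / (75 * (a + 1 / 2) ^ 3 / 1024) := by
    have h4 : 0 < a - 1 / 2 := by linarith
    have h5 : 0 < a + 1 / 2 := by linarith
    have e8 : 1 / (75 * (a - 1 / 2) ^ 3 / 1024) - 1 / (75 * (a + 1 / 2) ^ 3 / 1024) =
        (1024 / 75) * ((3 * a ^ 2 + 1 / 4) / ((a - 1 / 2) ^ 3 * (a + 1 / 2) ^ 3)) := by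
      have e10 : 3 * a ^ 2 + 1 / 4 = (a + 1 / 2) ^ 3 - (a - 1 / 2) ^ 3 := by ring
      rw [e10]
      have hu : 0 < (a - 1 / 2) ^ 3 := by positivity
      have hv : 0 < (a + 1 / 2) ^ 3 := by positivity
      generalize (a - 1 / 2) ^ 3 = u at hu
      generalize (a + 1 / 2) ^ 3 = v at hv
      field_simp
    rw [e8]
    apply mul_le_mul_of_nonneg_left _ (by norm_num)
    rw [div_le_div_iff₀ (by positivity) (by positivity)]
    have e9 : (a - 1 / 2) ^ 3 * (a + 1 / 2) ^ 3 = (a ^ 2 - 1 / 4) ^ 3 := by ring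
    rw [e9]
    have h6 : (1 : ℝ) ≤ a ^ 2 := by nlinarith
    have e10 : (3 * a ^ 2 + 1 / 4) * a ^ 4 - 3 * (a ^ 2 - 1 / 4) ^ 3 =
        (5 / 2) * (a ^ 2) ^ 2 - (9 / 16) * a ^ 2 + 3 / 64 := by ring
    nlinarith
  linarith

theorem sT_nonneg (K : ℕ) (hK : 1600 ≤ K) : 0 ≤ sT K := by
  have h1 : (1600 : ℝ) ≤ K := by exact_mod_cast hK
  unfold sT
  have := TT_pos (x := (K : ℝ) - 3 / 2) (by linarith)
  positivity

theorem cls_sum (F : Finset ℕ) (m : ℕ) (hm : 1600 ≤ m) (hF : ∀ K ∈ F, m ≤ K) :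
    ∑ K ∈ F, Th (K - 1) * (3 / (K : ℝ)) ≤ sT m := by
  apply sum_le_tele F m hF
  · intro K hK
    have := Th_pos (K := K - 1) (by omega)
    positivity
  · intro K hK
    exact cls_term K (by omega)
  · intro K hK
    exact sT_nonneg K (by omega)

theorem sT_le (m : ℕ) (M c : ℝ) (hM : 1600 ≤ M) (hm : M ≤ m) (hc : M ^ 3 ≤ c * (M - 3 / 2) ^ 3) :
    sT m ≤ c / TT (m : ℝ) := by
  have h0 : (0 : ℝ) < m := by linarith
  unfold sT
  rw [div_le_div_iff₀ (TT_pos (by linarith)) (TT_pos h0)]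
  unfold TT
  -- `(m / (m - 3/2)) ≤ M / (M - 3/2)`
  have h1 : (m : ℝ) * (M - 3 / 2) ≤ M * (m - 3 / 2) := by nlinarith
  have h2 : ((m : ℝ) * (M - 3 / 2)) ^ 3 ≤ (M * (m - 3 / 2)) ^ 3 :=
    pow_le_pow_left₀ (mul_nonneg h0.le (by linarith)) h1 3
  have h3 : 0 < (M - 3 / 2) ^ 3 := pow_pos (by linarith) 3
  have h4 : 0 < ((m : ℝ) - 3 / 2) ^ 3 := pow_pos (by linarith) 3
  have h5 : (m : ℝ) ^ 3 * (M - 3 / 2) ^ 3 ≤ (c * (m - 3 / 2) ^ 3) * (M - 3 / 2) ^ 3 := by
    calc (m : ℝ) ^ 3 * (M - 3 / 2) ^ 3 = ((m : ℝ) * (M - 3 / 2)) ^ 3 := by ring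
      _ ≤ (M * (m - 3 / 2)) ^ 3 := h2
      _ = M ^ 3 * (m - 3 / 2) ^ 3 := by ring
      _ ≤ (c * (M - 3 / 2) ^ 3) * (m - 3 / 2) ^ 3 := mul_le_mul_of_nonneg_right hc h4.le
      _ = (c * (m - 3 / 2) ^ 3) * (M - 3 / 2) ^ 3 := by ring
  have h6 := le_of_mul_le_mul_right h5 h3
  linarith

theorem Nj_eq_max (i : ℕ) : Nj i = TT ((max i 1600 : ℕ) : ℝ) := by
  unfold Nj
  rw [NN_real]
  rcases le_total i 1600 with h | h
  · rw [max_eq_right h]
    push_cast
    rw [TT_i0]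
    apply max_eq_right
    have := TT_mono (Nat.cast_nonneg i) (by exact_mod_cast h : (i : ℝ) ≤ (1600 : ℕ))
    push_cast at this
    rw [TT_i0] at this
    exact this
  · rw [max_eq_left h]
    apply max_eq_left
    have h' : (1600 : ℝ) ≤ i := by exact_mod_cast h
    have := TT_mono (by norm_num) h'
    rw [TT_i0] at this
    exact this

theorem Th_le_Nj (i : ℕ) (hi : 1585 ≤ i) : Th (i - 1) ≤ (104 / 100) / Nj i := by
  have h1 : (1585 : ℝ) ≤ i := by exact_mod_cast hi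
  have e1 : ((i - 1 : ℕ) : ℝ) = (i : ℝ) - 1 := by rw [Nat.cast_sub (by omega)]; simp
  have hN := Nj_ge_NN i
  rw [Th_eq, e1, div_le_div_iff₀ (TT_pos (by linarith)) (by linarith)]
  have e2 : (i : ℝ) - 1 - 1 / 5 = i - 6 / 5 := by ring
  rw [e2]
  rcases le_total i 1600 with h | h
  · have h2 : (i : ℝ) ≤ 1600 := by exact_mod_cast h
    have h3 : Nj i = 300000000 := by
      rw [Nj_eq_max, max_eq_right h]
      push_cast
      exact TT_i0
    rw [h3]
    have h4 : TT (1585 - 6 / 5) ≤ TT ((i : ℝ) - 6 / 5) := TT_mono (by norm_num) (by linarith)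
    have h5 : (289000000 : ℝ) ≤ TT (1585 - 6 / 5) := by unfold TT; norm_num
    linarith
  · have h2 : (1600 : ℝ) ≤ i := by exact_mod_cast h
    have h3 : Nj i = TT (i : ℝ) := by rw [Nj_eq_max, max_eq_left h]
    rw [h3]
    unfold TT
    obtain ⟨s, hs⟩ : ∃ s : ℝ, s = i - 1600 := ⟨_, rfl⟩
    have hs0 : 0 ≤ s := by linarith
    have e : (i : ℝ) = s + 1600 := by linarith
    rw [e]
    nlinarith [mul_nonneg hs0 hs0, mul_nonneg (mul_nonneg hs0 hs0) hs0]

/-- the remaining area, `m = max i 1600` -/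
theorem rem_ge3_aux (i : ℕ) (hi : 1585 ≤ i) :
    (1 - (45 / 2) / ((max i 1600 : ℕ) : ℝ) - 1 / 1000000) * (1 / Nj i) ≤
      1 / (NN : ℝ) - ∑ j ∈ Finset.Ico j0 i, ∑ n ∈ PP j, xu n * yu n := by
  refine le_trans ?_ (rem_ge2_aux i hi _ rfl)
  set m := max i 1600 with hm
  have hm1 : 1600 ≤ m := le_max_right _ _
  have hm2 : i ≤ m := le_max_left _ _
  have hm1' : (1600 : ℝ) ≤ m := by exact_mod_cast hm1
  have hNm : Nj i = TT (m : ℝ) := Nj_eq_max i
  have hN := Nj_ge_NN i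
  set N := Nj i with hNdef
  have hNp : 0 < N := by linarith
  obtain ⟨M, hM⟩ : ∃ M, M = ⌈N⌉₊ := ⟨_, rfl⟩
  rw [← hM]
  have hM1 : (M : ℝ) < N + 1 := by rw [hM]; exact Nat.ceil_lt_add_one hNp.le
  have hM2 : N ≤ M := by rw [hM]; exact Nat.le_ceil _
  have a1 : (1 - 1 / 100000000) * (1 / N) ≤ 1 / (M : ℝ) := by
    rw [mul_one_div, div_le_div_iff₀ hNp (by linarith)]
    nlinarith
  have a2 : 1 / ((M : ℝ) - 8) ≤ (1 + 1 / 10000000) * (1 / N) := by
    rw [mul_one_div, div_le_div_iff₀ (by linarith) hNp]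
    nlinarith
  have a3 : ∀ s ∈ Finset.Icc (1 : ℕ) 15, (1 / 16) * ((1 - 3 * (s : ℝ) / m - 1 / 10000000) * (1 / N)) ≤
      (1 / 16) * (1 / (((max M ⌈TT ((i : ℝ) + (s : ℝ))⌉₊ : ℕ) : ℝ) + 8)) := by
    intro s hs
    rw [Finset.mem_Icc] at hs
    have hs1 : (1 : ℝ) ≤ s := by exact_mod_cast hs.1
    have hs2 : (s : ℝ) ≤ 15 := by exact_mod_cast hs.2
    apply mul_le_mul_of_nonneg_left _ (by norm_num)
    have him : (i : ℝ) ≤ m := by exact_mod_cast hm2
    have hT1 : TT ((i : ℝ) + s) ≤ TT ((m : ℝ) + s) := TT_mono (by positivity) (by linarith)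
    have hT2 : TT (m : ℝ) ≤ TT ((m : ℝ) + s) := TT_mono (by linarith) (by linarith)
    have hc : (⌈TT ((i : ℝ) + (s : ℝ))⌉₊ : ℝ) < TT ((i : ℝ) + s) + 1 :=
      Nat.ceil_lt_add_one (TT_pos (by positivity)).le
    have hmax : ((max M ⌈TT ((i : ℝ) + (s : ℝ))⌉₊ : ℕ) : ℝ) ≤ TT ((m : ℝ) + s) + 1 := by
      push_cast
      apply max_le <;> linarith
    have hTs : TT ((m : ℝ) + s) = N * (1 + s / m) ^ 3 := by
      rw [hNm]; unfold TT; field_simp
    have hpos : 0 < TT ((m : ℝ) + s) := TT_pos (by linarith)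
    refine le_trans ?_ (one_div_le_one_div_of_le (by positivity) (by linarith : ((max M ⌈TT ((i : ℝ) + (s : ℝ))⌉₊ : ℕ) : ℝ) + 8 ≤ TT ((m : ℝ) + s) + 9))
    rw [mul_one_div, div_le_div_iff₀ hNp (by linarith), hTs]
    have e : 3 * (s : ℝ) / m = 3 * (s / m) := by ring
    rw [e]
    set u := (s : ℝ) / m with hu
    have hu0 : 0 ≤ u := by positivity
    have hu1 : u ≤ 1 / 100 := by
      rw [hu, div_le_div_iff₀ (by linarith) (by norm_num)]; linarith
    have h5 : (1 + u) ^ 3 * (1 - 3 * u) ≤ 1 := by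
      have : (1 + u) ^ 3 * (1 - 3 * u) = 1 - (6 * u ^ 2 + 8 * u ^ 3 + 3 * u ^ 4) := by ring
      rw [this]
      have : 0 ≤ 6 * u ^ 2 + 8 * u ^ 3 + 3 * u ^ 4 := by positivity
      linarith
    have h6 : 1 ≤ (1 + u) ^ 3 := one_le_pow₀ (by linarith)
    have h7 : N * ((1 + u) ^ 3 * (1 - 3 * u)) ≤ N * 1 := mul_le_mul_of_nonneg_left h5 hNp.le
    have h8 : N * 1 ≤ N * (1 + u) ^ 3 := mul_le_mul_of_nonneg_left h6 hNp.le
    nlinarith
  have a4 := Finset.sum_le_sum a3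
  have a5 : ∑ s ∈ Finset.Icc (1 : ℕ) 15, (1 / 16) * ((1 - 3 * (s : ℝ) / m - 1 / 10000000) * (1 / N)) =
      (15 / 16 - (45 / 2) / m - (15 / 16) / 10000000) * (1 / N) := by
    have : ∀ s : ℕ, (1 / 16) * ((1 - 3 * (s : ℝ) / m - 1 / 10000000) * (1 / N)) =
        (1 / 16) * (1 - 1 / 10000000) * (1 / N) - (3 / 16) / m * (1 / N) * s := by
      intro s; ring
    have hs : ∑ s ∈ Finset.Icc (1 : ℕ) 15, (s : ℝ) = 120 := by
      have : Finset.Icc (1 : ℕ) 15 = {1, 2, 3, 4, 5, 6, 7, 8, 9, 10, 11, 12, 13, 14, 15} := by decide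
      rw [this]
      norm_num
    have hs' : ∑ s ∈ Finset.Icc (1 : ℕ) 15, (3 / 16) / (m : ℝ) * (1 / N) * (s : ℝ) = (3 / 16) / m * (1 / N) * 120 := by
      rw [← Finset.mul_sum, hs]
    rw [Finset.sum_congr rfl (fun s _ => this s), Finset.sum_sub_distrib, hs', Finset.sum_const, Nat.card_Icc,
      nsmul_eq_mul]
    push_cast
    ring
  rw [a5] at a4
  have hw : 0 < 1 / N := by positivity
  nlinarith

/-- C6 (with `9/10`) -/
theorem area_bound9_aux (i : ℕ) (hi : 1585 ≤ i) (F : Finset ℕ) (hF : ∀ K ∈ F, max i 1600 ≤ K) (l : ℝ)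
    (hl : l ^ 2 ≤ 1 / Nj (i - 1)) :
    ∑ K ∈ F, Th (K - 1) * ((9 / 10 + (if K < 425000 then 0 else 37 / 2000) + 1 / 25) * (3 / (K : ℝ))) +
      Th (i - 1) * l + (9 / 250) / Nj i ≤
      1 / (NN : ℝ) - ∑ j ∈ Finset.Ico j0 i, ∑ n ∈ PP j, xu n * yu n := by
  classical
  have hN := Nj_ge_NN i
  have hNp : 0 < Nj i := by linarith
  have hw : 0 < 1 / Nj i := by positivity
  have hrem := rem_ge3_aux i hi
  set m := max i 1600 with hm
  have hm1 : 1600 ≤ m := le_max_right _ _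
  have hm2 : i ≤ m := le_max_left _ _
  have hm1' : (1600 : ℝ) ≤ m := by exact_mod_cast hm1
  have hNm : Nj i = TT (m : ℝ) := Nj_eq_max i
  -- the pending strip
  have h9 : l ≤ 1 / 17000 := by
    apply le_of_sq_le_sq _ (by norm_num)
    refine hl.trans ?_
    have := Nj_ge_NN (i - 1)
    rw [div_pow, div_le_div_iff₀ (by linarith) (by norm_num)]
    linarith
  have hpend : Th (i - 1) * l ≤ (7 / 100000) * (1 / Nj i) := by
    have h1 := Th_le_Nj i hi
    have h2 : 0 < Th (i - 1) := Th_pos (by omega)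
    have h3 : Th (i - 1) * l ≤ Th (i - 1) * (1 / 17000) := mul_le_mul_of_nonneg_left h9 h2.le
    have e : (104 / 100) / Nj i = (104 / 100) * (1 / Nj i) := by ring
    rw [e] at h1
    linarith
  -- the classes
  have hsplit : ∑ K ∈ F, Th (K - 1) * ((9 / 10 + (if K < 425000 then 0 else 37 / 2000) + 1 / 25) * (3 / (K : ℝ))) =
      (94 / 100) * ∑ K ∈ F, Th (K - 1) * (3 / (K : ℝ)) +
      (37 / 2000) * ∑ K ∈ F.filter (fun K => ¬ K < 425000), Th (K - 1) * (3 / (K : ℝ)) := by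
    rw [Finset.sum_filter, Finset.mul_sum, Finset.mul_sum, ← Finset.sum_add_distrib]
    apply Finset.sum_congr rfl
    intro K _
    split_ifs <;> ring
  have hs1 := cls_sum F m hm1 hF
  have hs2 := cls_sum (F.filter (fun K => ¬ K < 425000)) (max m 425000) (by omega) (by
    intro K hK
    rw [Finset.mem_filter] at hK
    have := hF K hK.1
    omega)
  rw [hsplit]
  have e9 : (9 / 250) / Nj i = (36 / 1000) * (1 / Nj i) := by ring
  rw [e9]
  by_cases hbig : m < 10000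
  · -- small classes
    have h1 : sT m ≤ (1003 / 1000) / TT (m : ℝ) := sT_le m 1600 _ le_rfl hm1' (by norm_num)
    have h2 : sT (max m 425000) ≤ (1 / 10000) / TT (m : ℝ) := by
      have e : max m 425000 = 425000 := by omega
      rw [e]
      unfold sT
      have h3 : (m : ℝ) ≤ 10000 := by exact_mod_cast hbig.le
      have h4 : TT (m : ℝ) ≤ TT 10000 := TT_mono (by linarith) h3
      have h5 : 0 < TT (m : ℝ) := TT_pos (by linarith)
      push_cast
      rw [div_le_div_iff₀ (TT_pos (by norm_num)) h5]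
      have h6 : TT 10000 ≤ (1 / 10000) * TT ((425000 : ℝ) - 3 / 2) := by unfold TT; norm_num
      linarith
    have h3 : (985 / 1000) * (1 / Nj i) ≤ (1 - (45 / 2) / (m : ℝ) - 1 / 1000000) * (1 / Nj i) := by
      apply mul_le_mul_of_nonneg_right _ hw.le
      have : (45 / 2) / (m : ℝ) ≤ (45 / 2) / 1600 := div_le_div_of_nonneg_left (by norm_num) (by norm_num) hm1'
      have e : (45 / 2 : ℝ) / 1600 = 9 / 640 := by norm_num
      rw [e] at this
      linarith
    rw [← hNm] at h1 h2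
    have e1 : (1003 / 1000) / Nj i = (1003 / 1000) * (1 / Nj i) := by ring
    have e2 : (1 / 10000) / Nj i = (1 / 10000) * (1 / Nj i) := by ring
    rw [e1] at h1
    rw [e2] at h2
    linarith
  · push Not at hbig
    have hbig' : (10000 : ℝ) ≤ m := by exact_mod_cast hbig
    have h1 : sT m ≤ (10005 / 10000) / TT (m : ℝ) := sT_le m 10000 _ (by norm_num) hbig' (by norm_num)
    have h2 : sT (max m 425000) ≤ sT m := by
      unfold sT
      have h3 : (m : ℝ) ≤ ((max m 425000 : ℕ) : ℝ) := by exact_mod_cast le_max_left _ _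
      apply one_div_le_one_div_of_le (TT_pos (by linarith))
      exact TT_mono (by linarith) (by linarith)
    have h3 : (9975 / 10000) * (1 / Nj i) ≤ (1 - (45 / 2) / (m : ℝ) - 1 / 1000000) * (1 / Nj i) := by
      apply mul_le_mul_of_nonneg_right _ hw.le
      have : (45 / 2) / (m : ℝ) ≤ (45 / 2) / 10000 := div_le_div_of_nonneg_left (by norm_num) (by norm_num) hbig'
      have e : (45 / 2 : ℝ) / 10000 = 9 / 4000 := by norm_num
      rw [e] at this
      linarith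
    rw [← hNm] at h1
    have e1 : (10005 / 10000) / Nj i = (10005 / 10000) * (1 / Nj i) := by ring
    rw [e1] at h1
    linarith

/-- C6 (with `443/500`) -/
theorem area_bound_aux (i : ℕ) (hi : 1585 ≤ i) (F : Finset ℕ) (hF : ∀ K ∈ F, max i 1600 ≤ K) (l : ℝ)
    (hl : l ^ 2 ≤ 1 / Nj (i - 1)) :
    ∑ K ∈ F, Th (K - 1) * ((443 / 500 + (if K < 425000 then 0 else 37 / 2000) + 1 / 25) * (3 / (K : ℝ))) +
      Th (i - 1) * l + (9 / 250) / Nj i ≤
      1 / (NN : ℝ) - ∑ j ∈ Finset.Ico j0 i, ∑ n ∈ PP j, xu n * yu n := by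
  refine le_trans ?_ (area_bound9_aux i hi F hF l hl)
  have h : ∑ K ∈ F, Th (K - 1) * ((443 / 500 + (if K < 425000 then 0 else 37 / 2000) + 1 / 25) * (3 / (K : ℝ))) ≤
      ∑ K ∈ F, Th (K - 1) * ((9 / 10 + (if K < 425000 then 0 else 37 / 2000) + 1 / 25) * (3 / (K : ℝ))) := by
    apply Finset.sum_le_sum
    intro K hK
    have h1 := hF K hK
    have h2 : 0 < Th (K - 1) := Th_pos (by omega)
    have h3 : (0 : ℝ) ≤ 3 / K := by positivity
    apply mul_le_mul_of_nonneg_left _ h2.le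
    apply mul_le_mul_of_nonneg_right _ h3
    split_ifs <;> norm_num
  linarith

end Pool.Agent.MM2
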