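import Pool.Agent.MP_94f265_co.MM2.NumLoad
import Pool.Agent.MP_94f265_co.MM2.NumPsi
import Pool.Agent.MP_94f265_co.MM2.NumC
import Pool.Agent.MP_94f265_co.MM2.NumR
import Pool.Agent.MP_94f265_co.MM2.CountL

/-!
# Numbers of the tail (block NUM): final statements

L1 `om_le'`, L2 `gmax_le`, L3 `gmax_le_Th`, L4 `gmax_anti`, L5 `gmin_ge`, L7 `gmin_facts`, L9 `pot_price` (`NumL`),
L6 `slot_gap`, L8 `last_class` (`NumC`), `sum_cL_le` (`NumLoad`), `sum_dPsi_le` (`NumPsi`).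
-/

namespace Pool.Agent.MM2

/-- the bits, as a multiple of `3 / K` -/
noncomputable def bitB (K : ℕ) : ℝ := if K < 425000 then 0 else 37 / 2000

/-- the length of all slots of a phase -/
noncomputable def SY (i : ℕ) : ℝ := ∑ n ∈ PP i, yu n

/-- bits -/
theorem sum_cP_bit (K i : ℕ) (hK : i0 ≤ K) : ∑ j ∈ Finset.Ico j0 i, cP j K ≤ bitB K * (3 / K) :=
  sum_cP_range (by unfold i0 at hK; omega) i

/-- C1 -/
theorem SY_le (i : ℕ) (hi : j0 ≤ i) : SY i ≤ (1005 / 1000) * (3 / (i : ℝ)) := SY_le_aux i hi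

/-- C2: everything that is due fits -/
theorem capacity (i : ℕ) (hi : i0 ≤ i) (l : ℝ) (hl : l ^ 2 ≤ 1 / Nj (i - 1)) :
    l + (9 / 10 + bitB i + 1 / 25) * (3 / (i : ℝ)) < SY i := by
  apply capacity_aux i hi l _ hl
  unfold bitB
  split_ifs <;> norm_num

/-- C3: partial phases -/
theorem capacity0 (i : ℕ) (hi : j0 ≤ i) (hi' : i < i0) (l : ℝ) (hl : l ^ 2 ≤ 1 / Nj (i - 1)) : l < SY i :=
  capacity0_aux i hi hi' l hl

/-- C4: the rows fit in the box -/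
theorem rows_fit (i : ℕ) (hi : j0 ≤ i) (X Y : ℝ) (hX : 0 < X) (hXY : X ≤ Y) (hYX : Y ≤ 2 * X)
    (hA : (9 / 250) / Nj i ≤ X * Y) :
    0 < X - del i - yM i ∧ (SY i / (X - del i - yM i) + 1) * Th i ≤ X / 4 ∧
      SY i / (X - del i - yM i) + 2 ≤ rowsB i :=
  Num.rows_fit i hi (SY i) (Finset.sum_nonneg (fun n _ => by unfold yu; positivity)) (SY_le i hi) X Y hX hXY hYX hA

/-- C5 -/
theorem rem_le (i : ℕ) (hi : j0 ≤ i) : rem i ≤ 1 / Nj i := rem_le_aux i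

/-- C6: the box never vanishes -/
theorem area_bound (i : ℕ) (hi : j0 ≤ i) (F : Finset ℕ) (hF : ∀ K ∈ F, max i i0 ≤ K) (l : ℝ) (hl0 : 0 ≤ l)
    (hl : l ^ 2 ≤ 1 / Nj (i - 1)) :
    ∑ K ∈ F, Th (K - 1) * ((9 / 10 + bitB K + 1 / 25) * (3 / (K : ℝ))) + Th (i - 1) * l + (9 / 250) / Nj i ≤
      rem i := area_bound9_aux i hi F hF l hl

end Pool.Agent.MM2
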