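import Pool.Agent.MP_94f265_co.MM2.Net
import Pool.Agent.MP_94f265_co.MM2.Load
import Pool.Agent.MP_94f265_co.MM2.Num

/-!
# Capacity of the phase, area of the box
-/

namespace Pool.Agent.MM2

open Pool.Agent.MM1

section

variable {i : ℕ} {s : TState} {θ : ℝ}

/-- the pending strip -/
theorem pend_len (hI : Inv θ i s) (hi : 1 ≤ Nj (i - 1)) :
    ∃ l : ℝ, 0 ≤ l ∧ l ^ 2 ≤ 1 / Nj (i - 1) ∧ (s.P.map Prod.snd).sum = l ∧
      area s.P = Th (i - 1) * l := by
  have h1 := hI.sinv.hPc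
  rcases Nat.lt_or_ge 0 (Multiset.card s.P) with h2 | h2
  · have h3 : Multiset.card s.P = 1 := by omega
    obtain ⟨p, hp⟩ := Multiset.card_eq_one.1 h3
    have hm : p ∈ s.P := by rw [hp]; exact Multiset.mem_singleton_self _
    obtain ⟨g1, g2⟩ := hI.sinv.hP p hm
    refine ⟨p.2, (del_pos i).le.trans g2, hI.pend p hm, by rw [hp]; simp, ?_⟩
    rw [hp, area_single, g1]
  · have h3 : s.P = 0 := Multiset.card_eq_zero.1 (by omega)
    refine ⟨0, le_rfl, ?_, by rw [h3]; simp, by rw [h3]; simp [area_zero]⟩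
    have : 0 < Nj (i - 1) := by linarith
    rw [zero_pow (by norm_num)]
    positivity

/-- the load of a class of cells -/
theorem Inv.cells_le (hI : Inv θ i s) {K : ℕ} (hK : max i i0 ≤ K) :
    lenK K (cellsOf s.QR) + lenK K (cellsOf s.QE) ≤ (9 / 10 + bitB K) * (3 / (K : ℝ)) := by
  have h1 := hI.load K hK
  have h2 : 0 ≤ lenK K (potOf (s.QR + s.QE)) := lenK_nonneg K (potOf_snd_nonneg hI.obj)
  have hK0 : i0 ≤ K := (le_max_right _ _).trans hK
  have h3 := sum_cL_le K i hK0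
  have h4 := sum_cP_bit K i hK0
  rw [Finset.sum_add_distrib, cellsOf_add, lenK_add] at h1
  nlinarith

/-- no cell is in a class below `max i i0` -/
theorem Inv.cells_zero (hI : Inv θ i s) {K : ℕ} (hK : K < max i i0) (hK1 : 1 ≤ K) :
    lenK K (cellsOf s.QR) = 0 ∧ lenK K (cellsOf s.QE) = 0 ∧ lenK K s.E = 0 := by
  have key : ∀ c : ℝ × ℝ, c.1 < Th (max i i0 - 1) → ¬ (Th K ≤ c.1 ∧ c.1 < Th (K - 1)) := by
    rintro c hc ⟨h1, h2⟩
    have : Th (max i i0 - 1) ≤ Th K := Th_anti hK1 (by omega)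
    linarith
  refine ⟨lenIn_eq_zero _ _ _ fun c hc => key c ?_, lenIn_eq_zero _ _ _ fun c hc => key c ?_,
    lenIn_eq_zero _ _ _ fun c hc => key c ?_⟩
  · exact (cells_pos (Q := s.QR) (fun o ho => hI.obj o (Multiset.mem_add.2 (Or.inl ho))) c hc).2.1
  · exact (cells_pos (Q := s.QE) (fun o ho => hI.obj o (Multiset.mem_add.2 (Or.inr ho))) c hc).2.1
  · exact (hI.epc c hc).2.1

theorem one_le_Nj (i : ℕ) : 1 ≤ Nj i := by
  have := NN_le_Nj i
  linarith

/-- **Capacity**: everything that is due fits into the slots of the phase. -/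
theorem Inv.capacity (hI : Inv θ i s) (hi : j0 ≤ i) :
    (s.P.map Prod.snd).sum + lenK i (cellsOf s.QR) + lenK i (cellsOf s.QE) + lenK i s.E <
      ∑ n ∈ PP i, yu n := by
  have hi1 : 1585 ≤ i := hi
  obtain ⟨l, hl0, hl1, hl2, _⟩ := pend_len hI (one_le_Nj _)
  rw [hl2]
  rcases le_or_gt i0 i with h | h
  · have h1 := Pool.Agent.MM2.capacity i h l hl1
    have h2 := hI.cells_le (K := i) (max_le le_rfl h)
    have h3 := hI.eload i (by omega)
    unfold rho at h3
    unfold SY at h1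
    nlinarith
  · have h1 := capacity0 i hi h l hl1
    obtain ⟨h2, h3, h4⟩ := hI.cells_zero (K := i) (lt_of_lt_of_le h (le_max_right _ _)) (by omega)
    rw [h2, h3, h4]
    unfold SY at h1
    linarith

/-- class by class: the area of thin things -/
theorem area_le_classes (G : Multiset (ℝ × ℝ)) (hG : ∀ c ∈ G, 0 < c.1 ∧ 0 ≤ c.2 ∧ 2 ≤ kc c.1)
    (F : Finset ℕ) (hF : ∀ c ∈ G, kc c.1 ∈ F) (hF0 : ∀ K ∈ F, 2 ≤ K) :
    area G ≤ ∑ K ∈ F, Th (K - 1) * lenK K G := by
  induction G using Multiset.induction_on with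
  | empty => simp [area_zero, lenK_zero]
  | cons c G ih =>
    have ih' := ih (fun c hc => hG c (Multiset.mem_cons_of_mem hc))
      (fun c hc => hF c (Multiset.mem_cons_of_mem hc))
    obtain ⟨h1, h2, h3⟩ := hG c (Multiset.mem_cons_self _ _)
    have h4 := hF c (Multiset.mem_cons_self _ _)
    rw [← Multiset.singleton_add, area_add, area_single]
    have h5 : ∑ K ∈ F, Th (K - 1) * lenK K ({c} + G) =
        ∑ K ∈ F, Th (K - 1) * lenK K {c} + ∑ K ∈ F, Th (K - 1) * lenK K G := by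
      rw [← Finset.sum_add_distrib]
      exact Finset.sum_congr rfl fun K _ => by rw [lenK_add]; ring
    rw [h5]
    have h6 : c.1 * c.2 ≤ ∑ K ∈ F, Th (K - 1) * lenK K {c} := by
      have h7 : Th (kc c.1 - 1) * lenK (kc c.1) {c} ≤ ∑ K ∈ F, Th (K - 1) * lenK K {c} := by
        apply Finset.single_le_sum (f := fun K => Th (K - 1) * lenK K {c}) _ h4
        intro K hK
        have := hF0 K hK
        apply mul_nonneg (Th_pos (by omega)).le
        exact lenK_nonneg K (fun p hp => by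
          rw [Multiset.mem_singleton] at hp; rw [hp]; exact h2)
      refine le_trans ?_ h7
      have h8 := (kc_spec h1).2
      have h9 := lt_Th_kc h3
      rw [lenK_single, if_pos ⟨h8, h9⟩]
      exact mul_le_mul_of_nonneg_right h9.le h2
    linarith

theorem kc_ge_cap {t : ℝ} (ht : 0 < t) {M : ℕ} (h : t < Th (M - 1)) (hM2 : 2 ≤ M) : M ≤ kc t := by
  by_contra hcon
  have h1 : kc t ≤ M - 1 := by omega
  have h2 := kc_spec ht
  have h3 := Th_anti h2.1 h1
  linarith [h2.2]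

/-- **The box is large.** -/
theorem Inv.box_area (hI : Inv θ i s) (hi : j0 ≤ i) : (9 / 250) / Nj i ≤ s.X * s.Y := by
  classical
  have hi1 : 1585 ≤ i := hi
  obtain ⟨l, hl0, hl1, _, hl3⟩ := pend_len hI (one_le_Nj _)
  -- all thin things
  set G := cellsOf s.QR + cellsOf s.QE + s.E with hG
  have hG1 : ∀ c ∈ G, 0 < c.1 ∧ 0 ≤ c.2 ∧ max i i0 ≤ kc c.1 := by
    have hm : 2 ≤ max i i0 := by unfold i0; omega
    intro c hc
    rw [hG, Multiset.mem_add, Multiset.mem_add] at hc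
    rcases hc with (hc | hc) | hc
    · obtain ⟨a, b, h⟩ := cells_pos (Q := s.QR)
        (fun o ho => hI.obj o (Multiset.mem_add.2 (Or.inl ho))) c hc
      exact ⟨a, by linarith, kc_ge_cap a b hm⟩
    · obtain ⟨a, b, h⟩ := cells_pos (Q := s.QE)
        (fun o ho => hI.obj o (Multiset.mem_add.2 (Or.inr ho))) c hc
      exact ⟨a, by linarith, kc_ge_cap a b hm⟩
    · obtain ⟨a, b, h⟩ := hI.epc c hc
      exact ⟨a, by linarith, kc_ge_cap a b hm⟩
  set F : Finset ℕ := (G.map (fun c => kc c.1)).toFinset with hF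
  have hF1 : ∀ K ∈ F, max i i0 ≤ K := by
    intro K hK
    rw [hF, Multiset.mem_toFinset, Multiset.mem_map] at hK
    obtain ⟨c, hc, rfl⟩ := hK
    exact (hG1 c hc).2.2
  have hF2 : ∀ K ∈ F, 2 ≤ K := by
    intro K hK
    have := hF1 K hK
    unfold i0 at this
    omega
  have h1 : area G ≤ ∑ K ∈ F, Th (K - 1) * lenK K G := by
    apply area_le_classes G _ F _ hF2
    · intro c hc
      obtain ⟨a, b, h⟩ := hG1 c hc
      refine ⟨a, b, ?_⟩
      unfold i0 at h
      omega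
    · intro c hc
      rw [hF, Multiset.mem_toFinset, Multiset.mem_map]
      exact ⟨c, hc, rfl⟩
  have h2 : ∑ K ∈ F, Th (K - 1) * lenK K G ≤
      ∑ K ∈ F, Th (K - 1) * ((9 / 10 + bitB K + 1 / 25) * (3 / (K : ℝ))) := by
    apply Finset.sum_le_sum
    intro K hK
    have hK2 := hF2 K hK
    apply mul_le_mul_of_nonneg_left _ (Th_pos (by omega)).le
    have h3 := hI.cells_le (hF1 K hK)
    have h4 := hI.eload K (by omega)
    unfold rho at h4
    rw [hG, lenK_add, lenK_add]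
    nlinarith
  have h3 := area_bound i hi F hF1 l hl0 hl1
  have h4 := hI.net
  unfold TState.net at h4
  rw [hl3] at h4
  have h5 : area G = area (cellsOf s.QR) + area (cellsOf s.QE) + area s.E := by
    rw [hG, area_add, area_add]
  linarith

/-- the area of the box is at most `1 / Nj i` -/
theorem Inv.box_le (hI : Inv θ i s) (hi : j0 ≤ i) : s.X * s.Y ≤ 1 / Nj i := by
  have hi1 : 1585 ≤ i := hi
  have h1 := box_le_net hI.sinv (by omega)
  rw [hI.net] at h1
  exact h1.trans (rem_le i hi)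

/-- **The rows fit.** -/
theorem Inv.rows (hI : Inv θ i s) (hi : j0 ≤ i) :
    0 < s.X - del i - yM i ∧
      Th i * ((∑ n ∈ PP i, yu n) / (s.X - del i - yM i) + 1) ≤ s.X / 4 ∧
      (∑ n ∈ PP i, yu n) / (s.X - del i - yM i) + 2 ≤ rowsB i := by
  obtain ⟨h1, h2, h3⟩ := rows_fit i hi s.X s.Y hI.sinv.hX hI.sinv.hXY hI.sinv.hYX (hI.box_area hi)
  unfold SY at h2 h3
  exact ⟨h1, by rw [mul_comm]; exact h2, h3⟩

/-- **Existence of the phase `i`.** -/
theorem Inv.phase (hI : Inv θ i s) (hi : j0 ≤ i) : ∃ d : PhaseData, PhaseOK i s d := by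
  obtain ⟨h1, h2, _⟩ := hI.rows hi
  exact hI.exists_phase hi (hI.capacity hi) h1 h2

end

end Pool.Agent.MM2
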