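import Pool.Agent.MP_94f265_co.MM2.Grid

/-!
# The carry lemma

A rectangle `t × S L m` contains the run of the units `h c × L c` (`c < m`, heights nonincreasing)
along one long side.  The rest is cut into the rectangles `(t - h c) × Lam c`, where each one may
overhang into the next, thicker cell, the bits `(h c - h (c + 1)) × s c` and one end piece.
-/

namespace Pool.Agent.MM2

open Pool.Agent.MM1

/-- prefix sums -/
noncomputable def S (f : ℕ → ℝ) (c : ℕ) : ℝ := ∑ k ∈ Finset.range c, f k

theorem S_zero (f : ℕ → ℝ) : S f 0 = 0 := by simp [S]

theorem S_succ (f : ℕ → ℝ) (c : ℕ) : S f (c + 1) = S f c + f c := Finset.sum_range_succ f c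

theorem Cut.map_swap (s : Multiset (ℝ × ℝ)) : Cut s (s.map Prod.swap) := by
  induction s using Multiset.induction_on with
  | empty => exact Cut.refl _
  | cons a s ih =>
    rw [Multiset.map_cons, ← Multiset.singleton_add, ← Multiset.singleton_add]
    exact Cut.add (Cut.swap a.1 a.2) ih

theorem Cut.swap_of {s s' : Multiset (ℝ × ℝ)} (h : s.map Prod.swap = s') : Cut s s' :=
  h ▸ Cut.map_swap s

/-- **Carry lemma.** -/
theorem carry_cut (m : ℕ) (hm : 1 ≤ m) (t : ℝ) (h L Lam : ℕ → ℝ) (e : ℝ)
    (hL : ∀ c < m, 0 ≤ L c) (hLam : ∀ c < m, 0 ≤ Lam c)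
    (hh : ∀ c < m, 0 ≤ h c ∧ h c ≤ t) (hmono : ∀ c, c + 1 < m → h (c + 1) ≤ h c)
    (hs : ∀ c, c + 1 < m → S L (c + 1) ≤ S Lam (c + 1))
    (he : S Lam m + e = S L m) (he0 : 0 ≤ e) :
    Cut {(t, S L m)}
      ((Finset.range m).val.map (fun c => (h c, L c)) +
        (Finset.range m).val.map (fun c => (t - h c, Lam c)) +
        (Finset.range (m - 1)).val.map
          (fun c => (h c - h (c + 1), S Lam (c + 1) - S L (c + 1))) +
        {(e, t - h (m - 1))}) := by
  classical
  set X : ℕ → ℕ → ℝ := fun r c => if r = 0 then S L c else if c < m then S Lam c else S L m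
    with hXd
  set H : ℕ → ℕ → ℝ := fun r c => if r = 0 then 0 else if r = 1 then h c else t with hHd
  obtain ⟨k, rfl⟩ : ∃ k, m = k + 1 := ⟨m - 1, by omega⟩
  have hSL : ∀ c ≤ k, S Lam c ≤ S L (k + 1) := by
    intro c hc
    have : S Lam c ≤ S Lam (k + 1) := by
      apply Finset.sum_le_sum_of_subset_of_nonneg
      · intro x hx
        simp only [Finset.mem_range] at hx ⊢
        omega
      · intro x hx _
        exact hLam x (Finset.mem_range.1 hx)
    linarith
  have key := grid_cut (S L (k + 1)) t 2 (k + 1) X H (by norm_num) (by omega)
    (by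
      intro r hr
      simp only [hXd]
      split_ifs with h1 h2
      · exact S_zero _
      · exact S_zero _
      · omega)
    (by
      intro r hr
      simp only [hXd]
      split_ifs with h1 h2
      · rfl
      · omega
      · rfl)
    (by
      intro r hr c hc
      simp only [hXd]
      by_cases h1 : r = 0
      · simp only [h1, if_true]
        rw [S_succ]
        linarith [hL c hc]
      · simp only [h1, if_false, hc, if_true]
        split_ifs with h2
        · rw [S_succ]
          linarith [hLam c hc]
        · exact hSL c (by omega))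
    (by
      intro r hr c hc
      obtain rfl : r = 0 := by omega
      simp only [hXd, if_true, zero_add, one_ne_zero, if_false]
      split_ifs with h2
      · rcases Nat.eq_zero_or_pos c with rfl | hc0
        · rw [S_zero, S_zero]
        · obtain ⟨c', rfl⟩ : ∃ c', c = c' + 1 := ⟨c - 1, by omega⟩
          exact hs c' h2
      · have : c = k + 1 := by omega
        rw [this])
    (by intro c hc; simp [hHd])
    (by intro c hc; simp [hHd])
    (by
      intro c hc r hr
      simp only [hHd]
      rcases (by omega : r = 0 ∨ r = 1) with rfl | rfl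
      · simpa using (hh c hc).1
      · simpa using (hh c hc).2)
    (by
      intro c hc r hr
      simp only [hHd]
      split_ifs
      · exact le_rfl
      · exact hmono c hc
      · exact le_rfl)
  -- first swap, then regroup
  refine (Cut.swap t (S L (k + 1))).trans (key.trans ?_)
  have e1 : (Finset.range 2 ×ˢ Finset.range (k + 1)).val.map
      (fun p => (X p.1 (p.2 + 1) - X p.1 p.2, H (p.1 + 1) p.2 - H p.1 p.2)) =
      (Finset.range (k + 1)).val.map (fun c => (L c, h c)) +
      ((Finset.range k).val.map (fun c => (Lam c, t - h c)) + {(Lam k + e, t - h k)}) := by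
    have hprod : (Finset.range 2 ×ˢ Finset.range (k + 1)).val =
        (Finset.range (k + 1)).val.map (fun c => ((0 : ℕ), c)) +
        (Finset.range (k + 1)).val.map (fun c => ((1 : ℕ), c)) := by
      rw [Finset.product_val]
      change ((0 : ℕ) ::ₘ (1 : ℕ) ::ₘ (0 : Multiset ℕ)) ×ˢ (Finset.range (k + 1)).val = _
      rw [Multiset.cons_product, Multiset.cons_product, Multiset.zero_product, add_zero]
    rw [hprod, Multiset.map_add, Multiset.map_map, Multiset.map_map]
    congr 1
    · apply Multiset.map_congr rfl
      intro c _
      simp only [Function.comp, hXd, hHd, if_true, zero_add, one_ne_zero, if_false, sub_zero]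
      rw [S_succ]
      congr 1
      ring
    · have : (Finset.range (k + 1)).val = (Finset.range k).val + {k} := by
        simp only [Finset.range_val]
        rw [Multiset.range_succ, ← Multiset.singleton_add, add_comm]
      rw [this, Multiset.map_add, Multiset.map_singleton]
      congr 1
      · apply Multiset.map_congr rfl
        intro c hc
        have hc' : c < k := by simpa using hc
        simp only [Function.comp, hXd, hHd, one_ne_zero, if_false]
        rw [if_pos (by omega), if_pos (by omega), S_succ]
        simp only [if_true]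
        norm_num
      · simp only [Function.comp, hXd, hHd, one_ne_zero, if_false]
        rw [if_neg (by omega), if_pos (by omega)]
        simp only [if_true]
        rw [S_succ] at he
        norm_num
        linarith
  have e2 : (Finset.range (2 - 1) ×ˢ Finset.range (k + 1 - 1)).val.map
      (fun p => (X (p.1 + 1) (p.2 + 1) - X p.1 (p.2 + 1),
            H (p.1 + 1) p.2 - H (p.1 + 1) (p.2 + 1))) =
      (Finset.range k).val.map (fun c => (S Lam (c + 1) - S L (c + 1), h c - h (c + 1))) := by
    have hprod : (Finset.range (2 - 1) ×ˢ Finset.range (k + 1 - 1)).val =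
        (Finset.range k).val.map (fun c => ((0 : ℕ), c)) := by
      rw [Finset.product_val]
      change ((0 : ℕ) ::ₘ (0 : Multiset ℕ)) ×ˢ (Finset.range k).val = _
      rw [Multiset.cons_product, Multiset.zero_product, add_zero]
    rw [hprod, Multiset.map_map]
    apply Multiset.map_congr rfl
    intro c hc
    have hc' : c < k := by simpa using hc
    simp only [Function.comp, hXd, hHd, zero_add, one_ne_zero, if_false, if_true]
    rw [if_pos (by omega)]
  rw [e1, e2]
  have hek : 0 ≤ Lam k := hLam k (by omega)
  have hsplit : Cut {(Lam k + e, t - h k)} ({(Lam k, t - h k)} + {(e, t - h k)}) :=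
    Cut.split hek he0
  have hsw1 : Cut ((Finset.range (k + 1)).val.map (fun c => (L c, h c)))
      ((Finset.range (k + 1)).val.map (fun c => (h c, L c))) :=
    Cut.swap_of (by rw [Multiset.map_map]; rfl)
  have hsw2 : Cut ((Finset.range k).val.map (fun c => (Lam c, t - h c)) + {(Lam k, t - h k)})
      ((Finset.range (k + 1)).val.map (fun c => (t - h c, Lam c))) := by
    have : (Finset.range (k + 1)).val = (Finset.range k).val + {k} := by
      simp only [Finset.range_val]
      rw [Multiset.range_succ, ← Multiset.singleton_add, add_comm]
    rw [this, Multiset.map_add, Multiset.map_singleton]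
    exact Cut.swap_of (by rw [Multiset.map_add, Multiset.map_map, Multiset.map_singleton]; rfl)
  have hsw3 : Cut ((Finset.range k).val.map
        (fun c => (S Lam (c + 1) - S L (c + 1), h c - h (c + 1))))
      ((Finset.range k).val.map
        (fun c => (h c - h (c + 1), S Lam (c + 1) - S L (c + 1)))) :=
    Cut.swap_of (by rw [Multiset.map_map]; rfl)
  have c1 := (Cut.refl ((Finset.range k).val.map (fun c => (Lam c, t - h c)))).add hsplit
  have c2 : Cut ((Finset.range k).val.map (fun c => (Lam c, t - h c)) +
      {(Lam k + e, t - h k)})
      ((Finset.range (k + 1)).val.map (fun c => (t - h c, Lam c)) + {(e, t - h k)}) := by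
    refine c1.trans ?_
    rw [← add_assoc]
    exact hsw2.add (Cut.refl _)
  have c3 := (hsw1.add c2).add hsw3
  refine c3.trans (Cut.of_eq ?_)
  simp only [Nat.add_sub_cancel]
  abel

end Pool.Agent.MM2
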