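import Pool.Agent.MP_94f265_co.MM2.Obj

/-!
# The carry lemma, filled from the thick end

Cells are listed from the thickest to the thinnest one.  Every cell leaves a remainder which is taken
over by the next, thinner cell; at the thin end the length `e` remains.
-/

namespace Pool.Agent.MM2

open Pool.Agent.MM1

theorem map_reflect {α : Type*} (m : ℕ) (f : ℕ → α) :
    (Finset.range m).val.map (fun j => f (m - 1 - j)) = (Finset.range m).val.map f := by
  have h := Finset.sum_range_reflect (fun j => ({f j} : Multiset α)) m
  have key : ∀ g : ℕ → α, ∑ j ∈ Finset.range m, ({g j} : Multiset α) =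
      (Finset.range m).val.map g := by
    intro g
    rw [Finset.sum_eq_multiset_sum]
    have : (fun j => ({g j} : Multiset α)) = (fun a => ({a} : Multiset α)) ∘ g := rfl
    rw [this, ← Multiset.map_map]
    exact Multiset.sum_map_singleton _
  rw [key, key] at h
  exact h

theorem S_reflect (f : ℕ → ℝ) (m c : ℕ) (hc : c ≤ m) :
    S (fun j => f (m - 1 - j)) c = S f m - S f (m - c) := by
  induction c with
  | zero => simp [S_zero]
  | succ c ih =>
    rw [S_succ, ih (by omega)]
    have h1 : m - c = (m - (c + 1)) + 1 := by omega
    have h2 : m - 1 - c = m - (c + 1) := by omega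
    rw [h1, S_succ, h2]
    ring

/-- **Carry lemma, from the thick end.** -/
theorem carry_cut_back (m : ℕ) (hm : 1 ≤ m) (t : ℝ) (h L Lam : ℕ → ℝ) (e : ℝ)
    (hL : ∀ c < m, 0 ≤ L c) (hLam : ∀ c < m, 0 ≤ Lam c)
    (hh : ∀ c < m, 0 ≤ h c ∧ h c ≤ t) (hmono : ∀ c, c + 1 < m → h c ≤ h (c + 1))
    (hs : ∀ c < m, S Lam (c + 1) ≤ S L (c + 1))
    (he : S Lam m + e = S L m) :
    Cut {(t, S L m)}
      ((Finset.range m).val.map (fun c => (h c, L c)) +
        (Finset.range m).val.map (fun c => (t - h c, Lam c)) +
        (Finset.range (m - 1)).val.map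
          (fun c => (h (c + 1) - h c, S L (c + 1) - S Lam (c + 1))) +
        {(e, t - h (m - 1))}) := by
  classical
  obtain ⟨k, rfl⟩ : ∃ k, m = k + 1 := ⟨m - 1, by omega⟩
  have he0 : 0 ≤ e := by
    have := hs k (by omega)
    linarith
  set h' : ℕ → ℝ := fun c => if c = 0 then h k else h (k + 1 - 1 - (c - 1)) with hh'
  set L' : ℕ → ℝ := fun c => if c = 0 then 0 else L (k + 1 - 1 - (c - 1)) with hL'
  set Lam' : ℕ → ℝ := fun c => if c = 0 then e else Lam (k + 1 - 1 - (c - 1)) with hLam'
  have eSL : ∀ c ≤ k + 1, S L' (c + 1) = S L (k + 1) - S L (k + 1 - c) := by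
    intro c hc
    rw [S_shift]
    have : (fun j => L' (j + 1)) = fun j => L (k + 1 - 1 - j) := by
      funext j
      simp [hL']
    rw [this, S_reflect L (k + 1) c hc]
    simp [hL']
  have eSLam : ∀ c ≤ k + 1, S Lam' (c + 1) = e + (S Lam (k + 1) - S Lam (k + 1 - c)) := by
    intro c hc
    rw [S_shift]
    have : (fun j => Lam' (j + 1)) = fun j => Lam (k + 1 - 1 - j) := by
      funext j
      simp [hLam']
    rw [this, S_reflect Lam (k + 1) c hc]
    simp [hLam']
  have key := carry_cut (k + 2) (by omega) t h' L' Lam' 0
    (by
      intro c hc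
      simp only [hL']
      split_ifs with h1
      · exact le_rfl
      · exact hL _ (by omega))
    (by
      intro c hc
      simp only [hLam']
      split_ifs with h1
      · exact he0
      · exact hLam _ (by omega))
    (by
      intro c hc
      simp only [hh']
      split_ifs with h1
      · exact hh k (by omega)
      · exact hh _ (by omega))
    (by
      intro c hc
      simp only [hh', Nat.succ_ne_zero, if_false, Nat.add_sub_cancel]
      rcases Nat.eq_zero_or_pos c with rfl | hc0
      · simp
      · rw [if_neg (by omega)]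
        have h1 : k - (c - 1) = (k - c) + 1 := by omega
        rw [h1]
        exact hmono (k - c) (by omega))
    (by
      intro c hc
      rw [eSL c (by omega), eSLam c (by omega)]
      have h1 : k + 1 - c = (k - c) + 1 := by omega
      have h2 := hs (k - c) (by omega)
      rw [← h1] at h2
      linarith)
    (by
      rw [show k + 2 = (k + 1) + 1 from rfl, eSL (k + 1) le_rfl, eSLam (k + 1) le_rfl]
      simp only [Nat.sub_self, S_zero]
      linarith)
    le_rfl
  have etot : S L' (k + 2) = S L (k + 1) := by
    rw [show k + 2 = (k + 1) + 1 from rfl, eSL (k + 1) le_rfl]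
    simp [S_zero]
  rw [etot] at key
  refine key.trans ?_
  -- rewrite the pieces
  have hrange : ∀ (g : ℕ → ℝ × ℝ) (n : ℕ), (Finset.range (n + 1)).val.map g =
      {g 0} + (Finset.range n).val.map (fun j => g (j + 1)) := by
    intro g n
    have : (Finset.range (n + 1)).val = Multiset.ofList (List.range (n + 1)) := rfl
    rw [this, List.range_succ_eq_map]
    rw [Multiset.map_coe, List.map_cons, List.map_map, ← Multiset.cons_coe,
      ← Multiset.singleton_add]
    rfl
  have p1 : (Finset.range (k + 2)).val.map (fun c => (h' c, L' c)) =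
      {(h k, 0)} + (Finset.range (k + 1)).val.map (fun c => (h c, L c)) := by
    rw [hrange _ (k + 1)]
    congr 1
    rw [← map_reflect (k + 1) (fun c => (h c, L c))]
    apply Multiset.map_congr rfl
    intro j _
    simp [hh', hL']
  have p2 : (Finset.range (k + 2)).val.map (fun c => (t - h' c, Lam' c)) =
      {(t - h k, e)} + (Finset.range (k + 1)).val.map (fun c => (t - h c, Lam c)) := by
    rw [hrange _ (k + 1)]
    congr 1
    rw [← map_reflect (k + 1) (fun c => (t - h c, Lam c))]
    apply Multiset.map_congr rfl
    intro j _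
    simp [hh', hLam']
  have p3 : (Finset.range (k + 2 - 1)).val.map
      (fun c => (h' c - h' (c + 1), S Lam' (c + 1) - S L' (c + 1))) =
      {(0, e)} + (Finset.range k).val.map
          (fun c => (h (c + 1) - h c, S L (c + 1) - S Lam (c + 1))) := by
    rw [show k + 2 - 1 = k + 1 from rfl, hrange _ k]
    congr 1
    · rw [eSL 0 (by omega), eSLam 0 (by omega)]
      simp [hh']
    · rw [← map_reflect k (fun c => (h (c + 1) - h c, S L (c + 1) - S Lam (c + 1)))]
      apply Multiset.map_congr rfl
      intro j hj
      have hj' : j < k := by simpa using hj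
      rw [eSL (j + 1) (by omega), eSLam (j + 1) (by omega)]
      simp only [hh', Nat.succ_ne_zero, if_false, Nat.add_sub_cancel]
      have h1 : k - 1 - j + 1 = k - j := by omega
      have h2 : k - (j + 1) = k - 1 - j := by omega
      have h3 : k + 1 - (j + 1) = k - j := by omega
      rw [h1, h2, h3]
      congr 1
      linarith
  rw [p1, p2, p3]
  have hd := Cut.drop ((Finset.range (k + 1)).val.map (fun c => (h c, L c)) +
        (Finset.range (k + 1)).val.map (fun c => (t - h c, Lam c)) +
        (Finset.range k).val.map
          (fun c => (h (c + 1) - h c, S L (c + 1) - S Lam (c + 1))) +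
        {(t - h k, e)}) ({(h k, 0)} + {(0, e)} + {((0 : ℝ), t - h' (k + 2 - 1))}) (by
          intro d hd
          simp only [Multiset.mem_add, Multiset.mem_singleton] at hd
          rcases hd with (rfl | rfl) | rfl <;> simp)
  have hd2 : Cut ((Finset.range (k + 1)).val.map (fun c => (h c, L c)) +
        (Finset.range (k + 1)).val.map (fun c => (t - h c, Lam c)) +
        (Finset.range k).val.map
          (fun c => (h (c + 1) - h c, S L (c + 1) - S Lam (c + 1))) +
        {(t - h k, e)}) ((Finset.range (k + 1)).val.map (fun c => (h c, L c)) +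
        (Finset.range (k + 1)).val.map (fun c => (t - h c, Lam c)) +
        (Finset.range k).val.map
          (fun c => (h (c + 1) - h c, S L (c + 1) - S Lam (c + 1))) +
        {(e, t - h k)}) := Cut.add (Cut.refl _) (Cut.swap _ _)
  refine (Cut.of_eq ?_).trans (hd.trans hd2)
  abel

end Pool.Agent.MM2
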