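import Pool.Agent.MP_94f265_co.MM2.FillB

/-!
# The carry lemma from the thick end, list form
-/

namespace Pool.Agent.MM2

open Pool.Agent.MM1

/-- the bits: (difference of the thicknesses, length taken over by the thinner cell) -/
noncomputable def bitsB (y : ℕ → ℝ) : ℝ → List (ℝ × ℝ) → List (List ℕ) → List (ℝ × ℝ)
  | s, p :: q :: run, a :: A =>
      (p.1 - q.1, s + p.2 - (a.map y).sum) :: bitsB y (s + p.2 - (a.map y).sum) (q :: run) A
  | _, _, _ => []

/-- unfolding of `BCarry` -/
theorem BCarry.unfold {y : ℕ → ℝ} {κ δ yM : ℝ} (s : ℝ) (run : List (ℝ × ℝ)) (A : List (List ℕ))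
    (e : ℝ) (hrun : run ≠ []) (h : BCarry y κ δ yM s run A e) :
    A.length = run.length ∧
    (∀ c, c + 1 < run.length →
      κ * ((run.getD c (0, 0)).1 - (run.getD (c + 1) (0, 0)).1) ≤
        s + S (fun c => (run.getD c (0, 0)).2) (c + 1) -
          S (fun c => ((A.getD c []).map y).sum) (c + 1)) ∧
    s + S (fun c => (run.getD c (0, 0)).2) run.length =
      S (fun c => ((A.getD c []).map y).sum) run.length + e ∧ δ ≤ e ∧ e ≤ δ + yM := by
  induction run generalizing s A with
  | nil => exact absurd rfl hrun
  | cons p run ih =>
    cases run with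
    | nil =>
      rcases A with _ | ⟨a, _ | ⟨b, A⟩⟩
      · simp [BCarry] at h
      · simp only [BCarry] at h
        refine ⟨rfl, ?_, ?_, h.2⟩
        · intro c hc; simp at hc
        · simp only [List.length_cons, List.length_nil, zero_add, S, Finset.range_one,
            Finset.sum_singleton, List.getD_cons_zero]
          exact h.1
      · simp [BCarry] at h
    | cons q run =>
      rcases A with _ | ⟨a, A⟩
      · simp [BCarry] at h
      · simp only [BCarry] at h
        obtain ⟨h1, h2, h3⟩ := h
        obtain ⟨i1, i2, i3, i4⟩ := ih _ A (by simp) h3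
        refine ⟨by simp [i1], ?_, ?_, i4⟩
        · intro c hc
          rw [S_shift, S_shift]
          simp only [List.getD_cons_zero, List.getD_cons_succ]
          rcases Nat.eq_zero_or_pos c with rfl | hc0
          · rw [S_zero, S_zero]
            simp only [List.getD_cons_zero]
            linarith
          · obtain ⟨c', rfl⟩ : ∃ c', c = c' + 1 := ⟨c - 1, by omega⟩
            have := i2 c' (by simp only [List.length_cons] at hc ⊢; omega)
            simp only [List.getD_cons_succ] at this ⊢
            linarith
        · rw [List.length_cons, S_shift, S_shift]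
          simp only [List.getD_cons_zero, List.getD_cons_succ]
          linarith [i3]

theorem bitsB_eq {y : ℕ → ℝ} {κ δ yM : ℝ} (s : ℝ) (run : List (ℝ × ℝ)) (A : List (List ℕ)) (e : ℝ)
    (hrun : run ≠ []) (h : BCarry y κ δ yM s run A e) :
    bitsB y s run A = (List.range (run.length - 1)).map (fun c =>
      ((run.getD c (0, 0)).1 - (run.getD (c + 1) (0, 0)).1,
        s + S (fun c => (run.getD c (0, 0)).2) (c + 1) -
          S (fun c => ((A.getD c []).map y).sum) (c + 1))) := by
  induction run generalizing s A with
  | nil => exact absurd rfl hrun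
  | cons p run ih =>
    cases run with
    | nil => rcases A with _ | ⟨a, A⟩ <;> simp [bitsB]
    | cons q run =>
      rcases A with _ | ⟨a, A⟩
      · simp [BCarry] at h
      · simp only [BCarry] at h
        obtain ⟨h1, h2, h3⟩ := h
        have i := ih _ A (by simp) h3
        simp only [bitsB]
        rw [i]
        have hlen : (p :: q :: run).length - 1 = ((q :: run).length - 1) + 1 := by simp
        rw [hlen, List.range_succ_eq_map, List.map_cons, List.map_map]
        congr 1
        · simp [S]
        · apply List.map_congr_left
          intro c _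
          simp only [Function.comp, Nat.succ_eq_add_one]
          rw [S_shift (fun c => (((a :: A).getD c []).map y).sum) (c + 1),
            S_shift (fun c => ((p :: q :: run).getD c (0, 0)).2) (c + 1)]
          simp only [List.getD_cons_zero, List.getD_cons_succ]
          congr 1
          ring

/-- total length -/
theorem BCarry.total {y : ℕ → ℝ} {κ δ yM : ℝ} (s : ℝ) (run : List (ℝ × ℝ)) (A : List (List ℕ))
    (e : ℝ) (hrun : run ≠ []) (h : BCarry y κ δ yM s run A e) :
    s + (run.map Prod.snd).sum = (A.map (fun a => (a.map y).sum)).sum + e := by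
  induction run generalizing s A with
  | nil => exact absurd rfl hrun
  | cons p run ih =>
    cases run with
    | nil =>
      rcases A with _ | ⟨a, _ | ⟨b, A⟩⟩
      · simp [BCarry] at h
      · simp only [BCarry] at h
        simp [h.1]
      · simp [BCarry] at h
    | cons q run =>
      rcases A with _ | ⟨a, A⟩
      · simp [BCarry] at h
      · simp only [BCarry] at h
        obtain ⟨h1, h2, h3⟩ := h
        have := ih _ A (by simp) h3
        simp only [List.map_cons, List.sum_cons] at this ⊢
        linarith

/-- **Carry lemma from the thick end, list form.**  The object is the rectangle `t × (total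
length)`, `run` are its cells (thickness, length), from the thickest to the thinnest one. -/
theorem carry_back_list {y : ℕ → ℝ} {κ δ yM : ℝ} (t e : ℝ) (run : List (ℝ × ℝ))
    (A : List (List ℕ)) (hκ : 0 ≤ κ) (hδ : 0 ≤ δ)
    (hrun : run ≠ []) (hC : BCarry y κ δ yM 0 run A e)
    (hy : ∀ a ∈ A, ∀ n ∈ a, 0 ≤ y n)
    (hsort : run.Pairwise (fun p q => q.1 ≤ p.1)) (hw : ∀ p ∈ run, 0 ≤ p.1 ∧ p.1 ≤ t)
    (hL : ∀ p ∈ run, 0 ≤ p.2) :
    Cut {(t, (run.map Prod.snd).sum)}
      (((run.map (fun p => (t - p.1, p.2)) : List (ℝ × ℝ)) : Multiset (ℝ × ℝ)) +
        ((List.zipWith (fun p a => (p.1, (a.map y).sum)) run A : List (ℝ × ℝ)) :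
          Multiset (ℝ × ℝ)) +
        ((bitsB y 0 run A : List (ℝ × ℝ)) : Multiset (ℝ × ℝ)) +
        {(e, (run.getLast hrun).1)}) := by
  obtain ⟨h1, h2, h3, h4, h5⟩ := hC.unfold 0 run A e hrun
  have hm : 1 ≤ run.length := List.length_pos_of_ne_nil hrun
  have hmemd : ∀ c < run.length, run.getD c (0, 0) ∈ run := by
    intro c hc
    rw [List.getD_eq_getElem?_getD, List.getElem?_eq_getElem hc]
    exact List.getElem_mem hc
  have hstep : ∀ c, c + 1 < run.length →
      (run.getD (c + 1) (0, 0)).1 ≤ (run.getD c (0, 0)).1 := by
    intro c hc
    have hp := List.pairwise_iff_getElem.1 hsort c (c + 1) (by omega) hc (by omega)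
    rw [List.getD_eq_getElem?_getD, List.getElem?_eq_getElem hc, List.getD_eq_getElem?_getD,
      List.getElem?_eq_getElem (by omega : c < run.length)]
    exact hp
  have key := carry_cut_back run.length hm t (fun c => t - (run.getD c (0, 0)).1)
    (fun c => (run.getD c (0, 0)).2) (fun c => ((A.getD c []).map y).sum) e
    (fun c hc => hL _ (hmemd c hc))
    (by
      intro c hc
      have hc' : c < A.length := by omega
      have hmem : A.getD c [] ∈ A := by
        rw [List.getD_eq_getElem?_getD, List.getElem?_eq_getElem hc']
        exact List.getElem_mem hc'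
      apply List.sum_nonneg
      intro z hz
      obtain ⟨n, hn, rfl⟩ := List.mem_map.1 hz
      exact hy _ hmem n hn)
    (by
      intro c hc
      have := hw _ (hmemd c hc)
      constructor <;> linarith [this.1, this.2])
    (by
      intro c hc
      have := hstep c hc
      linarith)
    (by
      intro c hc
      rcases (by omega : c + 1 < run.length ∨ c + 1 = run.length) with h | h
      · have a1 := h2 c h
        have a2 := mul_nonneg hκ (sub_nonneg.2 (hstep c h))
        linarith
      · rw [h]
        linarith)
    (by linarith)
  have e0 : S (fun c => (run.getD c (0, 0)).2) run.length = (run.map Prod.snd).sum :=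
    S_getD Prod.snd run (0, 0)
  rw [e0] at key
  refine key.trans (Cut.of_eq ?_)
  have hval : ∀ n, (Finset.range n).val = ((List.range n : List ℕ) : Multiset ℕ) := fun n => rfl
  have hlast : run.getD (run.length - 1) (0, 0) = run.getLast hrun := by
    rw [List.getLast_eq_getElem, List.getD_eq_getElem?_getD,
      List.getElem?_eq_getElem (by omega : run.length - 1 < run.length)]
    rfl
  congr 1
  · congr 1
    · congr 1
      · rw [hval, Multiset.map_coe,
          list_range_map (fun p : ℝ × ℝ => (t - p.1, p.2)) run (0, 0)]
      · rw [hval, Multiset.map_coe]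
        have := list_range_zip (fun (p : ℝ × ℝ) (a : List ℕ) => (p.1, (a.map y).sum)) run A
          (0, 0) [] h1.symm
        rw [← this]
        congr 1
        apply List.map_congr_left
        intro c _
        congr 1
        ring
    · rw [hval, Multiset.map_coe, bitsB_eq 0 run A e hrun hC]
      congr 1
      apply List.map_congr_left
      intro c _
      congr 1
      · ring
      · ring
  · rw [hlast]
    congr 2
    ring

end Pool.Agent.MM2
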