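import Pool.Agent.MP_94f265_co.MM2.FillC

/-!
# The carry lemma in list form
-/

namespace Pool.Agent.MM2

open Pool.Agent.MM1

/-- the bits left by the overhangs: (difference of the thicknesses, overhang) -/
noncomputable def bitsOf (y : ℕ → ℝ) : ℝ → List (ℝ × ℝ) → List (List ℕ) → List (ℝ × ℝ)
  | s, p :: q :: run, a :: A =>
      (q.1 - p.1, s + (a.map y).sum - p.2) ::
        bitsOf y (s + (a.map y).sum - p.2) (q :: run) A
  | _, _, _ => []

theorem list_range_map {α β : Type*} (g : α → β) (l : List α) (d : α) :
    (List.range l.length).map (fun c => g (l.getD c d)) = l.map g := by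
  apply List.ext_getElem
  · simp
  · intro i h1 h2
    simp only [List.length_map] at h2
    simp [List.getD_eq_getElem?_getD, List.getElem?_eq_getElem h2]

theorem list_range_zip {α β γ : Type*} (g : α → β → γ) (l : List α) (m : List β) (d : α) (d' : β)
    (h : l.length = m.length) :
    (List.range l.length).map (fun c => g (l.getD c d) (m.getD c d')) = List.zipWith g l m := by
  apply List.ext_getElem
  · simp [h]
  · intro i h1 h2
    simp only [List.length_zipWith] at h2
    have h3 : i < l.length := by omega
    have h4 : i < m.length := by omega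
    simp [List.getD_eq_getElem?_getD, List.getElem?_eq_getElem h3, List.getElem?_eq_getElem h4]

theorem S_shift (f : ℕ → ℝ) (c : ℕ) : S f (c + 1) = f 0 + S (fun k => f (k + 1)) c := by
  rw [S, Finset.sum_range_succ', add_comm]
  rfl

theorem S_getD {α : Type*} (f : α → ℝ) (l : List α) (d : α) :
    S (fun c => f (l.getD c d)) l.length = (l.map f).sum := by
  induction l with
  | nil => simp [S]
  | cons a l ih =>
    rw [List.length_cons, S_shift]
    simp only [List.getD_cons_zero, List.getD_cons_succ, List.map_cons, List.sum_cons]
    rw [ih]

/-- unfolding of `Carry` -/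
theorem Carry.unfold (y : ℕ → ℝ) (η : ℝ) (s : ℝ) (run : List (ℝ × ℝ)) (A : List (List ℕ)) (e : ℝ)
    (hrun : run ≠ []) (h : Carry y η s run A e) :
    A.length = run.length ∧
    (∀ c, c + 1 < run.length →
      0 ≤ s + S (fun c => ((A.getD c []).map y).sum) (c + 1) -
        S (fun c => (run.getD c (0, 0)).2) (c + 1) ∧
      s + S (fun c => ((A.getD c []).map y).sum) (c + 1) -
        S (fun c => (run.getD c (0, 0)).2) (c + 1) ≤ η) ∧
    s + S (fun c => ((A.getD c []).map y).sum) run.length + e =
      S (fun c => (run.getD c (0, 0)).2) run.length := by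
  induction run generalizing s A with
  | nil => exact absurd rfl hrun
  | cons p run ih =>
    cases run with
    | nil =>
      rcases A with _ | ⟨a, _ | ⟨b, A⟩⟩
      · simp [Carry] at h
      · simp only [Carry] at h
        refine ⟨rfl, ?_, ?_⟩
        · intro c hc; simp at hc
        · simp only [List.length_cons, List.length_nil, zero_add, S, Finset.range_one,
            Finset.sum_singleton, List.getD_cons_zero]
          exact h
      · simp [Carry] at h
    | cons q run =>
      rcases A with _ | ⟨a, A⟩
      · simp [Carry] at h
      · simp only [Carry] at h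
        obtain ⟨h1, h2, h3⟩ := h
        obtain ⟨i1, i2, i3⟩ := ih _ A (by simp) h3
        refine ⟨by simp [i1], ?_, ?_⟩
        · intro c hc
          rw [S_shift, S_shift]
          simp only [List.getD_cons_zero, List.getD_cons_succ]
          rcases Nat.eq_zero_or_pos c with rfl | hc0
          · rw [S_zero, S_zero]
            constructor <;> linarith
          · obtain ⟨c', rfl⟩ : ∃ c', c = c' + 1 := ⟨c - 1, by omega⟩
            have := i2 c' (by simp only [List.length_cons] at hc ⊢; omega)
            constructor <;> linarith [this.1, this.2]
        · rw [List.length_cons, S_shift, S_shift]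
          simp only [List.getD_cons_zero, List.getD_cons_succ]
          linarith [i3]

theorem bitsOf_eq (y : ℕ → ℝ) (η : ℝ) (s : ℝ) (run : List (ℝ × ℝ)) (A : List (List ℕ)) (e : ℝ)
    (hrun : run ≠ []) (h : Carry y η s run A e) :
    bitsOf y s run A = (List.range (run.length - 1)).map (fun c =>
      ((run.getD (c + 1) (0, 0)).1 - (run.getD c (0, 0)).1,
        s + S (fun c => ((A.getD c []).map y).sum) (c + 1) -
          S (fun c => (run.getD c (0, 0)).2) (c + 1))) := by
  induction run generalizing s A with
  | nil => exact absurd rfl hrun
  | cons p run ih =>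
    cases run with
    | nil => rcases A with _ | ⟨a, A⟩ <;> simp [bitsOf]
    | cons q run =>
      rcases A with _ | ⟨a, A⟩
      · simp [Carry] at h
      · simp only [Carry] at h
        obtain ⟨h1, h2, h3⟩ := h
        have i := ih _ A (by simp) h3
        simp only [bitsOf]
        rw [i]
        have hlen : (p :: q :: run).length - 1 = ((q :: run).length - 1) + 1 := by simp
        rw [hlen, List.range_succ_eq_map, List.map_cons, List.map_map]
        congr 1
        · simp [S]
        · apply List.map_congr_left
          intro c _
          simp only [Function.comp, Nat.succ_eq_add_one]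
          rw [S_shift (fun c => (((a :: A).getD c []).map y).sum) (c + 1),
            S_shift (fun c => ((p :: q :: run).getD c (0, 0)).2) (c + 1)]
          simp only [List.getD_cons_zero, List.getD_cons_succ]
          congr 1
          ring

/-- **Carry lemma, list form.**  The object is the rectangle `t × (total length)`, `run` are its
cells (thickness, length). -/
theorem carry_list (y : ℕ → ℝ) (η t e : ℝ) (run : List (ℝ × ℝ)) (A : List (List ℕ))
    (hrun : run ≠ []) (hC : Carry y η 0 run A e) (he : 0 ≤ e)
    (hy : ∀ a ∈ A, ∀ n ∈ a, 0 ≤ y n)
    (hsort : run.Pairwise (fun p q => p.1 ≤ q.1)) (hw : ∀ p ∈ run, 0 ≤ p.1 ∧ p.1 ≤ t)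
    (hL : ∀ p ∈ run, 0 ≤ p.2) :
    Cut {(t, (run.map Prod.snd).sum)}
      (((run.map (fun p => (t - p.1, p.2)) : List (ℝ × ℝ)) : Multiset (ℝ × ℝ)) +
        ((List.zipWith (fun p a => (p.1, (a.map y).sum)) run A : List (ℝ × ℝ)) :
          Multiset (ℝ × ℝ)) +
        ((bitsOf y 0 run A : List (ℝ × ℝ)) : Multiset (ℝ × ℝ)) +
        {(e, (run.getLast hrun).1)}) := by
  obtain ⟨h1, h2, h3⟩ := hC.unfold y η 0 run A e hrun
  have hm : 1 ≤ run.length := List.length_pos_of_ne_nil hrun
  have hmemd : ∀ c < run.length, run.getD c (0, 0) ∈ run := by
    intro c hc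
    rw [List.getD_eq_getElem?_getD, List.getElem?_eq_getElem hc]
    exact List.getElem_mem hc
  have key := carry_cut run.length hm t (fun c => t - (run.getD c (0, 0)).1)
    (fun c => (run.getD c (0, 0)).2) (fun c => ((A.getD c []).map y).sum) e
    (fun c hc => hL _ (hmemd c hc))
    (by
      intro c hc
      have hc' : c < A.length := by omega
      have hmem : A.getD c [] ∈ A := by
        rw [List.getD_eq_getElem?_getD, List.getElem?_eq_getElem hc']
        exact List.getElem_mem hc'
      apply List.sum_nonneg
      intro z hz
      obtain ⟨n, hn, rfl⟩ := List.mem_map.1 hz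
      exact hy _ hmem n hn)
    (by
      intro c hc
      have := hw _ (hmemd c hc)
      constructor <;> linarith [this.1, this.2])
    (by
      intro c hc
      have hp := List.pairwise_iff_getElem.1 hsort c (c + 1) (by omega) hc (by omega)
      rw [List.getD_eq_getElem?_getD, List.getElem?_eq_getElem hc, List.getD_eq_getElem?_getD,
        List.getElem?_eq_getElem (by omega : c < run.length)]
      simp only [Option.getD_some]
      linarith)
    (fun c hc => by linarith [(h2 c hc).1])
    (by linarith [h3]) he
  have e0 : S (fun c => (run.getD c (0, 0)).2) run.length = (run.map Prod.snd).sum :=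
    S_getD Prod.snd run (0, 0)
  rw [e0] at key
  refine key.trans (Cut.of_eq ?_)
  have hval : ∀ n, (Finset.range n).val = ((List.range n : List ℕ) : Multiset ℕ) := fun n => rfl
  have hlast : run.getD (run.length - 1) (0, 0) = run.getLast hrun := by
    rw [List.getLast_eq_getElem, List.getD_eq_getElem?_getD,
      List.getElem?_eq_getElem (by omega : run.length - 1 < run.length)]
    rfl
  congr 1
  · congr 1
    · congr 1
      · rw [hval, Multiset.map_coe,
          list_range_map (fun p : ℝ × ℝ => (t - p.1, p.2)) run (0, 0)]
      · rw [hval, Multiset.map_coe]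
        have := list_range_zip (fun (p : ℝ × ℝ) (a : List ℕ) => (p.1, (a.map y).sum)) run A
          (0, 0) [] h1.symm
        rw [← this]
        congr 1
        apply List.map_congr_left
        intro c _
        congr 1
        ring
    · rw [hval, Multiset.map_coe, bitsOf_eq y η 0 run A e hrun hC]
      congr 1
      apply List.map_congr_left
      intro c _
      congr 1
      · ring
      · ring
  · rw [hlast]
    congr 2
    ring

end Pool.Agent.MM2
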