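import Mathlib

/-!
# Count lemma for slots in an arithmetic progression with nondecreasing widths (general form)
-/

namespace Pool.Agent.MM2

/-- core of the count lemma, lengths -/
theorem count_core (d : ℕ) (hd : 0 < d) (B : ℝ) (S : Finset ℕ) :
    (∀ n ∈ S, 0 < n ∧ (n : ℝ) ≤ B) → (∀ n ∈ S, ∀ m ∈ S, n < m → n + d ≤ m) → S.Nonempty →
    ∃ a ∈ S, ∃ b ∈ S, (∀ n ∈ S, a ≤ n ∧ n ≤ b) ∧
      ∑ n ∈ S, (1 / (n : ℝ)) ≤ B / d * (1 / a - 1 / b) + 1 / a ∧
      (S.card : ℝ) ≤ B ^ 2 / d * (1 / a - 1 / b) + 1 := by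
  classical
  induction S using Finset.induction_on_max with
  | empty => intro _ _ h; exact absurd h (by simp)
  | insert b s hb ih =>
    intro h1 h2 _
    have hbs : b ∉ s := fun h => lt_irrefl _ (hb b h)
    rcases s.eq_empty_or_nonempty with hs | hs
    · subst hs
      refine ⟨b, by simp, b, by simp, by simp, ?_, ?_⟩ <;> simp
    · obtain ⟨a, ha, c, hc, hac, hsum, hcard⟩ := ih (fun n hn => h1 n (Finset.mem_insert_of_mem hn))
        (fun n hn m hm => h2 n (Finset.mem_insert_of_mem hn) m (Finset.mem_insert_of_mem hm)) hs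
      have hcb : c + d ≤ b := h2 c (Finset.mem_insert_of_mem hc) b (Finset.mem_insert_self _ _) (hb c hc)
      have hc0 : 0 < (c : ℝ) := by exact_mod_cast (h1 c (Finset.mem_insert_of_mem hc)).1
      have hb0 : 0 < (b : ℝ) := by exact_mod_cast (h1 b (Finset.mem_insert_self _ _)).1
      have hbB : (b : ℝ) ≤ B := (h1 b (Finset.mem_insert_self _ _)).2
      have hcB : (c : ℝ) ≤ B := (h1 c (Finset.mem_insert_of_mem hc)).2
      have hdR : 0 < (d : ℝ) := by exact_mod_cast hd
      have hcbR : (c : ℝ) + d ≤ b := by exact_mod_cast hcb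
      have hB0 : 0 < B := lt_of_lt_of_le hb0 hbB
      have hdiff : 1 / (c : ℝ) - 1 / b = (b - c) / (c * b) := by field_simp
      have key : (1 : ℝ) / (c * b) ≤ 1 / d * (1 / (c : ℝ) - 1 / b) := by
        rw [hdiff, div_mul_div_comm, one_mul, div_le_div_iff₀ (by positivity) (by positivity)]
        nlinarith [mul_pos hc0 hb0, mul_nonneg (mul_pos hc0 hb0).le (sub_nonneg.2 hcbR)]
      refine ⟨a, Finset.mem_insert_of_mem ha, b, Finset.mem_insert_self _ _, ?_, ?_, ?_⟩
      · intro n hn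
        rcases Finset.mem_insert.1 hn with rfl | hn
        · exact ⟨(hb a ha).le, le_rfl⟩
        · exact ⟨(hac n hn).1, (hb n hn).le⟩
      · rw [Finset.sum_insert hbs]
        have h3 : (1 : ℝ) / b ≤ B / d * (1 / (c : ℝ) - 1 / b) := by
          have h4 : (1 : ℝ) / b = c * (1 / (c * b)) := by field_simp
          calc (1 : ℝ) / b = c * (1 / (c * b)) := h4
            _ ≤ B * (1 / d * (1 / (c : ℝ) - 1 / b)) :=
                mul_le_mul hcB key (by positivity) hB0.le
            _ = B / d * (1 / (c : ℝ) - 1 / b) := by ring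
        have h5 : B / d * (1 / (a : ℝ) - 1 / c) + B / d * (1 / (c : ℝ) - 1 / b) =
            B / d * (1 / (a : ℝ) - 1 / b) := by ring
        linarith
      · rw [Finset.card_insert_of_notMem hbs]
        push_cast
        have h3 : (1 : ℝ) ≤ B ^ 2 / d * (1 / (c : ℝ) - 1 / b) := by
          have h4 : (1 : ℝ) = (c * b) * (1 / (c * b)) := by field_simp
          calc (1 : ℝ) = (c * b) * (1 / (c * b)) := h4
            _ ≤ (B * B) * (1 / d * (1 / (c : ℝ) - 1 / b)) :=
                mul_le_mul (mul_le_mul hcB hbB hb0.le hB0.le) key (by positivity) (by positivity)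
            _ = B ^ 2 / d * (1 / (c : ℝ) - 1 / b) := by ring
        have h5 : B ^ 2 / d * (1 / (a : ℝ) - 1 / c) + B ^ 2 / d * (1 / (c : ℝ) - 1 / b) =
            B ^ 2 / d * (1 / (a : ℝ) - 1 / b) := by ring
        linarith

/-- **Count lemma**, general form: slots at distance `≥ d`, nondecreasing widths, slivers in a window
of width `w`. -/
theorem count_gen (d : ℕ) (hd : 0 < d) (A B : ℝ) (hA : 0 < A) (hB : 0 ≤ B) (W : ℕ → ℝ) (g w : ℝ)
    (hw : 0 ≤ w) (S : Finset ℕ) (hS : ∀ n ∈ S, A ≤ (n : ℝ) ∧ (n : ℝ) ≤ B)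
    (hgap : ∀ n ∈ S, ∀ m ∈ S, n < m → n + d ≤ m)
    (hW : ∀ n ∈ S, ∀ m ∈ S, n ≤ m → W n ≤ W m)
    (hwin : ∀ n ∈ S, g ≤ W n - 1 / (n : ℝ) ∧ W n - 1 / (n : ℝ) < g + w) :
    ∑ n ∈ S, (1 / (n : ℝ)) ≤ w * B / d + 1 / A ∧ (S.card : ℝ) ≤ w * B ^ 2 / d + 1 := by
  have hdR : 0 < (d : ℝ) := by exact_mod_cast hd
  rcases S.eq_empty_or_nonempty with hs | hs
  · subst hs
    simp only [Finset.sum_empty, Finset.card_empty, Nat.cast_zero]
    constructor <;> positivity
  · have hpos : ∀ n ∈ S, 0 < n ∧ (n : ℝ) ≤ B := by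
      intro n hn
      refine ⟨?_, (hS n hn).2⟩
      have : 0 < (n : ℝ) := lt_of_lt_of_le hA (hS n hn).1
      exact_mod_cast this
    obtain ⟨a, ha, b, hb, hab, hsum, hcard⟩ := count_core d hd B S hpos hgap hs
    have hle : a ≤ b := (hab b hb).1
    have h1 : 1 / (a : ℝ) - 1 / b ≤ w := by
      have h2 := hwin a ha
      have h3 := hwin b hb
      have h4 := hW a ha b hb hle
      linarith [h2.1, h3.2]
    have h2 : 1 / (a : ℝ) ≤ 1 / A := one_div_le_one_div_of_le hA (hS a ha).1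
    refine ⟨?_, ?_⟩
    · have h3 : B / d * (1 / (a : ℝ) - 1 / b) ≤ B / d * w :=
        mul_le_mul_of_nonneg_left h1 (by positivity)
      have h4 : B / d * w = w * B / d := by ring
      linarith
    · have h3 : B ^ 2 / d * (1 / (a : ℝ) - 1 / b) ≤ B ^ 2 / d * w :=
        mul_le_mul_of_nonneg_left h1 (by positivity)
      have h4 : B ^ 2 / d * w = w * B ^ 2 / d := by ring
      linarith

end Pool.Agent.MM2
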