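import Pool.Agent.MP_94f265_co.MM2.Par
import Pool.Agent.MP_94f265_co.MM2.CountG

/-!
# The count lemma for the phases of the tail
-/

namespace Pool.Agent.MM2

open Classical in
/-- the potential bits of the phase `j` in class `K` -/
noncomputable def potSet (j K : ℕ) : Finset ℕ :=
  (PP j).filter (fun n => Th K ≤ 16 / ((n : ℝ) * (n + 16)) ∧ 16 / ((n : ℝ) * (n + 16)) < Th (K - 1))

theorem cP_eq (j K : ℕ) : cP j K = 53 / 50 * gmax j * ((potSet j K).card : ℝ) := by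
  unfold cP potSet
  with_reducible rfl

theorem PP_ge {j n : ℕ} (h : n ∈ PP j) : Nj j ≤ n := (mem_PP_real h).2.2.2

theorem PP_lt {j n : ℕ} (h : n ∈ PP j) : (n : ℝ) < TT ((j : ℝ) + 16) := (mem_PP_real h).2.1

theorem Nj_pos' (j : ℕ) : 0 < Nj j :=
  lt_of_lt_of_le (by unfold NN; norm_num) (le_max_right _ _)

theorem PP_pos {j n : ℕ} (h : n ∈ PP j) : 0 < n := by
  have h1 := (mem_PP.1 h).1
  have : 0 < NN := by unfold NN; norm_num
  omega

theorem PP_posR {j n : ℕ} (h : n ∈ PP j) : (0 : ℝ) < n := by exact_mod_cast PP_pos h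

theorem PP_gap {j n m : ℕ} (hn : n ∈ PP j) (hm : m ∈ PP j) (h : n < m) : n + 16 ≤ m := by
  have h1 := (mem_PP.1 hn).2.1
  have h2 := (mem_PP.1 hm).2.1
  omega

variable {j : ℕ} {W : ℕ → ℝ}

theorem sig_lt_gmax (hW : ∀ n ∈ PP j, Th j ≤ W n ∧ W n ≤ Th (j - 1)) {n : ℕ} (hn : n ∈ PP j) :
    W n - xu n < gmax j := by
  have h1 := (hW n hn).2
  have h2 := PP_lt hn
  have h3 := PP_posR hn
  unfold gmax xu
  have : 1 / TT ((j : ℝ) + 16) < 1 / (n : ℝ) := one_div_lt_one_div_of_lt h3 h2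
  linarith

theorem gmin_le_sig (hW : ∀ n ∈ PP j, Th j ≤ W n ∧ W n ≤ Th (j - 1)) {n : ℕ} (hn : n ∈ PP j) :
    gmin j ≤ W n - xu n := by
  have h1 := (hW n hn).1
  have h2 := PP_ge hn
  unfold gmin xu
  have : 1 / (n : ℝ) ≤ 1 / Nj j := one_div_le_one_div_of_le (Nj_pos' j) h2
  linarith

/-- the slots of the phase `j` whose sliver lies in class `K` -/
noncomputable def slotK (j K : ℕ) (W : ℕ → ℝ) : Finset ℕ := by
  classical
  exact (PP j).filter (fun n => Th K ≤ W n - xu n ∧ W n - xu n < Th (K - 1))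

theorem mem_slotK {K n : ℕ} : n ∈ slotK j K W ↔ n ∈ PP j ∧ Th K ≤ W n - xu n ∧
    W n - xu n < Th (K - 1) := by
  unfold slotK; rw [Finset.mem_filter]

theorem om_nonneg {K : ℕ} (hK : 2 ≤ K) : 0 ≤ om K := by
  unfold om
  have := Th_anti (K := K - 1) (L := K) (by omega) (by omega)
  linarith

theorem active_of_mem (hW : ∀ n ∈ PP j, Th j ≤ W n ∧ W n ≤ Th (j - 1)) {K n : ℕ}
    (h : n ∈ slotK j K W) : active j K := by
  obtain ⟨h1, h2, h3⟩ := mem_slotK.1 h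
  exact ⟨by linarith [sig_lt_gmax hW h1], by linarith [gmin_le_sig hW h1]⟩

theorem cL_nonneg {K : ℕ} (hK : 2 ≤ K) : 0 ≤ cL j K := by
  unfold cL
  split_ifs
  · have h1 := om_nonneg hK
    have h2 : 0 ≤ TT ((j : ℝ) + 16) := (TT_pos (by positivity)).le
    have h3 := Nj_pos' j
    positivity
  · exact le_rfl

/-- the general count in a class -/
theorem count_class (hmono : ∀ n ∈ PP j, ∀ m ∈ PP j, n ≤ m → W n ≤ W m) {K : ℕ} (hK : 2 ≤ K) :
    ∑ n ∈ slotK j K W, (1 / (n : ℝ)) ≤ om K * TT ((j : ℝ) + 16) / 16 + 1 / Nj j ∧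
    ((slotK j K W).card : ℝ) ≤ om K * TT ((j : ℝ) + 16) ^ 2 / 16 + 1 := by
  have h := count_gen 16 (by norm_num) (Nj j) (TT ((j : ℝ) + 16)) (Nj_pos' j)
    (TT_pos (by positivity)).le W (Th K) (om K) (om_nonneg hK) (slotK j K W)
    (fun n hn => ⟨PP_ge (mem_slotK.1 hn).1, (PP_lt (mem_slotK.1 hn).1).le⟩)
    (fun n hn m hm h => PP_gap (mem_slotK.1 hn).1 (mem_slotK.1 hm).1 h)
    (fun n hn m hm h => hmono n (mem_slotK.1 hn).1 m (mem_slotK.1 hm).1 h)
    (fun n hn => by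
      obtain ⟨_, h2, h3⟩ := mem_slotK.1 hn
      unfold om
      unfold xu at h2 h3
      exact ⟨h2, by linarith⟩)
  rw [Nat.cast_ofNat] at h
  exact h

/-- **Count lemma**: length of the slivers of a phase in a class. -/
theorem count_len (hW : ∀ n ∈ PP j, Th j ≤ W n ∧ W n ≤ Th (j - 1))
    (hmono : ∀ n ∈ PP j, ∀ m ∈ PP j, n ≤ m → W n ≤ W m) {K : ℕ} (hK : 2 ≤ K) :
    ∑ n ∈ slotK j K W, yu n ≤ cL j K := by
  rcases (slotK j K W).eq_empty_or_nonempty with h0 | ⟨n0, h0⟩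
  · rw [h0]; simpa using cL_nonneg hK
  · have h1 := active_of_mem hW h0
    have h2 := (count_class hmono hK).1
    have h3 : ∑ n ∈ slotK j K W, yu n ≤ ∑ n ∈ slotK j K W, (1 / (n : ℝ)) := by
      apply Finset.sum_le_sum
      intro n hn
      have := PP_posR (mem_slotK.1 hn).1
      unfold yu
      exact one_div_le_one_div_of_le this (by linarith)
    unfold cL
    rw [if_pos h1]
    linarith

end Pool.Agent.MM2
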