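import Mathlib

/-!
# Choice of the cut of an end (block ENDS)

The end `e × τ` is cut into `r × τ` and `(e - r) × τ` with `e/4 ≤ r ≤ 12e/25`, so that neither `r` nor `e - r` lies in
a given finite union of intervals of small total length.
-/

namespace Pool.Agent.MM2

open MeasureTheory Set

/-- measure form: intervals `[lo K, hi K)`, `K ∈ Bad`, of total length `< 23e/100`. -/
theorem exists_cut (e : ℝ) (Bad : Finset ℕ) (lo hi : ℕ → ℝ) (hlo : ∀ K ∈ Bad, lo K ≤ hi K)
    (hsum : ∑ K ∈ Bad, (hi K - lo K) < (23 / 100) * e) :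
    ∃ r, e / 4 ≤ r ∧ r ≤ (12 / 25) * e ∧ ∀ K ∈ Bad, ¬ (lo K ≤ r ∧ r < hi K) ∧
      ¬ (lo K ≤ e - r ∧ e - r < hi K) := by
  classical
  by_contra hcon
  push Not at hcon
  have he : 0 < e := by
    have : 0 ≤ ∑ K ∈ Bad, (hi K - lo K) := Finset.sum_nonneg (fun K hK => by linarith [hlo K hK])
    nlinarith
  -- the interval is covered
  have hcov : Icc (e / 4) ((12 / 25) * e) ⊆ ⋃ K ∈ Bad,
      ((Ico (lo K) (hi K) ∩ Iic ((12 / 25) * e)) ∪ (Ioc (e - hi K) (e - lo K) ∩ Iic ((12 / 25) * e))) := by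
    intro r hr
    obtain ⟨K, hK, h⟩ := hcon r hr.1 hr.2
    simp only [mem_iUnion]
    refine ⟨K, hK, ?_⟩
    by_cases h1 : lo K ≤ r ∧ r < hi K
    · left; exact ⟨⟨h1.1, h1.2⟩, hr.2⟩
    · right
      have h2 := h (fun h3 => by
        by_contra h4; exact h1 ⟨h3, by linarith⟩)
      exact ⟨⟨by linarith [h2.2], by linarith [h2.1]⟩, hr.2⟩
  have hK : ∀ K ∈ Bad, volume ((Ico (lo K) (hi K) ∩ Iic ((12 / 25) * e)) ∪
      (Ioc (e - hi K) (e - lo K) ∩ Iic ((12 / 25) * e))) ≤ ENNReal.ofReal (hi K - lo K) := by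
    intro K hK
    have h1 : Ico (lo K) (hi K) ∩ Iic ((12 / 25) * e) ⊆ Icc (lo K) (min (hi K) ((12 / 25) * e)) := by
      intro z hz
      exact ⟨hz.1.1, le_min hz.1.2.le hz.2⟩
    have h2 : Ioc (e - hi K) (e - lo K) ∩ Iic ((12 / 25) * e) ⊆
        Icc (e - hi K) (min (e - lo K) ((12 / 25) * e)) := by
      intro z hz
      exact ⟨hz.1.1.le, le_min hz.1.2 hz.2⟩
    refine (measure_union_le _ _).trans ?_
    refine (add_le_add (measure_mono h1) (measure_mono h2)).trans ?_
    rw [Real.volume_Icc, Real.volume_Icc]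
    have hKl := hlo K hK
    rcases le_total (lo K) ((12 / 25) * e) with ha | ha
    · rcases le_total (e - hi K) ((12 / 25) * e) with hb | hb
      · rw [← ENNReal.ofReal_add]
        · apply ENNReal.ofReal_le_ofReal
          have h3 : min (hi K) ((12 / 25) * e) ≤ (12 / 25) * e := min_le_right _ _
          have h4 : min (e - lo K) ((12 / 25) * e) ≤ (12 / 25) * e := min_le_right _ _
          linarith
        · rw [sub_nonneg]; exact le_min hKl ha
        · rw [sub_nonneg]; exact le_min (by linarith) hb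
      · have h5 : ENNReal.ofReal (min (e - lo K) ((12 / 25) * e) - (e - hi K)) = 0 := by
          apply ENNReal.ofReal_of_nonpos
          have h4 : min (e - lo K) ((12 / 25) * e) ≤ (12 / 25) * e := min_le_right _ _
          linarith
        rw [h5, add_zero]
        apply ENNReal.ofReal_le_ofReal
        have h3 : min (hi K) ((12 / 25) * e) ≤ hi K := min_le_left _ _
        linarith
    · have h5 : ENNReal.ofReal (min (hi K) ((12 / 25) * e) - lo K) = 0 := by
        apply ENNReal.ofReal_of_nonpos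
        have h4 : min (hi K) ((12 / 25) * e) ≤ (12 / 25) * e := min_le_right _ _
        linarith
      rw [h5, zero_add]
      apply ENNReal.ofReal_le_ofReal
      have h3 : min (e - lo K) ((12 / 25) * e) ≤ e - lo K := min_le_left _ _
      linarith
  have hvol := measure_mono (μ := volume) hcov
  rw [Real.volume_Icc] at hvol
  have h6 := hvol.trans ((measure_biUnion_finset_le Bad _).trans (Finset.sum_le_sum hK))
  rw [← ENNReal.ofReal_sum_of_nonneg (fun K hK => by linarith [hlo K hK])] at h6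
  have h7 : (12 / 25) * e - e / 4 ≤ ∑ K ∈ Bad, (hi K - lo K) :=
    (ENNReal.ofReal_le_ofReal_iff (Finset.sum_nonneg (fun K hK => by linarith [hlo K hK]))).1 h6
  linarith

/-- class form: `Th` = thresholds (class `K` = thicknesses in `[Th K, Th (K-1))`), `LE K` = E-length of the class `K`,
`cap K = (Th (K-1) - Th K) / Th (K-1)`.  No half lies in a class with `LE K > ρ cap K`. -/
theorem exists_cut_class (e Φ ρ : ℝ) (he : 0 < e) (Th : ℕ → ℝ) (LE : ℕ → ℝ) (S : Finset ℕ)
    (hTh : ∀ K ∈ S, 0 < Th K ∧ Th K ≤ Th (K - 1) ∧ (75 / 76) * Th (K - 1) ≤ Th K)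
    (hLE : ∀ K ∈ S, 0 ≤ LE K) (hΦ : ∑ K ∈ S, LE K ≤ Φ) (hρ : 331 * Φ ≤ 100 * ρ) (hρ0 : 0 < ρ) :
    ∃ r, e / 4 ≤ r ∧ r ≤ (12 / 25) * e ∧ ∀ K ∈ S,
      ((Th K ≤ r ∧ r < Th (K - 1)) ∨ (Th K ≤ e - r ∧ e - r < Th (K - 1))) →
        LE K ≤ ρ * ((Th (K - 1) - Th K) / Th (K - 1)) := by
  classical
  set Bad : Finset ℕ := S.filter (fun K => ρ * ((Th (K - 1) - Th K) / Th (K - 1)) < LE K ∧ Th K ≤ (3 / 4) * e)
    with hBad
  have hB : ∀ K ∈ Bad, K ∈ S ∧ ρ * ((Th (K - 1) - Th K) / Th (K - 1)) < LE K ∧ Th K ≤ (3 / 4) * e := by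
    intro K hK
    rw [hBad, Finset.mem_filter] at hK
    exact ⟨hK.1, hK.2.1, hK.2.2⟩
  have hsum : ∑ K ∈ Bad, (Th (K - 1) - Th K) < (23 / 100) * e := by
    rcases Bad.eq_empty_or_nonempty with h0 | h0
    · rw [h0, Finset.sum_empty]; positivity
    · have h1 : ∀ K ∈ Bad, Th (K - 1) - Th K < (19 / 25) * e / ρ * LE K := by
        intro K hK
        obtain ⟨hS, hL, h34⟩ := hB K hK
        obtain ⟨hp, hle, h75⟩ := hTh K hS
        have hp' : 0 < Th (K - 1) := lt_of_lt_of_le hp hle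
        have h76 : Th (K - 1) ≤ (19 / 25) * e := by nlinarith
        have hc : 0 ≤ (Th (K - 1) - Th K) / Th (K - 1) := div_nonneg (by linarith) hp'.le
        have hLpos : 0 < LE K := lt_of_le_of_lt (mul_nonneg hρ0.le hc) hL
        have h2 : Th (K - 1) - Th K = (Th (K - 1) - Th K) / Th (K - 1) * Th (K - 1) := by
          field_simp
        have h3 : (Th (K - 1) - Th K) / Th (K - 1) < LE K / ρ := by
          rw [lt_div_iff₀ hρ0]; linarith
        rw [h2]
        calc (Th (K - 1) - Th K) / Th (K - 1) * Th (K - 1) < LE K / ρ * Th (K - 1) :=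
              mul_lt_mul_of_pos_right h3 hp'
          _ ≤ LE K / ρ * ((19 / 25) * e) := by
              apply mul_le_mul_of_nonneg_left h76 (by positivity)
          _ = (19 / 25) * e / ρ * LE K := by ring
      have h4 := Finset.sum_lt_sum_of_nonempty h0 h1
      rw [← Finset.mul_sum] at h4
      have h5 : ∑ K ∈ Bad, LE K ≤ Φ := by
        refine le_trans ?_ hΦ
        apply Finset.sum_le_sum_of_subset_of_nonneg
        · rw [hBad]; exact Finset.filter_subset _ _
        · intro K hK _; exact hLE K hK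
      have h6 : (19 / 25) * e / ρ * ∑ K ∈ Bad, LE K ≤ (19 / 25) * e / ρ * Φ :=
        mul_le_mul_of_nonneg_left h5 (by positivity)
      have h7 : (19 / 25) * e / ρ * Φ ≤ (23 / 100) * e := by
        rw [div_mul_eq_mul_div, div_le_iff₀ hρ0]
        nlinarith
      linarith
  obtain ⟨r, h1, h2, h3⟩ := exists_cut e Bad Th (fun K => Th (K - 1))
    (fun K hK => (hTh K (hB K hK).1).2.1) hsum
  refine ⟨r, h1, h2, fun K hK hor => ?_⟩
  by_contra hL
  push Not at hL
  have hKB : K ∈ Bad := by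
    rw [hBad, Finset.mem_filter]
    refine ⟨hK, hL, ?_⟩
    rcases hor with h | h
    · linarith [h.1]
    · linarith [h.1]
  have h4 := h3 K hKB
  rcases hor with h | h
  · exact h4.1 h
  · exact h4.2 h

end Pool.Agent.MM2
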