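import Pool.Agent.MP_94f265_co.MM2.Split

/-!
# Service of a class
-/

namespace Pool.Agent.MM2

open Pool.Agent.MM1

theorem lenIn_zero (a b : ℝ) : lenIn a b 0 = 0 := by simp [lenIn]

theorem lenIn_add (a b : ℝ) (s t : Multiset (ℝ × ℝ)) :
    lenIn a b (s + t) = lenIn a b s + lenIn a b t := by
  classical
  unfold lenIn
  rw [Multiset.filter_add, Multiset.map_add, Multiset.sum_add]

theorem lenIn_eq_zero (a b : ℝ) (s : Multiset (ℝ × ℝ))
    (h : ∀ p ∈ s, ¬ (a ≤ p.1 ∧ p.1 < b)) : lenIn a b s = 0 := by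
  classical
  unfold lenIn
  rw [Multiset.filter_eq_nil.2 h]
  simp

theorem lenIn_eq_total (a b : ℝ) (s : Multiset (ℝ × ℝ))
    (h : ∀ p ∈ s, a ≤ p.1 ∧ p.1 < b) : lenIn a b s = (s.map Prod.snd).sum := by
  classical
  unfold lenIn
  rw [Multiset.filter_eq_self.2 h]

theorem lenIn_nonneg (a b : ℝ) (s : Multiset (ℝ × ℝ)) (h : ∀ p ∈ s, 0 ≤ p.2) :
    0 ≤ lenIn a b s := by
  classical
  unfold lenIn
  apply Multiset.sum_nonneg
  intro z hz
  obtain ⟨p, hp, rfl⟩ := Multiset.mem_map.1 hz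
  exact h p (Multiset.mem_of_mem_filter hp)

theorem lenIn_mono (a b : ℝ) {s t : Multiset (ℝ × ℝ)} (hst : s ≤ t) (h : ∀ p ∈ t, 0 ≤ p.2) :
    lenIn a b s ≤ lenIn a b t := by
  obtain ⟨u, rfl⟩ := Multiset.le_iff_exists_add.1 hst
  rw [lenIn_add]
  have := lenIn_nonneg a b u (fun p hp => h p (Multiset.mem_add.2 (Or.inr hp)))
  linarith

theorem lenIn_rel (a b : ℝ) {s t : Multiset (ℝ × ℝ)} (h : Multiset.Rel BitLe s t) :
    lenIn a b s ≤ lenIn a b t := by
  induction h with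
  | zero => exact le_rfl
  | @cons p q s t hpq _ ih =>
    rw [← Multiset.singleton_add, ← Multiset.singleton_add, lenIn_add, lenIn_add]
    refine add_le_add ?_ ih
    obtain ⟨h1, h2, h3⟩ := hpq
    classical
    unfold lenIn
    by_cases hw : a ≤ p.1 ∧ p.1 < b
    · have hw' : a ≤ q.1 ∧ q.1 < b := h1 ▸ hw
      rw [Multiset.filter_eq_self.2 (by simpa using hw), Multiset.filter_eq_self.2 (by simpa using hw')]
      simpa using h3
    · have hw' : ¬ (a ≤ q.1 ∧ q.1 < b) := h1 ▸ hw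
      rw [Multiset.filter_eq_nil.2 (by simpa using hw), Multiset.filter_eq_nil.2 (by simpa using hw')]

theorem cells_total (Q : Multiset Obj) :
    ((cellsOf Q).map Prod.snd).sum = (Q.map Obj.len).sum := by
  induction Q using Multiset.induction_on with
  | empty => simp [cellsOf_zero]
  | cons o Q ih =>
    rw [← Multiset.singleton_add, cellsOf_add, Multiset.map_add, Multiset.sum_add, ih,
      Multiset.map_add, Multiset.sum_add, cellsOf_single]
    congr 1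
    simp [Obj.cells, Obj.len, Function.comp_def]

theorem mem_cellsOf {Q : Multiset Obj} {c : ℝ × ℝ} (h : c ∈ cellsOf Q) :
    ∃ o ∈ Q, ∃ p ∈ o.run, c = (o.t - p.1, p.2) := by
  induction Q using Multiset.induction_on with
  | empty => simp [cellsOf_zero] at h
  | cons o Q ih =>
    rw [← Multiset.singleton_add, cellsOf_add, cellsOf_single, Multiset.mem_add] at h
    rcases h with h | h
    · have hc' : c ∈ o.cells := by simpa using h
      obtain ⟨p, hp, rfl⟩ := List.mem_map.1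
        (show c ∈ o.run.map (fun p => (o.t - p.1, p.2)) from hc')
      exact ⟨o, Multiset.mem_cons_self _ _, p, hp, rfl⟩
    · obtain ⟨o', ho', h'⟩ := ih h
      exact ⟨o', Multiset.mem_cons_of_mem ho', h'⟩

/-- **Service of the class `[τ, T)`**: all objects are cut at the thickness `τ`, the parts with
thicker cells are filled. -/
theorem serve_class (x y : ℕ → ℝ) (δ η B τ T Lm : ℝ) (hδ : 0 ≤ δ) (hη : 0 ≤ η) (hB : 0 ≤ B)
    (hητ : η ≤ τ) (Q : Multiset Obj) (hok : ∀ o ∈ Q, o.Ok)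
    (hT : ∀ o ∈ Q, ∀ p ∈ o.run, o.t - p.1 < T)
    (hlong : ∀ o ∈ Q, ∀ p ∈ o.run, τ ≤ o.t - p.1 → δ + η < p.2 ∧ Lm ≤ p.2)
    (ns : List ℕ) (hns : ns.Pairwise (· < ·))
    (hx : ∀ n ∈ ns, x n ≤ τ) (hy : ∀ n ∈ ns, 0 ≤ y n ∧ y n ≤ η ∧ 1 ≤ y n * B)
    (hcap : lenIn τ T (cellsOf Q) * B < ns.length) :
    ∃ (us vs : List ℕ) (W : ℕ → ℝ) (Bs : List (ℝ × List ℕ)) (bits ends : Multiset (ℝ × ℝ)),
      ns = us ++ vs ∧ vs ≠ [] ∧ (us.length : ℝ) ≤ lenIn τ T (cellsOf Q) * B ∧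
      us = (Bs.map Prod.snd).flatten ∧
      (∀ b ∈ Bs, b.2 ≠ [] ∧ (∀ n ∈ b.2, W n = b.1) ∧ Lm ≤ (b.2.map y).sum + δ + 2 * η) ∧
      (∀ n ∈ us, τ ≤ W n ∧ W n < T) ∧
      (∀ n ∈ us, ∀ n' ∈ us, n ≤ n' → W n ≤ W n') ∧
      Multiset.Rel BitLe bits (potOf (sufQ τ Q)) ∧
      Multiset.card ends = Multiset.card (sufQ τ Q) ∧
      (∀ d ∈ ends, δ ≤ d.1 ∧ d.1 ≤ δ + η ∧ τ ≤ d.2 ∧ d.2 < T) ∧
      Cut (rects Q)
        (rects (preQ τ Q) + owed (sufQ τ Q) +
          rects (Multiset.ofList (Bs.map (fun b => mkObj x y b.1 b.2))) + bits + ends) := by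
  obtain ⟨s1, s2, s3, s4, s5, s6⟩ := split_spec τ Q hok
  obtain ⟨Os, hOs⟩ : ∃ Os : List Obj, sufQ τ Q = Multiset.ofList Os :=
    ⟨(sufQ τ Q).toList, (Multiset.coe_toList _).symm⟩
  have hmem : ∀ o, o ∈ Os ↔ o ∈ sufQ τ Q := fun o => by rw [hOs]; simp
  have hlen : (Os.map Obj.len).sum = lenIn τ T (cellsOf Q) := by
    rw [s5, lenIn_add, lenIn_eq_zero τ T (cellsOf (preQ τ Q)), zero_add,
      lenIn_eq_total τ T (cellsOf (sufQ τ Q)), cells_total, hOs]
    · simp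
    · intro c hc
      obtain ⟨o, ho, p, hp, rfl⟩ := mem_cellsOf hc
      obtain ⟨_, o2, ho2, ht, hr⟩ := s2 o ho
      obtain ⟨hp2, hp3⟩ := hr p hp
      rw [ht]
      exact ⟨hp3, hT o2 ho2 p hp2⟩
    · intro c hc
      obtain ⟨o, ho, p, hp, rfl⟩ := mem_cellsOf hc
      obtain ⟨_, o2, ho2, ht, hr⟩ := s1 o ho
      obtain ⟨hp2, hp3⟩ := hr p hp
      rw [ht]
      simp only
      intro h
      linarith [h.1]
  obtain ⟨us, vs, W, Bs, bits, ends, h1, h2, h3, h4, h5, h6, h7, h8, h9, h10, h11⟩ :=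
    serve_objs x y δ η B τ Lm hδ hη hB hητ Os
      (fun o ho => (s2 o ((hmem o).1 ho)).1)
      (by
        intro o ho p hp
        obtain ⟨_, o2, ho2, ht, hr⟩ := s2 o ((hmem o).1 ho)
        rw [ht]
        exact (hr p hp).2)
      (by
        intro o ho p hp
        obtain ⟨_, o2, ho2, ht, hr⟩ := s2 o ((hmem o).1 ho)
        exact hlong o2 ho2 p (hr p hp).1 (hr p hp).2)
      ns hns hx hy (by rw [hlen]; exact hcap)
  have hW : ∀ o ∈ Os, ∀ p ∈ o.run, τ ≤ o.t - p.1 ∧ o.t - p.1 < T := by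
    intro o ho p hp
    obtain ⟨_, o2, ho2, ht, hr⟩ := s2 o ((hmem o).1 ho)
    rw [ht]
    exact ⟨(hr p hp).2, hT o2 ho2 p (hr p hp).1⟩
  refine ⟨us, vs, W, Bs, bits, ends, h1, h2, by rw [← hlen]; exact h3, h4, h5, ?_, h7, ?_, ?_, ?_,
    ?_⟩
  · intro n hn
    obtain ⟨o, ho, p, hp, hWn⟩ := h6 n hn
    rw [hWn]
    exact hW o ho p hp
  · have : potOf (sufQ τ Q) = (Os.map (fun o => Multiset.ofList o.pot)).sum := by
      rw [hOs]
      simp [potOf]
    rw [this]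
    exact h8
  · rw [h9, hOs]
    simp
  · intro d hd
    obtain ⟨g1, g2, o, ho, p, hp, g3⟩ := h10 d hd
    rw [g3]
    exact ⟨g1, g2, hW o ho p hp⟩
  · refine s3.trans ?_
    have e1 : rects (sufQ τ Q) = Multiset.ofList (Os.map Obj.rect) := by
      rw [hOs]; simp [rects]
    have e2 : owed (sufQ τ Q) = (Os.map (fun o => Multiset.ofList o.run)).sum := by
      rw [hOs]; simp [owed]
    have e3 : rects (Multiset.ofList (Bs.map (fun b => mkObj x y b.1 b.2))) =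
        Multiset.ofList (Bs.map (fun b => (b.1, (b.2.map y).sum))) := by
      unfold rects
      rw [Multiset.map_coe, List.map_map]
      congr 1
      apply List.map_congr_left
      intro b _
      simp [Obj.rect, Obj.len, mkObj, Function.comp_def]
    rw [e1, e2, e3]
    refine (Cut.add (Cut.refl _) h11).trans (Cut.of_eq ?_)
    abel

end Pool.Agent.MM2
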