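import Pool.Agent.MP_94f265_co.MM2.Par
import Pool.Agent.MP_94f265_co.MM2.ServeC
import Pool.Agent.MP_94f265_co.MM2.EndsA

/-!
# Choice of the cut of an end (block ENDS), concrete classes

The total length of the end pieces is at most `23/2000`; then every end can be cut so that no class of end pieces gets
more than `(1/25) (3/K)`.
-/

namespace Pool.Agent.MM2

/-- the classes are disjoint: class lengths add up to at most the total length -/
theorem sum_lenK_le (S : Finset ℕ) (hS : ∀ K ∈ S, 1 ≤ K) (E : Multiset (ℝ × ℝ)) (hE : ∀ p ∈ E, 0 ≤ p.2) :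
    ∑ K ∈ S, lenK K E ≤ (E.map Prod.snd).sum := by
  classical
  induction E using Multiset.induction_on with
  | empty => simp [lenK, lenIn_zero]
  | cons p E ih =>
    have ih' := ih (fun q hq => hE q (Multiset.mem_cons_of_mem hq))
    have hp := hE p (Multiset.mem_cons_self _ _)
    have h1 : ∀ K ∈ S, lenK K (p ::ₘ E) = lenK K {p} + lenK K E := by
      intro K _
      unfold lenK
      rw [← Multiset.singleton_add, lenIn_add]
    rw [Finset.sum_congr rfl h1, Finset.sum_add_distrib, Multiset.map_cons, Multiset.sum_cons]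
    have h2 : ∑ K ∈ S, lenK K {p} ≤ p.2 := by
      by_cases h : ∃ K ∈ S, Th K ≤ p.1 ∧ p.1 < Th (K - 1)
      · obtain ⟨K, hK, hk1, hk2⟩ := h
        rw [Finset.sum_eq_single_of_mem K hK]
        · unfold lenK lenIn
          rw [Multiset.filter_singleton, if_pos ⟨hk1, hk2⟩]
          simp
        · intro L hL hLK
          unfold lenK
          apply lenIn_eq_zero
          intro q hq
          rw [Multiset.mem_singleton] at hq
          subst hq
          rintro ⟨h3, h4⟩
          exact hLK (class_unique (hS L hL) (hS K hK) h3 h4 hk1 hk2)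
      · push Not at h
        rw [Finset.sum_eq_zero]
        · exact hp
        · intro L hL
          unfold lenK
          apply lenIn_eq_zero
          intro q hq
          rw [Multiset.mem_singleton] at hq
          subst hq
          rintro ⟨h3, h4⟩
          exact absurd h4 (not_lt.2 (h L hL h3))
    linarith

theorem lenK_single_of_mem {K : ℕ} {p : ℝ × ℝ} (h : Th K ≤ p.1 ∧ p.1 < Th (K - 1)) : lenK K {p} = p.2 := by
  unfold lenK lenIn
  rw [Multiset.filter_singleton, if_pos h]
  simp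

theorem lenK_single_of_notMem {K : ℕ} {p : ℝ × ℝ} (h : ¬ (Th K ≤ p.1 ∧ p.1 < Th (K - 1))) :
    lenK K {p} = 0 := by
  unfold lenK
  apply lenIn_eq_zero
  intro q hq
  rw [Multiset.mem_singleton] at hq
  subst hq
  exact h

/-- **Choice of the cut**: `e × τ` is cut into `r × τ` and `(e - r) × τ`; all classes of the end pieces stay below
`(1/25)(3/K)`. -/
theorem ends_choice (i : ℕ) (hi : 1585 ≤ i) (τ e : ℝ) (hτ1 : Th i ≤ τ) (hτ2 : τ ≤ Th (i - 1))
    (he1 : τ ≤ 105 * e) (he2 : e ≤ (101 / 100) * τ) (E : Multiset (ℝ × ℝ))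
    (hE : ∀ p ∈ E, 0 ≤ p.2) (hlen : (E.map Prod.snd).sum ≤ 23 / 2000)
    (hI : ∀ K, 1 ≤ K → lenK K E ≤ rho * (3 / K)) :
    ∃ r, e / 4 ≤ r ∧ r ≤ (12 / 25) * e ∧
      (∀ K, 1 ≤ K → lenK K (E + {(r, τ)} + {(e - r, τ)}) ≤ rho * (3 / K)) ∧ e - r < Th i := by
  classical
  unfold rho at hI ⊢
  have hτ : 0 < τ := lt_of_lt_of_le (Th_pos (by omega)) hτ1
  have he : 0 < e := by linarith
  have hi' : (1585 : ℝ) ≤ i := by exact_mod_cast hi
  set S : Finset ℕ := Finset.Ioc i (8 * i) with hS
  have hSmem : ∀ K ∈ S, i < K ∧ K ≤ 8 * i := by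
    intro K hK; rw [hS, Finset.mem_Ioc] at hK; exact hK
  -- the enlarged loads
  have hsum : ∑ K ∈ S, (lenK K E + τ) ≤ 1155 / 100000 := by
    rw [Finset.sum_add_distrib, Finset.sum_const, hS, Nat.card_Ioc, ← hS, nsmul_eq_mul]
    have h1 := sum_lenK_le S (fun K hK => by have := hSmem K hK; omega) E hE
    have h2 : ((8 * i - i : ℕ) : ℝ) = 7 * i := by
      have : 8 * i - i = 7 * i := by omega
      rw [this]; push_cast; ring
    rw [h2]
    -- `7 i τ ≤ 7 i Th (i-1) ≤ 5/100000`
    have h3 : 7 * (i : ℝ) * Th (i - 1) ≤ 5 / 100000 := by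
      unfold Th
      have h4 : ((i - 1 : ℕ) : ℝ) = (i : ℝ) - 1 := by rw [Nat.cast_sub (by omega)]; simp
      rw [h4]
      have h5 : 4 * (i : ℝ) ≤ 5 * ((i : ℝ) - 1) - 1 := by linarith
      have h6 : (4 * (i : ℝ)) ^ 3 ≤ (5 * ((i : ℝ) - 1) - 1) ^ 3 := pow_le_pow_left₀ (by linarith) h5 3
      have h7 : 0 < (5 * ((i : ℝ) - 1) - 1) ^ 3 := lt_of_lt_of_le (by positivity) h6
      rw [mul_div_assoc', div_le_iff₀ (by linarith)]
      have h8 : (1585 : ℝ) ^ 2 * i ≤ i ^ 3 := by nlinarith [mul_nonneg (by linarith : (0:ℝ) ≤ i) (by nlinarith : (0:ℝ) ≤ (i:ℝ)^2 - 1585^2)]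
      nlinarith
    have h9 : 7 * (i : ℝ) * τ ≤ 7 * (i : ℝ) * Th (i - 1) :=
      mul_le_mul_of_nonneg_left hτ2 (by linarith)
    linarith
  obtain ⟨r, hr1, hr2, hr⟩ := exists_cut_class e (1155 / 100000) (1 / 25) he Th (fun K => lenK K E + τ) S
    (fun K hK => by
      have h1 := hSmem K hK
      refine ⟨Th_pos (by omega), Th_anti (by omega) (by omega), ?_⟩
      have h2 := Th_ratio (K := K) (by omega)
      have h3 : 0 < Th (K - 1) := Th_pos (by omega)
      linarith)
    (fun K _ => add_nonneg (lenIn_nonneg _ _ _ hE) hτ.le) hsum (by norm_num) (by norm_num)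
  -- a class containing one of the two halves lies in `S`
  have hup : e - r < Th i := by
    have h2 := Th_ratio (K := i) (by omega)
    have h3 : 0 < Th (i - 1) := Th_pos (by omega)
    have h4 : e - r ≤ (3 / 4) * e := by linarith
    have h5 : e - r ≤ (3 / 4) * ((101 / 100) * τ) := by linarith
    linarith
  refine ⟨r, hr1, hr2, fun K hK => ?_, hup⟩
  have hadd : lenK K (E + {(r, τ)} + {(e - r, τ)}) = lenK K E + lenK K {(r, τ)} + lenK K {(e - r, τ)} := by
    unfold lenK; rw [lenIn_add, lenIn_add]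
  rw [hadd]
  have hlow : Th (8 * i) ≤ r := by
    have h1 : τ / 420 ≤ r := by linarith
    have h2 : Th (8 * i) ≤ Th i / 420 := by
      unfold Th
      push_cast
      have ha : 0 < 5 * (i : ℝ) - 1 := by linarith
      have hb : 8 * (5 * (i : ℝ) - 1) ≤ 5 * (8 * (i : ℝ)) - 1 := by linarith
      have hc : (8 * (5 * (i : ℝ) - 1)) ^ 3 ≤ (5 * (8 * (i : ℝ)) - 1) ^ 3 := pow_le_pow_left₀ (by linarith) hb 3
      have hd : 0 < (5 * (i : ℝ) - 1) ^ 3 := by positivity
      rw [div_div, div_le_div_iff₀ (by nlinarith) (by positivity)]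
      nlinarith
    linarith
  have hin : ∀ z, r ≤ z → z < Th i → Th K ≤ z ∧ z < Th (K - 1) → K ∈ S := by
    rintro z hz1 hz2 ⟨h1, h2⟩
    rw [hS, Finset.mem_Ioc]
    constructor
    · by_contra h
      have := Th_anti hK (not_lt.1 h)
      linarith
    · by_contra h
      have h3 : Th (K - 1) ≤ Th (8 * i) := Th_anti (by omega) (by omega)
      linarith
  by_cases hA : Th K ≤ r ∧ r < Th (K - 1)
  · have hKS := hin r le_rfl (by linarith) hA
    have hK2 := hSmem K hKS
    have h1 := hr K hKS (Or.inl hA)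
    have hB : ¬ (Th K ≤ e - r ∧ e - r < Th (K - 1)) := by
      rintro ⟨_, h3⟩
      have h2 := Th_ratio (K := K) (by omega)
      have h4 : 0 < Th (K - 1) := Th_pos (by omega)
      have h5 : (13 / 12) * r ≤ e - r := by linarith
      linarith [hA.1]
    rw [lenK_single_of_mem (p := (r, τ)) hA, lenK_single_of_notMem (p := (e - r, τ)) hB]
    have h6 := om_le (K := K) (by omega)
    unfold om at h6
    simp only at h1 ⊢
    linarith
  · rw [lenK_single_of_notMem (p := (r, τ)) hA]
    by_cases hB : Th K ≤ e - r ∧ e - r < Th (K - 1)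
    · have hKS := hin (e - r) (by linarith) hup hB
      have hK2 := hSmem K hKS
      have h1 := hr K hKS (Or.inr hB)
      rw [lenK_single_of_mem (p := (e - r, τ)) hB]
      have h6 := om_le (K := K) (by omega)
      unfold om at h6
      simp only at h1 ⊢
      linarith
    · rw [lenK_single_of_notMem (p := (e - r, τ)) hB]
      have := hI K hK
      linarith

end Pool.Agent.MM2
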