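import Pool.Agent.MP_94f265_co.MM2.Rows
import Pool.Agent.MP_94f265_co.MM2.ServeC

/-!
# Geometry of one phase
-/

namespace Pool.Agent.MM2

open Pool.Agent.MM1

/-- the plain rectangle of thickness `p.1` and length `p.2` as an object (its owed piece is void) -/
def plainObj (p : ℝ × ℝ) : Obj := ⟨p.1, [(0, p.2)]⟩

theorem plainObj_rect (p : ℝ × ℝ) : (plainObj p).rect = p := by
  simp [plainObj, Obj.rect, Obj.len]

theorem plainObj_cells (p : ℝ × ℝ) : (plainObj p).cells = [p] := by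
  simp [plainObj, Obj.cells]

theorem plainObj_len (p : ℝ × ℝ) : (plainObj p).len = p.2 := by
  simp [plainObj, Obj.len]

theorem plainObj_pot (p : ℝ × ℝ) : (plainObj p).pot = [] := by
  simp [plainObj, Obj.pot, Obj.potL]

theorem plainObj_ok (p : ℝ × ℝ) (h1 : 0 ≤ p.1) (h2 : 0 ≤ p.2) : (plainObj p).Ok :=
  ⟨by simp [plainObj], by simp [plainObj, h1], by simp [plainObj, h2], by simp [plainObj]⟩

theorem rects_plain (s : Multiset (ℝ × ℝ)) : rects (s.map plainObj) = s := by
  unfold rects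
  rw [Multiset.map_map]
  conv_rhs => rw [← Multiset.map_id s]
  apply Multiset.map_congr rfl
  intro p _
  simp [plainObj_rect]

theorem cells_plain (s : Multiset (ℝ × ℝ)) : cellsOf (s.map plainObj) = s := by
  induction s using Multiset.induction_on with
  | empty => simp [cellsOf_zero]
  | cons p s ih =>
    rw [Multiset.map_cons, ← Multiset.singleton_add, cellsOf_add, ih, cellsOf_single,
      plainObj_cells, ← Multiset.singleton_add]
    rfl

/-- the cut made by the service of one object, everything that comes out of it -/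
noncomputable def Res.out (x y : ℕ → ℝ) (r : Res) : Multiset (ℝ × ℝ) :=
  Multiset.ofList r.o.run + rects (Multiset.ofList (r.news x y)) + Multiset.ofList (r.bits y) +
    {r.endp}

open Classical in
/-- **Geometry of one phase.**  `[τ, T')` is the class, `P` the pending strips (thickness `T'`), `X × Y`
the box, `ns` the slots in decreasing order. -/
theorem phase_geom (x y : ℕ → ℝ) (κ δ yM τ T' X Y : ℝ) (QR QE : Multiset Obj)
    (E P : Multiset (ℝ × ℝ)) (ns : List ℕ)
    (hκ : 0 ≤ κ) (hδ : 0 ≤ δ) (hτ : 0 ≤ τ) (hτT : τ ≤ T')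
    (hR : ∀ o ∈ QR, o.Ok) (hQ : ∀ o ∈ QE, o.Ok)
    (hRT : ∀ o ∈ QR, ∀ p ∈ o.run, o.t - p.1 < T') (hQT : ∀ o ∈ QE, ∀ p ∈ o.run, o.t - p.1 < T')
    (hRL : ∀ o ∈ sufQ τ QR, BLong κ δ o.cells.reverse)
    (hQL : ∀ o ∈ sufQ τ QE, BLong κ δ o.cells.reverse)
    (hE : ∀ p ∈ E, p.1 < T' ∧ (τ ≤ p.1 → δ ≤ p.2)) (hP : ∀ p ∈ P, p.1 = T' ∧ δ ≤ p.2)
    (hns : ns.Pairwise (· > ·)) (hy : ∀ n ∈ ns, 0 ≤ y n ∧ y n ≤ yM)
    (hcap : (P.map Prod.snd).sum + lenIn τ T' (cellsOf QR) + lenIn τ T' (cellsOf QE) +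
      lenIn τ T' E < (ns.map y).sum)
    (hX : 0 < X - δ - yM)
    (hY : τ * ((ns.map y).sum / (X - δ - yM) + 1) ≤ Y) :
    ∃ (W : ℕ → ℝ) (RP RR RQ RE : List Res) (Bs rows : List (List ℕ)) (es : List ℝ) (ℓ : ℝ),
      Multiset.ofList (RP.map Res.o) = P.map plainObj ∧
      Multiset.ofList (RR.map Res.o) = sufQ τ QR ∧
      Multiset.ofList (RQ.map Res.o) = sufQ τ QE ∧
      Multiset.ofList (RE.map Res.o) = (E.filter (fun p => τ ≤ p.1)).map plainObj ∧
      (∀ r ∈ RP ++ RR ++ RQ ++ RE, r.o.Ok ∧ r.Good y κ δ yM W) ∧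
      ns = Bs.flatten ++ rows.flatten ∧
      Multiset.ofList Bs = ((RP ++ RR ++ RQ ++ RE).map (fun r => Multiset.ofList r.A)).sum ∧
      (∀ n ∈ ns, ∀ n' ∈ ns, n ≤ n' → W n ≤ W n') ∧
      (∀ n ∈ ns, τ ≤ W n ∧ W n ≤ T') ∧
      (∀ n ∈ rows.flatten, W n = τ) ∧
      (∀ a ∈ rows, a ≠ []) ∧ es.length + 1 = rows.length ∧
      (∀ e ∈ es, δ ≤ e ∧ e ≤ δ + yM) ∧ δ ≤ ℓ ∧ ℓ ≤ X ∧
      ((rows.length : ℝ) - 1) * (X - δ - yM) ≤ (ns.map y).sum ∧
      Cut (rects QR + rects QE + E + P + {(X, Y)})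
        (rects (preQ τ QR) + rects (preQ τ QE) + E.filter (fun p => ¬ τ ≤ p.1) +
          ((RP ++ RR ++ RQ ++ RE).map (Res.out x y)).sum +
          rects (Multiset.ofList (rows.map (fun a => mkObj x y τ a.reverse))) +
          Multiset.ofList (es.map (fun e => (e, τ))) + {(ℓ, τ)} +
          {(X, Y - rows.length * τ)}) := by
  obtain ⟨a1, a2, a3, a4, a5, a6⟩ := split_spec τ QR hR
  obtain ⟨b1, b2, b3, b4, b5, b6⟩ := split_spec τ QE hQ
  have hT'0 : 0 ≤ T' := hτ.trans hτT
  obtain ⟨LP, hLP⟩ : ∃ L : List Obj, P.map plainObj = Multiset.ofList L :=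
    ⟨_, (Multiset.coe_toList _).symm⟩
  obtain ⟨LR, hLR⟩ : ∃ L : List Obj, sufQ τ QR = Multiset.ofList L :=
    ⟨_, (Multiset.coe_toList _).symm⟩
  obtain ⟨LQ, hLQ⟩ : ∃ L : List Obj, sufQ τ QE = Multiset.ofList L :=
    ⟨_, (Multiset.coe_toList _).symm⟩
  obtain ⟨LE, hLE⟩ : ∃ L : List Obj, (E.filter (fun p => τ ≤ p.1)).map plainObj =
      Multiset.ofList L := ⟨_, (Multiset.coe_toList _).symm⟩
  have mP : ∀ o ∈ LP, ∃ p ∈ P, o = plainObj p := by
    intro o ho
    have : o ∈ P.map plainObj := by rw [hLP]; simpa using ho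
    obtain ⟨p, hp, rfl⟩ := Multiset.mem_map.1 this
    exact ⟨p, hp, rfl⟩
  have mR : ∀ o ∈ LR, o ∈ sufQ τ QR := by intro o ho; rw [hLR]; simpa using ho
  have mQ : ∀ o ∈ LQ, o ∈ sufQ τ QE := by intro o ho; rw [hLQ]; simpa using ho
  have mE : ∀ o ∈ LE, ∃ p ∈ E, τ ≤ p.1 ∧ o = plainObj p := by
    intro o ho
    have : o ∈ (E.filter (fun p => τ ≤ p.1)).map plainObj := by rw [hLE]; simpa using ho
    obtain ⟨p, hp, rfl⟩ := Multiset.mem_map.1 this
    rw [Multiset.mem_filter] at hp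
    exact ⟨p, hp.1, hp.2, rfl⟩
  -- all due objects
  set Os : List Obj := LP ++ LR ++ LQ ++ LE with hOs
  have memOs : ∀ o ∈ Os, o ∈ LP ∨ o ∈ LR ∨ o ∈ LQ ∨ o ∈ LE := by
    intro o ho
    simp only [hOs, List.mem_append] at ho
    tauto
  have hspec : ∀ o ∈ Os, o.Ok ∧ BLong κ δ o.cells.reverse ∧
      ∀ p ∈ o.run, τ ≤ o.t - p.1 ∧ o.t - p.1 ≤ T' := by
    intro o ho
    rcases memOs o ho with h | h | h | h
    · obtain ⟨p, hp, rfl⟩ := mP o h
      obtain ⟨h1, h2⟩ := hP p hp
      refine ⟨plainObj_ok p (by rw [h1]; exact hT'0) (hδ.trans h2), ?_, ?_⟩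
      · rw [plainObj_cells]
        simpa [BLong] using h2
      · intro q hq
        have : q = (0, p.2) := by simpa [plainObj] using hq
        subst this
        simp only [plainObj, sub_zero, h1]
        exact ⟨hτT, le_rfl⟩
    · obtain ⟨hok, o2, ho2, ht, hr⟩ := a2 o (mR o h)
      refine ⟨hok, hRL o (mR o h), ?_⟩
      intro p hp
      rw [ht]
      exact ⟨(hr p hp).2, (hRT o2 ho2 p (hr p hp).1).le⟩
    · obtain ⟨hok, o2, ho2, ht, hr⟩ := b2 o (mQ o h)
      refine ⟨hok, hQL o (mQ o h), ?_⟩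
      intro p hp
      rw [ht]
      exact ⟨(hr p hp).2, (hQT o2 ho2 p (hr p hp).1).le⟩
    · obtain ⟨p, hp, hpτ, rfl⟩ := mE o h
      obtain ⟨h1, h2⟩ := hE p hp
      refine ⟨plainObj_ok p (hτ.trans hpτ) (hδ.trans (h2 hpτ)), ?_, ?_⟩
      · rw [plainObj_cells]
        simpa [BLong] using h2 hpτ
      · intro q hq
        have : q = (0, p.2) := by simpa [plainObj] using hq
        subst this
        simp only [plainObj, sub_zero]
        exact ⟨hpτ, h1.le⟩
  -- lengths
  have lenP : (LP.map Obj.len).sum = (P.map Prod.snd).sum := by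
    have h1 : (LP.map Obj.len).sum = ((P.map plainObj).map Obj.len).sum := by rw [hLP]; simp
    rw [h1, Multiset.map_map]
    congr 1
    apply Multiset.map_congr rfl
    intro p _
    simp [plainObj_len]
  have lenR : (LR.map Obj.len).sum = lenIn τ T' (cellsOf QR) := by
    rw [a5, lenIn_add, lenIn_eq_zero τ T' (cellsOf (preQ τ QR)), zero_add,
      lenIn_eq_total τ T' (cellsOf (sufQ τ QR)), cells_total, hLR]
    · simp
    · intro c hc
      obtain ⟨o, ho, p, hp, rfl⟩ := mem_cellsOf hc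
      obtain ⟨_, o2, ho2, ht, hr⟩ := a2 o ho
      rw [ht]
      exact ⟨(hr p hp).2, hRT o2 ho2 p (hr p hp).1⟩
    · intro c hc
      obtain ⟨o, ho, p, hp, rfl⟩ := mem_cellsOf hc
      obtain ⟨_, o2, ho2, ht, hr⟩ := a1 o ho
      rw [ht]
      simp only
      intro h
      linarith [h.1, (hr p hp).2]
  have lenQ : (LQ.map Obj.len).sum = lenIn τ T' (cellsOf QE) := by
    rw [b5, lenIn_add, lenIn_eq_zero τ T' (cellsOf (preQ τ QE)), zero_add,
      lenIn_eq_total τ T' (cellsOf (sufQ τ QE)), cells_total, hLQ]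
    · simp
    · intro c hc
      obtain ⟨o, ho, p, hp, rfl⟩ := mem_cellsOf hc
      obtain ⟨_, o2, ho2, ht, hr⟩ := b2 o ho
      rw [ht]
      exact ⟨(hr p hp).2, hQT o2 ho2 p (hr p hp).1⟩
    · intro c hc
      obtain ⟨o, ho, p, hp, rfl⟩ := mem_cellsOf hc
      obtain ⟨_, o2, ho2, ht, hr⟩ := b1 o ho
      rw [ht]
      simp only
      intro h
      linarith [h.1, (hr p hp).2]
  have lenE : (LE.map Obj.len).sum = lenIn τ T' E := by
    have h1 : (LE.map Obj.len).sum =
        (((E.filter (fun p => τ ≤ p.1)).map plainObj).map Obj.len).sum := by rw [hLE]; simp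
    rw [h1, Multiset.map_map]
    unfold lenIn
    have h2 : E.filter (fun p => τ ≤ p.1 ∧ p.1 < T') = E.filter (fun p => τ ≤ p.1) := by
      apply Multiset.filter_congr
      intro p hp
      have := (hE p hp).1
      tauto
    rw [h2]
    congr 1
    apply Multiset.map_congr rfl
    intro p _
    simp [plainObj_len]
  have hlen : (Os.map Obj.len).sum = (P.map Prod.snd).sum + lenIn τ T' (cellsOf QR) +
      lenIn τ T' (cellsOf QE) + lenIn τ T' E := by
    rw [hOs]
    simp only [List.map_append, List.sum_append]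
    rw [lenP, lenR, lenQ, lenE]
  obtain ⟨us, vs, W, Rs, h1, h2, h3, h4, h5, h6, h7, ⟨Bs, hB1, hB2⟩, h8⟩ :=
    serve_back x y κ δ yM hκ hδ Os (fun o ho => (hspec o ho).1) (fun o ho => (hspec o ho).2.1)
      ns hns hy (by rw [hlen]; exact hcap)
  -- split the results
  have hRs : Rs.map Res.o = LP ++ LR ++ LQ ++ LE := h4
  rw [List.map_eq_append_iff] at hRs
  obtain ⟨R3, RE, hRs3, hR3, hRE⟩ := hRs
  rw [List.map_eq_append_iff] at hR3
  obtain ⟨R2, RQ, hRs2, hR2, hRQ⟩ := hR3
  rw [List.map_eq_append_iff] at hR2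
  obtain ⟨RP, RR, hRs1, hRP, hRR⟩ := hR2
  have hRsall : Rs = RP ++ RR ++ RQ ++ RE := by rw [hRs3, hRs2, hRs1]
  have husns : ∀ n ∈ us, n ∈ ns := fun n hn => by rw [h1]; exact List.mem_append_left _ hn
  have hvsns : ∀ n ∈ vs, n ∈ ns := fun n hn => by rw [h1]; exact List.mem_append_right _ hn
  have hpw := hns
  rw [h1, List.pairwise_append] at hpw
  obtain ⟨hpw1, hpw2, hpw12⟩ := hpw
  have hsumvs : (vs.map y).sum ≤ (ns.map y).sum := by
    rw [h1, List.map_append, List.sum_append]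
    have : 0 ≤ (us.map y).sum := by
      apply List.sum_nonneg
      intro z hz
      obtain ⟨m, hm, rfl⟩ := List.mem_map.1 hz
      exact (hy m (husns m hm)).1
    linarith
  obtain ⟨rows, es, ℓ, g1, g2, g3, g4, g5, g6, g7, g8, g9, g10⟩ :=
    rows_fill x y δ yM τ X hδ hτ hX Y vs h2 (fun n hn => hy n (hvsns n hn)) (by
      refine le_trans ?_ hY
      apply mul_le_mul_of_nonneg_left _ hτ
      have := div_le_div_of_nonneg_right hsumvs hX.le
      linarith)
  -- the widths
  have hWus : ∀ n ∈ us, τ ≤ W n ∧ W n ≤ T' := by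
    intro n hn
    obtain ⟨o, ho, p, hp, hWn⟩ := h7 n hn
    rw [hWn]
    exact (hspec o ho).2.2 p hp
  set W' : ℕ → ℝ := fun n => if n ∈ us then W n else τ with hW'
  have hdis : ∀ n ∈ vs, n ∉ us := fun n hn hn' => lt_irrefl _ (hpw12 n hn' n hn)
  have hGood : ∀ r ∈ Rs, r.Good y κ δ yM W' := by
    intro r hr
    have hg := h5 r hr
    refine ⟨hg.carry, ?_, hg.hdec, hg.hy⟩
    have hAus : ∀ a ∈ r.A, ∀ n ∈ a, n ∈ us := by
      intro a ha n hn
      have hmem : a ∈ Multiset.ofList Bs := by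
        rw [hB2]
        have : ∀ (L : List Res), r ∈ L → a ∈ (L.map (fun r => Multiset.ofList r.A)).sum := by
          intro L hL
          induction L with
          | nil => simp at hL
          | cons r' L ih =>
            rw [List.map_cons, List.sum_cons, Multiset.mem_add]
            rcases List.mem_cons.1 hL with rfl | hL
            · exact Or.inl (by simpa using ha)
            · exact Or.inr (ih hL)
        exact this Rs hr
      rw [hB1, List.mem_flatten]
      exact ⟨a, by simpa using hmem, hn⟩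
    have key : ∀ (c : List (ℝ × ℝ)) (C : List (List ℕ)),
        (∀ a ∈ C, ∀ n ∈ a, n ∈ us) →
        List.Forall₂ (fun p a => ∀ n ∈ a, W n = p.1) c C →
        List.Forall₂ (fun p a => ∀ n ∈ a, W' n = p.1) c C := by
      intro c C hC hF
      induction hF with
      | nil => exact List.Forall₂.nil
      | cons hab _ ihF =>
        refine List.Forall₂.cons ?_ (ihF (fun a ha => hC a (by simp [ha])))
        intro n hn
        have : n ∈ us := hC _ (by simp) n hn
        simp only [hW', this, if_true]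
        exact hab n hn
    exact key _ _ hAus hg.hW
  have hokRs : ∀ r ∈ Rs, r.o.Ok := by
    intro r hr
    apply (hspec r.o _).1
    rw [← h4]
    exact List.mem_map_of_mem hr
  refine ⟨W', RP, RR, RQ, RE, Bs, rows, es, ℓ, ?_, ?_, ?_, ?_, ?_, ?_, ?_, ?_, ?_, ?_, g2, g3, g4,
    g5, g6, g7.trans hsumvs, ?_⟩
  · rw [hRP, ← hLP]
  · rw [hRR, ← hLR]
  · rw [hRQ, ← hLQ]
  · rw [hRE, ← hLE]
  · intro r hr
    rw [← hRsall] at hr
    exact ⟨hokRs r hr, hGood r hr⟩
  · rw [← hB1, ← g1]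
    exact h1
  · rw [← hRsall]
    exact hB2
  · intro n hn n' hn' hnn
    rw [h1, List.mem_append] at hn hn'
    by_cases c1 : n ∈ us
    · by_cases c2 : n' ∈ us
      · simp only [hW', c1, c2, if_true]
        exact h6 n c1 n' c2 hnn
      · exfalso
        have := hpw12 n c1 n' (hn'.resolve_left c2)
        omega
    · by_cases c2 : n' ∈ us
      · simp only [hW', c1, c2, if_true, if_false]
        exact (hWus n' c2).1
      · simp only [hW', c1, c2, if_false]
        exact le_rfl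
  · intro n hn
    by_cases c1 : n ∈ us
    · simp only [hW', c1, if_true]
      exact hWus n c1
    · simp only [hW', c1, if_false]
      exact ⟨le_rfl, hτT⟩
  · intro n hn
    rw [← g1] at hn
    simp only [hW', hdis n hn, if_false]
  · -- the cut
    rw [hRsall] at h8
    have eE : E = E.filter (fun p => ¬ τ ≤ p.1) + E.filter (fun p => τ ≤ p.1) := by
      rw [add_comm]
      exact (Multiset.filter_add_not _ _).symm
    have eOs : Multiset.ofList (Os.map Obj.rect) = P + rects (sufQ τ QR) + rects (sufQ τ QE) +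
        E.filter (fun p => τ ≤ p.1) := by
      have e1 : P = rects (Multiset.ofList LP) := by rw [← hLP, rects_plain]
      have e2 : E.filter (fun p => τ ≤ p.1) = rects (Multiset.ofList LE) := by
        rw [← hLE, rects_plain]
      rw [e2, hLR, hLQ]
      nth_rewrite 1 [e1]
      rw [hOs]
      simp [rects]
    rw [eOs] at h8
    have hbase : Cut (rects QR + rects QE + E + P + {(X, Y)})
        (rects (preQ τ QR) + rects (preQ τ QE) + E.filter (fun p => ¬ τ ≤ p.1) +
          (P + rects (sufQ τ QR) + rects (sufQ τ QE) + E.filter (fun p => τ ≤ p.1)) +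
          {(X, Y)}) := by
      have hh := Cut.add (Cut.add (Cut.add (Cut.add a3 b3) (Cut.of_eq eE)) (Cut.refl P))
        (Cut.refl {(X, Y)})
      refine hh.trans (Cut.of_eq ?_)
      abel
    refine hbase.trans ?_
    have hh := Cut.add (Cut.add (Cut.refl (rects (preQ τ QR) + rects (preQ τ QE) +
      E.filter (fun p => ¬ τ ≤ p.1))) h8) g10
    refine hh.trans (Cut.of_eq ?_)
    unfold Res.out
    abel

end Pool.Agent.MM2
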