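import Pool.Agent.MP_94f265_co.MM2.EndsB
import Pool.Agent.MP_94f265_co.MM2.EndsV
import Pool.Agent.MP_94f265_co.MM2.PhaseGeom

/-!
# The ends of a phase (block ENDS)
-/

namespace Pool.Agent.MM2

open Pool.Agent.MM1

/-- **All ends of the phase `i`** (pieces `d = (e, τ)`) are cut in two; `E` = the end pieces that are not due. -/
theorem ends_phase (i : ℕ) (hi : 1585 ≤ i) (L : Multiset (ℝ × ℝ))
    (hL : ∀ d ∈ L, Th i ≤ d.2 ∧ d.2 ≤ Th (i - 1) ∧ d.2 ≤ 105 * d.1 ∧ d.1 ≤ (101 / 100) * d.2)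
    (E : Multiset (ℝ × ℝ)) (hE : ∀ p ∈ E, 0 ≤ p.2)
    (hlen : (E.map Prod.snd).sum + 2 * (L.map Prod.snd).sum ≤ 23 / 2000)
    (hI : ∀ K, 1 ≤ K → lenK K E ≤ rho * (3 / K)) :
    ∃ F : Multiset (ℝ × ℝ), Cut L F ∧
      (∀ K, 1 ≤ K → lenK K (E + F) ≤ rho * (3 / K)) ∧
      (∀ p ∈ F, Th i / 420 ≤ p.1 ∧ p.1 < Th i ∧ (132 / 100) * p.1 ≤ p.2 ∧ Th i ≤ p.2 ∧
        p.1 < Th (max (i + 1) i0 - 1)) ∧
      (F.map Prod.snd).sum = 2 * (L.map Prod.snd).sum ∧
      (F.map (fun p => EV p.1 p.2)).sum ≤ (L.map (fun d => 2 * d.2 + d.1)).sum := by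
  -- the halves of the early ends are thinner than the class `i0 - 1`
  have hmax : (303 / 400) * Th (i - 1) < Th (max (i + 1) i0 - 1) := by
    unfold i0
    rcases le_or_gt 1599 i with h | h
    · have e1 : max (i + 1) 1600 - 1 = i := by omega
      rw [e1]
      have h2 := Th_ratio (K := i) (by omega)
      have h3 : 0 < Th (i - 1) := Th_pos (by omega)
      linarith
    · have e1 : max (i + 1) 1600 - 1 = 1599 := by omega
      rw [e1]
      have h2 : Th (i - 1) ≤ Th 1584 := Th_anti (by norm_num) (by omega)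
      have h3 : (303 / 400) * Th 1584 < Th 1599 := by unfold Th; norm_num
      linarith
  induction L using Multiset.induction_on generalizing E with
  | empty =>
    refine ⟨0, Cut.refl _, ?_, by simp, by simp, by simp⟩
    intro K hK
    rw [add_zero]
    exact hI K hK
  | cons d L ih =>
    obtain ⟨h1, h2, h3, h4⟩ := hL d (Multiset.mem_cons_self _ _)
    have hTh : 0 < Th i := Th_pos (by omega)
    have hd2 : 0 < d.2 := lt_of_lt_of_le hTh h1
    have hd1 : 0 < d.1 := by linarith
    have hL' : ∀ d' ∈ L, 0 ≤ d'.2 := by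
      intro d' hd'
      have := (hL d' (Multiset.mem_cons_of_mem hd')).1
      linarith
    have hLs : 0 ≤ (L.map Prod.snd).sum := by
      apply Multiset.sum_nonneg
      intro z hz
      obtain ⟨d', hd', rfl⟩ := Multiset.mem_map.1 hz
      exact hL' d' hd'
    rw [Multiset.map_cons, Multiset.sum_cons] at hlen
    obtain ⟨r, hr1, hr2, hr3, hr4⟩ := ends_choice i hi d.2 d.1 h1 h2 h3 h4 E hE (by linarith) hI
    obtain ⟨F, hF1, hF2, hF3, hF4, hF5⟩ := ih (fun d' hd' => hL d' (Multiset.mem_cons_of_mem hd'))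
      (E + {(r, d.2)} + {(d.1 - r, d.2)})
      (by
        intro p hp
        rw [Multiset.mem_add, Multiset.mem_add, Multiset.mem_singleton, Multiset.mem_singleton] at hp
        rcases hp with (hp | rfl) | rfl
        · exact hE p hp
        · exact hd2.le
        · exact hd2.le)
      (by
        rw [Multiset.map_add, Multiset.map_add, Multiset.sum_add, Multiset.sum_add]
        simp only [Multiset.map_singleton, Multiset.sum_singleton]
        linarith) hr3
    refine ⟨{(r, d.2)} + {(d.1 - r, d.2)} + F, ?_, ?_, ?_, ?_, ?_⟩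
    · rw [← Multiset.singleton_add]
      refine Cut.add ?_ hF1
      have hs : Cut {(d.2, r + (d.1 - r))} ({(d.2, r)} + {(d.2, d.1 - r)}) :=
        Cut.split' (by linarith) (by linarith)
      have e1 : r + (d.1 - r) = d.1 := by ring
      rw [e1] at hs
      refine ((Cut.swap d.1 d.2).trans hs).trans ?_
      exact Cut.add (Cut.swap _ _) (Cut.swap _ _)
    · intro K hK
      have := hF2 K hK
      have e1 : E + {(r, d.2)} + {(d.1 - r, d.2)} + F = E + ({(r, d.2)} + {(d.1 - r, d.2)} + F) := by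
        abel
      rwa [e1] at this
    · intro p hp
      rw [Multiset.mem_add, Multiset.mem_add, Multiset.mem_singleton, Multiset.mem_singleton] at hp
      rcases hp with (rfl | rfl) | hp
      · simp only
        refine ⟨by linarith, by linarith, by linarith, h1, by linarith⟩
      · simp only
        refine ⟨by linarith, hr4, by linarith, h1, by linarith⟩
      · exact hF3 p hp
    · rw [Multiset.map_add, Multiset.map_add, Multiset.sum_add, Multiset.sum_add, hF4,
        Multiset.map_cons, Multiset.sum_cons]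
      simp only [Multiset.map_singleton, Multiset.sum_singleton]
      ring
    · rw [Multiset.map_add, Multiset.map_add, Multiset.sum_add, Multiset.sum_add,
        Multiset.map_cons, Multiset.sum_cons]
      simp only [Multiset.map_singleton, Multiset.sum_singleton]
      have := EV_split d.2 d.1 r hd1.le h4 hr1 hr2
      linarith

/-- service of an end piece, without the choice of the cut -/
theorem EV_serve (r u l e : ℝ) (us : List ℕ) (y : ℕ → ℝ) (hr : 0 < r) (hu : 0 ≤ u)
    (hus : ∀ n ∈ us, 0 ≤ y n ∧ y n ≤ r ∧ r ≤ (1 + u) * y n) (hl : l = (us.map y).sum + e)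
    (he : e ≤ (101 / 100) * r) (hA : (13 / 10) * r ≤ l) :
    2 * r + e + (1 / 5 - (4 / 5) * u) * (us.map y).sum ≤ EV r l := by
  by_cases hA2 : (101 / 50) * r ≤ l
  · have h3 := units_ge_two r u l e us y hr hus hl he hA2 hu
    rw [EV_thin r l hA2, hl]
    nlinarith
  · have h3 := units_ge_one r u l e us y hr (fun n hn => ⟨(hus n hn).1, (hus n hn).2.2⟩) hl he hA hu
    have h4 : EV r l = l + (6 / 5) * r := by unfold EV; rw [if_neg hA2]
    rw [h4, hl]
    nlinarith

/-- bounds for a slot of the phase `i` and the width `w` of its strip -/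
theorem slot_bounds {i n : ℕ} (hi : 1585 ≤ i) (hn : n ∈ PP i) :
    0 < yu n ∧ yu n < xu n ∧ xu n < Th i ∧ Th (i - 1) - xu n ≤ (344 / 10000) * yu n ∧
      Th (i - 1) ≤ (1 + 345 / 10000) * yu n := by
  obtain ⟨h1, h2, h3, h4⟩ := mem_PP_real hn
  have hi' : (1585 : ℝ) ≤ i := by exact_mod_cast hi
  have hN : (NN : ℝ) = 300000000 := by unfold NN; norm_num
  rw [hN] at h3
  have hn0 : (0 : ℝ) < n := by linarith
  have hy0 : 0 < yu n := by unfold yu; positivity
  have hyx : yu n < xu n := by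
    unfold yu xu
    apply one_div_lt_one_div_of_lt hn0; linarith
  have hxT : xu n < Th i := by
    rw [Th_eq]
    unfold xu
    apply one_div_lt_one_div_of_lt (TT_pos (by linarith))
    -- `TT (i - 1/5) < n`
    rcases le_or_gt 1600 i with h | h
    · refine lt_of_lt_of_le ?_ h1
      unfold TT
      have : ((i : ℝ) - 1 / 5) ^ 3 < (i : ℝ) ^ 3 := pow_lt_pow_left₀ (by linarith) (by linarith) (by norm_num)
      linarith
    · have h5 : (i : ℝ) ≤ 1599 := by
        have : i ≤ 1599 := by omega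
        exact_mod_cast this
      have h6 : TT ((i : ℝ) - 1 / 5) ≤ TT (1599 : ℝ) := TT_mono (by linarith) (by linarith)
      have h7 : TT (1599 : ℝ) < 300000000 := by unfold TT; norm_num
      linarith
  -- `Th (i-1) * (n + 1) ≤ 1 + 344/10000`
  have hcast : ((i - 1 : ℕ) : ℝ) = (i : ℝ) - 1 := by rw [Nat.cast_sub (by omega)]; simp
  have hTn : Th (i - 1) * (n : ℝ) ≤ 1 + 330 / 10000 := by
    rw [Th_eq, hcast, div_mul_eq_mul_div, one_mul, div_le_iff₀ (TT_pos (by linarith))]
    refine h2.le.trans ?_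
    unfold TT
    -- `(i+16)^3 ≤ 1.033 (i - 6/5)^3`
    set z : ℝ := (i : ℝ) - 6 / 5 with hz
    have hz0 : (15838 / 10 : ℝ) ≤ z := by linarith
    have e1 : (i : ℝ) + 16 = z + 86 / 5 := by rw [hz]; ring
    have e2 : (i : ℝ) - 1 - 1 / 5 = z := by rw [hz]; ring
    rw [e1, e2]
    have h8 : (z + 86 / 5) ^ 3 ≤ ((1 + 330 / 10000) : ℝ) * z ^ 3 := by
      have h9 : z + 86 / 5 ≤ (1 + (86 / 5) / (15838 / 10)) * z := by
        have : (86 / 5 : ℝ) ≤ (86 / 5) / (15838 / 10) * z := by
          rw [div_mul_eq_mul_div, le_div_iff₀ (by norm_num)]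
          linarith
        linarith
      calc (z + 86 / 5) ^ 3 ≤ ((1 + (86 / 5) / (15838 / 10)) * z) ^ 3 := pow_le_pow_left₀ (by linarith) h9 3
        _ = (1 + (86 / 5) / (15838 / 10)) ^ 3 * z ^ 3 := by ring
        _ ≤ ((1 + 330 / 10000) : ℝ) * z ^ 3 := by
            apply mul_le_mul_of_nonneg_right _ (by positivity)
            norm_num
    linarith
  have hTs : Th (i - 1) ≤ 1 / 100000 := by
    rw [Th_eq, hcast]
    rw [div_le_div_iff₀ (TT_pos (by linarith)) (by norm_num)]
    unfold TT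
    have : (1583 : ℝ) ^ 3 ≤ ((i : ℝ) - 1 - 1 / 5) ^ 3 := pow_le_pow_left₀ (by norm_num) (by linarith) 3
    linarith
  have hTn1 : Th (i - 1) * ((n : ℝ) + 1) ≤ 1 + 331 / 10000 := by
    rw [mul_add, mul_one]; linarith
  have hyn : yu n * ((n : ℝ) + 1) = 1 := by unfold yu; field_simp
  refine ⟨hy0, hyx, hxT, ?_, ?_⟩
  · have h5 : xu n * ((n : ℝ) + 1) ≥ 1 := by
      unfold xu
      rw [ge_iff_le, div_mul_eq_mul_div, one_mul, le_div_iff₀ hn0]
      linarith
    have h6 : (Th (i - 1) - xu n) * ((n : ℝ) + 1) ≤ (344 / 10000) * (yu n * ((n : ℝ) + 1)) := by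
      rw [hyn]; linarith
    have h7 : (0 : ℝ) < (n : ℝ) + 1 := by linarith
    nlinarith
  · have h6 : Th (i - 1) * ((n : ℝ) + 1) ≤ (1 + 345 / 10000) * (yu n * ((n : ℝ) + 1)) := by
      rw [hyn]; linarith
    have h7 : (0 : ℝ) < (n : ℝ) + 1 := by linarith
    nlinarith

/-- the price of the class of a new cell -/
theorem cell_price {i n : ℕ} (hi : 1585 ≤ i) (hn : n ∈ PP i) {w : ℝ} (hw1 : Th i ≤ w)
    (hw2 : w ≤ Th (i - 1)) :
    0 < w - xu n ∧ w - xu n ≤ gmax i ∧
      (301 / 100) * Th (kc (w - xu n) - 1) ≤ (1 / 5 - (4 / 5) * (345 / 10000)) * yu n := by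
  obtain ⟨h1, h2, h3, h4, h5⟩ := slot_bounds hi hn
  obtain ⟨g1, g2, g3, g4⟩ := mem_PP_real hn
  have hi' : (1585 : ℝ) ≤ i := by exact_mod_cast hi
  have hpos : 0 < w - xu n := by linarith
  have hx : 1 / TT ((i : ℝ) + 16) ≤ xu n := by
    unfold xu
    have hn0 : (0 : ℝ) < n := lt_of_lt_of_le (TT_pos (by linarith)) g1
    exact one_div_le_one_div_of_le hn0 g2.le
  refine ⟨hpos, by unfold gmax; linarith, ?_⟩
  -- the class of the new cell is large
  have hk : 300 ≤ kc (w - xu n) := by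
    by_contra h
    push Not at h
    have hk1 := kc_spec hpos
    have h6 : Th 300 ≤ Th (kc (w - xu n)) := Th_anti hk1.1 (by omega)
    have h7 : Th (i - 1) ≤ Th 1584 := Th_anti (by norm_num) (by omega)
    have h8 : Th 1584 < Th 300 := Th_lt (by norm_num) (by norm_num)
    have h9 : 0 < xu n := by linarith
    linarith [hk1.2]
  have h6 := Th_ratio (K := kc (w - xu n)) hk
  have h7 := (kc_spec hpos).2
  have h8 : w - xu n ≤ (344 / 10000) * yu n := by linarith
  nlinarith

end Pool.Agent.MM2
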