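import Pool.Agent.MP_94f265_co.MM2.EndsC

/-!
# The potential of the end pieces during the service of the due end pieces
-/

namespace Pool.Agent.MM2

open Pool.Agent.MM1

/-- what the service of a plain piece gives -/
theorem plain_res {y : ℕ → ℝ} {κ δ yM : ℝ} {W : ℕ → ℝ} {r : Res} {p : ℝ × ℝ} (ho : plainObj p = r.o)
    (hg : r.Good y κ δ yM W) :
    ∃ a : List ℕ, r.A = [a] ∧ (∀ n ∈ a, W n = p.1) ∧ p.2 = (a.map y).sum + r.e ∧ δ ≤ r.e ∧
      r.e ≤ δ + yM ∧ r.endp = (r.e, p.1) := by
  have hc : r.cells = [p] := by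
    unfold Res.cells
    rw [← ho, plainObj_cells]
    rfl
  have h1 := hg.carry
  have h2 := hg.hW
  rw [hc] at h1 h2
  match hA : r.A, h1, h2 with
  | [a], h1, h2 =>
    simp only [BCarry] at h1
    rw [List.forall₂_cons] at h2
    refine ⟨a, rfl, h2.1, by linarith [h1.1], h1.2.1, h1.2.2, ?_⟩
    unfold Res.endp Res.tau
    rw [← ho, plainObj_cells]
    rfl
  | [], h1, h2 => simp [BCarry] at h1
  | _ :: _ :: _, h1, h2 => simp at h2

/-- **The service of the due end pieces `D`** pays for its ends and for all classes of the new cells. -/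
theorem E_phase (i : ℕ) (hi : 1585 ≤ i) (κ δ yM : ℝ) (W : ℕ → ℝ) (D : Multiset (ℝ × ℝ)) (RE : List Res)
    (hRE : Multiset.ofList (RE.map Res.o) = D.map plainObj)
    (hD : ∀ p ∈ D, Th i ≤ p.1 ∧ p.1 < Th (i - 1) ∧ (13 / 10) * p.1 ≤ p.2)
    (hgood : ∀ r ∈ RE, r.Good yu κ δ yM W) (hsl : ∀ r ∈ RE, ∀ a ∈ r.A, ∀ n ∈ a, n ∈ PP i)
    (hδ : δ + yM ≤ (101 / 100) * Th i) :
    (RE.map (fun r => 2 * r.endp.2 + r.endp.1)).sum +
      (RE.map (fun r => (r.A.flatten.map (fun n => (301 / 100) * Th (kc (W n - xu n) - 1))).sum)).sum ≤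
      (D.map (fun p => EV p.1 p.2)).sum := by
  have hone : ∀ r ∈ RE, 2 * r.endp.2 + r.endp.1 +
      (r.A.flatten.map (fun n => (301 / 100) * Th (kc (W n - xu n) - 1))).sum ≤ EV r.o.t r.o.len := by
    intro r hr
    have hmem : r.o ∈ D.map plainObj := by
      rw [← hRE]
      simpa using ⟨r, hr, rfl⟩
    obtain ⟨p, hp, hpo⟩ := Multiset.mem_map.1 hmem
    obtain ⟨d1, d2, d3⟩ := hD p hp
    obtain ⟨a, hA, hW, hl, he1, he2, hend⟩ := plain_res hpo (hgood r hr)
    have hTh : 0 < Th i := Th_pos (by omega)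
    have haP : ∀ n ∈ a, n ∈ PP i := hsl r hr a (by rw [hA]; simp)
    have h1 := EV_serve p.1 (345 / 10000) p.2 r.e a yu (by linarith) (by norm_num)
      (by
        intro n hn
        obtain ⟨b1, b2, b3, b4, b5⟩ := slot_bounds hi (haP n hn)
        exact ⟨b1.le, by linarith, by linarith⟩) hl (by linarith) d3
    have e1 : EV r.o.t r.o.len = EV p.1 p.2 := by
      rw [← hpo, plainObj_len]
      rfl
    rw [e1, hend, hA, List.flatten_cons, List.flatten_nil, List.append_nil]
    simp only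
    have h2 : (a.map (fun n => (301 / 100) * Th (kc (W n - xu n) - 1))).sum ≤
        (1 / 5 - (4 / 5) * (345 / 10000)) * (a.map yu).sum := by
      rw [← List.sum_map_mul_left]
      apply List.sum_le_sum
      intro n hn
      rw [hW n hn]
      exact (cell_price hi (haP n hn) d1 d2.le).2.2
    linarith
  have hsum : (RE.map (fun r => 2 * r.endp.2 + r.endp.1)).sum +
      (RE.map (fun r => (r.A.flatten.map (fun n => (301 / 100) * Th (kc (W n - xu n) - 1))).sum)).sum ≤
      (RE.map (fun r => EV r.o.t r.o.len)).sum := by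
    rw [← List.sum_map_add]
    exact List.sum_le_sum hone
  have e2 : (RE.map (fun r => EV r.o.t r.o.len)).sum = (D.map (fun p => EV p.1 p.2)).sum := by
    have h1 : (RE.map (fun r => EV r.o.t r.o.len)).sum =
        ((Multiset.ofList (RE.map Res.o)).map (fun o => EV o.t o.len)).sum := by
      rw [Multiset.map_coe, List.map_map, Multiset.sum_coe]
      rfl
    rw [h1, hRE, Multiset.map_map]
    congr 1
    apply Multiset.map_congr rfl
    intro p _
    simp only [Function.comp_apply, plainObj_len]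
    rfl
  rw [← e2]
  exact hsum

end Pool.Agent.MM2
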