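import Pool.Agent.MP_94f265_co.MM2.PsiI
import Pool.Agent.MP_94f265_co.MM2.Cap

/-!
# The ends of a phase: existence of the halves, load of the end pieces
-/

namespace Pool.Agent.MM2

open Pool.Agent.MM1

variable {i : ℕ} {s : TState} {d : PhaseData} {θ : ℝ}

/-- all ends of the phase -/
theorem PhaseOK.mem_ends (h : PhaseOK i s d) (hI : Inv θ i s) (hi : 1585 ≤ i) :
    ∀ e ∈ d.ends i, Th i ≤ e.2 ∧ e.2 ≤ Th (i - 1) ∧ del i ≤ e.1 ∧ e.1 ≤ del i + yM i := by
  have hT : Th i ≤ Th (i - 1) := Th_anti (by omega) (by omega)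
  intro e he
  unfold PhaseData.ends at he
  rw [Multiset.mem_add] at he
  rcases he with he | he
  · have he' : e ∈ d.Rs.map Res.endp := by simpa using he
    obtain ⟨r, hr, rfl⟩ := List.mem_map.1 he'
    obtain ⟨hok, hg⟩ := h.good r hr
    have hne : r.cells ≠ [] := by
      unfold Res.cells Obj.cells
      simpa using hok.ne
    have h1 := BCarry.rem_bounds 0 r.cells r.A r.e hg.carry hne
    have h2 := (h.mem_cases (Tmax_le hi) hI.sinvT (by omega) r hr).1
    have h3 : Th i ≤ r.tau ∧ r.tau ≤ Th (i - 1) := by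
      unfold Res.tau Obj.cells
      have hne' := hok.ne
      cases hrun : r.o.run with
      | nil => exact absurd hrun hne'
      | cons p l =>
        simp only [List.map_cons, List.headD_cons]
        exact h2 p (by rw [hrun]; simp)
    exact ⟨h3.1, h3.2, h1.1, h1.2⟩
  · have he' : e ∈ d.es.map (fun e => (e, Th i)) := by simpa using he
    obtain ⟨x, hx, rfl⟩ := List.mem_map.1 he'
    obtain ⟨h1, h2⟩ := h.rowE x hx
    exact ⟨le_rfl, hT, h1, h2⟩

/-- **Existence of the halves.** -/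
theorem PhaseOK.exists_F (h : PhaseOK i s d) (hI : Inv θ i s) (hi : j0 ≤ i)
    (hrows : (d.rows.length : ℝ) + 1 ≤ rowsB i) :
    ∃ F : Multiset (ℝ × ℝ), Cut (d.ends i) F ∧
      (∀ K, 1 ≤ K → lenK K (nextState i s d F).E ≤ rho * (3 / K)) ∧
      (∀ p ∈ F, EInv (Th (max (i + 1) i0 - 1)) p) ∧
      (F.map (fun p => EV p.1 p.2)).sum ≤ ((d.ends i).map (fun e => 2 * e.2 + e.1)).sum := by
  classical
  have hi' : 1585 ≤ i := hi
  obtain ⟨hX, hbox, _⟩ := hI.rows hi
  have hlen := h.len_next' hI hi' hrows hX hbox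
  have hP := sum_dPsi_le (i + 1)
  -- a slot
  have hcap := hI.capacity hi
  have hne : (PP i).Nonempty := by
    rw [Finset.nonempty_iff_ne_empty]
    intro h0
    obtain ⟨l, hl0, hl1, hl2, _⟩ := pend_len hI (one_le_Nj _)
    rw [h0, Finset.sum_empty, hl2] at hcap
    have h3 : 0 ≤ lenK i (cellsOf s.QR) := lenK_nonneg i
      (fun c hc => ((sinv_cells_nonneg hI.sinv).1 c hc).2)
    have h4 : 0 ≤ lenK i (cellsOf s.QE) := lenK_nonneg i
      (fun c hc => ((sinv_cells_nonneg hI.sinv).2.1 c hc).2)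
    have h5 : 0 ≤ lenK i s.E := lenK_nonneg i
      (fun c hc => ((sinv_cells_nonneg hI.sinv).2.2 c hc).2)
    linarith
  obtain ⟨n, hn⟩ := hne
  obtain ⟨_, _, _, _, _, hyT, hTy⟩ := slot_gap i hi n hn
  have hy0 := yM_pos i
  have hdel : del i = yM i / 100 := rfl
  obtain ⟨F, f1, f2, f3, f4, f5⟩ := ends_phase i hi' (d.ends i)
    (by
      intro e he
      obtain ⟨e1, e2, e3, e4⟩ := h.mem_ends hI hi' e he
      refine ⟨e1, e2, ?_, ?_⟩
      · rw [hdel] at e3
        linarith
      · rw [hdel] at e4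
        linarith)
    (s.E.filter (fun p => ¬ Th i ≤ p.1))
    (by
      intro p hp
      rw [Multiset.mem_filter] at hp
      exact ((sinv_cells_nonneg hI.sinv).2.2 p hp.1).2)
    (by linarith)
    (by
      intro K hK
      refine (lenK_le_of_le K (Multiset.filter_le _ _) ?_).trans (hI.eload K hK)
      intro c hc
      exact ((sinv_cells_nonneg hI.sinv).2.2 c hc).2)
  refine ⟨F, f1, ?_, ?_, f5⟩
  · intro K hK
    exact f2 K hK
  · intro p hp
    obtain ⟨g1, g2, g3, g4, g5⟩ := f3 p hp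
    have hTh : 0 < Th i := Th_pos (by omega)
    exact ⟨by linarith, g5, by linarith⟩

end Pool.Agent.MM2
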