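import Pool.Agent.MP_94f265_co.MM2.Obj

/-!
# The service of the due objects of one class
-/

namespace Pool.Agent.MM2

open Pool.Agent.MM1

/-- the lists of slots that are not empty, with the thickness of their cell -/
noncomputable def blocks (W : ℕ → ℝ) (C : List (List ℕ)) : List (ℝ × List ℕ) :=
  (C.filter (fun a => a ≠ [])).map (fun a => (W (a.headD 0), a))

theorem blocks_flatten' (W : ℕ → ℝ) (C : List (List ℕ)) :
    ((blocks W C).map Prod.snd).flatten = C.flatten := by
  induction C with
  | nil => simp [blocks]
  | cons a C ih =>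
    by_cases ha : a = []
    · subst ha
      simpa [blocks] using ih
    · have : blocks W (a :: C) = (W (a.headD 0), a) :: blocks W C := by
        simp [blocks, ha]
      rw [this, List.map_cons, List.flatten_cons, List.flatten_cons, ih]

/-- the new rectangles, with degenerate ones dropped -/
theorem zip_blocks (y : ℕ → ℝ) (W : ℕ → ℝ) (run : List (ℝ × ℝ)) (A : List (List ℕ))
    (h : List.Forall₂ (fun p a => ∀ n ∈ a, W n = p.1) run A) :
    Cut ((List.zipWith (fun (p : ℝ × ℝ) (a : List ℕ) => (p.1, (a.map y).sum)) run A :
        List (ℝ × ℝ)) : Multiset (ℝ × ℝ))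
      (((blocks W A).map (fun b => (b.1, (b.2.map y).sum)) : List (ℝ × ℝ)) :
        Multiset (ℝ × ℝ)) := by
  induction h with
  | nil => exact Cut.refl _
  | @cons p a run A hpa _ ih =>
    rw [List.zipWith_cons_cons, ← Multiset.cons_coe, ← Multiset.singleton_add]
    by_cases ha : a = []
    · subst ha
      have e : blocks W ([] :: A) = blocks W A := by simp [blocks]
      rw [e]
      have h1 := Cut.drop ((List.zipWith (fun (p : ℝ × ℝ) (a : List ℕ) => (p.1, (a.map y).sum)) run A :
        List (ℝ × ℝ)) : Multiset (ℝ × ℝ)) {(p.1, (([] : List ℕ).map y).sum)} (by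
          intro d hd
          rw [Multiset.mem_singleton] at hd
          subst hd
          simp)
      rw [add_comm]
      exact h1.trans ih
    · have e : blocks W (a :: A) = (W (a.headD 0), a) :: blocks W A := by
        simp [blocks, ha]
      have hw : W (a.headD 0) = p.1 := by
        apply hpa
        cases a with
        | nil => exact absurd rfl ha
        | cons n a => simp
      rw [e, List.map_cons, ← Multiset.cons_coe, ← Multiset.singleton_add, hw]
      exact Cut.add (Cut.refl _) ih

theorem ofList_sum_fin {α β : Type*} [AddCommMonoid β] (l : List α) (f : α → β) :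
    ∑ i : Fin l.length, f (l.get i) = (l.map f).sum := by
  rw [← List.sum_ofFn]
  congr 1
  apply List.ext_getElem
  · simp
  · intro i h1 h2
    simp

/-- every cell gets items of total length at least its length minus `δ + 2 η` -/
theorem Carry.sum_ge (y : ℕ → ℝ) (η δ : ℝ) (s : ℝ) (run : List (ℝ × ℝ)) (A : List (List ℕ)) (e : ℝ)
    (hC : Carry y η s run A e) (hs : s ≤ η) (hη : 0 ≤ η) (he : e ≤ δ + η) (hδ : 0 ≤ δ) :
    List.Forall₂ (fun p a => p.2 ≤ (a.map y).sum + δ + 2 * η) run A := by
  induction run generalizing s A with
  | nil =>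
    cases A with
    | nil => exact List.Forall₂.nil
    | cons a A => simp [Carry] at hC
  | cons p run ih =>
    cases run with
    | nil =>
      rcases A with _ | ⟨a, _ | ⟨b, A⟩⟩
      · simp [Carry] at hC
      · simp only [Carry] at hC
        refine List.Forall₂.cons ?_ List.Forall₂.nil
        linarith
      · simp [Carry] at hC
    | cons q run =>
      rcases A with _ | ⟨a, A⟩
      · simp [Carry] at hC
      · simp only [Carry] at hC
        obtain ⟨h1, h2, h3⟩ := hC
        refine List.Forall₂.cons ?_ (ih _ A h3 h2)
        linarith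

/-- **Service of due objects.** -/
theorem serve_objs (x y : ℕ → ℝ) (δ η B τ Lm : ℝ) (hδ : 0 ≤ δ) (hη : 0 ≤ η) (hB : 0 ≤ B)
    (hητ : η ≤ τ) (Os : List Obj) (hok : ∀ o ∈ Os, o.Ok)
    (hdue : ∀ o ∈ Os, ∀ p ∈ o.run, τ ≤ o.t - p.1)
    (hlong : ∀ o ∈ Os, ∀ p ∈ o.run, δ + η < p.2 ∧ Lm ≤ p.2)
    (ns : List ℕ) (hns : ns.Pairwise (· < ·))
    (hx : ∀ n ∈ ns, x n ≤ τ) (hy : ∀ n ∈ ns, 0 ≤ y n ∧ y n ≤ η ∧ 1 ≤ y n * B)
    (hcap : (Os.map Obj.len).sum * B < ns.length) :
    ∃ (us vs : List ℕ) (W : ℕ → ℝ) (Bs : List (ℝ × List ℕ)) (bits ends : Multiset (ℝ × ℝ)),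
      ns = us ++ vs ∧ vs ≠ [] ∧ (us.length : ℝ) ≤ (Os.map Obj.len).sum * B ∧
      us = (Bs.map Prod.snd).flatten ∧
      (∀ b ∈ Bs, b.2 ≠ [] ∧ (∀ n ∈ b.2, W n = b.1) ∧ Lm ≤ (b.2.map y).sum + δ + 2 * η) ∧
      (∀ n ∈ us, ∃ o ∈ Os, ∃ p ∈ o.run, W n = o.t - p.1) ∧
      (∀ n ∈ us, ∀ n' ∈ us, n ≤ n' → W n ≤ W n') ∧
      Multiset.Rel BitLe bits ((Os.map (fun o => Multiset.ofList o.pot)).sum) ∧
      Multiset.card ends = Os.length ∧
      (∀ d ∈ ends, δ ≤ d.1 ∧ d.1 ≤ δ + η ∧ ∃ o ∈ Os, ∃ p ∈ o.run, d.2 = o.t - p.1) ∧
      Cut (Multiset.ofList (Os.map Obj.rect))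
        ((Os.map (fun o => Multiset.ofList o.run)).sum +
          Multiset.ofList (Bs.map (fun b => (b.1, (b.2.map y).sum))) + bits + ends) := by
  classical
  have hmem : ∀ i : Fin Os.length, Os.get i ∈ Os := fun i => List.get_mem Os i
  have hlen : ∀ i : Fin Os.length, nd (Os.get i).cells 0 = (Os.get i).len := by
    intro i
    have hne := (hok _ (hmem i)).ne
    obtain ⟨p, r, hpr⟩ := List.exists_cons_of_ne_nil hne
    unfold Obj.cells Obj.len
    rw [hpr]
    simp [nd, List.map_map, Function.comp_def]
  have hsumlen : ∑ i : Fin Os.length, nd (Os.get i).cells 0 = (Os.map Obj.len).sum := by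
    rw [← ofList_sum_fin Os Obj.len]
    exact Finset.sum_congr rfl (fun i _ => hlen i)
  obtain ⟨us, vs, W, A, e, h1, h2, h3, h4, h5, h6, h7, h8, h9, Bs0, hB1, hB2⟩ :=
    fill_cells (Finset.univ : Finset (Fin Os.length)) x y δ η B hδ hη hB
      _ (fun i => (Os.get i).cells) (fun _ => 0) ns rfl
      (by
        intro i _
        unfold Obj.cells
        rw [List.pairwise_map]
        refine (hok _ (hmem i)).hs.imp ?_
        intro p q h
        simp only
        linarith)
      (fun i _ => ⟨le_rfl, hη⟩)
      (by
        intro i _ p hp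
        unfold Obj.cells at hp
        obtain ⟨q, hq, rfl⟩ := List.mem_map.1 hp
        exact (hlong _ (hmem i) q hq).1)
      hns
      (by
        intro i _ p hp n hn
        unfold Obj.cells at hp
        obtain ⟨q, hq, rfl⟩ := List.mem_map.1 hp
        exact (hx n hn).trans (hdue _ (hmem i) q hq))
      hy
      (by rw [hsumlen]; exact hcap)
  rw [hsumlen] at h3
  have hne : ∀ i : Fin Os.length, (Os.get i).cells ≠ [] := by
    intro i
    unfold Obj.cells
    simpa using (hok _ (hmem i)).ne
  have hAmem : ∀ i : Fin Os.length, ∀ a ∈ A i, ∀ n ∈ a, n ∈ us := by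
    intro i a ha n hn
    have : a ∈ (Bs0 : Multiset (List ℕ)) := by
      rw [hB2, Multiset.mem_sum]
      exact ⟨i, Finset.mem_univ _, by simpa using ha⟩
    rw [hB1, List.mem_flatten]
    exact ⟨a, by simpa using this, hn⟩
  have husns : ∀ n ∈ us, n ∈ ns := fun n hn => by rw [h1]; exact List.mem_append_left _ hn
  -- the bits and the ends
  set bt : Fin Os.length → Multiset (ℝ × ℝ) :=
    fun i => Multiset.ofList (bitsOf y 0 (Os.get i).cells (A i)) with hbt
  set en : Fin Os.length → ℝ × ℝ :=
    fun i => (e i, ((Os.get i).cells.getLast (hne i)).1) with hen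
  refine ⟨us, vs, W, blocks W Bs0, ∑ i, bt i, ∑ i, {en i}, h1, h2, h3, ?_, ?_, ?_, h6, ?_, ?_, ?_,
    ?_⟩
  · rw [blocks_flatten', hB1]
  · intro b hb
    unfold blocks at hb
    obtain ⟨a, ha, rfl⟩ := List.mem_map.1 hb
    rw [List.mem_filter] at ha
    obtain ⟨ha1, ha2⟩ := ha
    have hane : a ≠ [] := by simpa using ha2
    -- `a` belongs to some object
    have : a ∈ (Bs0 : Multiset (List ℕ)) := by simpa using ha1
    rw [hB2, Multiset.mem_sum] at this
    obtain ⟨i, _, hi⟩ := this
    have hi' : a ∈ A i := by simpa using hi
    obtain ⟨k, hk, hka⟩ := List.getElem_of_mem hi'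
    have hF := h8 i (Finset.mem_univ _)
    have hlen' := hF.length_eq
    have hkl : k < ((Os.get i).cells).length := by omega
    have hgk := hF.get hkl hk
    simp only [List.get_eq_getElem] at hgk
    rw [hka] at hgk
    refine ⟨hane, ?_, ?_⟩
    · intro n hn
      rw [hgk n hn]
      symm
      apply hgk
      cases a with
      | nil => exact absurd rfl hane
      | cons m a => simp
    · have hG := (h4 i (Finset.mem_univ _)).sum_ge y η δ 0 _ _ _ hη hη
        (h5 i (Finset.mem_univ _)).2 hδ
      have hgg := hG.get hkl hk
      simp only [List.get_eq_getElem] at hgg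
      rw [hka] at hgg
      have hcell : ∀ c ∈ (Os.get i).cells, Lm ≤ c.2 := by
        intro c hc
        obtain ⟨q, hq, rfl⟩ := List.mem_map.1
          (show c ∈ (Os.get i).run.map (fun p => ((Os.get i).t - p.1, p.2)) from hc)
        exact (hlong _ (hmem i) q hq).2
      have h22 := hcell _ (List.getElem_mem hkl)
      exact h22.trans hgg
  · intro n hn
    obtain ⟨i, _, p, hp, hWp⟩ := h7 n hn
    unfold Obj.cells at hp
    obtain ⟨q, hq, rfl⟩ := List.mem_map.1 hp
    exact ⟨_, hmem i, q, hq, hWp⟩
  · rw [← ofList_sum_fin Os (fun o => Multiset.ofList o.pot)]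
    have key : ∀ I : Finset (Fin Os.length), Multiset.Rel BitLe (∑ i ∈ I, bt i)
        (∑ i ∈ I, Multiset.ofList (Os.get i).pot) := by
      intro I
      induction I using Finset.induction_on with
      | empty => simp
      | insert i I hi ih =>
        rw [Finset.sum_insert hi, Finset.sum_insert hi]
        refine Multiset.Rel.add ?_ ih
        have h := bits_rel y η (Os.get i).t 0 (Os.get i).run (A i) (e i)
          (h4 i (Finset.mem_univ _)) (fun p hp => hητ.trans (hdue _ (hmem i) p hp))
        rw [hbt]
        simp only
        unfold Obj.pot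
        have : ∀ (l m : List (ℝ × ℝ)), List.Forall₂ BitLe l m →
            Multiset.Rel BitLe (Multiset.ofList l) (Multiset.ofList m) := by
          intro l m h
          induction h with
          | nil => exact Multiset.Rel.zero
          | cons h _ ih => exact Multiset.Rel.cons h ih
        exact this _ _ h
    exact key Finset.univ
  · rw [Multiset.card_sum]
    simp
  · intro d hd
    rw [Multiset.mem_sum] at hd
    obtain ⟨i, _, hi⟩ := hd
    rw [Multiset.mem_singleton] at hi
    subst hi
    obtain ⟨g1, g2⟩ := h5 i (Finset.mem_univ _)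
    refine ⟨g1, g2, Os.get i, hmem i, ?_⟩
    have hl := List.getLast_mem (hne i)
    obtain ⟨q, hq, hqe⟩ := List.mem_map.1 (show (Os.get i).cells.getLast (hne i) ∈
      (Os.get i).run.map (fun p => ((Os.get i).t - p.1, p.2)) from hl)
    exact ⟨q, hq, by rw [hen]; simp only; rw [← hqe]⟩
  · -- the cut
    have hcut : ∀ i ∈ (Finset.univ : Finset (Fin Os.length)),
        Cut {(Os.get i).rect} (Multiset.ofList (Os.get i).run +
          Multiset.ofList ((blocks W (A i)).map (fun b => (b.1, (b.2.map y).sum))) +
          bt i + {en i}) := by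
      intro i _
      have hk := carry_list y η (Os.get i).t (e i) (Os.get i).cells (A i) (hne i)
        (h4 i (Finset.mem_univ _)) (by linarith [(h5 i (Finset.mem_univ _)).1])
        (fun a ha n hn => (hy n (husns n (hAmem i a ha n hn))).1)
        (by
          unfold Obj.cells
          rw [List.pairwise_map]
          refine (hok _ (hmem i)).hs.imp ?_
          intro p q h
          simp only
          linarith)
        (by
          intro p hp
          unfold Obj.cells at hp
          obtain ⟨q, hq, rfl⟩ := List.mem_map.1 hp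
          have := (hok _ (hmem i)).hh q hq
          simp only
          constructor <;> linarith [this.1, this.2])
        (by
          intro p hp
          unfold Obj.cells at hp
          obtain ⟨q, hq, rfl⟩ := List.mem_map.1 hp
          exact (hok _ (hmem i)).hL q hq)
      have e1 : ((Os.get i).cells.map Prod.snd).sum = (Os.get i).len := by
        unfold Obj.cells Obj.len
        rw [List.map_map]
        rfl
      have e2 : (Os.get i).cells.map (fun p => ((Os.get i).t - p.1, p.2)) = (Os.get i).run := by
        unfold Obj.cells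
        rw [List.map_map]
        conv_rhs => rw [← List.map_id (Os.get i).run]
        apply List.map_congr_left
        intro p _
        simp
      rw [e1, e2] at hk
      refine hk.trans ?_
      refine Cut.add (Cut.add (Cut.add (Cut.refl _) ?_) (Cut.refl _)) (Cut.refl _)
      exact zip_blocks y W _ _ (h8 i (Finset.mem_univ _))
    have hall := cut_sum (Finset.univ : Finset (Fin Os.length)) _ _ hcut
    have eL : ∑ i : Fin Os.length, ({(Os.get i).rect} : Multiset (ℝ × ℝ)) =
        Multiset.ofList (Os.map Obj.rect) := by
      rw [ofList_sum_fin Os (fun o => ({o.rect} : Multiset (ℝ × ℝ)))]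
      clear hall hcut
      generalize Os = l
      induction l with
      | nil => rfl
      | cons o l ih =>
        rw [List.map_cons, List.sum_cons, ih, List.map_cons, ← Multiset.cons_coe,
          Multiset.singleton_add]
    have eB : ∑ i : Fin Os.length,
        (Multiset.ofList ((blocks W (A i)).map (fun b => (b.1, (b.2.map y).sum)))) =
        Multiset.ofList ((blocks W Bs0).map (fun b => (b.1, (b.2.map y).sum))) := by
      set g : List ℕ → Multiset (ℝ × ℝ) := fun a =>
        if a ≠ [] then {(W (a.headD 0), (a.map y).sum)} else 0 with hg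
      have hgen : ∀ C : List (List ℕ),
          Multiset.ofList ((blocks W C).map (fun b => (b.1, (b.2.map y).sum))) =
            (Multiset.map g (Multiset.ofList C)).sum := by
        intro C
        induction C with
        | nil => simp [blocks]
        | cons a C ih =>
          rw [← Multiset.cons_coe, Multiset.map_cons, Multiset.sum_cons, ← ih]
          by_cases ha : a = []
          · subst ha
            simp [blocks, hg]
          · have : blocks W (a :: C) = (W (a.headD 0), a) :: blocks W C := by
              simp [blocks, ha]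
            rw [this, List.map_cons, ← Multiset.cons_coe, ← Multiset.singleton_add]
            congr 1
            simp [hg, ha]
      rw [hgen, hB2]
      have : ∀ I : Finset (Fin Os.length), ∑ i ∈ I,
          (Multiset.ofList ((blocks W (A i)).map (fun b => (b.1, (b.2.map y).sum)))) =
          (Multiset.map g (∑ i ∈ I, (Multiset.ofList (A i)))).sum := by
        intro I
        induction I using Finset.induction_on with
        | empty => simp
        | insert i I hi ih =>
          rw [Finset.sum_insert hi, Finset.sum_insert hi, Multiset.map_add, Multiset.sum_add, ih,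
            hgen]
      exact this Finset.univ
    have eR : ∑ i : Fin Os.length, Multiset.ofList (Os.get i).run =
        (Os.map (fun o => Multiset.ofList o.run)).sum :=
      ofList_sum_fin Os (fun o => Multiset.ofList o.run)
    rw [eL, Finset.sum_add_distrib, Finset.sum_add_distrib, Finset.sum_add_distrib, eR, eB] at hall
    exact hall

end Pool.Agent.MM2
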