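import Pool.Agent.MP_94f265_co.MM2.CarryB
import Pool.Agent.MP_94f265_co.MM2.Serve

/-!
# Filling the cells of several objects from the thick end

The slots are used in decreasing order, the thickest cell takes the largest slots.  A cell stops taking
slots when less than `κ * (difference of the thicknesses)` (last cell: `δ`) would remain; the remainder is
taken over by the next, thinner cell of the same object.
-/

namespace Pool.Agent.MM2

open Pool.Agent.MM1

/-- `BCarry y κ δ yM s run A e`: the items of the lists `A` are placed in the cells `run`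
(thickness, length), listed from the thickest to the thinnest one, of one object; `s` is the length taken
over from the thicker cells, `e` the final remainder. -/
def BCarry (y : ℕ → ℝ) (κ δ yM : ℝ) : ℝ → List (ℝ × ℝ) → List (List ℕ) → ℝ → Prop
  | s, [p], [a], e => s + p.2 = (a.map y).sum + e ∧ δ ≤ e ∧ e ≤ δ + yM
  | s, p :: q :: run, a :: A, e =>
      κ * (p.1 - q.1) ≤ s + p.2 - (a.map y).sum ∧
      s + p.2 - (a.map y).sum ≤ κ * (p.1 - q.1) + yM ∧
        BCarry y κ δ yM (s + p.2 - (a.map y).sum) (q :: run) A e
  | _, [], [], _ => True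
  | _, _, _, _ => False

/-- remaining length of an object -/
def ndB : List (ℝ × ℝ) → ℝ → ℝ
  | [], _ => 0
  | p :: r, s => p.2 + (r.map Prod.snd).sum + s

/-- the thresholds are smaller than the lengths -/
def BLong (κ δ : ℝ) : List (ℝ × ℝ) → Prop
  | [] => True
  | [p] => δ ≤ p.2
  | p :: q :: r => κ * (p.1 - q.1) ≤ p.2 ∧ BLong κ δ (q :: r)

theorem ndB_nonneg (r : List (ℝ × ℝ)) (s : ℝ) (hs : 0 ≤ s) (h : ∀ p ∈ r, 0 ≤ p.2) :
    0 ≤ ndB r s := by
  cases r with
  | nil => exact le_rfl
  | cons p r =>
    have h1 := h p (by simp)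
    have h2 := sum_snd_nonneg r (fun q hq => h q (by simp [hq]))
    simp only [ndB]
    linarith

theorem BLong.tail {κ δ : ℝ} {p : ℝ × ℝ} {r : List (ℝ × ℝ)} (h : BLong κ δ (p :: r)) :
    BLong κ δ r := by
  cases r with
  | nil => trivial
  | cons q r => exact h.2

/-- **Filling process from the thick end.** -/
theorem fill_back {ι : Type*} [DecidableEq ι] (I : Finset ι) (y : ℕ → ℝ) (κ δ yM : ℝ)
    (hκ : 0 ≤ κ) (hδ : 0 ≤ δ)
    (N : ℕ) (run : ι → List (ℝ × ℝ)) (s : ι → ℝ) (ns : List ℕ)
    (hN : ∑ o ∈ I, (run o).length = N)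
    (hsort : ∀ o ∈ I, (run o).Pairwise (fun p q => q.1 ≤ p.1))
    (hs : ∀ o ∈ I, 0 ≤ s o)
    (hL0 : ∀ o ∈ I, ∀ p ∈ run o, 0 ≤ p.2)
    (hL : ∀ o ∈ I, BLong κ δ (run o))
    (hns : ns.Pairwise (· > ·))
    (hy : ∀ n ∈ ns, 0 ≤ y n ∧ y n ≤ yM)
    (hcap : ∑ o ∈ I, ndB (run o) (s o) < (ns.map y).sum) :
    ∃ (us vs : List ℕ) (W : ℕ → ℝ) (A : ι → List (List ℕ)) (e : ι → ℝ),
      ns = us ++ vs ∧ vs ≠ [] ∧ (us.map y).sum ≤ ∑ o ∈ I, ndB (run o) (s o) ∧
      (∀ o ∈ I, BCarry y κ δ yM (s o) (run o) (A o) (e o)) ∧
      (∀ n ∈ us, ∀ n' ∈ us, n ≤ n' → W n ≤ W n') ∧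
      (∀ n ∈ us, ∃ o ∈ I, ∃ p ∈ run o, W n = p.1) ∧
      (∀ o ∈ I, List.Forall₂ (fun p a => ∀ n ∈ a, W n = p.1) (run o) (A o)) ∧
      (∀ o ∈ I, ∀ a ∈ A o, a.Pairwise (· > ·)) ∧
      ∃ Bs : List (List ℕ), us = Bs.flatten ∧
        (Bs : Multiset (List ℕ)) = ∑ o ∈ I, (A o : Multiset (List ℕ)) := by
  classical
  induction N generalizing run s ns with
  | zero =>
    have h0 : ∀ o ∈ I, run o = [] := by
      intro o ho
      have := (Finset.sum_eq_zero_iff.1 hN) o ho
      exact List.length_eq_zero_iff.1 this
    have hsum : ∑ o ∈ I, ndB (run o) (s o) = 0 := by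
      apply Finset.sum_eq_zero
      intro o ho
      rw [h0 o ho]
      rfl
    rw [hsum] at hcap
    refine ⟨[], ns, fun _ => 0, fun _ => [], fun _ => δ, rfl, ?_, ?_, ?_, ?_, ?_, ?_, ?_, ?_⟩
    · rintro rfl
      simp at hcap
    · rw [hsum]; simp
    · intro o ho
      rw [h0 o ho]
      simp [BCarry]
    · intro n hn; simp at hn
    · intro n hn; simp at hn
    · intro o ho
      rw [h0 o ho]
      exact List.Forall₂.nil
    · intro o ho a ha; simp at ha
    · exact ⟨[], rfl, by simp⟩
  | succ N ih =>
    -- the nonempty objects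
    have hne : (I.filter (fun o => run o ≠ [])).Nonempty := by
      by_contra hcon
      rw [Finset.not_nonempty_iff_eq_empty, Finset.filter_eq_empty_iff] at hcon
      have : ∑ o ∈ I, (run o).length = 0 := by
        apply Finset.sum_eq_zero
        intro o ho
        have := hcon ho
        push Not at this
        rw [this]
        rfl
      omega
    obtain ⟨o, hoI, hmax⟩ := Finset.exists_max_image (I.filter (fun o => run o ≠ []))
      (fun o => ((run o).headD (0, 0)).1) hne
    rw [Finset.mem_filter] at hoI
    obtain ⟨hoI, hrun⟩ := hoI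
    obtain ⟨p, rest, hpr⟩ : ∃ p rest, run o = p :: rest := List.exists_cons_of_ne_nil hrun
    have hmax' : ∀ o' ∈ I, ∀ q ∈ run o', q.1 ≤ p.1 := by
      intro o' ho' q hq
      have hne' : run o' ≠ [] := List.ne_nil_of_mem hq
      have h1 := hmax o' (Finset.mem_filter.2 ⟨ho', hne'⟩)
      obtain ⟨p', rest', hpr'⟩ := List.exists_cons_of_ne_nil hne'
      rw [hpr, hpr', List.headD_cons, List.headD_cons] at h1
      rw [hpr'] at hq
      rcases List.mem_cons.1 hq with rfl | hq
      · exact h1
      · have h2 := hsort o' ho'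
        rw [hpr'] at h2
        exact ((List.pairwise_cons.1 h2).1 q hq).trans h1
    -- data of the object
    have hso := hs o hoI
    have hLo : ∀ q ∈ p :: rest, 0 ≤ q.2 := by
      intro q hq
      exact hL0 o hoI q (by rw [hpr]; exact hq)
    have hLp := hLo p (by simp)
    have hrest0 : 0 ≤ (rest.map Prod.snd).sum :=
      sum_snd_nonneg rest (fun q hq => hLo q (by simp [hq]))
    have hsplit : ∑ o' ∈ I, ndB (run o') (s o') = ndB (run o) (s o) +
        ∑ o' ∈ I.erase o, ndB (run o') (s o') := (Finset.add_sum_erase I _ hoI).symm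
    have hothers : 0 ≤ ∑ o' ∈ I.erase o, ndB (run o') (s o') := by
      apply Finset.sum_nonneg
      intro o' ho'
      have ho'I := Finset.mem_of_mem_erase ho'
      exact ndB_nonneg _ _ (hs o' ho'I) (hL0 o' ho'I)
    have hndo : ndB (run o) (s o) = p.2 + (rest.map Prod.snd).sum + s o := by rw [hpr]; rfl
    -- the general step: `us₁` goes into the cell, the rest by induction
    have step : ∀ (us₁ vs₁ : List ℕ) (s₁ : ℝ), ns = us₁ ++ vs₁ →
        0 ≤ s₁ →
        (us₁.map y).sum ≤ ndB (run o) (s o) - ndB rest s₁ →
        ∃ (us vs : List ℕ) (W : ℕ → ℝ) (A : ι → List (List ℕ)) (e : ι → ℝ),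
          ns = us ++ vs ∧ vs ≠ [] ∧ (us.map y).sum ≤ ∑ o ∈ I, ndB (run o) (s o) ∧
          (∀ o' ∈ I, o' ≠ o → BCarry y κ δ yM (s o') (run o') (A o') (e o')) ∧
          (∃ A₁, A o = us₁ :: A₁ ∧ (rest ≠ [] → BCarry y κ δ yM s₁ rest A₁ (e o)) ∧
            (rest = [] → A₁ = [])) ∧
          (∀ n ∈ us, ∀ n' ∈ us, n ≤ n' → W n ≤ W n') ∧
          (∀ n ∈ us, ∃ o ∈ I, ∃ p ∈ run o, W n = p.1) ∧
          (∀ o ∈ I, List.Forall₂ (fun p a => ∀ n ∈ a, W n = p.1) (run o) (A o)) ∧
          (∀ o ∈ I, ∀ a ∈ A o, a.Pairwise (· > ·)) ∧
          ∃ Bs : List (List ℕ), us = Bs.flatten ∧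
            (Bs : Multiset (List ℕ)) = ∑ o ∈ I, (A o : Multiset (List ℕ)) := by
      intro us₁ vs₁ s₁ hns1 hs1a hcons
      have hmem1 : ∀ n ∈ us₁, n ∈ ns := fun n hn => by
        rw [hns1]; exact List.mem_append_left _ hn
      have hmem2 : ∀ n ∈ vs₁, n ∈ ns := fun n hn => by
        rw [hns1]; exact List.mem_append_right _ hn
      have hpw := hns
      rw [hns1, List.pairwise_append] at hpw
      obtain ⟨hpw1, hpw2, hpw12⟩ := hpw
      have hsumns : (ns.map y).sum = (us₁.map y).sum + (vs₁.map y).sum := by
        rw [hns1, List.map_append, List.sum_append]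
      set run' : ι → List (ℝ × ℝ) := Function.update run o rest with hrun'
      set s' : ι → ℝ := Function.update s o s₁ with hs'
      have hr_o : run' o = rest := by rw [hrun', Function.update_self]
      have hr_ne : ∀ o', o' ≠ o → run' o' = run o' := fun o' h => by
        rw [hrun', Function.update_of_ne h]
      have hs_o : s' o = s₁ := by rw [hs', Function.update_self]
      have hs_ne : ∀ o', o' ≠ o → s' o' = s o' := fun o' h => by
        rw [hs', Function.update_of_ne h]
      have hsplit' : ∑ o' ∈ I, ndB (run' o') (s' o') = ndB rest s₁ +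
          ∑ o' ∈ I.erase o, ndB (run o') (s o') := by
        rw [← Finset.add_sum_erase I _ hoI, hr_o, hs_o]
        congr 1
        apply Finset.sum_congr rfl
        intro o' ho'
        have := Finset.ne_of_mem_erase ho'
        rw [hr_ne o' this, hs_ne o' this]
      have hsub : ∀ o' ∈ I, ∀ q ∈ run' o', q ∈ run o' := by
        intro o' ho' q hq
        by_cases h : o' = o
        · subst h
          rw [hr_o] at hq
          rw [hpr]
          exact List.mem_cons_of_mem _ hq
        · rwa [hr_ne o' h] at hq
      obtain ⟨us₂, vs, W, A, e, h1, h2, h3, h4, h6, h7, h8, h9, Bs, hB1, hB2⟩ :=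
        ih run' s' vs₁
          (by
            have e1 : ∑ o' ∈ I, (run' o').length = rest.length +
                ∑ o' ∈ I.erase o, (run o').length := by
              rw [← Finset.add_sum_erase I _ hoI, hr_o]
              congr 1
              apply Finset.sum_congr rfl
              intro o' ho'
              rw [hr_ne o' (Finset.ne_of_mem_erase ho')]
            have e2 : ∑ o' ∈ I, (run o').length = (run o).length +
                ∑ o' ∈ I.erase o, (run o').length :=
              (Finset.add_sum_erase I _ hoI).symm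
            rw [hpr, List.length_cons] at e2
            omega)
          (by
            intro o' ho'
            by_cases h : o' = o
            · subst h
              rw [hr_o]
              have := hsort o' ho'
              rw [hpr] at this
              exact (List.pairwise_cons.1 this).2
            · rw [hr_ne o' h]
              exact hsort o' ho')
          (by
            intro o' ho'
            by_cases h : o' = o
            · subst h
              rw [hs_o]
              exact hs1a
            · rw [hs_ne o' h]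
              exact hs o' ho')
          (fun o' ho' q hq => hL0 o' ho' q (hsub o' ho' q hq))
          (by
            intro o' ho'
            by_cases h : o' = o
            · subst h
              rw [hr_o]
              have := hL o' ho'
              rw [hpr] at this
              exact this.tail
            · rw [hr_ne o' h]
              exact hL o' ho')
          hpw2
          (fun n hn => hy n (hmem2 n hn))
          (by
            rw [hsplit']
            rw [hsplit] at hcap
            linarith)
      have hus2 : ∀ n ∈ us₂, n ∈ vs₁ := fun n hn => by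
        rw [h1]; exact List.mem_append_left _ hn
      have hdis : ∀ n ∈ us₂, n ∉ us₁ := fun n hn hn' =>
        lt_irrefl _ (hpw12 n hn' n (hus2 n hn))
      have hA2 : ∀ o' ∈ I, ∀ a ∈ A o', ∀ n ∈ a, n ∈ us₂ := by
        intro o' ho' a ha n hn
        have hmem : a ∈ (Bs : Multiset (List ℕ)) := by
          rw [hB2, Multiset.mem_sum]
          exact ⟨o', ho', by simpa using ha⟩
        rw [hB1, List.mem_flatten]
        exact ⟨a, by simpa using hmem, hn⟩
      set W' : ℕ → ℝ := fun n => if n ∈ us₁ then p.1 else W n with hW'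
      set A' : ι → List (List ℕ) := Function.update A o (us₁ :: A o) with hA'
      have hA_o : A' o = us₁ :: A o := by rw [hA', Function.update_self]
      have hA_ne : ∀ o', o' ≠ o → A' o' = A o' := fun o' h => by
        rw [hA', Function.update_of_ne h]
      refine ⟨us₁ ++ us₂, vs, W', A', e, ?_, h2, ?_, ?_, ?_, ?_, ?_, ?_, ?_, ?_⟩
      · rw [hns1, h1, List.append_assoc]
      · rw [List.map_append, List.sum_append, hsplit]
        rw [hsplit'] at h3
        linarith
      · intro o' ho' hne
        have := h4 o' ho'
        rw [hr_ne o' hne, hs_ne o' hne] at this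
        rw [hA_ne o' hne]
        exact this
      · refine ⟨A o, hA_o, ?_, ?_⟩
        · intro _
          have := h4 o hoI
          rwa [hr_o, hs_o] at this
        · intro hr
          have := h8 o hoI
          rw [hr_o, hr] at this
          exact List.forall₂_nil_left_iff.1 this
      · intro n hn n' hn' hnn
        rw [List.mem_append] at hn hn'
        by_cases c1 : n ∈ us₁
        · by_cases c2 : n' ∈ us₁
          · simp only [hW', c1, c2, if_true]; exact le_rfl
          · exfalso
            have := hpw12 n c1 n' (hus2 n' (hn'.resolve_left c2))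
            omega
        · by_cases c2 : n' ∈ us₁
          · simp only [hW', c1, c2, if_true, if_false]
            obtain ⟨o', ho', q, hq, hq'⟩ := h7 n (hn.resolve_left c1)
            rw [hq']
            exact hmax' o' ho' q (hsub o' ho' q hq)
          · simp only [hW', c1, c2, if_false]
            exact h6 n (hn.resolve_left c1) n' (hn'.resolve_left c2) hnn
      · intro n hn
        rw [List.mem_append] at hn
        by_cases c1 : n ∈ us₁
        · exact ⟨o, hoI, p, by rw [hpr]; simp, by simp only [hW', c1, if_true]⟩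
        · obtain ⟨o', ho', q, hq, hq'⟩ := h7 n (hn.resolve_left c1)
          exact ⟨o', ho', q, hsub o' ho' q hq, by simp only [hW', c1, if_false]; exact hq'⟩
      · intro o' ho'
        have key : ∀ (r : List (ℝ × ℝ)) (C : List (List ℕ)),
            (∀ a ∈ C, ∀ n ∈ a, n ∈ us₂) →
            List.Forall₂ (fun p a => ∀ n ∈ a, W n = p.1) r C →
            List.Forall₂ (fun p a => ∀ n ∈ a, W' n = p.1) r C := by
          intro r C hC hF
          induction hF with
          | nil => exact List.Forall₂.nil
          | cons hab _ ihF =>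
            refine List.Forall₂.cons ?_ (ihF (fun a ha => hC a (by simp [ha])))
            intro n hn
            have : n ∉ us₁ := hdis n (hC _ (by simp) n hn)
            simp only [hW', this, if_false]
            exact hab n hn
        by_cases h : o' = o
        · subst h
          rw [hA_o, hpr]
          refine List.Forall₂.cons ?_ ?_
          · intro n hn
            simp only [hW', hn, if_true]
          · have := h8 o' ho'
            rw [hr_o] at this
            exact key _ _ (hA2 o' ho') this
        · rw [hA_ne o' h]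
          have := h8 o' ho'
          rw [hr_ne o' h] at this
          exact key _ _ (hA2 o' ho') this
      · intro o' ho' a ha
        by_cases h : o' = o
        · subst h
          rw [hA_o] at ha
          rcases List.mem_cons.1 ha with rfl | ha
          · exact hpw1
          · exact h9 o' ho' a ha
        · rw [hA_ne o' h] at ha
          exact h9 o' ho' a ha
      · refine ⟨us₁ :: Bs, by rw [hB1, List.flatten_cons], ?_⟩
        have e1 : ∑ o' ∈ I, (A' o' : Multiset (List ℕ)) =
            (A' o : Multiset (List ℕ)) + ∑ o' ∈ I.erase o, (A' o' : Multiset (List ℕ)) :=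
          (Finset.add_sum_erase I _ hoI).symm
        have e2 : ∑ o' ∈ I, (A o' : Multiset (List ℕ)) =
            (A o : Multiset (List ℕ)) + ∑ o' ∈ I.erase o, (A o' : Multiset (List ℕ)) :=
          (Finset.add_sum_erase I _ hoI).symm
        have e3 : ∑ o' ∈ I.erase o, (A' o' : Multiset (List ℕ)) =
            ∑ o' ∈ I.erase o, (A o' : Multiset (List ℕ)) := by
          apply Finset.sum_congr rfl
          intro o' ho'
          rw [hA_ne o' (Finset.ne_of_mem_erase ho')]
        rw [e1, e3, hA_o, ← Multiset.cons_coe, ← Multiset.cons_coe, hB2, e2, Multiset.cons_add]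
    -- one cell
    have cell : ∀ th : ℝ, 0 ≤ th → th ≤ s o + p.2 →
        ∃ us₁ vs₁, ns = us₁ ++ vs₁ ∧ th ≤ s o + p.2 - (us₁.map y).sum ∧
          s o + p.2 - (us₁.map y).sum ≤ th + yM := by
      intro th hth0 hth
      obtain ⟨us₁, vs₁, hns1, hr1, hr2⟩ := fill_one y th (s o + p.2) ns hth
      refine ⟨us₁, vs₁, hns1, hr1, ?_⟩
      have hmem1 : ∀ n ∈ us₁, n ∈ ns := fun n hn => by
        rw [hns1]; exact List.mem_append_left _ hn
      rcases hr2 with h | ⟨n₀, vs', hvs', hlt⟩
      · exfalso
        have h2 : (ns.map y).sum = (us₁.map y).sum := by rw [hns1, h]; simp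
        rw [hsplit, hndo] at hcap
        linarith
      · have hn0 := hy n₀ (by rw [hns1, hvs']; simp)
        linarith [hn0.2]
    have hLong := hL o hoI
    rw [hpr] at hLong
    cases hrest : rest with
    | nil =>
      rw [hrest] at hLong
      obtain ⟨us₁, vs₁, hns1, hr1, hr2⟩ := cell δ hδ (by
        have : δ ≤ p.2 := hLong
        linarith)
      have hnd1 : ndB (run o) (s o) = s o + p.2 := by rw [hndo, hrest]; simp; ring
      obtain ⟨us, vs, W, A, e, h1, h2, h3, h4, ⟨A₁, hA1, hA2, hA3⟩, h6, h7, h8, h9, h10⟩ :=
        step us₁ vs₁ 0 hns1 le_rfl (by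
          rw [hnd1, hrest]
          simp only [ndB]
          linarith)
      refine ⟨us, vs, W, A, Function.update e o (s o + p.2 - (us₁.map y).sum), h1, h2, h3, ?_,
        h6, h7, h8, h9, h10⟩
      intro o' ho'
      by_cases h : o' = o
      · subst h
        rw [hA1, hA3 hrest, hpr, hrest, Function.update_self]
        simp only [BCarry]
        exact ⟨by ring, hr1, hr2⟩
      · rw [Function.update_of_ne h]
        exact h4 o' ho' h
    | cons q rest' =>
      rw [hrest] at hLong
      have hpq : q.1 ≤ p.1 := hmax' o hoI q (by rw [hpr, hrest]; simp)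
      have hth0 : 0 ≤ κ * (p.1 - q.1) := mul_nonneg hκ (by linarith)
      obtain ⟨us₁, vs₁, hns1, hr1, hr2⟩ := cell (κ * (p.1 - q.1)) hth0 (by
        have : κ * (p.1 - q.1) ≤ p.2 := hLong.1
        linarith)
      have hnd1 : ndB (run o) (s o) = p.2 + (q.2 + (rest'.map Prod.snd).sum) + s o := by
        rw [hndo, hrest]; simp
      obtain ⟨us, vs, W, A, e, h1, h2, h3, h4, ⟨A₁, hA1, hA2, hA3⟩, h6, h7, h8, h9, h10⟩ :=
        step us₁ vs₁ (s o + p.2 - (us₁.map y).sum) hns1 (by linarith) (by
          rw [hnd1, hrest]
          simp only [ndB]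
          linarith)
      refine ⟨us, vs, W, A, e, h1, h2, h3, ?_, h6, h7, h8, h9, h10⟩
      intro o' ho'
      by_cases h : o' = o
      · subst h
        rw [hA1, hpr, hrest]
        simp only [BCarry]
        refine ⟨hr1, hr2, ?_⟩
        have := hA2 (by rw [hrest]; simp)
        rwa [hrest] at this
      · exact h4 o' ho' h

end Pool.Agent.MM2
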