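import Pool.Agent.MP_94f265_co.MM2.TDefs
import Pool.Agent.MP_94f265_co.MM1.MainR

/-!
# From `FullPacking` to the statement of the problem
-/

namespace Pool.Agent.MM2

open Pool.Agent.MM1

/-- The full packing in the terms of the problem: rigid motions `g k`, `k ≥ 1`, map the rectangles
`R k` into the unit square, the images have pairwise disjoint interiors, and they cover the square
up to a set of measure zero. -/
theorem perfectly_of_full (h : FullPacking) : PerfectlyPacks (Set.Ici 1) R (box 1 1) := by
  obtain ⟨P, h1, h2⟩ := h
  refine perfectlyPacks_of 1 (fun k => 1 / (k : ℝ)) (fun k => 1 / ((k : ℝ) + 1)) 1 1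
    zero_le_one zero_le_one ?_ ?_ ?_ P h1 h2
  · intro k hk
    have hk0 : (0 : ℝ) < k := by exact_mod_cast hk
    positivity
  · intro k hk
    positivity
  · have h3 := MainR_hasSum 1 one_pos
    have e : (1 : ℝ) / ((1 : ℕ) : ℝ) = 1 * 1 := by norm_num
    rw [e] at h3
    exact h3

end Pool.Agent.MM2
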