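import Pool.Agent.MP_94f265_co.MM2.Placed

/-!
# Brick patterns: the grid cut lemma
-/

namespace Pool.Agent.MM1

theorem abel_aux (c h : ℕ → ℝ) (m : ℕ) :
    ∑ t ∈ Finset.range (m + 1), (c (t + 1) - c t) * h t =
      c (m + 1) * h m - c 0 * h 0 + ∑ t ∈ Finset.range m, c (t + 1) * (h t - h (t + 1)) := by
  induction m with
  | zero => simp; ring
  | succ m ih => rw [Finset.sum_range_succ, ih, Finset.sum_range_succ]; ring

/-- A brick pattern of `R` rows and `C` columns: row `r` has the vertical boundaries
`X r 0 ≤ ... ≤ X r C`, column `t` has the horizontal boundaries `H 0 t ≤ ... ≤ H R t`; `X` is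
nondecreasing in `r` and `H` is nonincreasing in `t`.  The box is cut into the `R * C` bricks and
`(R - 1) * (C - 1)` small rectangles at the inner vertices. -/
theorem grid_cut (A B : ℝ) (R C : ℕ) (X H : ℕ → ℕ → ℝ) (hR : 1 ≤ R) (hC : 1 ≤ C)
    (hX0 : ∀ r < R, X r 0 = 0) (hXC : ∀ r < R, X r C = A)
    (hXt : ∀ r < R, ∀ t < C, X r t ≤ X r (t + 1))
    (hXr : ∀ r, r + 1 < R → ∀ t ≤ C, X r t ≤ X (r + 1) t)
    (hH0 : ∀ t < C, H 0 t = 0) (hHR : ∀ t < C, H R t = B)
    (hHr : ∀ t < C, ∀ r < R, H r t ≤ H (r + 1) t)
    (hHt : ∀ t, t + 1 < C → ∀ r ≤ R, H r (t + 1) ≤ H r t) :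
    Cut {(A, B)}
      ((Finset.range R ×ˢ Finset.range C).val.map
          (fun p => (X p.1 (p.2 + 1) - X p.1 p.2, H (p.1 + 1) p.2 - H p.1 p.2)) +
        (Finset.range (R - 1) ×ˢ Finset.range (C - 1)).val.map
          (fun p => (X (p.1 + 1) (p.2 + 1) - X p.1 (p.2 + 1),
            H (p.1 + 1) p.2 - H (p.1 + 1) (p.2 + 1)))) := by
  classical
  -- monotonicity
  have hX1 : ∀ r < R, ∀ t t', t ≤ t' → t' ≤ C → X r t ≤ X r t' := by
    intro r hr t t' htt ht'
    induction t', htt using Nat.le_induction with
    | base => exact le_rfl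
    | succ k hk ih => exact (ih (by omega)).trans (hXt r hr k (by omega))
  have hX2 : ∀ t ≤ C, ∀ r r', r ≤ r' → r' < R → X r t ≤ X r' t := by
    intro t ht r r' hrr hr'
    induction r', hrr using Nat.le_induction with
    | base => exact le_rfl
    | succ k hk ih => exact (ih (by omega)).trans (hXr k hr' t ht)
  have hXm : ∀ r r' t t', r ≤ r' → t ≤ t' → r' < R → t' ≤ C → X r t ≤ X r' t' :=
    fun r r' t t' h1 h2 h3 h4 => (hX1 r (by omega) t t' h2 h4).trans (hX2 t' h4 r r' h1 h3)
  have hH1 : ∀ t < C, ∀ r r', r ≤ r' → r' ≤ R → H r t ≤ H r' t := by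
    intro t ht r r' hrr hr'
    induction r', hrr using Nat.le_induction with
    | base => exact le_rfl
    | succ k hk ih => exact (ih (by omega)).trans (hHr t ht k (by omega))
  have hH2 : ∀ r ≤ R, ∀ t t', t ≤ t' → t' < C → H r t' ≤ H r t := by
    intro r hr t t' htt ht'
    induction t', htt using Nat.le_induction with
    | base => exact le_rfl
    | succ k hk ih => exact (hHt k ht' r hr).trans (ih (by omega))
  have hHm : ∀ r r' t t', r ≤ r' → t' ≤ t → r' ≤ R → t < C → H r t ≤ H r' t' :=
    fun r r' t t' h1 h2 h3 h4 => (hH1 t h4 r r' h1 h3).trans (hH2 r' h3 t' t h2 h4)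
  -- the family
  let f : (ℕ × ℕ) ⊕ (ℕ × ℕ) → PR := fun s => match s with
    | Sum.inl p => ⟨X p.1 p.2, H p.1 p.2, X p.1 (p.2 + 1) - X p.1 p.2,
        H (p.1 + 1) p.2 - H p.1 p.2⟩
    | Sum.inr p => ⟨X p.1 (p.2 + 1), H (p.1 + 1) (p.2 + 1),
        X (p.1 + 1) (p.2 + 1) - X p.1 (p.2 + 1), H (p.1 + 1) p.2 - H (p.1 + 1) (p.2 + 1)⟩
  let I : Finset ((ℕ × ℕ) ⊕ (ℕ × ℕ)) :=
    (Finset.range R ×ˢ Finset.range C).disjSum (Finset.range (R - 1) ×ˢ Finset.range (C - 1))
  have hIl : ∀ r t, Sum.inl (r, t) ∈ I ↔ r < R ∧ t < C := by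
    intro r t; simp [I]
  have hIr : ∀ r t, Sum.inr (r, t) ∈ I ↔ r < R - 1 ∧ t < C - 1 := by
    intro r t; simp [I]
  -- item against item
  have hii : ∀ r t r' t', r < R → t < C → r' < R → t' < C → (r, t) ≠ (r', t') →
      (f (Sum.inl (r, t))).Sep (f (Sum.inl (r', t'))) := by
    intro r t r' t' hr ht hr' ht' hne
    unfold PR.Sep
    simp only [f]
    rcases lt_trichotomy t t' with h | h | h
    · rcases Nat.lt_or_ge r' r with h2 | h2
      · right; right; right
        have := hHm (r' + 1) r t' t (by omega) (by omega) (by omega) ht'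
        linarith
      · left
        have := hXm r r' (t + 1) t' h2 (by omega) hr' (by omega)
        linarith
    · subst h
      rcases lt_trichotomy r r' with h2 | h2 | h2
      · right; right; left
        have := hHm (r + 1) r' t t (by omega) le_rfl (by omega) ht
        linarith
      · subst h2; exact absurd rfl hne
      · right; right; right
        have := hHm (r' + 1) r t t (by omega) le_rfl (by omega) ht
        linarith
    · rcases Nat.lt_or_ge r r' with h2 | h2
      · right; right; left
        have := hHm (r + 1) r' t t' (by omega) (by omega) (by omega) ht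
        linarith
      · right; left
        have := hXm r' r (t' + 1) t h2 (by omega) hr (by omega)
        linarith
  -- item against bit
  have hib : ∀ r t r' t', r < R → t < C → r' < R - 1 → t' < C - 1 →
      (f (Sum.inl (r, t))).Sep (f (Sum.inr (r', t'))) := by
    intro r t r' t' hr ht hr' ht'
    unfold PR.Sep
    simp only [f]
    rcases Nat.lt_or_ge r' r with h | h
    · rcases Nat.lt_or_ge t' t with h2 | h2
      · right; left
        have := hXm (r' + 1) r (t' + 1) t (by omega) (by omega) hr (by omega)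
        linarith
      · right; right; right
        have := hHm (r' + 1) r t' t (by omega) (by omega) (by omega) (by omega)
        linarith
    · rcases Nat.lt_or_ge t' t with h2 | h2
      · right; right; left
        have := hHm (r + 1) (r' + 1) t (t' + 1) (by omega) (by omega) (by omega) ht
        linarith
      · left
        have := hXm r r' (t + 1) (t' + 1) h (by omega) (by omega) (by omega)
        linarith
  -- bit against bit
  have hbb : ∀ r t r' t', r < R - 1 → t < C - 1 → r' < R - 1 → t' < C - 1 →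
      (r, t) ≠ (r', t') → (f (Sum.inr (r, t))).Sep (f (Sum.inr (r', t'))) := by
    have key : ∀ r t r' t', r < R - 1 → t < C - 1 → r' < R - 1 → t' < C - 1 → r ≤ r' →
        (r = r' → t < t') → (f (Sum.inr (r, t))).Sep (f (Sum.inr (r', t'))) := by
      intro r t r' t' hr ht hr' ht' hrr h
      unfold PR.Sep
      simp only [f]
      rcases Nat.eq_or_lt_of_le hrr with h1 | h1
      · subst h1
        have h2 := h rfl
        right; right; right
        have := hHm (r + 1) (r + 1) t' (t + 1) le_rfl (by omega) (by omega) (by omega)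
        linarith
      · rcases Nat.lt_or_ge t' t with h2 | h2
        · right; right; left
          have := hHm (r + 1) (r' + 1) t (t' + 1) (by omega) (by omega) (by omega) (by omega)
          linarith
        · left
          have := hXm (r + 1) r' (t + 1) (t' + 1) (by omega) (by omega) (by omega) (by omega)
          linarith
    intro r t r' t' hr ht hr' ht' hne
    rcases lt_trichotomy r r' with h | h | h
    · exact key r t r' t' hr ht hr' ht' h.le (fun h' => absurd h' h.ne)
    · subst h
      rcases lt_trichotomy t t' with h2 | h2 | h2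
      · exact key r t r t' hr ht hr' ht' le_rfl (fun _ => h2)
      · subst h2; exact absurd rfl hne
      · exact (key r t' r t hr ht' hr ht le_rfl (fun _ => h2)).symm
    · exact (key r' t' r t hr' ht' hr ht h.le (fun h' => absurd h' h.ne)).symm
  have hcut := cut_of_family A B I f ?_ ?_ ?_
  · refine hcut.trans (Cut.of_eq ?_)
    simp only [I, Finset.val_disjSum, Multiset.disjSum, Multiset.map_add, Multiset.map_map]
    rfl
  · rintro (⟨r, t⟩ | ⟨r, t⟩) hi (⟨r', t'⟩ | ⟨r', t'⟩) hj hij
    · rw [hIl] at hi hj
      exact hii r t r' t' hi.1 hi.2 hj.1 hj.2 (fun h => hij (by rw [h]))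
    · rw [hIl] at hi; rw [hIr] at hj
      exact hib r t r' t' hi.1 hi.2 hj.1 hj.2
    · rw [hIr] at hi; rw [hIl] at hj
      exact (hib r' t' r t hj.1 hj.2 hi.1 hi.2).symm
    · rw [hIr] at hi hj
      exact hbb r t r' t' hi.1 hi.2 hj.1 hj.2 (fun h => hij (by rw [h]))
  · rintro (⟨r, t⟩ | ⟨r, t⟩) hi
    · rw [hIl] at hi
      have h1 := hXm r r 0 t le_rfl (by omega) hi.1 (by omega)
      have h2 := hXm r r (t + 1) C le_rfl (by omega) hi.1 le_rfl
      have h3 := hHm 0 r t t (by omega) le_rfl (by omega) hi.2
      have h4 := hHm (r + 1) R t t (by omega) le_rfl le_rfl hi.2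
      rw [hX0 r hi.1] at h1; rw [hXC r hi.1] at h2; rw [hH0 t hi.2] at h3
      rw [hHR t hi.2] at h4
      refine ⟨?_, ?_, ?_, ?_⟩ <;> simp only [f] <;> linarith
    · rw [hIr] at hi
      have h1 := hXm r r 0 (t + 1) le_rfl (by omega) (by omega) (by omega)
      have h2 := hXm (r + 1) (r + 1) (t + 1) C le_rfl (by omega) (by omega) le_rfl
      have h3 := hHm 0 (r + 1) (t + 1) (t + 1) (by omega) le_rfl (by omega) (by omega)
      have h4 := hHm (r + 1) R t t (by omega) le_rfl le_rfl (by omega)
      rw [hX0 r (by omega)] at h1; rw [hXC (r + 1) (by omega)] at h2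
      rw [hH0 (t + 1) (by omega)] at h3
      rw [hHR t (by omega)] at h4
      refine ⟨?_, ?_, ?_, ?_⟩ <;> simp only [f] <;> linarith
  · -- area
    obtain ⟨m, rfl⟩ : ∃ m, R = m + 1 := ⟨R - 1, by omega⟩
    obtain ⟨k, rfl⟩ : ∃ k, C = k + 1 := ⟨C - 1, by omega⟩
    simp only [I, Finset.sum_disjSum, f, Finset.sum_product, Nat.add_sub_cancel]
    set D : ℕ → ℝ := fun r => ∑ t ∈ Finset.range (k + 1), (X r (t + 1) - X r t) * H r t with hD
    set E : ℕ → ℝ := fun r => ∑ t ∈ Finset.range (k + 1), (X r (t + 1) - X r t) * H (r + 1) t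
      with hE
    have e1 : ∀ r, ∑ t ∈ Finset.range (k + 1),
        (X r (t + 1) - X r t) * (H (r + 1) t - H r t) = E r - D r := by
      intro r
      rw [hE, hD]
      simp only
      rw [← Finset.sum_sub_distrib]
      refine Finset.sum_congr rfl fun t _ => by ring
    have e2 : ∀ r, r < m → ∑ t ∈ Finset.range k,
        (X (r + 1) (t + 1) - X r (t + 1)) * (H (r + 1) t - H (r + 1) (t + 1)) =
          D (r + 1) - E r := by
      intro r hr
      have := abel_aux (fun t => X (r + 1) t - X r t) (fun t => H (r + 1) t) k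
      rw [hX0 (r + 1) (by omega), hX0 r (by omega), hXC (r + 1) (by omega),
        hXC r (by omega)] at this
      rw [hE, hD]
      simp only
      rw [← Finset.sum_sub_distrib]
      have h2 : ∑ t ∈ Finset.range (k + 1), ((X (r + 1) (t + 1) - X (r + 1) t) * H (r + 1) t -
          (X r (t + 1) - X r t) * H (r + 1) t) =
          ∑ t ∈ Finset.range (k + 1), (X (r + 1) (t + 1) - X r (t + 1) -
            (X (r + 1) t - X r t)) * H (r + 1) t := by
        refine Finset.sum_congr rfl fun t _ => by ring
      rw [h2, this]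
      ring
    have e3 : ∀ j ≤ m, ∑ r ∈ Finset.range (j + 1), (E r - D r) +
        ∑ r ∈ Finset.range j, (D (r + 1) - E r) = E j - D 0 := by
      intro j hj
      induction j with
      | zero => simp
      | succ j ih =>
        rw [Finset.sum_range_succ (fun r => E r - D r) (j + 1),
          Finset.sum_range_succ (fun r => D (r + 1) - E r) j]
        linarith [ih (by omega)]
    rw [Finset.sum_congr rfl (fun r _ => e1 r),
      Finset.sum_congr rfl (fun r hr => e2 r (Finset.mem_range.1 hr)), e3 m le_rfl]
    have e4 : D 0 = 0 := by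
      rw [hD]; simp only
      apply Finset.sum_eq_zero
      intro t ht
      rw [hH0 t (by simpa using ht), mul_zero]
    have e5 : E m = A * B := by
      rw [hE]; simp only
      have : ∀ t ∈ Finset.range (k + 1), (X m (t + 1) - X m t) * H (m + 1) t =
          (X m (t + 1) - X m t) * B := by
        intro t ht
        rw [hHR t (by simpa using ht)]
      rw [Finset.sum_congr rfl this, ← Finset.sum_mul, Finset.sum_range_sub, hX0 m (by omega),
        hXC m (by omega), sub_zero]
    rw [e4, e5, sub_zero]

end Pool.Agent.MM1
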