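import Pool.Agent.MP_94f265_co.MM2.TStepI

/-!
# The net area, positivity, capacity of the phase, the area of the box
-/

namespace Pool.Agent.MM2

open Pool.Agent.MM1

theorem area_single (p : ℝ × ℝ) : area {p} = p.1 * p.2 := by simp [area]

theorem area_void (G : Multiset (ℝ × ℝ)) (hG : ∀ d ∈ G, d.1 * d.2 = 0) : area G = 0 := by
  unfold area
  apply Multiset.sum_eq_zero
  intro x hx
  obtain ⟨d, hd, rfl⟩ := Multiset.mem_map.1 hx
  exact hG d hd

theorem area_nonneg (G : Multiset (ℝ × ℝ)) (hG : ∀ d ∈ G, 0 ≤ d.1 ∧ 0 ≤ d.2) : 0 ≤ area G := by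
  unfold area
  apply Multiset.sum_nonneg
  intro x hx
  obtain ⟨d, hd, rfl⟩ := Multiset.mem_map.1 hx
  exact mul_nonneg (hG d hd).1 (hG d hd).2

/-- the void owed pieces have area zero -/
theorem area_owedR (Q : Multiset Obj) : area (owedR Q) = area (owed Q) := by
  classical
  have h1 : owed Q = owedR Q + (owed Q).filter (fun p => ¬ p.1 ≠ 0) := by
    unfold owedR
    exact (Multiset.filter_add_not _ _).symm
  have h2 : area ((owed Q).filter (fun p => ¬ p.1 ≠ 0)) = 0 := by
    apply area_void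
    intro p hp
    rw [Multiset.mem_filter] at hp
    rw [not_not.1 hp.2, zero_mul]
  conv_rhs => rw [h1, area_add, h2, add_zero]

/-- the rectangle of an object = its cells and its owed pieces -/
theorem area_rects (Q : Multiset Obj) : area (rects Q) = area (cellsOf Q) + area (owed Q) := by
  induction Q using Multiset.induction_on with
  | empty => simp [rects_zero, cellsOf_zero, owed_zero, area_zero]
  | cons o Q ih =>
    rw [← Multiset.singleton_add, rects_add, cellsOf_add, owed_add, area_add, area_add, area_add, ih,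
      rects_single, cellsOf_single, owed_single, area_single]
    have : o.rect.1 * o.rect.2 = area (Multiset.ofList o.cells) + area (Multiset.ofList o.run) := by
      unfold Obj.rect Obj.cells Obj.len area
      rw [Multiset.map_coe, Multiset.map_coe, Multiset.sum_coe, Multiset.sum_coe, List.map_map]
      have : ∀ l : List (ℝ × ℝ), o.t * (l.map Prod.snd).sum =
          (l.map ((fun d : ℝ × ℝ => d.1 * d.2) ∘ fun p : ℝ × ℝ => (o.t - p.1, p.2))).sum +
            (l.map (fun d : ℝ × ℝ => d.1 * d.2)).sum := by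
        intro l
        induction l with
        | nil => simp
        | cons p l ih =>
          rw [List.map_cons, List.sum_cons, List.map_cons, List.sum_cons, List.map_cons, List.sum_cons,
            mul_add, ih]
          simp only [Function.comp_apply]
          ring
      exact this o.run
    rw [this]
    ring

theorem area_free_eq (s : TState) : area s.free = s.net + area (owedR (s.QR + s.QE)) := by
  unfold TState.free TState.net
  rw [area_owedR, owed_add]
  simp only [area_add, area_rects, area_single]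
  ring

theorem area_units (i : ℕ) : area (unitsT (PP i)) = ∑ n ∈ PP i, xu n * yu n := by
  unfold unitsT area
  rw [Multiset.map_map]
  rfl

/-- **Net area.** -/
theorem TStep.net {i : ℕ} {s t : TState} {e : Multiset (ℝ × ℝ)} (h : TStep i s t e)
    (hi : j0 ≤ i) (hn : s.net = rem i) : t.net = rem (i + 1) := by
  obtain ⟨h1, h2⟩ := h
  have a1 := h1.1
  have a2 : area (owedR (s.QR + s.QE) + unitsT (PP i)) = area (e + owedR (t.QR + t.QE)) := by rw [h2]
  rw [area_add, area_free_eq, area_free_eq] at a1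
  rw [area_add, area_add, area_units] at a2
  have e1 : rem (i + 1) = rem i - ∑ n ∈ PP i, xu n * yu n := by
    unfold rem
    rw [Finset.sum_Ico_succ_top hi]
    ring
  rw [e1]
  linarith

section

variable {i : ℕ} {s : TState} {θ : ℝ}

theorem cells_pos {T : ℝ} {Q : Multiset Obj} (hQ : ∀ o ∈ Q, OInv T o) :
    ∀ c ∈ cellsOf Q, 0 < c.1 ∧ c.1 < T ∧ (51 / 50) * c.1 ≤ c.2 := by
  intro c hc
  obtain ⟨o, ho, p, hp, rfl⟩ := mem_cellsOf hc
  exact ⟨(hQ o ho).pos p hp, (hQ o ho).lt p hp, (hQ o ho).asp p hp⟩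

theorem sinv_cells_nonneg (hs : SInv i s) :
    (∀ c ∈ cellsOf s.QR, 0 ≤ c.1 ∧ 0 ≤ c.2) ∧ (∀ c ∈ cellsOf s.QE, 0 ≤ c.1 ∧ 0 ≤ c.2) ∧
      (∀ c ∈ s.E, 0 ≤ c.1 ∧ 0 ≤ c.2) := by
  refine ⟨fun c hc => ?_, fun c hc => ?_, fun c hc => ?_⟩
  · obtain ⟨a, b, h⟩ := cells_pos hs.hR c hc
    exact ⟨a.le, by linarith⟩
  · obtain ⟨a, b, h⟩ := cells_pos hs.hQ c hc
    exact ⟨a.le, by linarith⟩
  · obtain ⟨a, b, h⟩ := hs.hE c hc
    exact ⟨a.le, by linarith⟩

theorem sinv_P_nonneg (hs : SInv i s) (hi : 2 ≤ i) : ∀ p ∈ s.P, 0 ≤ p.1 ∧ 0 ≤ p.2 := by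
  intro p hp
  obtain ⟨h1, h2⟩ := hs.hP p hp
  rw [h1]
  exact ⟨(Th_pos (by omega)).le, (del_pos i).le.trans h2⟩

/-- the box is at most the net area -/
theorem box_le_net (hs : SInv i s) (hi : 2 ≤ i) : s.X * s.Y ≤ s.net := by
  obtain ⟨h1, h2, h3⟩ := sinv_cells_nonneg hs
  have h4 := sinv_P_nonneg hs hi
  unfold TState.net
  have := area_nonneg _ h1
  have := area_nonneg _ h2
  have := area_nonneg _ h3
  have := area_nonneg _ h4
  linarith

end

end Pool.Agent.MM2
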