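import Pool.Agent.MP_94f265_co.MM2.Num
import Pool.Agent.MP_94f265_co.MM2.Net

/-!
# The start satisfies the invariants
-/

namespace Pool.Agent.MM2

open Pool.Agent.MM1

/-- a finite set of positive numbers has a positive lower bound -/
theorem exists_lb (s : Multiset ℝ) (h : ∀ x ∈ s, 0 < x) : ∃ θ : ℝ, 0 < θ ∧ ∀ x ∈ s, θ ≤ x := by
  induction s using Multiset.induction_on with
  | empty => exact ⟨1, one_pos, by simp⟩
  | cons a s ih =>
    obtain ⟨θ, h1, h2⟩ := ih (fun x hx => h x (Multiset.mem_cons_of_mem hx))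
    refine ⟨min θ a, lt_min h1 (h a (Multiset.mem_cons_self _ _)), ?_⟩
    intro x hx
    rcases Multiset.mem_cons.1 hx with rfl | hx
    · exact min_le_right _ _
    · exact (min_le_left _ _).trans (h2 x hx)

/-- the class of a thin piece -/
theorem i0_le_kc {t : ℝ} (h0 : 0 < t) (h : t < Th (i0 - 1)) : i0 ≤ kc t := by
  by_contra hc
  push Not at hc
  obtain ⟨h1, h2⟩ := kc_spec h0
  have h3 : Th (i0 - 1) ≤ Th (kc t) := Th_anti h1 (by omega)
  linarith

theorem mK_le {K : ℕ} (hK : j0 ≤ K) : mK K ≤ (302 / 100) * ((52 / (K : ℝ)) * Th (K - 1)) := by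
  have := (gmax_le_Th K hK).1
  unfold mK
  linarith

theorem sum_units (n : ℕ) (hn : 1 ≤ n) :
    ∑ k ∈ Finset.Ico 1 n, (1 / (k : ℝ)) * (1 / ((k : ℝ) + 1)) = 1 - 1 / (n : ℝ) := by
  induction n, hn using Nat.le_induction with
  | base => simp
  | succ n hn ih =>
    rw [Finset.sum_Ico_succ_top hn, ih]
    have : (0 : ℝ) < n := by exact_mod_cast hn
    push_cast
    field_simp
    ring

theorem area_rel (P : Multiset (ℝ × ℝ)) (LS : Multiset (Finset ℕ)) (u : ℕ → ℝ × ℝ)
    (h : Multiset.Rel (fun p S => Cut {p} (S.val.map u)) P LS) :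
    area P = (((LS.map Finset.val).sum).map (fun k => (u k).1 * (u k).2)).sum := by
  induction h with
  | zero => simp [area_zero]
  | @cons p S P LS h1 _ ih =>
    rw [← Multiset.singleton_add, area_add, ih, h1.1, Multiset.map_cons, Multiset.sum_cons,
      Multiset.map_add, Multiset.sum_add]
    congr 1
    unfold area
    rw [Multiset.map_map]
    rfl

theorem inv_init (Q : Multiset Obj) (X Y : ℝ) (h : StartOK Q X Y) :
    ∃ θ : ℝ, 0 < θ ∧ Inv θ j0 ⟨Q, 0, 0, 0, X, Y⟩ := by
  obtain ⟨θ, hθ, hθ2⟩ := exists_lb ((cellsOf Q).map Prod.fst) (by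
    intro x hx
    obtain ⟨c, hc, rfl⟩ := Multiset.mem_map.1 hx
    exact (cells_pos h.obj c hc).1)
  have hT : Th (i0 - 1) ≤ Th (j0 - 1) := Th_anti (by norm_num [j0]) (by norm_num [j0, i0])
  have hmx : max j0 i0 = i0 := by norm_num [j0, i0]
  refine ⟨θ, hθ, ?_⟩
  refine
    { sinv := ?_
      obj := ?_
      epc := ?_
      pend := ?_
      load := ?_
      eload := ?_
      psi := ?_
      net := ?_
      gap := ?_ }
  · exact
      { hR := fun o ho => (h.obj o ho).mono hT
        hQ := by simp
        hE := by simp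
        hP := by simp
        hPc := by simp
        hX := h.box.1
        hXY := h.box.2.1
        hYX := h.box.2.2.1 }
  · rw [hmx]
    simpa using h.obj
  · simp
  · simp
  · rw [hmx]
    intro K hK
    simpa using h.load K hK
  · intro K hK
    have : (0 : ℝ) ≤ rho * (3 / (K : ℝ)) := by unfold rho; positivity
    simpa [lenK, lenIn] using this
  · rw [Finset.Ico_self, Finset.sum_empty, add_zero]
    have h1 := h.psi0
    have e1 : (Q.map (fun o => ∑ K ∈ touched o, wK K)).sum =
        (301 / 100) * (Q.map (fun o => ∑ K ∈ touched o, Th (K - 1))).sum := by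
      rw [← Multiset.sum_map_mul_left]
      congr 1
      apply Multiset.map_congr rfl
      intro o _
      rw [Finset.mul_sum]
      rfl
    have e2 : ((cellsOf Q).map (fun c => mK (kc c.1))).sum ≤
        (302 / 100) * ((cellsOf Q).map (fun c => (52 / (kc c.1 : ℝ)) * Th (kc c.1 - 1))).sum := by
      rw [← Multiset.sum_map_mul_left]
      apply Multiset.sum_map_le_sum_map
      intro c hc
      obtain ⟨c1, c2, _⟩ := cells_pos h.obj c hc
      have := i0_le_kc c1 c2
      exact mK_le (by unfold i0 at this; unfold j0; omega)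
    have e3 : ((potOf Q).map (fun p => wK (kc p.1) + mK (kc p.1))).sum ≤
        (16 / 5) * ((potOf Q).map (fun p => Th (kc p.1 - 1))).sum := by
      rw [← Multiset.sum_map_mul_left]
      apply Multiset.sum_map_le_sum_map
      intro p hp
      have hk := h.potk p hp
      have h3 := mK_le (K := kc p.1) (by unfold i0 at hk; unfold j0; omega)
      have h4 : (0 : ℝ) < Th (kc p.1 - 1) := Th_pos (by unfold i0 at hk; omega)
      have h5 : (52 / (kc p.1 : ℝ)) ≤ 52 / 1600 := by
        apply div_le_div_of_nonneg_left (by norm_num) (by norm_num)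
        unfold i0 at hk
        exact_mod_cast hk
      have h6 := mul_le_mul_of_nonneg_right h5 h4.le
      unfold wK
      linarith
    unfold Psi
    simp only [Multiset.map_zero, Multiset.sum_zero, add_zero, cellsOf_zero, zero_add]
    rw [e1]
    linarith
  · obtain ⟨P0, LS, g1, g2, g3⟩ := h.geo
    have a1 := g1.1
    have a2 := area_rel _ _ _ g2
    rw [g3] at a2
    have a3 : (((Finset.Ico 1 NN).val).map (fun k : ℕ => (1 / (k : ℝ)) * (1 / ((k : ℝ) + 1)))).sum =
        1 - 1 / (NN : ℝ) := sum_units NN (by norm_num [NN])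
    simp only at a2
    rw [a3] at a2
    simp only [area_add, area_single, area_rects] at a1
    rw [area_add, area_owedR] at a2
    unfold TState.net rem
    simp only [area_zero, cellsOf_zero, Finset.Ico_self, Finset.sum_empty]
    linarith
  · intro o ho p hp _
    left
    have ho' : o ∈ Q := by simpa using ho
    apply hθ2
    rw [Multiset.mem_map]
    refine ⟨(o.t - p.1, p.2), ?_, rfl⟩
    unfold cellsOf
    clear h hθ2 hT hmx ho
    induction Q using Multiset.induction_on with
    | empty => simp at ho'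
    | cons o2 Q ih =>
      rw [Multiset.map_cons, Multiset.sum_cons, Multiset.mem_add]
      rcases Multiset.mem_cons.1 ho' with rfl | ho'
      · left
        unfold Obj.cells
        rw [Multiset.mem_coe]
        exact List.mem_map_of_mem (f := fun q : ℝ × ℝ => (o.t - q.1, q.2)) hp
      · exact Or.inr (ih ho')

end Pool.Agent.MM2
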