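import Pool.Agent.MP_94f265_co.MM2.Asm

/-!
# From an infinite run to a packing: every owed piece is emitted at some time
-/

namespace Pool.Agent.MM2

open Pool.Agent.MM1

/-- the rectangle `p` can be cut into the rectangles with index in `S` -/
def Holds (u : ℕ → ℝ × ℝ) (p : ℝ × ℝ) (S : Finset ℕ) : Prop := Cut {p} (S.val.map u)

/-- all indices of a multiset of labels -/
def labs (L : Multiset (Finset ℕ)) : Multiset ℕ := (L.map Finset.val).sum

theorem labs_add (L M : Multiset (Finset ℕ)) : labs (L + M) = labs L + labs M := by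
  simp [labs]

theorem labs_singles (U : Finset ℕ) : labs (U.val.map (fun n => ({n} : Finset ℕ))) = U.val := by
  unfold labs
  rw [Multiset.map_map]
  have : (Finset.val ∘ fun n : ℕ => ({n} : Finset ℕ)) = fun n => {n} := by
    funext n; rfl
  rw [this, Multiset.sum_map_singleton]

theorem rel_cut (u : ℕ → ℝ × ℝ) {e : Multiset (ℝ × ℝ)} {L : Multiset (Finset ℕ)}
    (h : Multiset.Rel (Holds u) e L) : Cut e ((labs L).map u) := by
  induction h with
  | zero => simpa [labs] using Cut.refl 0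
  | @cons p S e L hp _ ih =>
    have h1 : labs (S ::ₘ L) = S.val + labs L := by simp [labs]
    rw [h1, Multiset.map_add, ← Multiset.singleton_add]
    exact Cut.add hp ih

theorem label_step (u : ℕ → ℝ × ℝ) {O O' e : Multiset (ℝ × ℝ)} {U : Finset ℕ}
    (hbal : O + U.val.map u = e + O') {L : Multiset (Finset ℕ)} (hL : Multiset.Rel (Holds u) O L) :
    ∃ E L', Multiset.Rel (Holds u) e E ∧ Multiset.Rel (Holds u) O' L' ∧
      labs L + U.val = labs E + labs L' := by
  have h1 : Multiset.Rel (Holds u) (U.val.map u) (U.val.map (fun n => ({n} : Finset ℕ))) := by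
    rw [Multiset.rel_map]
    apply Multiset.rel_refl_of_refl_on
    intro n _
    exact Cut.refl _
  have h2 := Multiset.Rel.add hL h1
  rw [hbal, Multiset.rel_add_left] at h2
  obtain ⟨E, L', hE, hL', heq⟩ := h2
  refine ⟨E, L', hE, hL', ?_⟩
  rw [← labs_add, ← heq, labs_add, labs_singles]

/-- A sequence of labels. -/
theorem labels_exist (u : ℕ → ℝ × ℝ) (O e : ℕ → Multiset (ℝ × ℝ)) (U : ℕ → Finset ℕ)
    (hbal : ∀ k, O k + (U k).val.map u = e k + O (k + 1)) (L0 : Multiset (Finset ℕ))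
    (hL0 : Multiset.Rel (Holds u) (O 0) L0) :
    ∃ L E : ℕ → Multiset (Finset ℕ), L 0 = L0 ∧ (∀ k, Multiset.Rel (Holds u) (O k) (L k)) ∧
      (∀ k, Multiset.Rel (Holds u) (e k) (E k)) ∧
      (∀ k, labs (L k) + (U k).val = labs (E k) + labs (L (k + 1))) := by
  let T : ℕ → Type := fun k => {L : Multiset (Finset ℕ) // Multiset.Rel (Holds u) (O k) L}
  have hstep : ∀ k (L : T k), ∃ EL : Multiset (Finset ℕ) × T (k + 1),
      Multiset.Rel (Holds u) (e k) EL.1 ∧ labs L.1 + (U k).val = labs EL.1 + labs EL.2.1 := by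
    intro k L
    obtain ⟨E, L', h1, h2, h3⟩ := label_step u (hbal k) L.2
    exact ⟨⟨E, ⟨L', h2⟩⟩, h1, h3⟩
  choose nxt hn1 hn2 using hstep
  let Ls : ∀ k, T k := fun k => Nat.rec ⟨L0, hL0⟩ (fun k L => (nxt k L).2) k
  refine ⟨fun k => (Ls k).1, fun k => (nxt k (Ls k)).1, rfl, fun k => (Ls k).2,
    fun k => hn1 k (Ls k), fun k => ?_⟩
  exact hn2 k (Ls k)

theorem mem_labs {L : Multiset (Finset ℕ)} {n : ℕ} (h : n ∈ labs L) : ∃ S ∈ L, n ∈ S := by
  have h1 : n ∈ L.bind Finset.val := h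
  obtain ⟨S, hS, hn⟩ := Multiset.mem_bind.1 h1
  exact ⟨S, hS, hn⟩

/-- **The limit.** -/
theorem limit_packing (u : ℕ → ℝ × ℝ) (hu : ∀ n, 0 ≤ (u n).1 * (u n).2) (a b : ℝ)
    (G O e : ℕ → Multiset (ℝ × ℝ)) (U : ℕ → Finset ℕ) (B : Finset ℕ) (P0 : Multiset (ℝ × ℝ))
    (LS : Multiset (Finset ℕ))
    (h0 : Cut {(a, b)} (P0 + G 0)) (hstep : ∀ k, Cut (G k) (e k + G (k + 1)))
    (hbal : ∀ k, O k + (U k).val.map u = e k + O (k + 1))
    (hrel : Multiset.Rel (Holds u) (P0 + O 0) LS) (hsum : labs LS = B.val)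
    (hBU : ∀ k, Disjoint B (U k)) (hUU : ∀ i j, i < j → Disjoint (U i) (U j))
    (hvan : ∀ n, (n ∈ B ∨ ∃ k, n ∈ U k) → ∃ K, ∀ k, K ≤ k → ∀ p ∈ O k,
      p.1 * p.2 < (u n).1 * (u n).2) :
    ∃ R : ℕ → PR, (∀ n, (n ∈ B ∨ ∃ k, n ∈ U k) → (R n).Has (u n) ∧ (R n).Sub ⟨0, 0, a, b⟩) ∧
      (∀ n m, (n ∈ B ∨ ∃ k, n ∈ U k) → (m ∈ B ∨ ∃ k, m ∈ U k) → n ≠ m → (R n).Sep (R m)) := by
  classical
  rw [Multiset.rel_add_left] at hrel
  obtain ⟨LP, L0, hLP, hL0, hLS⟩ := hrel
  obtain ⟨L, E, hLz, hLr, hEr, hLE⟩ := labels_exist u O e U hbal L0 hL0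
  -- the emitted indices
  obtain ⟨W, hW0, hWs⟩ : ∃ W : ℕ → Multiset ℕ, W 0 = labs LP ∧ ∀ k, W (k + 1) = labs (E k) :=
    ⟨fun k => Nat.casesOn k (labs LP) (fun k => labs (E k)), rfl, fun k => rfl⟩
  -- total balance
  have hX : ∀ k, ∑ m ∈ Finset.range (k + 1), W m + labs (L k) =
      B.val + ∑ j ∈ Finset.range k, (U j).val := by
    intro k
    induction k with
    | zero =>
      rw [Finset.sum_range_succ, Finset.range_zero, Finset.sum_empty, Finset.sum_empty, zero_add,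
        add_zero, hW0, hLz, ← labs_add, ← hLS, hsum]
    | succ k ih =>
      rw [Finset.sum_range_succ, hWs, add_assoc, ← hLE, ← add_assoc, ih, add_assoc,
        ← Finset.sum_range_succ]
  have hmemX : ∀ k n, n ∈ B.val + ∑ j ∈ Finset.range k, (U j).val ↔ n ∈ B ∨ ∃ j < k, n ∈ U j := by
    intro k n
    rw [Multiset.mem_add, Multiset.mem_sum]
    simp only [Finset.mem_val, Finset.mem_range]
  have hnd : ∀ k, (B.val + ∑ j ∈ Finset.range k, (U j).val).Nodup := by
    intro k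
    induction k with
    | zero => simpa using B.nodup
    | succ k ih =>
      rw [Finset.sum_range_succ, ← add_assoc, Multiset.nodup_add]
      refine ⟨ih, (U k).nodup, ?_⟩
      rw [Multiset.disjoint_left]
      intro n hn hn'
      rcases (hmemX k n).1 hn with h | ⟨j, hj, h⟩
      · exact Finset.disjoint_left.1 (hBU k) h hn'
      · exact Finset.disjoint_left.1 (hUU j k hj) h hn'
  have hWle : ∀ k, ∀ i ≤ k, W i ≤ ∑ m ∈ Finset.range (k + 1), W m := by
    intro k i hi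
    exact Finset.single_le_sum (f := W) (fun _ _ => Multiset.zero_le _)
      (Finset.mem_range.2 (by omega))
  have hWnd : ∀ i, (W i).Nodup := by
    intro i
    have h1 := hnd i
    rw [← hX i] at h1
    exact Multiset.nodup_of_le ((hWle i i le_rfl).trans (Multiset.le_add_right _ _)) h1
  have hWdisj : ∀ i j, i < j → ∀ n, n ∈ W i → n ∉ W j := by
    intro i j hij n hn hn'
    obtain ⟨k, rfl⟩ : ∃ k, j = k + 1 := ⟨j - 1, by omega⟩
    have h1 := hnd (k + 1)
    rw [← hX (k + 1), Finset.sum_range_succ] at h1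
    have h2 : (∑ m ∈ Finset.range (k + 1), W m + W (k + 1)).Nodup :=
      Multiset.nodup_of_le (Multiset.le_add_right _ _) h1
    rw [Multiset.nodup_add] at h2
    exact Multiset.disjoint_left.1 h2.2.2 (Multiset.mem_of_le (hWle k i (by omega)) hn) hn'
  -- the sets
  obtain ⟨A, hA⟩ : ∃ A : ℕ → Finset ℕ, ∀ k, A k = (W k).toFinset := ⟨_, fun _ => rfl⟩
  have hAval : ∀ k, (A k).val = W k := by
    intro k
    rw [hA, Multiset.toFinset_val, (hWnd k).dedup]
  have hAmem : ∀ k n, n ∈ A k ↔ n ∈ W k := by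
    intro k n
    rw [← Finset.mem_val, hAval]
  obtain ⟨G', hG'0, hG's⟩ : ∃ G' : ℕ → Multiset (ℝ × ℝ), G' 0 = {(a, b)} ∧ ∀ k, G' (k + 1) = G k :=
    ⟨fun k => Nat.casesOn k {(a, b)} (fun k => G k), rfl, fun k => rfl⟩
  obtain ⟨R, hR1, hR2⟩ := assembleG u a b G' A hG'0 (by
      intro i
      rw [hAval, hG's]
      rcases i with _ | i
      · rw [hG'0, hW0]
        exact h0.trans (Cut.add_right (rel_cut u hLP) _)
      · rw [hG's, hWs]
        exact (hstep i).trans (Cut.add_right (rel_cut u (hEr i)) _))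
    (by
      intro i j hij
      rw [Finset.disjoint_left]
      intro n hn hn'
      exact hWdisj i j hij n ((hAmem i n).1 hn) ((hAmem j n).1 hn'))
  -- every index is emitted
  have hall : ∀ n, (n ∈ B ∨ ∃ k, n ∈ U k) → ∃ i, n ∈ A i := by
    intro n hn
    by_contra hcon
    push Not at hcon
    obtain ⟨k0, hk0⟩ : ∃ k0, ∀ k, k0 ≤ k → n ∈ B.val + ∑ j ∈ Finset.range k, (U j).val := by
      rcases hn with hn | ⟨k, hk⟩
      · exact ⟨0, fun k _ => (hmemX k n).2 (Or.inl hn)⟩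
      · exact ⟨k + 1, fun k' hk' => (hmemX k' n).2 (Or.inr ⟨k, by omega, hk⟩)⟩
    obtain ⟨K, hK⟩ := hvan n hn
    have h1 := hk0 (max k0 K) (le_max_left _ _)
    rw [← hX, Multiset.mem_add, Multiset.mem_sum] at h1
    rcases h1 with ⟨m, _, hm⟩ | h1
    · exact hcon m ((hAmem m n).2 hm)
    · obtain ⟨S, hS, hnS⟩ := mem_labs h1
      obtain ⟨p, hp, hpS⟩ : ∃ p ∈ O (max k0 K), Holds u p S := by
        have h2 := (hLr (max k0 K))
        rw [← Multiset.rel_flip] at h2
        obtain ⟨p, hp, h3⟩ := Multiset.exists_mem_of_rel_of_mem h2 hS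
        exact ⟨p, hp, h3⟩
      have h3 := hK _ (le_max_right _ _) p hp
      have h4 : p.1 * p.2 = ∑ m ∈ S, (u m).1 * (u m).2 := by
        have := hpS.1
        simp only [area, Multiset.map_singleton, Multiset.sum_singleton, Multiset.map_map] at this
        rw [this]
        rfl
      have h5 : (u n).1 * (u n).2 ≤ ∑ m ∈ S, (u m).1 * (u m).2 :=
        Finset.single_le_sum (f := fun m => (u m).1 * (u m).2) (fun m _ => hu m) hnS
      linarith
  refine ⟨R, ?_, ?_⟩
  · intro n hn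
    obtain ⟨i, hi⟩ := hall n hn
    exact hR1 i n hi
  · intro n m hn hm hnm
    obtain ⟨i, hi⟩ := hall n hn
    obtain ⟨j, hj⟩ := hall m hm
    exact hR2 i j n hi m hj hnm

end Pool.Agent.MM2
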