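import Pool.Agent.MP_94f265_co.MM2.NumA

/-!
# The load of a class (block NUM)
-/

namespace Pool.Agent.MM2.Num

theorem TT_nonneg' {x : ℝ} (hx : 0 ≤ x) : 0 ≤ TT x := by unfold TT; positivity

theorem Nj_pos (j : ℕ) : 0 < Nj j := by
  unfold Nj NN
  exact lt_of_lt_of_le (by norm_num) (le_max_right _ _)

theorem NN_real : (NN : ℝ) = 300000000 := by unfold NN; norm_num

/-- `∑ (…) ≤` the sum over a window of phases -/
theorem sum_window (K i J M : ℕ) (hK : 2 ≤ K) (hJ : 1585 ≤ J)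
    (h : ∀ j, 1585 ≤ j → active j K → J ≤ j ∧ j ≤ M) :
    ∑ j ∈ Finset.Ico j0 i, cL j K ≤
      om K * ∑ j ∈ Finset.Ico 1585 (M + 1), TT ((j : ℝ) + 16) / 16 + ∑ j ∈ Finset.Ico J (M + 1), 1 / Nj j := by
  classical
  have h0 : ∀ j : ℕ, 0 ≤ TT ((j : ℝ) + 16) / 16 := by
    intro j
    have := TT_nonneg' (x := (j : ℝ) + 16) (by positivity)
    positivity
  have h1 : ∀ j : ℕ, 0 ≤ 1 / Nj j := fun j => by have := Nj_pos j; positivity
  have hom := om_nonneg hK
  set S := (Finset.Ico j0 i).filter (fun j => active j K) with hS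
  have e1 : ∑ j ∈ Finset.Ico j0 i, cL j K = ∑ j ∈ S, (om K * TT ((j : ℝ) + 16) / 16 + 1 / Nj j) := by
    rw [hS, Finset.sum_filter]
    apply Finset.sum_congr rfl
    intro j _
    unfold cL
    rfl
  have hsub : ∀ j ∈ S, J ≤ j ∧ j ≤ M ∧ 1585 ≤ j := by
    intro j hj
    rw [hS, Finset.mem_filter, Finset.mem_Ico] at hj
    have hj1 : 1585 ≤ j := hj.1.1
    exact ⟨(h j hj1 hj.2).1, (h j hj1 hj.2).2, hj1⟩
  rw [e1, Finset.sum_add_distrib]
  apply add_le_add
  · have e2 : ∑ j ∈ S, om K * TT ((j : ℝ) + 16) / 16 = om K * ∑ j ∈ S, TT ((j : ℝ) + 16) / 16 := by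
      rw [Finset.mul_sum]
      apply Finset.sum_congr rfl
      intro j _
      ring
    rw [e2]
    apply mul_le_mul_of_nonneg_left _ hom
    apply Finset.sum_le_sum_of_subset_of_nonneg
    · intro j hj
      have := hsub j hj
      rw [Finset.mem_Ico]
      omega
    · intro j _ _
      exact h0 j
  · apply Finset.sum_le_sum_of_subset_of_nonneg
    · intro j hj
      have := hsub j hj
      rw [Finset.mem_Ico]
      omega
    · intro j _ _
      exact h1 j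

/-- the error part: window from `1585` -/
theorem err_low (M : ℕ) (hM : 1599 ≤ M) : ∑ j ∈ Finset.Ico 1585 (M + 1), 1 / Nj j ≤
    15 / 300000000 + 512 / 75 * (1 / (3199 / 2 : ℝ) ^ 2 - 1 / ((M : ℝ) + 1 / 2) ^ 2) := by
  rw [← Finset.sum_Ico_consecutive _ (show 1585 ≤ 1600 by norm_num) (show 1600 ≤ M + 1 by omega)]
  apply add_le_add
  · have : ∀ j ∈ Finset.Ico 1585 1600, 1 / Nj j ≤ 1 / 300000000 := by
      intro j _
      apply one_div_le_one_div_of_le (by norm_num)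
      rw [← NN_real]
      exact le_max_right _ _
    calc ∑ j ∈ Finset.Ico 1585 1600, 1 / Nj j ≤ ∑ j ∈ Finset.Ico 1585 1600, (1 / 300000000 : ℝ) :=
          Finset.sum_le_sum this
      _ = 15 / 300000000 := by simp; norm_num
  · calc ∑ j ∈ Finset.Ico 1600 (M + 1), 1 / Nj j ≤ ∑ j ∈ Finset.Ico 1600 (M + 1), 1 / TT (j : ℝ) := by
          apply Finset.sum_le_sum
          intro j hj
          rw [Finset.mem_Ico] at hj
          have : (1600 : ℝ) ≤ j := by exact_mod_cast hj.1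
          exact one_div_le_one_div_of_le (TT_pos (by linarith)) (le_max_left _ _)
      _ ≤ _ := by
          have := sum_inv 1600 M (by norm_num) (by omega)
          convert this using 4
          norm_num

/-- the error part: window from `J ≥ 1600` -/
theorem err_high (J M : ℕ) (hJ : 1600 ≤ J) (hM : J ≤ M + 1) : ∑ j ∈ Finset.Ico J (M + 1), 1 / Nj j ≤
    512 / 75 * (1 / ((J : ℝ) - 1 / 2) ^ 2 - 1 / ((M : ℝ) + 1 / 2) ^ 2) := by
  calc ∑ j ∈ Finset.Ico J (M + 1), 1 / Nj j ≤ ∑ j ∈ Finset.Ico J (M + 1), 1 / TT (j : ℝ) := by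
        apply Finset.sum_le_sum
        intro j hj
        rw [Finset.mem_Ico] at hj
        have : (1600 : ℝ) ≤ j := by exact_mod_cast hJ.trans hj.1
        exact one_div_le_one_div_of_le (TT_pos (by linarith)) (le_max_left _ _)
    _ ≤ _ := sum_inv J M (by omega) hM

/-- the main part: `(K/3) om K ∑ … ≤ ((5K)/(320 (5K-6)^4)) ((1+s)^3 258 (5K-1)^3 - B)` -/
theorem main_part (K M : ℕ) (p : ℝ) (hp : 0 < p) (hK : 2 ≤ K) (hM : 1584 ≤ M)
    (hKM : (5 * (M : ℝ) - 6) ^ 4 ≤ 258 * (5 * (K : ℝ) - 1) ^ 3) :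
    (K / 3) * (om K * ∑ j ∈ Finset.Ico 1585 (M + 1), TT ((j : ℝ) + 16) / 16) ≤
      (5 * (K : ℝ)) / (320 * (5 * (K : ℝ) - 6) ^ 4) *
        ((1 + (177 / 2) / p) ^ 3 * 258 * (5 * (K : ℝ) - 1) ^ 3 -
          (625 * (1600 * 1601) ^ 2 - (177 / 2) * (p + 177 / 2) ^ 3)) := by
  have hK' : (2 : ℝ) ≤ K := by exact_mod_cast hK
  have hM' : (1584 : ℝ) ≤ M := by exact_mod_cast hM
  rw [sum_TT M hM]
  have h1 := om_le5 hK
  have hk : 0 < 5 * (K : ℝ) - 6 := by linarith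
  have h2 : 0 ≤ 75 / 65536 * (((M : ℝ) + 16) ^ 2 * (M + 17) ^ 2 - (1600 * 1601) ^ 2) := by
    apply mul_nonneg (by norm_num)
    have a1 : (1600 : ℝ) ≤ (M : ℝ) + 16 := by linarith
    have a2 : (1601 : ℝ) ≤ (M : ℝ) + 17 := by linarith
    have : (1600 : ℝ) * 1601 ≤ ((M : ℝ) + 16) * (M + 17) := mul_le_mul a1 a2 (by norm_num) (by linarith)
    have h3 := pow_le_pow_left₀ (by norm_num) this 2
    rw [mul_pow ((M : ℝ) + 16)] at h3
    linarith
  have h3 : ((M : ℝ) + 16) ^ 2 * (M + 17) ^ 2 ≤ ((5 * (M : ℝ) - 6) + 177 / 2) ^ 4 / 625 := by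
    have : ((M : ℝ) + 16) * (M + 17) ≤ (((5 * (M : ℝ) - 6) + 177 / 2) / 5) ^ 2 := by nlinarith
    have h4 := pow_le_pow_left₀ (by positivity) this 2
    calc ((M : ℝ) + 16) ^ 2 * (M + 17) ^ 2 = (((M : ℝ) + 16) * (M + 17)) ^ 2 := by ring
      _ ≤ _ := h4
      _ = _ := by ring
  have h4 := jensen4 (5 * (M : ℝ) - 6) (177 / 2) p (by linarith) (by norm_num) hp
  have h5 : (1 + 177 / 2 / p) ^ 3 * (5 * (M : ℝ) - 6) ^ 4 ≤ (1 + 177 / 2 / p) ^ 3 * (258 * (5 * (K : ℝ) - 1) ^ 3) :=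
    mul_le_mul_of_nonneg_left hKM (by positivity)
  calc (K : ℝ) / 3 * (om K * (75 / 65536 * (((M : ℝ) + 16) ^ 2 * (M + 17) ^ 2 - (1600 * 1601) ^ 2)))
      ≤ K / 3 * (25600 / (5 * (K : ℝ) - 6) ^ 4 * (75 / 65536 * (((M : ℝ) + 16) ^ 2 * (M + 17) ^ 2 - (1600 * 1601) ^ 2))) := by
        apply mul_le_mul_of_nonneg_left _ (by positivity)
        exact mul_le_mul_of_nonneg_right h1 h2
    _ = (5 * (K : ℝ)) / (320 * (5 * (K : ℝ) - 6) ^ 4) *
        (625 * (((M : ℝ) + 16) ^ 2 * (M + 17) ^ 2) - 625 * (1600 * 1601) ^ 2) := by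
        field_simp
        ring
    _ ≤ _ := by
        apply mul_le_mul_of_nonneg_left _ (by positivity)
        linarith


/-- the factor `5K (5K-1)^3/(5K-6)^4` decreases -/
theorem mu_le {a k : ℝ} (ha : 10 ≤ a) (h : a ≤ k) :
    (5 * k) * (5 * k - 1) ^ 3 / (5 * k - 6) ^ 4 ≤ (5 * a) * (5 * a - 1) ^ 3 / (5 * a - 6) ^ 4 := by
  have pk : 0 < 5 * k - 6 := by linarith
  have pa : 0 < 5 * a - 6 := by linarith
  have h1 : 5 * k / (5 * k - 6) ≤ 5 * a / (5 * a - 6) := by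
    rw [div_le_div_iff₀ pk pa]; nlinarith
  have h2 : (5 * k - 1) / (5 * k - 6) ≤ (5 * a - 1) / (5 * a - 6) := by
    rw [div_le_div_iff₀ pk pa]; nlinarith
  have e : ∀ x : ℝ, 0 < 5 * x - 6 → (5 * x) * (5 * x - 1) ^ 3 / (5 * x - 6) ^ 4 =
      (5 * x / (5 * x - 6)) * ((5 * x - 1) / (5 * x - 6)) ^ 3 := by
    intro x hx
    rw [div_pow]
    field_simp
  rw [e k pk, e a pa]
  apply mul_le_mul h1 _ (by have : 0 < 5 * k - 1 := by linarith
                            positivity) (by have : 0 < 5 * a := by linarith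
                                            positivity)
  exact pow_le_pow_left₀ (div_nonneg (by linarith) pk.le) h2 3

theorem inv_le_mu {k : ℝ} (h : 10 ≤ k) : 1 / (5 * k - 1) ^ 3 ≤ (5 * k) / (5 * k - 6) ^ 4 := by
  have pk : 0 < 5 * k - 6 := by linarith
  have p1 : 0 < 5 * k - 1 := by linarith
  rw [div_le_div_iff₀ (by positivity) (by positivity)]
  have h1 : (5 * k - 6) ^ 3 ≤ (5 * k - 1) ^ 3 := pow_le_pow_left₀ pk.le (by linarith) 3
  calc 1 * (5 * k - 6) ^ 4 = (5 * k - 6) * (5 * k - 6) ^ 3 := by ring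
    _ ≤ (5 * k) * (5 * k - 1) ^ 3 := mul_le_mul (by linarith) h1 (by positivity) (by linarith)

/-- the main part on an interval of classes, `B ≥ 0` -/
theorem main_interval (K Ka Kb M : ℕ) (p : ℝ) (hp : 0 < p) (hKa0 : 10 ≤ Ka) (hKa : Ka ≤ K) (hKb : K ≤ Kb) (hM : 1584 ≤ M)
    (hKM : (5 * (M : ℝ) - 6) ^ 4 ≤ 258 * (5 * (K : ℝ) - 1) ^ 3)
    (hB : 0 ≤ 625 * (1600 * 1601) ^ 2 - (177 / 2) * (p + 177 / 2) ^ 3) :
    (K / 3) * (om K * ∑ j ∈ Finset.Ico 1585 (M + 1), TT ((j : ℝ) + 16) / 16) ≤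
      ((1 + (177 / 2) / p) ^ 3 * 258 * ((5 * (Ka : ℝ)) * (5 * Ka - 1) ^ 3 / (5 * Ka - 6) ^ 4) -
          (625 * (1600 * 1601) ^ 2 - (177 / 2) * (p + 177 / 2) ^ 3) / (5 * (Kb : ℝ) - 1) ^ 3) / 320 := by
  have a1 : (10 : ℝ) ≤ Ka := by exact_mod_cast hKa0
  have a2 : (Ka : ℝ) ≤ K := by exact_mod_cast hKa
  have a3 : (K : ℝ) ≤ Kb := by exact_mod_cast hKb
  refine (main_part K M p hp (by omega) hM hKM).trans ?_
  set A := (1 + (177 / 2) / p) ^ 3 * 258 with hA
  set B := 625 * (1600 * 1601) ^ 2 - (177 / 2) * (p + 177 / 2) ^ 3 with hB'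
  have pk : 0 < 5 * (K : ℝ) - 6 := by linarith
  have hA0 : 0 ≤ A := by positivity
  have m1 := mu_le a1 a2
  have m2 := inv_le_mu (a1.trans a2)
  have m3 : 1 / (5 * (Kb : ℝ) - 1) ^ 3 ≤ 1 / (5 * (K : ℝ) - 1) ^ 3 := by
    apply one_div_le_one_div_of_le
    · have : 0 < 5 * (K : ℝ) - 1 := by linarith
      positivity
    · exact pow_le_pow_left₀ (by linarith) (by linarith) 3
  calc (5 * (K : ℝ)) / (320 * (5 * (K : ℝ) - 6) ^ 4) * (A * (5 * (K : ℝ) - 1) ^ 3 - B)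
      = (A * ((5 * (K : ℝ)) * (5 * K - 1) ^ 3 / (5 * K - 6) ^ 4) - B * ((5 * (K : ℝ)) / (5 * K - 6) ^ 4)) / 320 := by
        field_simp
    _ ≤ (A * ((5 * (Ka : ℝ)) * (5 * Ka - 1) ^ 3 / (5 * Ka - 6) ^ 4) - B * (1 / (5 * (Kb : ℝ) - 1) ^ 3)) / 320 := by
        have c1 := mul_le_mul_of_nonneg_left m1 hA0
        have c2 := mul_le_mul_of_nonneg_left (m3.trans m2) hB
        apply div_le_div_of_nonneg_right _ (by norm_num)
        linarith
    _ = _ := by ring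

/-- interval lemma, window from `1585` -/
theorem load_low (K Ka Kb M i : ℕ) (p t : ℝ) (hp : 0 < p) (hKa0 : 10 ≤ Ka) (hKa : Ka ≤ K) (hKb : K ≤ Kb) (hM : 1599 ≤ M)
    (hMb : 258 * (5 * (Kb : ℝ) - 1) ^ 3 < (5 * (M : ℝ) - 1) ^ 4)
    (hB : 0 ≤ 625 * (1600 * 1601) ^ 2 - (177 / 2) * (p + 177 / 2) ^ 3) (ht0 : 0 ≤ t)
    (ht : ((1 + (177 / 2) / p) ^ 3 * 258 * ((5 * (Ka : ℝ)) * (5 * Ka - 1) ^ 3 / (5 * Ka - 6) ^ 4) -
          (625 * (1600 * 1601) ^ 2 - (177 / 2) * (p + 177 / 2) ^ 3) / (5 * (Kb : ℝ) - 1) ^ 3) / 320 +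
        (Kb / 3) * (15 / 300000000 + 512 / 75 * (1 / (3199 / 2 : ℝ) ^ 2 - 1 / ((M : ℝ) + 1 / 2) ^ 2)) ≤ t) :
    ∑ j ∈ Finset.Ico j0 i, cL j K ≤ t * (3 / K) := by
  classical
  have a1 : (10 : ℝ) ≤ Ka := by exact_mod_cast hKa0
  have a2 : (Ka : ℝ) ≤ K := by exact_mod_cast hKa
  have a3 : (K : ℝ) ≤ Kb := by exact_mod_cast hKb
  have hK0 : 0 < (K : ℝ) := by linarith
  -- the largest active phase
  by_cases hex : ∃ j, 1585 ≤ j ∧ active j K
  · have hbd : ∀ j, 1585 ≤ j → active j K → j ≤ M := by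
      intro j hj hact
      have h1 := active_le (by omega) (by omega) hact
      by_contra hcon
      have h2 : M + 1 ≤ j := by omega
      have h3 : (M : ℝ) + 1 ≤ j := by exact_mod_cast h2
      have h4 : (5 * (M : ℝ) - 1) ^ 4 ≤ (5 * (j : ℝ) - 6) ^ 4 := by
        apply pow_le_pow_left₀ _ (by linarith)
        have : (1599 : ℝ) ≤ M := by exact_mod_cast hM
        linarith
      have h5 : (5 * (K : ℝ) - 1) ^ 3 ≤ (5 * (Kb : ℝ) - 1) ^ 3 := pow_le_pow_left₀ (by linarith) (by linarith) 3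
      linarith
    set M0 := Nat.findGreatest (fun j => 1585 ≤ j ∧ active j K) M with hM0
    obtain ⟨j1, hj1, hj1'⟩ := hex
    have hP : 1585 ≤ M0 ∧ active M0 K :=
      Nat.findGreatest_spec (P := fun j => 1585 ≤ j ∧ active j K) (hbd j1 hj1 hj1') ⟨hj1, hj1'⟩
    have hle : ∀ j, 1585 ≤ j → active j K → j ≤ M0 := by
      intro j hj hact
      exact Nat.le_findGreatest (P := fun j => 1585 ≤ j ∧ active j K) (hbd j hj hact) ⟨hj, hact⟩
    have hM0M : M0 ≤ M := Nat.findGreatest_le M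
    have hw := sum_window K i 1585 M0 (by omega) le_rfl (fun j hj hact => ⟨hj, hle j hj hact⟩)
    have hm := main_interval K Ka Kb M0 p hp hKa0 hKa hKb (by omega) (active_le (by omega) (by omega) hP.2) hB
    have herr : ∑ j ∈ Finset.Ico 1585 (M0 + 1), 1 / Nj j ≤ ∑ j ∈ Finset.Ico 1585 (M + 1), 1 / Nj j := by
      apply Finset.sum_le_sum_of_subset_of_nonneg
      · apply Finset.Ico_subset_Ico_right; omega
      · intro j _ _
        have := Nj_pos j; positivity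
    have herr2 := herr.trans (err_low M hM)
    set R := (15 : ℝ) / 300000000 + 512 / 75 * (1 / (3199 / 2 : ℝ) ^ 2 - 1 / ((M : ℝ) + 1 / 2) ^ 2) with hR
    have hR0 : 0 ≤ R := by
      refine le_trans ?_ herr2
      apply Finset.sum_nonneg
      intro j _
      exact one_div_nonneg.2 (Nj_pos j).le
    have hKR : (K : ℝ) / 3 * R ≤ (Kb : ℝ) / 3 * R := mul_le_mul_of_nonneg_right (by linarith) hR0
    have h6 : (K : ℝ) / 3 * ∑ j ∈ Finset.Ico j0 i, cL j K ≤ t := by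
      calc (K : ℝ) / 3 * ∑ j ∈ Finset.Ico j0 i, cL j K
          ≤ (K : ℝ) / 3 * (om K * ∑ j ∈ Finset.Ico 1585 (M0 + 1), TT ((j : ℝ) + 16) / 16 + R) := by
            apply mul_le_mul_of_nonneg_left _ (by positivity)
            linarith
        _ = (K / 3) * (om K * ∑ j ∈ Finset.Ico 1585 (M0 + 1), TT ((j : ℝ) + 16) / 16) + K / 3 * R := by ring
        _ ≤ t := by linarith
    have e : ∑ j ∈ Finset.Ico j0 i, cL j K = ((K : ℝ) / 3 * ∑ j ∈ Finset.Ico j0 i, cL j K) * (3 / K) := by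
      field_simp
    rw [e]
    exact mul_le_mul_of_nonneg_right h6 (by positivity)
  · have h0 : ∑ j ∈ Finset.Ico j0 i, cL j K = 0 := by
      apply Finset.sum_eq_zero
      intro j hj
      rw [Finset.mem_Ico] at hj
      unfold cL
      rw [if_neg]
      intro hact
      exact hex ⟨j, hj.1, hact⟩
    rw [h0]
    exact mul_nonneg ht0 (div_nonneg (by norm_num) hK0.le)

/-- tail lemma -/
theorem load_high (K Ka i Ja : ℕ) (p t q : ℝ) (hp : 0 < p) (hKa0 : 12206 ≤ Ka) (hKa : Ka ≤ K) (hJa : 1 ≤ Ja)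
    (hB : 0 ≤ 625 * (1600 * 1601) ^ 2 - (177 / 2) * (p + 177 / 2) ^ 3) (ht0 : 0 ≤ t) (hq : 0 < q)
    (hq2 : q ^ 2 ≤ 3 * (5 * (Ka : ℝ) - 6) / 625) (hJa2 : (Ja : ℝ) ^ 2 ≤ q * (5 * (Ka : ℝ) - 6))
    (ht : (1 + (177 / 2) / p) ^ 3 * 258 * ((5 * (Ka : ℝ)) * (5 * Ka - 1) ^ 3 / (5 * Ka - 6) ^ 4) / 320 +
        (Ka : ℝ) / (5 * Ka - 6) * (512 / 225) / (q * (1 - 1 / (2 * (Ja : ℝ))) ^ 2) ≤ t) :
    ∑ j ∈ Finset.Ico j0 i, cL j K ≤ t * (3 / K) := by
  classical
  have a1 : (12206 : ℝ) ≤ Ka := by exact_mod_cast hKa0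
  have a2 : (Ka : ℝ) ≤ K := by exact_mod_cast hKa
  have hK0 : 0 < (K : ℝ) := by linarith
  have hKn : 12206 ≤ K := by omega
  by_cases hex : ∃ j, 1585 ≤ j ∧ active j K
  · have hge : ∀ j, 1585 ≤ j → active j K → 1600 ≤ j := by
      intro j hj hact
      by_contra hcon
      exact not_active (by omega) (by omega) hKn hact
    obtain ⟨N1, hN1⟩ := exists_nat_gt (258 * (5 * (K : ℝ) - 1) ^ 3)
    have hbd : ∀ j, 1585 ≤ j → active j K → j ≤ N1 := by
      intro j hj hact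
      have h1 := active_le (by omega) (by omega) hact
      have h2 : (1585 : ℝ) ≤ j := by exact_mod_cast hj
      have h3 : (j : ℝ) ≤ (5 * (j : ℝ) - 6) ^ 4 := by
        have h4 : (j : ℝ) ≤ 5 * (j : ℝ) - 6 := by linarith
        have h5 : (1 : ℝ) ≤ 5 * (j : ℝ) - 6 := by linarith
        calc (j : ℝ) ≤ 5 * (j : ℝ) - 6 := h4
          _ = (5 * (j : ℝ) - 6) ^ 1 := (pow_one _).symm
          _ ≤ (5 * (j : ℝ) - 6) ^ 4 := pow_le_pow_right₀ h5 (by norm_num)
      have h6 : (j : ℝ) < N1 := by linarith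
      exact_mod_cast h6.le
    set M0 := Nat.findGreatest (fun j => 1585 ≤ j ∧ active j K) N1 with hM0
    obtain ⟨j1, hj1, hj1'⟩ := hex
    have hP : 1585 ≤ M0 ∧ active M0 K :=
      Nat.findGreatest_spec (P := fun j => 1585 ≤ j ∧ active j K) (hbd j1 hj1 hj1') ⟨hj1, hj1'⟩
    have hle : ∀ j, 1585 ≤ j → active j K → j ≤ M0 := by
      intro j hj hact
      exact Nat.le_findGreatest (P := fun j => 1585 ≤ j ∧ active j K) (hbd j hj hact) ⟨hj, hact⟩
    have hexJ : ∃ j, 1585 ≤ j ∧ active j K := ⟨j1, hj1, hj1'⟩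
    set J := Nat.find hexJ with hJdef
    have hJ := Nat.find_spec hexJ
    rw [← hJdef] at hJ
    have hJmin : ∀ j, 1585 ≤ j → active j K → J ≤ j := fun j hj hact => Nat.find_min' hexJ ⟨hj, hact⟩
    have hJ16 : 1600 ≤ J := hge J hJ.1 hJ.2
    have hJM : J ≤ M0 := hle J hJ.1 hJ.2
    have hw := sum_window K i J M0 (by omega) hJ.1 (fun j hj hact => ⟨hJmin j hj hact, hle j hj hact⟩)
    have hm := main_part K M0 p hp (by omega) (by omega) (active_le (by omega) (by omega) hP.2)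
    have herr := err_high J M0 hJ16 (by omega)
    -- size of J
    have hJr : (1600 : ℝ) ≤ J := by exact_mod_cast hJ16
    have hact := active_ge hJ16 (by omega) hJ.2
    have pk : 0 < 5 * (K : ℝ) - 6 := by linarith
    have pa : 0 < 5 * (Ka : ℝ) - 6 := by linarith
    have hJ4 : (q * (5 * (K : ℝ) - 6)) ^ 2 < ((J : ℝ) ^ 2) ^ 2 := by
      have h1 : q ^ 2 * (5 * (K : ℝ) - 6) ^ 2 ≤ 3 * (5 * (K : ℝ) - 6) / 625 * (5 * (K : ℝ) - 6) ^ 2 := by
        apply mul_le_mul_of_nonneg_right _ (by positivity)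
        linarith
      nlinarith
    have hJ2 : q * (5 * (K : ℝ) - 6) < (J : ℝ) ^ 2 := lt_of_pow_lt_pow_left₀ 2 (by positivity) hJ4
    have hJJ : (Ja : ℝ) < J := by
      have h1 : q * (5 * (Ka : ℝ) - 6) ≤ q * (5 * (K : ℝ) - 6) := mul_le_mul_of_nonneg_left (by linarith) hq.le
      exact lt_of_pow_lt_pow_left₀ 2 (by positivity) (by linarith)
    have hJa' : (1 : ℝ) ≤ Ja := by exact_mod_cast hJa
    have hc1 : 0 < 1 - 1 / (2 * (Ja : ℝ)) := by
      have : 1 / (2 * (Ja : ℝ)) ≤ 1 / 2 := one_div_le_one_div_of_le (by norm_num) (by linarith)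
      linarith
    have hc2 : (J : ℝ) * (1 - 1 / (2 * (Ja : ℝ))) ≤ (J : ℝ) - 1 / 2 := by
      have : (1 : ℝ) / 2 ≤ (J : ℝ) * (1 / (2 * (Ja : ℝ))) := by
        rw [mul_one_div, div_le_div_iff₀ (by norm_num) (by positivity)]
        linarith
      linarith
    have hc3 : q * (5 * (K : ℝ) - 6) * (1 - 1 / (2 * (Ja : ℝ))) ^ 2 ≤ ((J : ℝ) - 1 / 2) ^ 2 := by
      calc q * (5 * (K : ℝ) - 6) * (1 - 1 / (2 * (Ja : ℝ))) ^ 2 ≤ (J : ℝ) ^ 2 * (1 - 1 / (2 * (Ja : ℝ))) ^ 2 :=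
            mul_le_mul_of_nonneg_right hJ2.le (by positivity)
        _ = ((J : ℝ) * (1 - 1 / (2 * (Ja : ℝ)))) ^ 2 := by ring
        _ ≤ _ := pow_le_pow_left₀ (by positivity) hc2 2
    have hc4 : (K : ℝ) / 3 * (512 / 75 * (1 / ((J : ℝ) - 1 / 2) ^ 2)) ≤
        (Ka : ℝ) / (5 * Ka - 6) * (512 / 225) / (q * (1 - 1 / (2 * (Ja : ℝ))) ^ 2) := by
      have h1 : 1 / ((J : ℝ) - 1 / 2) ^ 2 ≤ 1 / (q * (5 * (K : ℝ) - 6) * (1 - 1 / (2 * (Ja : ℝ))) ^ 2) :=
        one_div_le_one_div_of_le (by positivity) hc3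
      have h2 : (K : ℝ) / (5 * K - 6) ≤ (Ka : ℝ) / (5 * Ka - 6) := by
        rw [div_le_div_iff₀ pk pa]; nlinarith
      calc (K : ℝ) / 3 * (512 / 75 * (1 / ((J : ℝ) - 1 / 2) ^ 2))
          ≤ (K : ℝ) / 3 * (512 / 75 * (1 / (q * (5 * (K : ℝ) - 6) * (1 - 1 / (2 * (Ja : ℝ))) ^ 2))) := by
            apply mul_le_mul_of_nonneg_left _ (by positivity)
            exact mul_le_mul_of_nonneg_left h1 (by norm_num)
        _ = (K : ℝ) / (5 * K - 6) * ((512 / 225) / (q * (1 - 1 / (2 * (Ja : ℝ))) ^ 2)) := by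
            field_simp
            ring
        _ ≤ (Ka : ℝ) / (5 * Ka - 6) * ((512 / 225) / (q * (1 - 1 / (2 * (Ja : ℝ))) ^ 2)) :=
            mul_le_mul_of_nonneg_right h2 (by positivity)
        _ = _ := by ring
    have hc5 : (5 * (K : ℝ)) / (320 * (5 * (K : ℝ) - 6) ^ 4) *
        ((1 + (177 / 2) / p) ^ 3 * 258 * (5 * (K : ℝ) - 1) ^ 3 -
          (625 * (1600 * 1601) ^ 2 - (177 / 2) * (p + 177 / 2) ^ 3)) ≤
        (1 + (177 / 2) / p) ^ 3 * 258 * ((5 * (Ka : ℝ)) * (5 * Ka - 1) ^ 3 / (5 * Ka - 6) ^ 4) / 320 := by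
      have m1 := mu_le (a := (Ka : ℝ)) (k := (K : ℝ)) (by linarith) a2
      set A := (1 + (177 / 2) / p) ^ 3 * 258 with hA
      have hA0 : 0 ≤ A := by positivity
      calc (5 * (K : ℝ)) / (320 * (5 * (K : ℝ) - 6) ^ 4) * (A * (5 * (K : ℝ) - 1) ^ 3 -
            (625 * (1600 * 1601) ^ 2 - (177 / 2) * (p + 177 / 2) ^ 3))
          ≤ (5 * (K : ℝ)) / (320 * (5 * (K : ℝ) - 6) ^ 4) * (A * (5 * (K : ℝ) - 1) ^ 3) := by
            apply mul_le_mul_of_nonneg_left _ (by positivity)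
            linarith
        _ = A * ((5 * (K : ℝ)) * (5 * K - 1) ^ 3 / (5 * K - 6) ^ 4) / 320 := by
            field_simp
        _ ≤ _ := by
            apply div_le_div_of_nonneg_right _ (by norm_num)
            exact mul_le_mul_of_nonneg_left m1 hA0
    have hM0r : 0 ≤ 1 / ((M0 : ℝ) + 1 / 2) ^ 2 := by positivity
    have h6 : (K : ℝ) / 3 * ∑ j ∈ Finset.Ico j0 i, cL j K ≤ t := by
      calc (K : ℝ) / 3 * ∑ j ∈ Finset.Ico j0 i, cL j K
          ≤ (K : ℝ) / 3 * (om K * ∑ j ∈ Finset.Ico 1585 (M0 + 1), TT ((j : ℝ) + 16) / 16 +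
              512 / 75 * (1 / ((J : ℝ) - 1 / 2) ^ 2)) := by
            apply mul_le_mul_of_nonneg_left _ (by positivity)
            linarith
        _ = (K / 3) * (om K * ∑ j ∈ Finset.Ico 1585 (M0 + 1), TT ((j : ℝ) + 16) / 16) +
            K / 3 * (512 / 75 * (1 / ((J : ℝ) - 1 / 2) ^ 2)) := by ring
        _ ≤ t := by linarith
    have e : ∑ j ∈ Finset.Ico j0 i, cL j K = ((K : ℝ) / 3 * ∑ j ∈ Finset.Ico j0 i, cL j K) * (3 / K) := by
      field_simp
    rw [e]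
    exact mul_le_mul_of_nonneg_right h6 (by positivity)
  · have h0 : ∑ j ∈ Finset.Ico j0 i, cL j K = 0 := by
      apply Finset.sum_eq_zero
      intro j hj
      rw [Finset.mem_Ico] at hj
      unfold cL
      rw [if_neg]
      intro hact
      exact hex ⟨j, hj.1, hact⟩
    rw [h0]
    exact mul_nonneg ht0 (div_nonneg (by norm_num) hK0.le)

/-- `∑ (…) ≤` the sum over a window of phases, main part over the window too -/
theorem sum_window2 (K i J M : ℕ) (hK : 2 ≤ K) (hJ : 1585 ≤ J)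
    (h : ∀ j, 1585 ≤ j → active j K → J ≤ j ∧ j ≤ M) :
    ∑ j ∈ Finset.Ico j0 i, cL j K ≤
      om K * ∑ j ∈ Finset.Ico J (M + 1), TT ((j : ℝ) + 16) / 16 + ∑ j ∈ Finset.Ico J (M + 1), 1 / Nj j := by
  classical
  have h0 : ∀ j : ℕ, 0 ≤ TT ((j : ℝ) + 16) / 16 := by
    intro j
    have := TT_nonneg' (x := (j : ℝ) + 16) (by positivity)
    positivity
  have h1 : ∀ j : ℕ, 0 ≤ 1 / Nj j := fun j => by have := Nj_pos j; positivity
  have hom := om_nonneg hK
  set S := (Finset.Ico j0 i).filter (fun j => active j K) with hS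
  have e1 : ∑ j ∈ Finset.Ico j0 i, cL j K = ∑ j ∈ S, (om K * TT ((j : ℝ) + 16) / 16 + 1 / Nj j) := by
    rw [hS, Finset.sum_filter]
    apply Finset.sum_congr rfl
    intro j _
    unfold cL
    rfl
  have hsub : S ⊆ Finset.Ico J (M + 1) := by
    intro j hj
    rw [hS, Finset.mem_filter, Finset.mem_Ico] at hj
    have hj1 : 1585 ≤ j := hj.1.1
    have := h j hj1 hj.2
    rw [Finset.mem_Ico]
    omega
  rw [e1, Finset.sum_add_distrib]
  apply add_le_add
  · have e2 : ∑ j ∈ S, om K * TT ((j : ℝ) + 16) / 16 = om K * ∑ j ∈ S, TT ((j : ℝ) + 16) / 16 := by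
      rw [Finset.mul_sum]
      apply Finset.sum_congr rfl
      intro j _
      ring
    rw [e2]
    apply mul_le_mul_of_nonneg_left _ hom
    exact Finset.sum_le_sum_of_subset_of_nonneg hsub (fun j _ _ => h0 j)
  · exact Finset.sum_le_sum_of_subset_of_nonneg hsub (fun j _ _ => h1 j)

theorem sum_TT2 (J M : ℕ) (hJ : 1585 ≤ J) (hM : J ≤ M + 1) : ∑ j ∈ Finset.Ico J (M + 1), TT ((j : ℝ) + 16) / 16 =
    75 / 65536 * (((M : ℝ) + 16) ^ 2 * (M + 17) ^ 2 - ((J : ℝ) + 15) ^ 2 * ((J : ℝ) + 16) ^ 2) := by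
  have h1 := sum_TT M (by omega)
  have h2 := sum_TT (J - 1) (by omega)
  rw [show J - 1 + 1 = J by omega, Nat.cast_sub (by omega)] at h2
  rw [← Finset.sum_Ico_consecutive _ hJ hM, h2] at h1
  push_cast at h1
  linarith

/-- the main part over the window -/
theorem main_part2 (K J M : ℕ) (p : ℝ) (hp : 0 < p) (hK : 2 ≤ K) (hJ : 1585 ≤ J) (hJM : J ≤ M)
    (hKM : (5 * (M : ℝ) - 6) ^ 4 ≤ 258 * (5 * (K : ℝ) - 1) ^ 3)
    (hKJ : 3 * (5 * (K : ℝ) - 6) ^ 3 < (5 * (J : ℝ)) ^ 4) :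
    (K / 3) * (om K * ∑ j ∈ Finset.Ico J (M + 1), TT ((j : ℝ) + 16) / 16) ≤
      (5 * (K : ℝ)) / (320 * (5 * (K : ℝ) - 6) ^ 4) *
        ((1 + (177 / 2) / p) ^ 3 * 258 * (5 * (K : ℝ) - 1) ^ 3 + (177 / 2) * (p + 177 / 2) ^ 3 -
          3 * (5 * (K : ℝ) - 6) ^ 3) := by
  have hK' : (2 : ℝ) ≤ K := by exact_mod_cast hK
  have hJ' : (1585 : ℝ) ≤ J := by exact_mod_cast hJ
  have hJM' : (J : ℝ) ≤ M := by exact_mod_cast hJM
  rw [sum_TT2 J M hJ (by omega)]
  have h1 := om_le5 hK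
  have hk : 0 < 5 * (K : ℝ) - 6 := by linarith
  have h2 : 0 ≤ 75 / 65536 * (((M : ℝ) + 16) ^ 2 * (M + 17) ^ 2 - ((J : ℝ) + 15) ^ 2 * ((J : ℝ) + 16) ^ 2) := by
    apply mul_nonneg (by norm_num)
    have : ((J : ℝ) + 15) * ((J : ℝ) + 16) ≤ ((M : ℝ) + 16) * (M + 17) :=
      mul_le_mul (by linarith) (by linarith) (by linarith) (by linarith)
    have h3 := pow_le_pow_left₀ (by positivity) this 2
    rw [mul_pow ((M : ℝ) + 16), mul_pow ((J : ℝ) + 15)] at h3
    linarith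
  have h3 : ((M : ℝ) + 16) ^ 2 * (M + 17) ^ 2 ≤ ((5 * (M : ℝ) - 6) + 177 / 2) ^ 4 / 625 := by
    have : ((M : ℝ) + 16) * (M + 17) ≤ (((5 * (M : ℝ) - 6) + 177 / 2) / 5) ^ 2 := by nlinarith
    have h4 := pow_le_pow_left₀ (by positivity) this 2
    calc ((M : ℝ) + 16) ^ 2 * (M + 17) ^ 2 = (((M : ℝ) + 16) * (M + 17)) ^ 2 := by ring
      _ ≤ _ := h4
      _ = _ := by ring
  have h3b : 3 * (5 * (K : ℝ) - 6) ^ 3 ≤ 625 * (((J : ℝ) + 15) ^ 2 * ((J : ℝ) + 16) ^ 2) := by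
    have : (J : ℝ) * J ≤ ((J : ℝ) + 15) * ((J : ℝ) + 16) :=
      mul_le_mul (by linarith) (by linarith) (by linarith) (by linarith)
    have h4 := pow_le_pow_left₀ (by positivity) this 2
    rw [mul_pow ((J : ℝ) + 15)] at h4
    calc 3 * (5 * (K : ℝ) - 6) ^ 3 ≤ (5 * (J : ℝ)) ^ 4 := hKJ.le
      _ = 625 * (((J : ℝ) * J) ^ 2) := by ring
      _ ≤ _ := by linarith
  have h4 := jensen4 (5 * (M : ℝ) - 6) (177 / 2) p (by linarith) (by norm_num) hp
  have h5 : (1 + 177 / 2 / p) ^ 3 * (5 * (M : ℝ) - 6) ^ 4 ≤ (1 + 177 / 2 / p) ^ 3 * (258 * (5 * (K : ℝ) - 1) ^ 3) :=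
    mul_le_mul_of_nonneg_left hKM (by positivity)
  calc (K : ℝ) / 3 * (om K * (75 / 65536 * (((M : ℝ) + 16) ^ 2 * (M + 17) ^ 2 - ((J : ℝ) + 15) ^ 2 * ((J : ℝ) + 16) ^ 2)))
      ≤ K / 3 * (25600 / (5 * (K : ℝ) - 6) ^ 4 * (75 / 65536 * (((M : ℝ) + 16) ^ 2 * (M + 17) ^ 2 - ((J : ℝ) + 15) ^ 2 * ((J : ℝ) + 16) ^ 2))) := by
        apply mul_le_mul_of_nonneg_left _ (by positivity)
        exact mul_le_mul_of_nonneg_right h1 h2
    _ = (5 * (K : ℝ)) / (320 * (5 * (K : ℝ) - 6) ^ 4) *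
        (625 * (((M : ℝ) + 16) ^ 2 * (M + 17) ^ 2) - 625 * (((J : ℝ) + 15) ^ 2 * ((J : ℝ) + 16) ^ 2)) := by
        field_simp
        ring
    _ ≤ _ := by
        apply mul_le_mul_of_nonneg_left _ (by positivity)
        linarith

/-- tail lemma, window on both sides -/
theorem load_high2 (K Ka i Ja : ℕ) (p t q : ℝ) (hp : 0 < p) (hKa0 : 12206 ≤ Ka) (hKa : Ka ≤ K) (hJa : 1 ≤ Ja)
    (ht0 : 0 ≤ t) (hq : 0 < q)
    (hq2 : q ^ 2 ≤ 3 * (5 * (Ka : ℝ) - 6) / 625) (hJa2 : (Ja : ℝ) ^ 2 ≤ q * (5 * (Ka : ℝ) - 6))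
    (ht : ((1 + (177 / 2) / p) ^ 3 * 258 * ((5 * (Ka : ℝ)) * (5 * Ka - 1) ^ 3 / (5 * Ka - 6) ^ 4) +
          (177 / 2) * (p + 177 / 2) ^ 3 * ((5 * (Ka : ℝ)) / (5 * Ka - 6) ^ 4) - 3) / 320 +
        (Ka : ℝ) / (5 * Ka - 6) * (512 / 225) / (q * (1 - 1 / (2 * (Ja : ℝ))) ^ 2) ≤ t) :
    ∑ j ∈ Finset.Ico j0 i, cL j K ≤ t * (3 / K) := by
  classical
  have a1 : (12206 : ℝ) ≤ Ka := by exact_mod_cast hKa0
  have a2 : (Ka : ℝ) ≤ K := by exact_mod_cast hKa
  have hK0 : 0 < (K : ℝ) := by linarith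
  have hKn : 12206 ≤ K := by omega
  by_cases hex : ∃ j, 1585 ≤ j ∧ active j K
  · have hge : ∀ j, 1585 ≤ j → active j K → 1600 ≤ j := by
      intro j hj hact
      by_contra hcon
      exact not_active (by omega) (by omega) hKn hact
    obtain ⟨N1, hN1⟩ := exists_nat_gt (258 * (5 * (K : ℝ) - 1) ^ 3)
    have hbd : ∀ j, 1585 ≤ j → active j K → j ≤ N1 := by
      intro j hj hact
      have h1 := active_le (by omega) (by omega) hact
      have h2 : (1585 : ℝ) ≤ j := by exact_mod_cast hj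
      have h3 : (j : ℝ) ≤ (5 * (j : ℝ) - 6) ^ 4 := by
        have h4 : (j : ℝ) ≤ 5 * (j : ℝ) - 6 := by linarith
        have h5 : (1 : ℝ) ≤ 5 * (j : ℝ) - 6 := by linarith
        calc (j : ℝ) ≤ 5 * (j : ℝ) - 6 := h4
          _ = (5 * (j : ℝ) - 6) ^ 1 := (pow_one _).symm
          _ ≤ (5 * (j : ℝ) - 6) ^ 4 := pow_le_pow_right₀ h5 (by norm_num)
      have h6 : (j : ℝ) < N1 := by linarith
      exact_mod_cast h6.le
    set M0 := Nat.findGreatest (fun j => 1585 ≤ j ∧ active j K) N1 with hM0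
    obtain ⟨j1, hj1, hj1'⟩ := hex
    have hP : 1585 ≤ M0 ∧ active M0 K :=
      Nat.findGreatest_spec (P := fun j => 1585 ≤ j ∧ active j K) (hbd j1 hj1 hj1') ⟨hj1, hj1'⟩
    have hle : ∀ j, 1585 ≤ j → active j K → j ≤ M0 := by
      intro j hj hact
      exact Nat.le_findGreatest (P := fun j => 1585 ≤ j ∧ active j K) (hbd j hj hact) ⟨hj, hact⟩
    have hexJ : ∃ j, 1585 ≤ j ∧ active j K := ⟨j1, hj1, hj1'⟩
    set J := Nat.find hexJ with hJdef
    have hJ := Nat.find_spec hexJ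
    rw [← hJdef] at hJ
    have hJmin : ∀ j, 1585 ≤ j → active j K → J ≤ j := fun j hj hact => Nat.find_min' hexJ ⟨hj, hact⟩
    have hJ16 : 1600 ≤ J := hge J hJ.1 hJ.2
    have hJM : J ≤ M0 := hle J hJ.1 hJ.2
    have hw := sum_window2 K i J M0 (by omega) hJ.1 (fun j hj hact => ⟨hJmin j hj hact, hle j hj hact⟩)
    have hact := active_ge hJ16 (by omega) hJ.2
    have hm := main_part2 K J M0 p hp (by omega) hJ.1 hJM (active_le (by omega) (by omega) hP.2) hact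
    have herr := err_high J M0 hJ16 (by omega)
    -- size of J
    have hJr : (1600 : ℝ) ≤ J := by exact_mod_cast hJ16
    have pk : 0 < 5 * (K : ℝ) - 6 := by linarith
    have pa : 0 < 5 * (Ka : ℝ) - 6 := by linarith
    have hJ4 : (q * (5 * (K : ℝ) - 6)) ^ 2 < ((J : ℝ) ^ 2) ^ 2 := by
      have h1 : q ^ 2 * (5 * (K : ℝ) - 6) ^ 2 ≤ 3 * (5 * (K : ℝ) - 6) / 625 * (5 * (K : ℝ) - 6) ^ 2 := by
        apply mul_le_mul_of_nonneg_right _ (by positivity)
        linarith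
      nlinarith
    have hJ2 : q * (5 * (K : ℝ) - 6) < (J : ℝ) ^ 2 := lt_of_pow_lt_pow_left₀ 2 (by positivity) hJ4
    have hJJ : (Ja : ℝ) < J := by
      have h1 : q * (5 * (Ka : ℝ) - 6) ≤ q * (5 * (K : ℝ) - 6) := mul_le_mul_of_nonneg_left (by linarith) hq.le
      exact lt_of_pow_lt_pow_left₀ 2 (by positivity) (by linarith)
    have hJa' : (1 : ℝ) ≤ Ja := by exact_mod_cast hJa
    have hc1 : 0 < 1 - 1 / (2 * (Ja : ℝ)) := by
      have : 1 / (2 * (Ja : ℝ)) ≤ 1 / 2 := one_div_le_one_div_of_le (by norm_num) (by linarith)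
      linarith
    have hc2 : (J : ℝ) * (1 - 1 / (2 * (Ja : ℝ))) ≤ (J : ℝ) - 1 / 2 := by
      have : (1 : ℝ) / 2 ≤ (J : ℝ) * (1 / (2 * (Ja : ℝ))) := by
        rw [mul_one_div, div_le_div_iff₀ (by norm_num) (by positivity)]
        linarith
      linarith
    have hc3 : q * (5 * (K : ℝ) - 6) * (1 - 1 / (2 * (Ja : ℝ))) ^ 2 ≤ ((J : ℝ) - 1 / 2) ^ 2 := by
      calc q * (5 * (K : ℝ) - 6) * (1 - 1 / (2 * (Ja : ℝ))) ^ 2 ≤ (J : ℝ) ^ 2 * (1 - 1 / (2 * (Ja : ℝ))) ^ 2 :=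
            mul_le_mul_of_nonneg_right hJ2.le (by positivity)
        _ = ((J : ℝ) * (1 - 1 / (2 * (Ja : ℝ)))) ^ 2 := by ring
        _ ≤ _ := pow_le_pow_left₀ (by positivity) hc2 2
    have hc4 : (K : ℝ) / 3 * (512 / 75 * (1 / ((J : ℝ) - 1 / 2) ^ 2)) ≤
        (Ka : ℝ) / (5 * Ka - 6) * (512 / 225) / (q * (1 - 1 / (2 * (Ja : ℝ))) ^ 2) := by
      have h1 : 1 / ((J : ℝ) - 1 / 2) ^ 2 ≤ 1 / (q * (5 * (K : ℝ) - 6) * (1 - 1 / (2 * (Ja : ℝ))) ^ 2) :=
        one_div_le_one_div_of_le (by positivity) hc3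
      have h2 : (K : ℝ) / (5 * K - 6) ≤ (Ka : ℝ) / (5 * Ka - 6) := by
        rw [div_le_div_iff₀ pk pa]; nlinarith
      calc (K : ℝ) / 3 * (512 / 75 * (1 / ((J : ℝ) - 1 / 2) ^ 2))
          ≤ (K : ℝ) / 3 * (512 / 75 * (1 / (q * (5 * (K : ℝ) - 6) * (1 - 1 / (2 * (Ja : ℝ))) ^ 2))) := by
            apply mul_le_mul_of_nonneg_left _ (by positivity)
            exact mul_le_mul_of_nonneg_left h1 (by norm_num)
        _ = (K : ℝ) / (5 * K - 6) * ((512 / 225) / (q * (1 - 1 / (2 * (Ja : ℝ))) ^ 2)) := by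
            field_simp
            ring
        _ ≤ (Ka : ℝ) / (5 * Ka - 6) * ((512 / 225) / (q * (1 - 1 / (2 * (Ja : ℝ))) ^ 2)) :=
            mul_le_mul_of_nonneg_right h2 (by positivity)
        _ = _ := by ring
    have hc5 : (5 * (K : ℝ)) / (320 * (5 * (K : ℝ) - 6) ^ 4) *
        ((1 + (177 / 2) / p) ^ 3 * 258 * (5 * (K : ℝ) - 1) ^ 3 + (177 / 2) * (p + 177 / 2) ^ 3 -
          3 * (5 * (K : ℝ) - 6) ^ 3) ≤
        ((1 + (177 / 2) / p) ^ 3 * 258 * ((5 * (Ka : ℝ)) * (5 * Ka - 1) ^ 3 / (5 * Ka - 6) ^ 4) +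
          (177 / 2) * (p + 177 / 2) ^ 3 * ((5 * (Ka : ℝ)) / (5 * Ka - 6) ^ 4) - 3) / 320 := by
      have m1 := mu_le (a := (Ka : ℝ)) (k := (K : ℝ)) (by linarith) a2
      have m2 : (5 * (K : ℝ)) / (5 * K - 6) ^ 4 ≤ (5 * (Ka : ℝ)) / (5 * Ka - 6) ^ 4 := by
        have e : ∀ x : ℝ, 0 < 5 * x - 6 → (5 * x) / (5 * x - 6) ^ 4 = (5 * x / (5 * x - 6)) * (1 / (5 * x - 6)) ^ 3 := by
          intro x hx
          rw [div_pow]
          field_simp
        rw [e _ pk, e _ pa]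
        have h1 : 5 * (K : ℝ) / (5 * K - 6) ≤ 5 * (Ka : ℝ) / (5 * Ka - 6) := by
          rw [div_le_div_iff₀ pk pa]; nlinarith
        have h2 : 1 / (5 * (K : ℝ) - 6) ≤ 1 / (5 * (Ka : ℝ) - 6) := one_div_le_one_div_of_le pa (by linarith)
        exact mul_le_mul h1 (pow_le_pow_left₀ (one_div_nonneg.2 pk.le) h2 3) (pow_nonneg (one_div_nonneg.2 pk.le) 3)
          (div_nonneg (by linarith) pa.le)
      have m3 : 1 ≤ 5 * (K : ℝ) / (5 * K - 6) := by
        rw [le_div_iff₀ pk]; linarith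
      set A := (1 + (177 / 2) / p) ^ 3 * 258 with hA
      set C := (177 / 2) * (p + 177 / 2) ^ 3 with hC
      have hA0 : 0 ≤ A := by positivity
      have hC0 : 0 ≤ C := by positivity
      calc (5 * (K : ℝ)) / (320 * (5 * (K : ℝ) - 6) ^ 4) * (A * (5 * (K : ℝ) - 1) ^ 3 + C - 3 * (5 * (K : ℝ) - 6) ^ 3)
          = (A * ((5 * (K : ℝ)) * (5 * K - 1) ^ 3 / (5 * K - 6) ^ 4) + C * ((5 * (K : ℝ)) / (5 * K - 6) ^ 4) -
              3 * (5 * (K : ℝ) / (5 * K - 6))) / 320 := by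
            field_simp
        _ ≤ _ := by
            apply div_le_div_of_nonneg_right _ (by norm_num)
            have c1 := mul_le_mul_of_nonneg_left m1 hA0
            have c2 := mul_le_mul_of_nonneg_left m2 hC0
            linarith
    have hM0r : 0 ≤ 1 / ((M0 : ℝ) + 1 / 2) ^ 2 := by positivity
    have h6 : (K : ℝ) / 3 * ∑ j ∈ Finset.Ico j0 i, cL j K ≤ t := by
      calc (K : ℝ) / 3 * ∑ j ∈ Finset.Ico j0 i, cL j K
          ≤ (K : ℝ) / 3 * (om K * ∑ j ∈ Finset.Ico J (M0 + 1), TT ((j : ℝ) + 16) / 16 +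
              512 / 75 * (1 / ((J : ℝ) - 1 / 2) ^ 2)) := by
            apply mul_le_mul_of_nonneg_left _ (by positivity)
            linarith
        _ = (K / 3) * (om K * ∑ j ∈ Finset.Ico J (M0 + 1), TT ((j : ℝ) + 16) / 16) +
            K / 3 * (512 / 75 * (1 / ((J : ℝ) - 1 / 2) ^ 2)) := by ring
        _ ≤ t := by linarith
    have e : ∑ j ∈ Finset.Ico j0 i, cL j K = ((K : ℝ) / 3 * ∑ j ∈ Finset.Ico j0 i, cL j K) * (3 / K) := by
      field_simp
    rw [e]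
    exact mul_le_mul_of_nonneg_right h6 (by positivity)
  · have h0 : ∑ j ∈ Finset.Ico j0 i, cL j K = 0 := by
      apply Finset.sum_eq_zero
      intro j hj
      rw [Finset.mem_Ico] at hj
      unfold cL
      rw [if_neg]
      intro hact
      exact hex ⟨j, hj.1, hact⟩
    rw [h0]
    exact mul_nonneg ht0 (div_nonneg (by norm_num) hK0.le)

/-- (N5), (N6): the load of a class -/
theorem sum_cL_le (K i : ℕ) (hK : i0 ≤ K) :
    ∑ j ∈ Finset.Ico j0 i, cL j K ≤ (9 / 10 - betaK K) * (3 / K) := by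
  unfold i0 at hK
  unfold betaK
  by_cases h4970 : K < 4970
  · rw [if_pos h4970]
    by_cases h4960 : K < 4960
    · have h0 : ∑ j ∈ Finset.Ico j0 i, cL j K = 0 := by
        apply Finset.sum_eq_zero
        intro j hj
        rw [Finset.mem_Ico] at hj
        have hj1 : 1585 ≤ j := hj.1
        unfold cL
        rw [if_neg]
        intro hact
        have h1 := active_le (by omega) (by omega) hact
        have h2 : (1585 : ℝ) ≤ j := by exact_mod_cast hj1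
        have h3 : (K : ℝ) ≤ 4959 := by exact_mod_cast (show K ≤ 4959 by omega)
        have h5 : (0 : ℝ) ≤ 5 * (K : ℝ) - 1 := by
          have : (1600 : ℝ) ≤ K := by exact_mod_cast hK
          linarith
        have h4 : (5 * (K : ℝ) - 1) ^ 3 ≤ (5 * 4959 - 1) ^ 3 := pow_le_pow_left₀ h5 (by linarith) 3
        have h6 : (5 * (1585 : ℝ) - 6) ^ 4 ≤ (5 * (j : ℝ) - 6) ^ 4 := pow_le_pow_left₀ (by norm_num) (by linarith) 4
        norm_num at h4 h6
        linarith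
      rw [h0]
      positivity
    · exact load_low K 4960 4969 1599 i 7930 (9 / 10 - 864 / 1000) (by norm_num) (by norm_num) (by omega) (by omega) (by norm_num)
          (by norm_num) (by norm_num) (by norm_num) (by norm_num)
  rw [if_neg h4970]
  by_cases h5138 : K < 5138
  · rw [if_pos h5138]
    exact load_low K 4970 5137 1627 i 8131 (9 / 10 - 794 / 1000) (by norm_num) (by norm_num) (by omega) (by omega) (by norm_num)
          (by norm_num) (by norm_num) (by norm_num) (by norm_num)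
  rw [if_neg h5138]
  by_cases h5312 : K < 5312
  · rw [if_pos h5312]
    exact load_low K 5138 5311 1668 i 8336 (9 / 10 - 724 / 1000) (by norm_num) (by norm_num) (by omega) (by omega) (by norm_num)
          (by norm_num) (by norm_num) (by norm_num) (by norm_num)
  rw [if_neg h5312]
  by_cases h5492 : K < 5492
  · rw [if_pos h5492]
    exact load_low K 5312 5491 1710 i 8547 (9 / 10 - 659 / 1000) (by norm_num) (by norm_num) (by omega) (by omega) (by norm_num)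
          (by norm_num) (by norm_num) (by norm_num) (by norm_num)
  rw [if_neg h5492]
  by_cases h5678 : K < 5678
  · rw [if_pos h5678]
    exact load_low K 5492 5677 1754 i 8764 (9 / 10 - 599 / 1000) (by norm_num) (by norm_num) (by omega) (by omega) (by norm_num)
          (by norm_num) (by norm_num) (by norm_num) (by norm_num)
  rw [if_neg h5678]
  by_cases h5871 : K < 5871
  · rw [if_pos h5871]
    exact load_low K 5678 5870 1798 i 8986 (9 / 10 - 544 / 1000) (by norm_num) (by norm_num) (by omega) (by omega) (by norm_num)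
          (by norm_num) (by norm_num) (by norm_num) (by norm_num)
  rw [if_neg h5871]
  by_cases h6070 : K < 6070
  · rw [if_pos h6070]
    exact load_low K 5871 6069 1844 i 9214 (9 / 10 - 499 / 1000) (by norm_num) (by norm_num) (by omega) (by omega) (by norm_num)
          (by norm_num) (by norm_num) (by norm_num) (by norm_num)
  rw [if_neg h6070]
  by_cases h6488 : K < 6488
  · rw [if_pos h6488]
    exact load_low K 6070 6487 1938 i 9686 (9 / 10 - 414 / 1000) (by norm_num) (by norm_num) (by omega) (by omega) (by norm_num)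
          (by norm_num) (by norm_num) (by norm_num) (by norm_num)
  rw [if_neg h6488]
  by_cases h6936 : K < 6936
  · rw [if_pos h6936]
    exact load_low K 6488 6935 2037 i 10183 (9 / 10 - 349 / 1000) (by norm_num) (by norm_num) (by omega) (by omega) (by norm_num)
          (by norm_num) (by norm_num) (by norm_num) (by norm_num)
  rw [if_neg h6936]
  by_cases h7414 : K < 7414
  · rw [if_pos h7414]
    exact load_low K 6936 7413 2142 i 10705 (9 / 10 - 294 / 1000) (by norm_num) (by norm_num) (by omega) (by omega) (by norm_num)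
          (by norm_num) (by norm_num) (by norm_num) (by norm_num)
  rw [if_neg h7414]
  by_cases h7925 : K < 7925
  · rw [if_pos h7925]
    exact load_low K 7414 7924 2252 i 11254 (9 / 10 - 249 / 1000) (by norm_num) (by norm_num) (by omega) (by omega) (by norm_num)
          (by norm_num) (by norm_num) (by norm_num) (by norm_num)
  rw [if_neg h7925]
  by_cases h8471 : K < 8471
  · rw [if_pos h8471]
    exact load_low K 7925 8470 2367 i 11831 (9 / 10 - 214 / 1000) (by norm_num) (by norm_num) (by omega) (by omega) (by norm_num)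
          (by norm_num) (by norm_num) (by norm_num) (by norm_num)
  rw [if_neg h8471]
  by_cases h9362 : K < 9362
  · rw [if_pos h9362]
    exact load_low K 8471 9361 2551 i 12753 (9 / 10 - 169 / 1000) (by norm_num) (by norm_num) (by omega) (by omega) (by norm_num)
          (by norm_num) (by norm_num) (by norm_num) (by norm_num)
  rw [if_neg h9362]
  by_cases h10347 : K < 10347
  · rw [if_pos h10347]
    exact load_low K 9362 10346 2750 i 13746 (9 / 10 - 139 / 1000) (by norm_num) (by norm_num) (by omega) (by omega) (by norm_num)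
          (by norm_num) (by norm_num) (by norm_num) (by norm_num)
  rw [if_neg h10347]
  by_cases h11822 : K < 11822
  · rw [if_pos h11822]
    exact load_low K 10347 11821 3039 i 15192 (9 / 10 - 109 / 1000) (by norm_num) (by norm_num) (by omega) (by omega) (by norm_num)
          (by norm_num) (by norm_num) (by norm_num) (by norm_num)
  rw [if_neg h11822]
  by_cases h13967 : K < 13967
  · rw [if_pos h13967]
    exact load_low K 11822 13966 3444 i 17215 (9 / 10 - 84 / 1000) (by norm_num) (by norm_num) (by omega) (by omega) (by norm_num)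
          (by norm_num) (by norm_num) (by norm_num) (by norm_num)
  rw [if_neg h13967]
  by_cases h60000 : K < 60000
  · rw [if_pos h60000]
    by_cases h24000 : K < 24000
    · by_cases h20000 : K < 20000
      · exact load_low K 13967 19999 4508 i 22538 (9 / 10 - 7 / 100) (by norm_num) (by norm_num) (by omega) (by omega) (by norm_num)
          (by norm_num) (by norm_num) (by norm_num) (by norm_num)
      · exact load_low K 20000 23999 5169 i 25843 (9 / 10 - 7 / 100) (by norm_num) (by norm_num) (by omega) (by omega) (by norm_num)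
          (by norm_num) (by norm_num) (by norm_num) (by norm_num)
    · exact load_high2 K 24000 i 1696 25843 (9 / 10 - 7 / 100) (2399 / 100) (by norm_num) (by norm_num) (by omega) (by norm_num)
          (by norm_num) (by norm_num) (by norm_num) (by norm_num) (by norm_num)
  · rw [if_neg h60000]
    exact load_high2 K 60000 i 3373 51378 (9 / 10 - 85 / 1000) (3794 / 100) (by norm_num) (by norm_num) (by omega) (by norm_num)
          (by norm_num) (by norm_num) (by norm_num) (by norm_num) (by norm_num)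

end Pool.Agent.MM2.Num

namespace Pool.Agent.MM2

/-- (N5), (N6): the load of a class: `betaK K + m K ≤ .9` -/
theorem sum_cL_le (K i : ℕ) (hK : i0 ≤ K) :
    ∑ j ∈ Finset.Ico j0 i, cL j K ≤ (9 / 10 - betaK K) * (3 / K) := Num.sum_cL_le K i hK

end Pool.Agent.MM2
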