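import Pool.Agent.MP_94f265_co.MM2.TStepO

/-!
# Preservation of the fields `sinv`, `obj`, `epc`, `pend`, `gap` of `Inv`
-/

namespace Pool.Agent.MM2

open Pool.Agent.MM1

theorem Tmax_le {i : ℕ} (hi : 1585 ≤ i) : Th (max i i0 - 1) ≤ Th (i - 1) :=
  Th_anti (by omega) (by omega)

theorem Tmax_succ (i : ℕ) (hi : 1585 ≤ i) :
    min (Th (max i i0 - 1)) (Th i) = Th (max (i + 1) i0 - 1) := by
  unfold i0
  rcases le_or_gt 1600 i with h | h
  · have e1 : max i 1600 - 1 = i - 1 := by omega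
    have e2 : max (i + 1) 1600 - 1 = i := by omega
    rw [e1, e2]
    exact min_eq_right (Th_anti (by omega) (by omega))
  · have e1 : max i 1600 - 1 = 1599 := by omega
    have e2 : max (i + 1) 1600 - 1 = 1599 := by omega
    rw [e1, e2]
    exact min_eq_left (Th_anti (by omega) (by omega))

theorem gmax_lt_Tmax {i : ℕ} (hi : 1585 ≤ i) : gmax i < Th (max i i0 - 1) := by
  have h1 : (1585 : ℝ) ≤ i := by exact_mod_cast hi
  have h2 := gmax_TT hi
  have hT : 0 < TT ((i : ℝ) + 16) := TT_pos (by linarith)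
  have h3 : gmax i ≤ (33 / 1000) / TT ((i : ℝ) + 16) := by
    rw [le_div_iff₀ hT]
    exact h2
  refine lt_of_le_of_lt h3 ?_
  rw [Th_eq]
  have h6 : ((max i i0 - 1 : ℕ) : ℝ) ≤ (i : ℝ) + 14 := by
    have : max i i0 - 1 ≤ i + 14 := by unfold i0; omega
    exact_mod_cast this
  have h7 : (1599 : ℝ) ≤ ((max i i0 - 1 : ℕ) : ℝ) := by
    have : 1599 ≤ max i i0 - 1 := by unfold i0; omega
    exact_mod_cast this
  have h4 : 0 < TT (((max i i0 - 1 : ℕ) : ℝ) - 1 / 5) := TT_pos (by linarith)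
  rw [div_lt_div_iff₀ hT h4]
  have h5 : TT (((max i i0 - 1 : ℕ) : ℝ) - 1 / 5) ≤ TT ((i : ℝ) + 16) :=
    TT_mono (by linarith) (by linarith)
  nlinarith

theorem gmin_ge_sq {i : ℕ} (hi : 1585 ≤ i) : 320 / (Nj i) ^ 2 ≤ gmin i := by
  unfold gmin
  have h1 : (1585 : ℝ) ≤ i := by exact_mod_cast hi
  have hN := Nj_pos i
  have hNN := NN_le_Nj i
  rw [Th_eq]
  have h6 : 0 < TT ((i : ℝ) - 1 / 5) := TT_pos (by linarith)
  have h7 : 320 ≤ Nj i - TT ((i : ℝ) - 1 / 5) := by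
    have h8 : TT (i : ℝ) ≤ Nj i := TT_le_Nj i
    have h9 : 320 ≤ TT (i : ℝ) - TT ((i : ℝ) - 1 / 5) := by
      unfold TT
      nlinarith
    linarith
  have h8 : 1 / TT ((i : ℝ) - 1 / 5) - 1 / Nj i =
      (Nj i - TT ((i : ℝ) - 1 / 5)) / (TT ((i : ℝ) - 1 / 5) * Nj i) := by
    rw [div_sub_div _ _ h6.ne' hN.ne']
    ring
  rw [h8, div_le_div_iff₀ (by positivity) (by positivity)]
  have h10 : TT ((i : ℝ) - 1 / 5) ≤ Nj i := by linarith
  have h11 : TT ((i : ℝ) - 1 / 5) * Nj i ≤ Nj i ^ 2 := by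
    rw [sq]
    exact mul_le_mul_of_nonneg_right h10 hN.le
  have h12 : 0 ≤ Nj i ^ 2 := by positivity
  nlinarith

theorem xu_sq_le {i n : ℕ} (hi : 1585 ≤ i) (hn : n ∈ PP i) : xu n ^ 2 ≤ gmin i := by
  refine le_trans ?_ (gmin_ge_sq hi)
  obtain ⟨h1, h2⟩ := xu_le hn
  have h3 := Nj_pos i
  calc xu n ^ 2 ≤ (1 / Nj i) ^ 2 := pow_le_pow_left₀ h1.le h2 2
    _ = 1 / (Nj i) ^ 2 := by rw [div_pow, one_pow]
    _ ≤ 320 / (Nj i) ^ 2 := by
        apply div_le_div_of_nonneg_right (by norm_num) (by positivity)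

section

variable {i : ℕ} {s : TState} {d : PhaseData} {θ : ℝ}

theorem Inv.sinvT (hI : Inv θ i s) : SInvT (Th (max i i0 - 1)) i s := hI.sinv.toSInvT' hI.obj hI.epc

/-- **Fields `sinv`, `obj`, `epc` of the next state.** -/
theorem PhaseOK.next_fields (h : PhaseOK i s d) (hI : Inv θ i s) (hi : 1585 ≤ i)
    (F : Multiset (ℝ × ℝ)) (hF : ∀ p ∈ F, EInv (Th (max (i + 1) i0 - 1)) p)
    (hX : 0 < s.X - del i - yM i)
    (hbox : Th i * ((∑ n ∈ PP i, yu n) / (s.X - del i - yM i) + 1) ≤ s.X / 4) :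
    SInv (i + 1) (nextState i s d F) ∧
      (∀ o ∈ (nextState i s d F).QR + (nextState i s d F).QE, OInv (Th (max (i + 1) i0 - 1)) o) ∧
      (∀ p ∈ (nextState i s d F).E, EInv (Th (max (i + 1) i0 - 1)) p) := by
  have h1 := h.next_inv (Tmax_le hi) (gmax_lt_Tmax hi) hI.sinvT hi F
    (by rw [Tmax_succ i hi]; exact hF) hX hbox
  rw [Tmax_succ i hi] at h1
  refine ⟨h1.toSInv (Th_anti (by omega) (by omega)), fun o ho => ?_, h1.hE⟩
  rcases Multiset.mem_add.1 ho with ho | ho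
  · exact h1.hR o ho
  · exact h1.hQ o ho

/-- **Field `pend` of the next state.** -/
theorem PhaseOK.next_pend (h : PhaseOK i s d) (hI : Inv θ i s) (F : Multiset (ℝ × ℝ))
    (hA : s.X * s.Y ≤ 1 / Nj i) :
    ∀ p ∈ (nextState i s d F).P, p.2 ^ 2 ≤ 1 / Nj (i + 1 - 1) := by
  intro p hp
  simp only [nextState, Multiset.mem_singleton] at hp
  subst hp
  have e : i + 1 - 1 = i := by omega
  rw [e]
  refine le_trans ?_ hA
  have h1 := h.hℓ
  have h2 := hI.sinv.hXY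
  have h3 := hI.sinv.hX
  have h4 := del_pos i
  simp only
  nlinarith

/-- **Field `gap` of the next state.** -/
theorem PhaseOK.next_gap (h : PhaseOK i s d) (hI : Inv θ i s) (hi : 1585 ≤ i)
    (F : Multiset (ℝ × ℝ)) :
    ∀ o ∈ (nextState i s d F).QR + (nextState i s d F).QE, ∀ p ∈ o.run, 0 < p.1 →
      θ ≤ o.t - p.1 ∨ p.1 ^ 2 ≤ o.t - p.1 := by
  have hpre : ∀ Q : Multiset Obj, (∀ o ∈ Q, o ∈ s.QR + s.QE) → ∀ o ∈ preQ (Th i) Q, ∀ p ∈ o.run,
      0 < p.1 → θ ≤ o.t - p.1 ∨ p.1 ^ 2 ≤ o.t - p.1 := by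
    intro Q hQ o ho p hp hp0
    obtain ⟨h1, o', ho', h2, h3⟩ := (split_spec (Th i) Q (fun o ho => (hI.obj o (hQ o ho)).ok)).1 o ho
    rw [h2]
    exact hI.gap o' (hQ o' ho') p (h3 p hp).1 hp0
  have hnew : ∀ o, (o ∈ d.newR ∨ o ∈ d.newE ∨ o ∈ d.rowO i) → ∀ p ∈ o.run,
      0 < p.1 → θ ≤ o.t - p.1 ∨ p.1 ^ 2 ≤ o.t - p.1 := by
    intro o ho p hp _
    right
    obtain ⟨w, a, hane, hn, hdec, rfl⟩ := h.mem_new ho
    obtain ⟨n, hn', rfl⟩ := List.mem_map.1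
      (show p ∈ a.reverse.map (fun n => (xu n, yu n)) from hp)
    have hna : n ∈ a := by simpa using hn'
    have h1 := (h.range n (hn n hna).1).1
    rw [(hn n hna).2] at h1
    simp only [mkObj]
    exact (xu_sq_le hi (hn n hna).1).trans (gap_ge (hn n hna).1 h1)
  intro o ho p hp hp0
  simp only [nextState, Multiset.mem_add] at ho
  rcases ho with (((ho | ho) | ho) | ho) | (ho | ho)
  · exact hpre s.QR (fun o ho => Multiset.mem_add.2 (Or.inl ho)) o ho p hp hp0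
  · exact hnew o (Or.inl ho) p hp hp0
  · obtain ⟨q, hq, rfl⟩ := Multiset.mem_map.1 ho
    have : p = (0, q.2) := by simpa [plainObj] using hp
    subst this
    exact absurd hp0 (lt_irrefl _)
  · exact hnew o (Or.inr (Or.inr ho)) p hp hp0
  · exact hpre s.QE (fun o ho => Multiset.mem_add.2 (Or.inr ho)) o ho p hp hp0
  · exact hnew o (Or.inr (Or.inl ho)) p hp hp0

/-- **One phase**, from the invariant. -/
theorem PhaseOK.tstep' (h : PhaseOK i s d) (hI : Inv θ i s) (hi : 1585 ≤ i)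
    (F : Multiset (ℝ × ℝ)) (hF : Cut (d.ends i) F) : TStep i s (nextState i s d F) d.em :=
  h.tstep (Tmax_le hi) hI.sinvT (by omega) F hF

/-- **Existence of the phase `i`**, from the invariant. -/
theorem Inv.exists_phase (hI : Inv θ i s) (hi : 1585 ≤ i)
    (hcap : (s.P.map Prod.snd).sum + lenK i (cellsOf s.QR) + lenK i (cellsOf s.QE) + lenK i s.E <
      ∑ n ∈ PP i, yu n)
    (hX : 0 < s.X - del i - yM i)
    (hbox : Th i * ((∑ n ∈ PP i, yu n) / (s.X - del i - yM i) + 1) ≤ s.X / 4) :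
    ∃ d : PhaseData, PhaseOK i s d :=
  Pool.Agent.MM2.exists_phase i hi s (Tmax_le hi) hI.sinvT hcap hX hbox

end

end Pool.Agent.MM2
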