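import Pool.Agent.MP_94f265_co.MM2.Limit
import Pool.Agent.MP_94f265_co.MM2.TStepI
import Pool.Agent.MP_94f265_co.MM2.Load
import Pool.Agent.MP_94f265_co.MM2.NumLoad

/-!
# An infinite run of the tail gives the full packing
-/

namespace Pool.Agent.MM2

open Pool.Agent.MM1

/-- members of the owed pieces -/
theorem mem_owedR {Q : Multiset Obj} {p : ℝ × ℝ} (h : p ∈ owedR Q) :
    ∃ o ∈ Q, p ∈ o.run ∧ p.1 ≠ 0 := by
  classical
  unfold owedR at h
  rw [Multiset.mem_filter] at h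
  obtain ⟨h1, h2⟩ := h
  have h3 : p ∈ Q.bind (fun o => Multiset.ofList o.run) := h1
  obtain ⟨o, ho, hp⟩ := Multiset.mem_bind.1 h3
  exact ⟨o, ho, by simpa using hp, h2⟩

theorem mem_cellsOf_of_mem {Q : Multiset Obj} {o : Obj} {p : ℝ × ℝ} (ho : o ∈ Q) (hp : p ∈ o.run) :
    (o.t - p.1, p.2) ∈ cellsOf Q := by
  have h3 : (o.t - p.1, p.2) ∈ Q.bind (fun o => Multiset.ofList o.cells) := by
    rw [Multiset.mem_bind]
    refine ⟨o, ho, ?_⟩
    rw [Multiset.mem_coe]
    exact List.mem_map_of_mem (f := fun p : ℝ × ℝ => (o.t - p.1, p.2)) hp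
  exact h3

/-- one member is not longer than its class -/
theorem le_lenK {K : ℕ} {S : Multiset (ℝ × ℝ)} {c : ℝ × ℝ} (hc : c ∈ S) (hS : ∀ p ∈ S, 0 ≤ p.2)
    (h1 : Th K ≤ c.1) (h2 : c.1 < Th (K - 1)) : c.2 ≤ lenK K S := by
  classical
  have h3 : ({c} : Multiset (ℝ × ℝ)) ≤ S := Multiset.singleton_le.2 hc
  have h4 := lenK_le_of_le K h3 hS
  rw [lenK_single, if_pos ⟨h1, h2⟩] at h4
  exact h4

/-- owed pieces are short -/
theorem Inv.owed_le_one {θ : ℝ} {i : ℕ} {s : TState} (h : Inv θ i s) :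
    ∀ o ∈ s.QR + s.QE, ∀ p ∈ o.run, p.2 ≤ 1 := by
  intro o ho p hp
  have hO := h.obj o ho
  have hpos := hO.pos p hp
  have hlt := hO.lt p hp
  have hmax : i0 ≤ max i i0 := le_max_right _ _
  have h26 : o.t - p.1 < 26 := by
    have h1 : Th (max i i0 - 1) ≤ Th 2 := Th_anti (by omega) (by unfold i0 at *; omega)
    have h2 : Th 2 < 26 := by unfold Th; norm_num
    linarith
  obtain ⟨K, hK⟩ : ∃ K, K = kc (o.t - p.1) := ⟨_, rfl⟩
  have hK2 : 2 ≤ K := by rw [hK]; exact two_le_kc hpos h26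
  have hT1 : Th K ≤ o.t - p.1 := by rw [hK]; exact (kc_spec hpos).2
  have hT2 : o.t - p.1 < Th (K - 1) := by rw [hK]; exact lt_Th_kc (by rw [← hK]; exact hK2)
  have hKm : max i i0 ≤ K := by
    by_contra hcon
    have h1 : K ≤ max i i0 - 1 := by omega
    have h2 := Th_anti (K := K) (L := max i i0 - 1) (by omega) h1
    linarith
  have hKi : i0 ≤ K := hmax.trans hKm
  have hsnd := cellsOf_snd_nonneg (T := Th (max i i0 - 1)) (Q := s.QR + s.QE) h.obj
  have hsndp := potOf_snd_nonneg (T := Th (max i i0 - 1)) (Q := s.QR + s.QE) h.obj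
  have h1 := le_lenK (mem_cellsOf_of_mem ho hp) hsnd hT1 hT2
  have h2 := h.load K hKm
  have h3 := lenK_nonneg K hsndp
  have h4 := Num.sum_cL_le K i hKi
  have h5 : ∑ j ∈ Finset.Ico j0 i, cP j K ≤ 37 / 2000 * (3 / K) :=
    sum_cP_fin hK2 _ (fun j hj => by
      have := (Finset.mem_Ico.1 hj).1
      unfold j0 at this
      exact this)
  rw [Finset.sum_add_distrib] at h2
  have hKR : (1600 : ℝ) ≤ K := by
    have : (i0 : ℝ) ≤ K := by exact_mod_cast hKi
    simpa [i0] using this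
  have h6 : 3 / (K : ℝ) ≤ 1 / 500 := by
    rw [div_le_div_iff₀ (by linarith) (by norm_num)]
    linarith
  have h7 : 0 ≤ 3 / (K : ℝ) := by positivity
  simp only at h1
  nlinarith

/-- **An infinite run gives the full packing.** -/
theorem full_of_run {θ : ℝ} (hθ : 0 < θ) {Q : Multiset Obj} {X Y : ℝ} (hS : StartOK Q X Y)
    (s : ℕ → TState) (e : ℕ → Multiset (ℝ × ℝ)) (h0 : s 0 = ⟨Q, 0, 0, 0, X, Y⟩)
    (hI : ∀ k, Inv θ (j0 + k) (s k)) (hT : ∀ k, TStep (j0 + k) (s k) (s (k + 1)) (e k)) :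
    FullPacking := by
  classical
  obtain ⟨P0, LS, g1, g2, g3⟩ := hS.geo
  have huS : ∀ n : ℕ, n ∈ Finset.Ico 1 NN ∨ (∃ k, n ∈ PP (j0 + k)) ↔ 1 ≤ n := by
    intro n
    constructor
    · rintro (h | ⟨k, hk⟩)
      · exact (Finset.mem_Ico.1 h).1
      · have := (mem_PP.1 hk).1
        unfold NN at this
        omega
    · intro h
      rcases Nat.lt_or_ge n NN with h1 | h1
      · exact Or.inl (Finset.mem_Ico.2 ⟨h, h1⟩)
      · obtain ⟨i, hi, hn⟩ := exists_PP h1
        refine Or.inr ⟨i - j0, ?_⟩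
        have : j0 + (i - j0) = i := by omega
        rw [this]
        exact hn
  have hvan : ∀ n, (n ∈ Finset.Ico 1 NN ∨ ∃ k, n ∈ PP (j0 + k)) → ∃ K, ∀ k, K ≤ k →
      ∀ p ∈ owedR ((s k).QR + (s k).QE), p.1 * p.2 < (xu n, yu n).1 * (xu n, yu n).2 := by
    intro n hn
    have hn1 := (huS n).1 hn
    have hnR : (1 : ℝ) ≤ n := by exact_mod_cast hn1
    have ha : 0 < xu n * yu n := by
      unfold xu yu
      positivity
    obtain ⟨t, ht⟩ : ∃ t, t = min θ ((xu n * yu n) ^ 2) := ⟨_, rfl⟩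
    have ht0 : 0 < t := by rw [ht]; exact lt_min hθ (by positivity)
    obtain ⟨K, hK1, hK2⟩ := exists_Th_le ht0
    refine ⟨K + 1, fun k hk p hp => ?_⟩
    obtain ⟨o, ho, hpo, hp0⟩ := mem_owedR hp
    have hI1 := hI k
    have hO := hI1.obj o ho
    have hpn : 0 < p.1 := lt_of_le_of_ne (hO.ok.hh p hpo).1 (Ne.symm hp0)
    have hlt := hO.lt p hpo
    have hle : Th (max (j0 + k) i0 - 1) ≤ Th K := Th_anti hK1 (by
      have : j0 + k ≤ max (j0 + k) i0 := le_max_left _ _
      omega)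
    have hlt2 : o.t - p.1 < t := by linarith
    have h2 : p.1 ^ 2 ≤ o.t - p.1 := by
      rcases hI1.gap o ho p hpo hpn with h | h
      · have : t ≤ θ := by rw [ht]; exact min_le_left _ _
        linarith
      · exact h
    have h3 : p.1 ^ 2 < (xu n * yu n) ^ 2 := by
      have : t ≤ (xu n * yu n) ^ 2 := by rw [ht]; exact min_le_right _ _
      linarith
    have h4 : p.1 < xu n * yu n := lt_of_pow_lt_pow_left₀ 2 ha.le h3
    have h5 := hI1.owed_le_one o ho p hpo
    have h6 : p.1 * p.2 ≤ p.1 * 1 := mul_le_mul_of_nonneg_left h5 hpn.le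
    simp only
    linarith
  obtain ⟨R, hR1, hR2⟩ := limit_packing (fun n => (xu n, yu n))
    (fun n => mul_nonneg (xu_nonneg n) (yu_nonneg n)) 1 1
    (fun k => (s k).free) (fun k => owedR ((s k).QR + (s k).QE)) e (fun k => PP (j0 + k))
    (Finset.Ico 1 NN) P0 LS
    (by
      have h1 : (s 0).free = rects Q + {(X, Y)} := by
        rw [h0]
        simp [TState.free, rects_zero]
      rw [h1, ← add_assoc]
      exact g1)
    (fun k => (hT k).1) (fun k => (hT k).2)
    (by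
      have h1 : owedR ((s 0).QR + (s 0).QE) = owedR Q := by
        rw [h0]
        simp
      rw [h1]
      exact g2)
    g3
    (by
      intro k
      rw [Finset.disjoint_left]
      intro n hn hn'
      have h1 := (Finset.mem_Ico.1 hn).2
      have h2 := (mem_PP.1 hn').1
      omega)
    (by
      intro i j hij
      rw [Finset.disjoint_left]
      intro n hn hn'
      have := PP_unique hn hn'
      omega)
    hvan
  refine ⟨R, fun n hn => ?_, fun n m hn hm hnm => ?_⟩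
  · exact hR1 n ((huS n).2 hn)
  · exact hR2 n m ((huS n).2 hn) ((huS m).2 hm) hnm

/-- LM7. All units are emitted and the packing exists. -/
theorem limit (Q : Multiset Obj) (X Y θ : ℝ) (hS : StartOK Q X Y) (hθ : 0 < θ) (s : ℕ → TState)
    (e : ℕ → Multiset (ℝ × ℝ)) (h0 : s j0 = ⟨Q, 0, 0, 0, X, Y⟩)
    (hs : ∀ i, j0 ≤ i → TStep i (s i) (s (i + 1)) (e i)) (hi : ∀ i, j0 ≤ i → Inv θ i (s i)) :
    FullPacking :=
  full_of_run hθ hS (fun k => s (j0 + k)) (fun k => e (j0 + k)) h0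
    (fun k => hi (j0 + k) (by omega)) (fun k => hs (j0 + k) (by omega))

end Pool.Agent.MM2
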