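import Pool.Agent.MP_94f265_co.MM2.Par

/-!
# Numbers of the tail (block NUM): elementary bounds and the load of a class
-/

namespace Pool.Agent.MM2.Num

theorem Th_pred {K : ℕ} (hK : 1 ≤ K) : Th (K - 1) = 5120 / (3 * (5 * (K : ℝ) - 6) ^ 3) := by
  unfold Th
  rw [Nat.cast_sub hK]
  have e : 5 * ((K : ℝ) - (1 : ℕ)) - 1 = 5 * K - 6 := by push_cast; ring
  rw [e]

/-- `1/a^3 - 1/(a+d)^3 ≤ 3d/a^4` -/
theorem inv_cube_sub_le {a d : ℝ} (ha : 0 < a) (hd : 0 ≤ d) : 1 / a ^ 3 - 1 / (a + d) ^ 3 ≤ 3 * d / a ^ 4 := by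
  have hb : 0 < a + d := by linarith
  rw [div_sub_div _ _ (by positivity) (by positivity), div_le_div_iff₀ (by positivity) (by positivity)]
  have key : (1 * (a + d) ^ 3 - a ^ 3 * 1) * a ≤ 3 * d * (a + d) ^ 3 := by
    have : 3 * d * (a + d) ^ 3 - (1 * (a + d) ^ 3 - a ^ 3 * 1) * a = d ^ 2 * (6 * a ^ 2 + 8 * a * d + 3 * d ^ 2) := by ring
    nlinarith [mul_nonneg (mul_nonneg hd hd) (by positivity : 0 ≤ 6 * a ^ 2 + 8 * a * d + 3 * d ^ 2)]
  calc (1 * (a + d) ^ 3 - a ^ 3 * 1) * a ^ 4 = ((1 * (a + d) ^ 3 - a ^ 3 * 1) * a) * a ^ 3 := by ring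
    _ ≤ (3 * d * (a + d) ^ 3) * a ^ 3 := mul_le_mul_of_nonneg_right key (by positivity)
    _ = 3 * d * (a ^ 3 * (a + d) ^ 3) := by ring

/-- `3d/(a+d)^4 ≤ 1/a^3 - 1/(a+d)^3` -/
theorem le_inv_cube_sub {a d : ℝ} (ha : 0 < a) (hd : 0 ≤ d) : 3 * d / (a + d) ^ 4 ≤ 1 / a ^ 3 - 1 / (a + d) ^ 3 := by
  have hb : 0 < a + d := by linarith
  rw [div_sub_div _ _ (by positivity) (by positivity), div_le_div_iff₀ (by positivity) (by positivity)]
  have key : 3 * d * a ^ 3 ≤ (1 * (a + d) ^ 3 - a ^ 3 * 1) * (a + d) := by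
    have : (1 * (a + d) ^ 3 - a ^ 3 * 1) * (a + d) - 3 * d * a ^ 3 = d ^ 2 * (6 * a ^ 2 + 4 * a * d + d ^ 2) := by ring
    nlinarith [mul_nonneg (mul_nonneg hd hd) (by positivity : 0 ≤ 6 * a ^ 2 + 4 * a * d + d ^ 2)]
  calc 3 * d * (a ^ 3 * (a + d) ^ 3) = (3 * d * a ^ 3) * (a + d) ^ 3 := by ring
    _ ≤ ((1 * (a + d) ^ 3 - a ^ 3 * 1) * (a + d)) * (a + d) ^ 3 := mul_le_mul_of_nonneg_right key (by positivity)
    _ = (1 * (a + d) ^ 3 - a ^ 3 * 1) * (a + d) ^ 4 := by ring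

/-- (N1) -/
theorem om_le5 {K : ℕ} (hK : 2 ≤ K) : om K ≤ 25600 / (5 * (K : ℝ) - 6) ^ 4 := by
  have h1 : (2 : ℝ) ≤ K := by exact_mod_cast hK
  unfold om
  rw [Th_pred (by omega)]
  unfold Th
  have h := inv_cube_sub_le (a := 5 * (K : ℝ) - 6) (d := 5) (by linarith) (by norm_num)
  have e : 5 * (K : ℝ) - 6 + 5 = 5 * K - 1 := by ring
  rw [e] at h
  have e1 : 5120 / (3 * (5 * (K : ℝ) - 6) ^ 3) - 5120 / (3 * (5 * (K : ℝ) - 1) ^ 3) =
      5120 / 3 * (1 / (5 * (K : ℝ) - 6) ^ 3 - 1 / (5 * (K : ℝ) - 1) ^ 3) := by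
    have : (5 * (K : ℝ) - 6) ^ 3 ≠ 0 := by
      have : 0 < 5 * (K : ℝ) - 6 := by linarith
      positivity
    have : (5 * (K : ℝ) - 1) ^ 3 ≠ 0 := by
      have : 0 < 5 * (K : ℝ) - 1 := by linarith
      positivity
    field_simp
  have e2 : 25600 / (5 * (K : ℝ) - 6) ^ 4 = 5120 / 3 * (3 * 5 / (5 * (K : ℝ) - 6) ^ 4) := by ring
  rw [e1, e2]
  exact mul_le_mul_of_nonneg_left h (by norm_num)

theorem om_nonneg {K : ℕ} (hK : 2 ≤ K) : 0 ≤ om K := by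
  unfold om
  have := Th_anti (K := K - 1) (L := K) (by omega) (by omega)
  linarith

theorem gmax_le5 {i : ℕ} (hi : 2 ≤ i) : gmax i ≤ 440320 / (5 * (i : ℝ) - 6) ^ 4 := by
  have h1 : (2 : ℝ) ≤ i := by exact_mod_cast hi
  unfold gmax TT
  rw [Th_pred (by omega)]
  have h := inv_cube_sub_le (a := 5 * (i : ℝ) - 6) (d := 86) (by linarith) (by norm_num)
  have e : 5 * (i : ℝ) - 6 + 86 = 5 * (i + 16) := by ring
  rw [e] at h
  have e1 : 5120 / (3 * (5 * (i : ℝ) - 6) ^ 3) - 1 / (75 * ((i : ℝ) + 16) ^ 3 / 1024) =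
      5120 / 3 * (1 / (5 * (i : ℝ) - 6) ^ 3 - 1 / (5 * ((i : ℝ) + 16)) ^ 3) := by
    rw [mul_pow]
    have : ((i : ℝ) + 16) ^ 3 ≠ 0 := by positivity
    have : (5 * (i : ℝ) - 6) ^ 3 ≠ 0 := by
      have : 0 < 5 * (i : ℝ) - 6 := by linarith
      positivity
    field_simp
    ring
  have e2 : 440320 / (5 * (i : ℝ) - 6) ^ 4 = 5120 / 3 * (3 * 86 / (5 * (i : ℝ) - 6) ^ 4) := by ring
  rw [e1, e2]
  exact mul_le_mul_of_nonneg_left h (by norm_num)

/-- (N2) an active phase is not too late -/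
theorem active_le {j K : ℕ} (hj : 2 ≤ j) (hK : 1 ≤ K) (h : active j K) :
    (5 * (j : ℝ) - 6) ^ 4 ≤ 258 * (5 * (K : ℝ) - 1) ^ 3 := by
  have h1 : (2 : ℝ) ≤ j := by exact_mod_cast hj
  have h2 : (1 : ℝ) ≤ K := by exact_mod_cast hK
  have h3 := h.1.trans (gmax_le5 hj)
  unfold Th at h3
  have ha : 0 < 5 * (j : ℝ) - 6 := by linarith
  have hb : 0 < 5 * (K : ℝ) - 1 := by linarith
  rw [div_le_div_iff₀ (by positivity) (by positivity)] at h3
  nlinarith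

/-- an active phase is not too early -/
theorem active_ge {j K : ℕ} (hj : 1600 ≤ j) (hK : 2 ≤ K) (h : active j K) :
    3 * (5 * (K : ℝ) - 6) ^ 3 < (5 * (j : ℝ)) ^ 4 := by
  have h1 : (1600 : ℝ) ≤ j := by exact_mod_cast hj
  have h2 : (2 : ℝ) ≤ K := by exact_mod_cast hK
  have h3 := h.2
  unfold gmin at h3
  have hN : Nj j = TT (j : ℝ) := by
    unfold Nj
    apply max_eq_left
    have := TT_mono (x := 1600) (y := (j : ℝ)) (by norm_num) h1
    rw [TT_i0] at this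
    have e : (NN : ℝ) = 300000000 := by unfold NN; norm_num
    rw [e]; exact this
  rw [hN, Th_pred (by omega)] at h3
  unfold Th TT at h3
  have hb := le_inv_cube_sub (a := 5 * (j : ℝ) - 1) (d := 1) (by linarith) (by norm_num)
  have e : 5 * (j : ℝ) - 1 + 1 = 5 * j := by ring
  rw [e] at hb
  have hj0 : (0 : ℝ) < j := by linarith
  have e1 : 5120 / (3 * (5 * (j : ℝ) - 1) ^ 3) - 1 / (75 * (j : ℝ) ^ 3 / 1024) =
      5120 / 3 * (1 / (5 * (j : ℝ) - 1) ^ 3 - 1 / (5 * (j : ℝ)) ^ 3) := by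
    rw [mul_pow]
    have : (j : ℝ) ^ 3 ≠ 0 := by positivity
    have : (5 * (j : ℝ) - 1) ^ 3 ≠ 0 := by
      have : 0 < 5 * (j : ℝ) - 1 := by linarith
      positivity
    field_simp
    ring
  rw [e1] at h3
  have h4 : 5120 / 3 * (3 * 1 / (5 * (j : ℝ)) ^ 4) < 5120 / (3 * (5 * (K : ℝ) - 6) ^ 3) :=
    lt_of_le_of_lt (mul_le_mul_of_nonneg_left hb (by norm_num)) h3
  have ha : 0 < 5 * (K : ℝ) - 6 := by linarith
  have e2 : 5120 / 3 * (3 * 1 / (5 * (j : ℝ)) ^ 4) = 5120 / (5 * (j : ℝ)) ^ 4 := by ring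
  rw [e2, div_lt_div_iff₀ (by positivity) (by positivity)] at h4
  nlinarith

/-- no phase before `i0` is active for a class `K ≥ 12206` -/
theorem not_active {j K : ℕ} (hj0 : 2 ≤ j) (hj : j < 1600) (hK : 12206 ≤ K) : ¬ active j K := by
  intro h
  have h3 := h.2
  unfold gmin at h3
  have h2 : (12206 : ℝ) ≤ K := by exact_mod_cast hK
  have e : (NN : ℝ) = 300000000 := by unfold NN; norm_num
  have hN : (NN : ℝ) ≤ Nj j := le_max_right _ _
  have h4 : 1 / Nj j ≤ 1 / 300000000 := by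
    rw [e] at hN
    exact one_div_le_one_div_of_le (by norm_num) hN
  have h5 : Th 1599 ≤ Th j := Th_anti (by omega) (by omega)
  have h6 : Th (K - 1) ≤ Th 12205 := Th_anti (by norm_num) (by omega)
  have h7 : Th 12205 + 1 / 300000000 ≤ Th 1599 := by unfold Th; norm_num
  linarith

theorem sum_TT (M : ℕ) (hM : 1584 ≤ M) : ∑ j ∈ Finset.Ico 1585 (M + 1), TT ((j : ℝ) + 16) / 16 =
    75 / 65536 * (((M : ℝ) + 16) ^ 2 * (M + 17) ^ 2 - (1600 * 1601) ^ 2) := by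
  induction M, hM using Nat.le_induction with
  | base => simp; norm_num
  | succ M hM ih =>
    rw [Finset.sum_Ico_succ_top (by omega), ih]
    unfold TT
    push_cast
    ring

theorem sum_inv (a M : ℕ) (ha : 1 ≤ a) (hM : a ≤ M + 1) : ∑ j ∈ Finset.Ico a (M + 1), 1 / TT (j : ℝ) ≤
    512 / 75 * (1 / ((a : ℝ) - 1 / 2) ^ 2 - 1 / ((M : ℝ) + 1 / 2) ^ 2) := by
  have hgen : ∀ m : ℕ, ∑ j ∈ Finset.Ico a (a + m), 1 / TT (j : ℝ) ≤
    512 / 75 * (1 / ((a : ℝ) - 1 / 2) ^ 2 - 1 / ((a : ℝ) + m - 1 / 2) ^ 2) := by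
    intro m
    have ha' : (1 : ℝ) ≤ a := by exact_mod_cast ha
    induction m with
    | zero => simp
    | succ m ih =>
      rw [← Nat.add_assoc, Finset.sum_Ico_succ_top (by omega)]
      have hm : (0 : ℝ) ≤ m := Nat.cast_nonneg m
      have h1 : 1 / TT ((a + m : ℕ) : ℝ) ≤ 512 / 75 * (1 / ((a : ℝ) + m - 1 / 2) ^ 2 - 1 / ((a : ℝ) + (m + 1 : ℕ) - 1 / 2) ^ 2) := by
        unfold TT
        push_cast
        set x : ℝ := (a : ℝ) + m with hx
        have hx1 : 1 ≤ x := by linarith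
        have e : (a : ℝ) + (m + 1) - 1 / 2 = x + 1 / 2 := by rw [hx]; ring
        rw [e]
        have p1 : 0 < x - 1 / 2 := by linarith
        have p2 : 0 < x + 1 / 2 := by linarith
        have p0 : 0 < x := by linarith
        have e1 : 512 / 75 * (1 / (x - 1 / 2) ^ 2 - 1 / (x + 1 / 2) ^ 2) =
            1024 / 75 * (x / ((x - 1 / 2) ^ 2 * (x + 1 / 2) ^ 2)) := by
          rw [div_sub_div _ _ (by positivity) (by positivity)]
          ring
        have e2 : 1 / (75 * x ^ 3 / 1024) = 1024 / 75 * (1 / x ^ 3) := by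
          field_simp
        rw [e1, e2]
        apply mul_le_mul_of_nonneg_left _ (by norm_num)
        rw [div_le_div_iff₀ (by positivity) (by positivity)]
        have : (x - 1 / 2) ^ 2 * (x + 1 / 2) ^ 2 = (x ^ 2 - 1 / 4) ^ 2 := by ring
        rw [this]
        nlinarith [sq_nonneg x]
      calc _ ≤ 512 / 75 * (1 / ((a : ℝ) - 1 / 2) ^ 2 - 1 / ((a : ℝ) + m - 1 / 2) ^ 2) +
          512 / 75 * (1 / ((a : ℝ) + m - 1 / 2) ^ 2 - 1 / ((a : ℝ) + (m + 1 : ℕ) - 1 / 2) ^ 2) := add_le_add ih h1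
        _ = _ := by ring
  obtain ⟨m, hm⟩ := Nat.exists_eq_add_of_le hM
  have h := hgen m
  rw [← hm] at h
  have e : (a : ℝ) + m - 1 / 2 = M + 1 / 2 := by
    have : ((M + 1 : ℕ) : ℝ) = (a : ℝ) + m := by rw [hm]; push_cast; ring
    push_cast at this
    linarith
  rwa [e] at h

/-- tangent (Jensen) -/
theorem jensen4 (P d p : ℝ) (hP : 0 ≤ P) (hd : 0 < d) (hp : 0 < p) :
    (P + d) ^ 4 ≤ (1 + d / p) ^ 3 * P ^ 4 + d * (p + d) ^ 3 := by
  have hpd : 0 < p + d := by linarith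
  have hc : ConvexOn ℝ (Set.Ici (0:ℝ)) (fun x : ℝ => x ^ 4) := convexOn_pow 4
  have hx : P * ((p + d) / p) ∈ Set.Ici (0:ℝ) := by
    have : 0 ≤ P * ((p + d) / p) := by positivity
    exact this
  have hy : p + d ∈ Set.Ici (0:ℝ) := hpd.le
  have ha : 0 ≤ p / (p + d) := by positivity
  have hb : 0 ≤ d / (p + d) := by positivity
  have hab : p / (p + d) + d / (p + d) = 1 := by field_simp
  have h := hc.2 hx hy ha hb hab
  simp only [smul_eq_mul] at h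
  have e1 : p / (p + d) * (P * ((p + d) / p)) + d / (p + d) * (p + d) = P + d := by
    field_simp
  have e2 : p / (p + d) * (P * ((p + d) / p)) ^ 4 + d / (p + d) * (p + d) ^ 4 =
      (1 + d / p) ^ 3 * P ^ 4 + d * (p + d) ^ 3 := by
    field_simp
  rw [e1, e2] at h
  exact h

end Pool.Agent.MM2.Num
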