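import Pool.Agent.MP_94f265_co.MM2.Par
import Pool.Agent.MP_94f265_co.MM2.PhaseCor

/-!
# The slots of a phase as a list, numerical facts about the gaps
-/

namespace Pool.Agent.MM2

open Pool.Agent.MM1

/-- the slots of the phase `i` in decreasing order -/
def slots (i : ℕ) : List ℕ := ((PP i).sort (· ≤ ·)).reverse

theorem slots_reverse (i : ℕ) : (slots i).reverse = (PP i).sort (· ≤ ·) := by
  unfold slots
  rw [List.reverse_reverse]

theorem mem_slots {i n : ℕ} : n ∈ slots i ↔ n ∈ PP i := by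
  unfold slots
  rw [List.mem_reverse, Finset.mem_sort]

theorem sort_lt (s : Finset ℕ) : (s.sort (· ≤ ·)).Pairwise (· < ·) := by
  have h1 := Finset.pairwise_sort s (· ≤ ·)
  have h2 := Finset.sort_nodup s (· ≤ ·)
  have h3 := h1.and h2
  exact h3.imp (fun h => lt_of_le_of_ne h.1 h.2)

theorem slots_pairwise (i : ℕ) : (slots i).Pairwise (· > ·) := by
  unfold slots
  rw [List.pairwise_reverse]
  exact sort_lt (PP i)

theorem slots_coe (i : ℕ) : Multiset.ofList (slots i) = (PP i).val := by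
  unfold slots
  rw [Multiset.coe_reverse]
  exact Finset.sort_eq _ _

theorem slots_sum (i : ℕ) (f : ℕ → ℝ) : ((slots i).map f).sum = ∑ n ∈ PP i, f n := by
  have h : ((slots i).map f).sum = ((Multiset.ofList (slots i)).map f).sum := by simp
  rw [h, slots_coe]
  rfl

theorem chain_aux (i : ℕ) (l : List ℕ) (hpw : l.Pairwise (· < ·)) (hl : ∀ n, n ∈ l ↔ n ∈ PP i) :
    l.IsChain (fun n m => m = n + 16) := by
  rw [List.isChain_iff_getElem]
  intro k hk
  have hlt : ∀ a b (ha : a < l.length) (hb : b < l.length), a < b → l[a] < l[b] :=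
    fun a b ha hb hab => List.pairwise_iff_getElem.1 hpw a b ha hb hab
  have hn : l[k] ∈ PP i := (hl _).1 (List.getElem_mem _)
  have hm : l[k + 1] ∈ PP i := (hl _).1 (List.getElem_mem _)
  have hkk := hlt k (k + 1) (by omega) hk (by omega)
  obtain ⟨a1, a2, a3, a4⟩ := mem_PP.1 hn
  obtain ⟨b1, b2, b3, b4⟩ := mem_PP.1 hm
  by_contra hne
  have h16 : l[k] + 16 < l[k + 1] := by omega
  have hmem : l[k] + 16 ∈ PP i := by
    rw [mem_PP]
    refine ⟨by omega, by omega, by omega, by omega⟩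
  have : l[k] + 16 ∈ l := (hl _).2 hmem
  obtain ⟨j, hj, hje⟩ := List.getElem_of_mem this
  rcases Nat.lt_trichotomy j k with h | h | h
  · have := hlt j k hj (by omega) h
    omega
  · subst h
    omega
  · rcases Nat.lt_trichotomy j (k + 1) with h' | h' | h'
    · omega
    · subst h'
      omega
    · have := hlt (k + 1) j hk hj h'
      omega

/-- consecutive slots of a phase differ by `16` -/
theorem slots_chain (i : ℕ) : (slots i).reverse.IsChain (fun n m => m = n + 16) := by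
  apply chain_aux i
  · rw [slots_reverse]
    exact sort_lt (PP i)
  · intro n
    rw [List.mem_reverse]
    exact mem_slots

/-- largest length of a slot of the phase `i` -/
noncomputable def yM (i : ℕ) : ℝ := 1 / (Nj i + 1)

/-- the least remainder -/
noncomputable def del (i : ℕ) : ℝ := yM i / 100

theorem Nj_pos (i : ℕ) : 0 < Nj i := by
  unfold Nj
  apply lt_max_of_lt_right
  norm_num [NN]

theorem NN_le_Nj (i : ℕ) : (300000000 : ℝ) ≤ Nj i := by
  unfold Nj
  have : ((NN : ℕ) : ℝ) = 300000000 := by norm_num [NN]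
  rw [← this]
  exact le_max_right _ _

theorem TT_le_Nj (i : ℕ) : TT (i : ℝ) ≤ Nj i := le_max_left _ _

theorem yM_pos (i : ℕ) : 0 < yM i := by
  unfold yM
  have := Nj_pos i
  positivity

theorem del_pos (i : ℕ) : 0 < del i := by
  unfold del
  have := yM_pos i
  positivity

theorem yu_le {i n : ℕ} (h : n ∈ PP i) : 0 < yu n ∧ yu n ≤ yM i := by
  have h1 := (mem_PP_real h).2.2.2
  have h2 := Nj_pos i
  unfold yu yM
  constructor
  · have : (0 : ℝ) ≤ n := Nat.cast_nonneg n
    positivity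
  · exact one_div_le_one_div_of_le (by linarith) (by linarith)

theorem xu_le {i n : ℕ} (h : n ∈ PP i) : 0 < xu n ∧ xu n ≤ 1 / Nj i := by
  have h1 := (mem_PP_real h).2.2.2
  have h2 := Nj_pos i
  unfold xu
  constructor
  · have : (0 : ℝ) < n := by linarith
    positivity
  · exact one_div_le_one_div_of_le h2 h1

/-- all slots of the phase `i` are thinner than the thinnest due cell -/
theorem inv_Nj_lt_Th {i : ℕ} (hi : 1 ≤ i) : 1 / Nj i < Th i := by
  rw [Th_eq]
  have h1 : (1 : ℝ) ≤ i := by exact_mod_cast hi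
  have h2 : 0 < TT ((i : ℝ) - 1 / 5) := TT_pos (by linarith)
  have h3 : TT ((i : ℝ) - 1 / 5) < TT (i : ℝ) := by
    unfold TT
    have : ((i : ℝ) - 1 / 5) ^ 3 < (i : ℝ) ^ 3 :=
      pow_lt_pow_left₀ (by linarith) (by linarith) (by norm_num)
    linarith
  exact one_div_lt_one_div_of_lt h2 (h3.trans_le (TT_le_Nj i))

theorem yM_lt_Th {i : ℕ} (hi : 1 ≤ i) : yM i < Th i := by
  refine lt_of_le_of_lt ?_ (inv_Nj_lt_Th hi)
  unfold yM
  exact one_div_le_one_div_of_le (Nj_pos i) (by linarith)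

/-- the gaps of the phase `i` -/
theorem gap_le {i n : ℕ} {w : ℝ} (hn : n ∈ PP i) (hw : w ≤ Th (i - 1)) : w - xu n ≤ gmax i := by
  have h1 := (mem_PP_real hn).2.1
  have h2 : (0 : ℝ) < n := by
    have := (mem_PP_real hn).2.2.1
    have h3 : ((NN : ℕ) : ℝ) = 300000000 := by norm_num [NN]
    rw [h3] at this
    linarith
  unfold gmax xu
  have : 1 / TT ((i : ℝ) + 16) ≤ 1 / (n : ℝ) := one_div_le_one_div_of_le h2 h1.le
  linarith

theorem gap_ge {i n : ℕ} {w : ℝ} (hn : n ∈ PP i) (hw : Th i ≤ w) : gmin i ≤ w - xu n := by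
  have h1 := (xu_le hn).2
  unfold gmin
  linarith

theorem gmin_pos {i : ℕ} (hi : 1 ≤ i) : 0 < gmin i := by
  unfold gmin
  have := inv_Nj_lt_Th hi
  linarith

/-- numerical bound for the largest gap -/
theorem gmax_TT {i : ℕ} (hi : 1585 ≤ i) : gmax i * TT ((i : ℝ) + 16) ≤ 33 / 1000 := by
  have h1 : (1585 : ℝ) ≤ i := by exact_mod_cast hi
  have e : ((i - 1 : ℕ) : ℝ) = (i : ℝ) - 1 := by rw [Nat.cast_sub (by omega)]; simp
  unfold gmax
  have hT : 0 < TT ((i : ℝ) + 16) := TT_pos (by linarith)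
  rw [sub_mul, one_div_mul_cancel hT.ne', Th_eq, e]
  have h2 : (i : ℝ) - 1 - 1 / 5 = i - 6 / 5 := by ring
  rw [h2]
  have h3 : 0 < TT ((i : ℝ) - 6 / 5) := TT_pos (by linarith)
  rw [one_div_mul_eq_div, sub_le_iff_le_add, div_le_iff₀ h3]
  unfold TT
  have h4 : (0 : ℝ) ≤ i - 1585 := by linarith
  nlinarith [mul_nonneg h4 h4, mul_nonneg (mul_nonneg h4 h4) h4]

/-- the length of a slot against the largest gap -/
theorem gmax_le_yu {i n : ℕ} (hi : 1585 ≤ i) (hn : n ∈ PP i) : gmax i ≤ (34 / 1000) * yu n := by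
  have h1 := gmax_TT hi
  obtain ⟨_, h2, h3, _⟩ := mem_PP_real hn
  have h3' : (300000000 : ℝ) ≤ n := by
    have : ((NN : ℕ) : ℝ) = 300000000 := by norm_num [NN]
    rw [this] at h3
    exact h3
  have hT : 0 < TT ((i : ℝ) + 16) := by linarith
  have h4 : gmax i ≤ (33 / 1000) / TT ((i : ℝ) + 16) := by
    rw [le_div_iff₀ hT]
    exact h1
  have h5 : (33 / 1000) / TT ((i : ℝ) + 16) ≤ (33 / 1000) / n :=
    div_le_div_of_nonneg_left (by norm_num) (by linarith) h2.le
  have h6 : (33 / 1000 : ℝ) / n ≤ (34 / 1000) * yu n := by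
    unfold yu
    rw [mul_one_div, div_le_div_iff₀ (by linarith) (by linarith)]
    linarith
  linarith

/-- the largest gap is below the threshold of the next class -/
theorem gmax_lt_Th {i : ℕ} (hi : 1585 ≤ i) : gmax i < Th i := by
  have h1 : (1585 : ℝ) ≤ i := by exact_mod_cast hi
  have h2 := gmax_TT hi
  have hT : 0 < TT ((i : ℝ) + 16) := TT_pos (by linarith)
  have h3 : gmax i ≤ (33 / 1000) / TT ((i : ℝ) + 16) := by
    rw [le_div_iff₀ hT]
    exact h2
  refine lt_of_le_of_lt h3 ?_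
  rw [Th_eq]
  have h4 : 0 < TT ((i : ℝ) - 1 / 5) := TT_pos (by linarith)
  rw [div_lt_div_iff₀ hT h4]
  have h5 : TT ((i : ℝ) - 1 / 5) ≤ TT ((i : ℝ) + 16) := TT_mono (by linarith) (by linarith)
  nlinarith

/-- the heights of neighbouring slots against the least gap -/
theorem eta_le_gmin {i : ℕ} (hi : 1585 ≤ i) {n : ℕ} (hn : n ∈ PP i) :
    xu n - xu (n + 16) ≤ gmin i / 20 := by
  obtain ⟨_, _, h3, h4⟩ := mem_PP_real hn
  have h3' : (300000000 : ℝ) ≤ n := by
    have : ((NN : ℕ) : ℝ) = 300000000 := by norm_num [NN]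
    rw [this] at h3
    exact h3
  have h5 : xu n - xu (n + 16) ≤ 16 / (Nj i) ^ 2 := by
    unfold xu
    push_cast
    have hN := Nj_pos i
    have : 1 / (n : ℝ) - 1 / ((n : ℝ) + 16) = 16 / (n * (n + 16)) := by
      field_simp
      ring
    rw [this]
    apply div_le_div_of_nonneg_left (by norm_num) (by positivity)
    nlinarith
  refine h5.trans ?_
  unfold gmin
  have h1 : (1585 : ℝ) ≤ i := by exact_mod_cast hi
  have hN := Nj_pos i
  have hNN := NN_le_Nj i
  rw [Th_eq]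
  have h6 : 0 < TT ((i : ℝ) - 1 / 5) := TT_pos (by linarith)
  -- `Nj i - TT (i - 1/5) ≥ 320`
  have h7 : 320 ≤ Nj i - TT ((i : ℝ) - 1 / 5) := by
    have h8 : TT (i : ℝ) ≤ Nj i := TT_le_Nj i
    have h9 : 320 ≤ TT (i : ℝ) - TT ((i : ℝ) - 1 / 5) := by
      unfold TT
      nlinarith
    linarith
  have h8 : 1 / TT ((i : ℝ) - 1 / 5) - 1 / Nj i =
      (Nj i - TT ((i : ℝ) - 1 / 5)) / (TT ((i : ℝ) - 1 / 5) * Nj i) := by
    rw [div_sub_div _ _ h6.ne' hN.ne']
    ring
  rw [h8]
  have h9 : 320 / (Nj i) ^ 2 ≤ (Nj i - TT ((i : ℝ) - 1 / 5)) / (TT ((i : ℝ) - 1 / 5) * Nj i) := by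
    rw [div_le_div_iff₀ (by positivity) (by positivity)]
    have h10 : TT ((i : ℝ) - 1 / 5) ≤ Nj i := by linarith
    have h11 : TT ((i : ℝ) - 1 / 5) * Nj i ≤ Nj i ^ 2 := by
      rw [sq]
      exact mul_le_mul_of_nonneg_right h10 hN.le
    have h12 : 0 ≤ Nj i ^ 2 := by positivity
    nlinarith
  have h10 : 16 / (Nj i) ^ 2 = (320 / (Nj i) ^ 2) / 20 := by ring
  rw [h10]
  exact div_le_div_of_nonneg_right h9 (by norm_num)

end Pool.Agent.MM2
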