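import Pool.Agent.MP_94f265_co.MM2.NumA
import Pool.Agent.MP_94f265_co.MM2.Slots

/-!
# Numbers of the tail (block NUM): local facts L1 - L9
-/

namespace Pool.Agent.MM2

/-- L1 -/
theorem om_le' (K : ℕ) (hK : 1600 ≤ K) : om K ≤ 3 * 1024 / (75 * ((K : ℝ) - 6 / 5) ^ 4) := by
  have h := Num.om_le5 (K := K) (by omega)
  have h1 : (1600 : ℝ) ≤ K := by exact_mod_cast hK
  have e : 25600 / (5 * (K : ℝ) - 6) ^ 4 = 3 * 1024 / (75 * ((K : ℝ) - 6 / 5) ^ 4) := by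
    have : 5 * (K : ℝ) - 6 = 5 * (K - 6 / 5) := by ring
    rw [this, mul_pow]
    have : 0 < (K : ℝ) - 6 / 5 := by linarith
    field_simp
    norm_num
  rwa [e] at h

/-- L2 -/
theorem gmax_le (i : ℕ) (hi : j0 ≤ i) : gmax i ≤ (258 / 5) * 1024 / (75 * ((i : ℝ) - 6 / 5) ^ 4) := by
  unfold j0 at hi
  have h := Num.gmax_le5 (i := i) (by omega)
  have h1 : (1585 : ℝ) ≤ i := by exact_mod_cast hi
  have e : 440320 / (5 * (i : ℝ) - 6) ^ 4 = (258 / 5) * 1024 / (75 * ((i : ℝ) - 6 / 5) ^ 4) := by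
    have : 5 * (i : ℝ) - 6 = 5 * (i - 6 / 5) := by ring
    rw [this, mul_pow]
    have : 0 < (i : ℝ) - 6 / 5 := by linarith
    field_simp
    norm_num
  rwa [e] at h

/-- L3 -/
theorem gmax_le_Th (i : ℕ) (hi : j0 ≤ i) : gmax i ≤ (52 / (i : ℝ)) * Th (i - 1) ∧ gmax i < Th (max (i + 1) i0 - 1) := by
  unfold j0 at hi
  have h1 : (1585 : ℝ) ≤ i := by exact_mod_cast hi
  have h := Num.gmax_le5 (i := i) (by omega)
  refine ⟨h.trans ?_, ?_⟩
  · rw [Num.Th_pred (by omega)]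
    have hp : 0 < 5 * (i : ℝ) - 6 := by linarith
    have e : (52 / (i : ℝ)) * (5120 / (3 * (5 * (i : ℝ) - 6) ^ 3)) = (52 * 5120) / (3 * i * (5 * (i : ℝ) - 6) ^ 3) := by
      field_simp
    rw [e, div_le_div_iff₀ (by positivity) (by positivity)]
    have : 440320 * (3 * (i : ℝ)) ≤ 52 * 5120 * (5 * (i : ℝ) - 6) := by linarith
    calc 440320 * (3 * (i : ℝ) * (5 * i - 6) ^ 3) = 440320 * (3 * (i : ℝ)) * (5 * i - 6) ^ 3 := by ring
      _ ≤ 52 * 5120 * (5 * (i : ℝ) - 6) * (5 * i - 6) ^ 3 := mul_le_mul_of_nonneg_right this (by positivity)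
      _ = _ := by ring
  · unfold i0
    rcases le_total 1600 (i + 1) with h2 | h2
    · rw [max_eq_left h2]
      exact gmax_lt_Th hi
    · rw [max_eq_right h2]
      have h3 : (5 * (1585 : ℝ) - 6) ^ 4 ≤ (5 * (i : ℝ) - 6) ^ 4 := pow_le_pow_left₀ (by norm_num) (by linarith) 4
      have h4 : 440320 / (5 * (i : ℝ) - 6) ^ 4 ≤ 440320 / (5 * (1585 : ℝ) - 6) ^ 4 :=
        div_le_div_of_nonneg_left (by norm_num) (by norm_num) h3
      have h5 : 440320 / (5 * (1585 : ℝ) - 6) ^ 4 < Th (1600 - 1) := by unfold Th; norm_num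
      linarith

theorem Num.inv_cube_gap_anti {a b d : ℝ} (ha : 0 < a) (hab : a ≤ b) (hd : 0 ≤ d) :
    1 / b ^ 3 - 1 / (b + d) ^ 3 ≤ 1 / a ^ 3 - 1 / (a + d) ^ 3 := by
  have e : ∀ x : ℝ, 0 < x → 1 / x ^ 3 - 1 / (x + d) ^ 3 = d * (3 / (x ^ 2 * (x + d) ^ 2) + d ^ 2 / (x ^ 3 * (x + d) ^ 3)) := by
    intro x hx
    have hx' : 0 < x + d := by linarith
    field_simp
    ring
  rw [e a ha, e b (by linarith)]
  have pa : 0 < a + d := by linarith
  have h1 : a ^ 2 * (a + d) ^ 2 ≤ b ^ 2 * (b + d) ^ 2 :=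
    mul_le_mul (pow_le_pow_left₀ ha.le hab 2) (pow_le_pow_left₀ pa.le (by linarith) 2) (by positivity) (by positivity)
  have h2 : a ^ 3 * (a + d) ^ 3 ≤ b ^ 3 * (b + d) ^ 3 :=
    mul_le_mul (pow_le_pow_left₀ ha.le hab 3) (pow_le_pow_left₀ pa.le (by linarith) 3) (by positivity) (by
      have : 0 < b := by linarith
      positivity)
  apply mul_le_mul_of_nonneg_left _ hd
  apply add_le_add
  · exact div_le_div_of_nonneg_left (by norm_num) (by positivity) h1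
  · exact div_le_div_of_nonneg_left (by positivity) (by positivity) h2

theorem Num.gmax_eq (i : ℕ) (hi : 2 ≤ i) : gmax i =
    5120 / 3 * (1 / (5 * (i : ℝ) - 6) ^ 3 - 1 / (5 * (i : ℝ) - 6 + 86) ^ 3) := by
  have h1 : (2 : ℝ) ≤ i := by exact_mod_cast hi
  unfold gmax TT
  rw [Num.Th_pred (by omega)]
  have e : 5 * (i : ℝ) - 6 + 86 = 5 * (i + 16) := by ring
  rw [e, mul_pow]
  have : ((i : ℝ) + 16) ^ 3 ≠ 0 := by positivity
  have : (5 * (i : ℝ) - 6) ^ 3 ≠ 0 := by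
    have : 0 < 5 * (i : ℝ) - 6 := by linarith
    positivity
  field_simp
  ring

/-- L4 -/
theorem gmax_anti (i j : ℕ) (hi : j0 ≤ i) (h : i ≤ j) : gmax j ≤ gmax i := by
  unfold j0 at hi
  have h1 : (1585 : ℝ) ≤ i := by exact_mod_cast hi
  have h2 : (i : ℝ) ≤ j := by exact_mod_cast h
  rw [Num.gmax_eq i (by omega), Num.gmax_eq j (by omega)]
  apply mul_le_mul_of_nonneg_left _ (by norm_num)
  exact Num.inv_cube_gap_anti (by linarith) (by linarith) (by norm_num)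

/-- L5 -/
theorem gmin_ge (i : ℕ) (hi : j0 ≤ i) : (3 / 5) * 1024 / (75 * (i : ℝ) ^ 4) ≤ gmin i := by
  unfold j0 at hi
  have h1 : (1585 : ℝ) ≤ i := by exact_mod_cast hi
  unfold gmin
  have h2 : 1 / Nj i ≤ 1 / TT (i : ℝ) := one_div_le_one_div_of_le (TT_pos (by linarith)) (TT_le_Nj i)
  have hb := Num.le_inv_cube_sub (a := 5 * (i : ℝ) - 1) (d := 1) (by linarith) (by norm_num)
  have e : 5 * (i : ℝ) - 1 + 1 = 5 * i := by ring
  rw [e] at hb
  have h0 : (0 : ℝ) < i := by linarith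
  have e1 : Th i - 1 / TT (i : ℝ) = 5120 / 3 * (1 / (5 * (i : ℝ) - 1) ^ 3 - 1 / (5 * (i : ℝ)) ^ 3) := by
    unfold Th TT
    rw [mul_pow]
    have : (i : ℝ) ^ 3 ≠ 0 := by positivity
    have : (5 * (i : ℝ) - 1) ^ 3 ≠ 0 := by
      have : 0 < 5 * (i : ℝ) - 1 := by linarith
      positivity
    field_simp
    ring
  have e2 : (3 / 5) * 1024 / (75 * (i : ℝ) ^ 4) = 5120 / 3 * (3 * 1 / (5 * (i : ℝ)) ^ 4) := by
    field_simp
    norm_num
  rw [e2]
  have := mul_le_mul_of_nonneg_left hb (by norm_num : (0:ℝ) ≤ 5120 / 3)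
  linarith

/-- ratio of neighbouring thresholds from `i0` on -/
theorem Num.Th_ratio' {K : ℕ} (hK : 1585 ≤ K) : Th (K - 1) ≤ (10019 / 10000) * Th K := by
  have h1 : (1585 : ℝ) ≤ K := by exact_mod_cast hK
  rw [Num.Th_pred (by omega)]
  unfold Th
  have hp : 0 < 5 * (K : ℝ) - 6 := by linarith
  have hq : 0 < 5 * (K : ℝ) - 1 := by linarith
  have h2 : (5 * (K : ℝ) - 1) ^ 3 ≤ (10019 / 10000) * (5 * (K : ℝ) - 6) ^ 3 := by
    have h3 : 5 * (K : ℝ) - 1 ≤ (7924 / 7919) * (5 * (K : ℝ) - 6) := by linarith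
    have h4 := pow_le_pow_left₀ hq.le h3 3
    rw [mul_pow] at h4
    have h5 : ((7924 / 7919 : ℝ)) ^ 3 ≤ 10019 / 10000 := by norm_num
    have h6 : ((7924 / 7919 : ℝ)) ^ 3 * (5 * (K : ℝ) - 6) ^ 3 ≤ (10019 / 10000) * (5 * (K : ℝ) - 6) ^ 3 :=
      mul_le_mul_of_nonneg_right h5 (by positivity)
    linarith
  have e : (10019 / 10000 : ℝ) * (5120 / (3 * (5 * (K : ℝ) - 1) ^ 3)) = (10019 / 10000 * 5120) / (3 * (5 * (K : ℝ) - 1) ^ 3) := by ring
  rw [e, div_le_div_iff₀ (by positivity) (by positivity)]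
  nlinarith

/-- L6 -/
theorem Num.gap_le' (i : ℕ) (hi : j0 ≤ i) (n : ℕ) (hn : n ∈ PP i) :
    gmax i ≤ (345 / 10000) * yu n ∧ Th (i - 1) ≤ (1 + 345 / 10000) * yu n ∧ 0 < yu n ∧ yu n ≤ yM i ∧
      xu n < Th i ∧ yM i < Th i ∧ Th (i - 1) ≤ (104 / 100) * yM i := by
  unfold j0 at hi
  have h1 : (1585 : ℝ) ≤ i := by exact_mod_cast hi
  obtain ⟨hy0, hyM⟩ := yu_le hn
  obtain ⟨_, hx⟩ := xu_le hn
  have hlt := inv_Nj_lt_Th (i := i) (by omega)
  obtain ⟨hn1, hn2, hn3, hn4⟩ := mem_PP_real hn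
  have hTp : 0 < TT ((i : ℝ) + 16) := TT_pos (by linarith)
  have hp : 0 < 5 * (i : ℝ) - 6 := by linarith
  -- ratio
  have hr : (5 * ((i : ℝ) + 16)) ^ 3 ≤ (10330 / 10000) * (5 * (i : ℝ) - 6) ^ 3 := by
    have h3 : 5 * ((i : ℝ) + 16) ≤ (8005 / 7919) * (5 * (i : ℝ) - 6) := by linarith
    have h4 := pow_le_pow_left₀ (by linarith) h3 3
    rw [mul_pow] at h4
    have h5 : ((8005 / 7919 : ℝ)) ^ 3 ≤ 10330 / 10000 := by norm_num
    have h6 : ((8005 / 7919 : ℝ)) ^ 3 * (5 * (i : ℝ) - 6) ^ 3 ≤ (10330 / 10000) * (5 * (i : ℝ) - 6) ^ 3 :=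
      mul_le_mul_of_nonneg_right h5 (by positivity)
    linarith
  have hThT : Th (i - 1) * TT ((i : ℝ) + 16) ≤ 10330 / 10000 := by
    rw [Num.Th_pred (by omega)]
    unfold TT
    have e : 5120 / (3 * (5 * (i : ℝ) - 6) ^ 3) * (75 * ((i : ℝ) + 16) ^ 3 / 1024) =
        (5 * ((i : ℝ) + 16)) ^ 3 / (5 * (i : ℝ) - 6) ^ 3 := by
      rw [mul_pow]
      field_simp
      norm_num
    rw [e, div_le_iff₀ (by positivity)]
    exact hr
  have hNN : (300000000 : ℝ) ≤ n := by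
    have := NN_le_Nj i
    linarith
  have hTh0 : 0 < Th (i - 1) := Th_pos (by omega)
  have hsmall : Th (i - 1) ≤ 1 / 1000 := by
    have : (300000000 : ℝ) < TT ((i : ℝ) + 16) := by linarith
    nlinarith
  refine ⟨(gmax_le_yu hi hn).trans ?_, ?_, hy0, hyM, lt_of_le_of_lt hx hlt, yM_lt_Th (by omega), ?_⟩
  · exact mul_le_mul_of_nonneg_right (by norm_num) hy0.le
  · unfold yu
    rw [mul_one_div, le_div_iff₀ (by linarith)]
    nlinarith
  · -- Th (i-1) (Nj i + 1) ≤ 1.04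
    unfold yM
    rw [mul_one_div, le_div_iff₀ (by have := Nj_pos i; linarith)]
    have hNj : Th (i - 1) * Nj i ≤ 1035 / 1000 := by
      unfold Nj
      rcases le_total (TT (i : ℝ)) (NN : ℝ) with h | h
      · rw [max_eq_right h, Num.Th_pred (by omega)]
        have e : (NN : ℝ) = 300000000 := by norm_num [NN]
        rw [e, div_mul_eq_mul_div, div_le_iff₀ (by positivity)]
        have : (7919 : ℝ) ^ 3 ≤ (5 * (i : ℝ) - 6) ^ 3 := pow_le_pow_left₀ (by norm_num) (by linarith) 3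
        norm_num at this ⊢
        linarith
      · rw [max_eq_left h]
        have h7 : TT (i : ℝ) ≤ TT ((i : ℝ) + 16) := TT_mono (by linarith) (by linarith)
        have := mul_le_mul_of_nonneg_left h7 hTh0.le
        linarith
    linarith

/-- L7: the slivers of a phase -/
theorem gmin_facts (i : ℕ) (hi : j0 ≤ i) (n : ℕ) (hn : n ∈ PP i) :
    0 < gmin i ∧ (xu n) ^ 2 ≤ gmin i ∧ xu n - xu (n + 16) ≤ gmin i / 20 ∧ gmin i ≤ gmax i := by
  have hg := gmin_ge i hi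
  unfold j0 at hi
  have h1 : (1585 : ℝ) ≤ i := by exact_mod_cast hi
  refine ⟨gmin_pos (by omega), ?_, eta_le_gmin hi hn, ?_⟩
  · refine le_trans ?_ hg
    obtain ⟨hn1, hn2, hn3, hn4⟩ := mem_PP_real hn
    have hT := TT_pos (x := (i : ℝ)) (by linarith)
    unfold xu
    rw [one_div_pow]
    have h2 : 1 / (n : ℝ) ^ 2 ≤ 1 / (TT (i : ℝ)) ^ 2 :=
      one_div_le_one_div_of_le (by positivity) (pow_le_pow_left₀ hT.le hn1 2)
    refine h2.trans ?_
    unfold TT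
    rw [div_le_div_iff₀ (by positivity) (by positivity)]
    have h3 : (0 : ℝ) < i := by linarith
    have h4 : 1 * (75 * (i : ℝ) ^ 4) ≤ 3 / 5 * 1024 * (75 ^ 2 * (i : ℝ) ^ 6 / 1024 ^ 2) := by
      have h5 : (1585 : ℝ) ^ 2 ≤ (i : ℝ) ^ 2 := pow_le_pow_left₀ (by norm_num) h1 2
      have h6 : (i : ℝ) ^ 6 = (i : ℝ) ^ 4 * (i : ℝ) ^ 2 := by ring
      rw [h6]
      have h7 : (i : ℝ) ^ 4 * (1585 : ℝ) ^ 2 ≤ (i : ℝ) ^ 4 * (i : ℝ) ^ 2 := mul_le_mul_of_nonneg_left h5 (by positivity)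
      have h8 : (0 : ℝ) < (i : ℝ) ^ 4 := by positivity
      nlinarith
    calc 1 * (75 * (i : ℝ) ^ 4) ≤ 3 / 5 * 1024 * (75 ^ 2 * (i : ℝ) ^ 6 / 1024 ^ 2) := h4
      _ = _ := by ring
  · unfold gmin gmax
    have h2 : Th i ≤ Th (i - 1) := Th_anti (by omega) (by omega)
    have h3 : Nj i ≤ TT ((i : ℝ) + 16) := by
      unfold Nj
      apply max_le
      · exact TT_mono (by linarith) (by linarith)
      · have := TT_mono (x := 1600) (y := (i : ℝ) + 16) (by norm_num) (by linarith)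
        rw [TT_i0] at this
        have e : (NN : ℝ) = 300000000 := by norm_num [NN]
        rw [e]; exact this
    have h4 := one_div_le_one_div_of_le (Nj_pos i) h3
    linarith

theorem Num.kc_anti {s t : ℝ} (hs : 0 < s) (h : s ≤ t) : kc t ≤ kc s := by
  have h1 := kc_spec hs
  exact kc_le h1.1 (h1.2.trans h)

/-- L8: price of the last class of a block -/
theorem Num.last_class (i : ℕ) (hi : j0 ≤ i) (t : ℝ) (h1 : gmin i ≤ t) (h2 : t ≤ gmax i) :
    (301 / 100) * Th (kc t - 1) ≤ mK i ∧ (301 / 100) * Th (kc t - 1) ≤ (302 / 100) * t ∧ i0 ≤ kc t ∧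
      kc (gmax i) ≤ kc t ∧ kc t ≤ kc (gmin i) ∧ mK (kc t) ≤ mK (kc (gmax i)) := by
  have hi' : 1585 ≤ i := hi
  have hg0 : 0 < gmin i := gmin_pos (by omega)
  have ht0 : 0 < t := by linarith
  have hTh := (gmax_le_Th i hi).2
  have hlow : i0 ≤ kc (gmax i) := by
    by_contra hcon
    have h3 : kc (gmax i) ≤ i0 - 1 := by omega
    have h4 := kc_spec (t := gmax i) (by linarith)
    have h5 : Th (max (i + 1) i0 - 1) ≤ Th (i0 - 1) := Th_anti (by unfold i0; omega) (by unfold i0; omega)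
    have h6 : Th (i0 - 1) ≤ Th (kc (gmax i)) := Th_anti h4.1 h3
    linarith [h4.2]
  have hk1 : kc (gmax i) ≤ kc t := Num.kc_anti ht0 h2
  have hkt : i0 ≤ kc t := hlow.trans hk1
  have hkt' : 1600 ≤ kc t := hkt
  have hr := Num.Th_ratio' (K := kc t) (by omega)
  have hs := (kc_spec ht0).2
  have hA : (301 / 100) * Th (kc t - 1) ≤ (302 / 100) * t := by linarith
  refine ⟨?_, hA, hkt, hk1, Num.kc_anti hg0 h1, ?_⟩
  · unfold mK
    linarith
  · unfold mK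
    apply mul_le_mul_of_nonneg_left _ (by norm_num)
    exact gmax_anti _ _ (by unfold i0 at hlow; unfold j0; omega) hk1

/-- L9: price of the potential bits of a phase -/
theorem pot_price (i : ℕ) (hi : j0 ≤ i) (n : ℕ) (hn : n ∈ PP i) :
    (301 / 100) * Th (kc (xu n - xu (n + 16)) - 1) + mK (kc (xu n - xu (n + 16))) ≤ 50 / (Nj i) ^ 2 := by
  have hi' : 1585 ≤ i := hi
  obtain ⟨f1, f2, f3, f4⟩ := gmin_facts i hi n hn
  have hN := Nj_pos i
  have hN3 := NN_le_Nj i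
  have hnN := (mem_PP_real hn).2.2.2
  set t := xu n - xu (n + 16) with ht
  have hn0 : (0 : ℝ) < n := by linarith
  have et : t = 16 / ((n : ℝ) * (n + 16)) := by
    rw [ht]; unfold xu
    push_cast
    field_simp
    ring
  have ht0 : 0 < t := by rw [et]; positivity
  have htle : t ≤ 16 / (Nj i) ^ 2 := by
    rw [et]
    apply div_le_div_of_nonneg_left (by norm_num) (by positivity)
    nlinarith
  have htg : t ≤ gmax i := by linarith
  have hTh := (gmax_le_Th i hi).2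
  have hlow : i0 ≤ kc (gmax i) := by
    by_contra hcon
    have h3 : kc (gmax i) ≤ i0 - 1 := by omega
    have h4 := kc_spec (t := gmax i) (by linarith)
    have h5 : Th (max (i + 1) i0 - 1) ≤ Th (i0 - 1) := Th_anti (by unfold i0; omega) (by unfold i0; omega)
    have h6 : Th (i0 - 1) ≤ Th (kc (gmax i)) := Th_anti h4.1 h3
    linarith [h4.2]
  have hkt : 1600 ≤ kc t := hlow.trans (Num.kc_anti ht0 htg)
  have hr := Num.Th_ratio' (K := kc t) (by omega)
  have hs := (kc_spec ht0).2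
  have hg := (gmax_le_Th (kc t) (by unfold j0; omega)).1
  have hk : (1600 : ℝ) ≤ kc t := by exact_mod_cast hkt
  have hTh0 : 0 < Th (kc t - 1) := Th_pos (by omega)
  have h52 : 52 / (kc t : ℝ) ≤ 52 / 1600 := div_le_div_of_nonneg_left (by norm_num) (by norm_num) hk
  have hg2 : gmax (kc t) ≤ 52 / 1600 * Th (kc t - 1) := hg.trans (mul_le_mul_of_nonneg_right h52 hTh0.le)
  unfold mK
  have hTle : Th (kc t - 1) ≤ (10019 / 10000) * t := by linarith
  have hfin : (301 / 100) * Th (kc t - 1) + 151 / 50 * gmax (kc t) ≤ (50 / 16) * t := by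
    linarith
  have : (50 / 16) * t ≤ 50 / (Nj i) ^ 2 := by
    calc (50 / 16) * t ≤ (50 / 16) * (16 / (Nj i) ^ 2) := mul_le_mul_of_nonneg_left htle (by norm_num)
      _ = 50 / (Nj i) ^ 2 := by ring
  linarith

end Pool.Agent.MM2
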