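import Pool.Agent.MP_94f265_co.MM2.CarryL

/-!
# Objects with a delayed cut and the service of a class
-/

namespace Pool.Agent.MM2

open Pool.Agent.MM1

/-- An uncut rectangle `t × (total length of the run)`; the pieces `p.1 × p.2`, `p ∈ run`, will lie
side by side along one long side (they are *owed*), above them the cells `(t - p.1) × p.2`. -/
structure Obj where
  t : ℝ
  run : List (ℝ × ℝ)

namespace Obj

/-- total length -/
noncomputable def len (o : Obj) : ℝ := (o.run.map Prod.snd).sum

/-- the uncut rectangle -/
noncomputable def rect (o : Obj) : ℝ × ℝ := (o.t, o.len)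

/-- the cells (thickness, length) -/
noncomputable def cells (o : Obj) : List (ℝ × ℝ) := o.run.map (fun p => (o.t - p.1, p.2))

/-- Well formed: thickness of the cells nonnegative and nondecreasing, lengths nonnegative. -/
structure Ok (o : Obj) : Prop where
  ne : o.run ≠ []
  hh : ∀ p ∈ o.run, 0 ≤ p.1 ∧ p.1 ≤ o.t
  hL : ∀ p ∈ o.run, 0 ≤ p.2
  hs : o.run.Pairwise (fun p q => q.1 ≤ p.1)

/-- potential bits of a run: (difference of the heights, thickness of the left cell) -/
noncomputable def potL (t : ℝ) : List (ℝ × ℝ) → List (ℝ × ℝ)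
  | p :: q :: r => (p.1 - q.1, t - p.1) :: potL t (q :: r)
  | _ => []

/-- the potential bits of an object -/
noncomputable def pot (o : Obj) : List (ℝ × ℝ) := potL o.t o.run

end Obj

/-- all owed pieces -/
noncomputable def owed (Q : Multiset Obj) : Multiset (ℝ × ℝ) :=
  (Q.map (fun o => (Multiset.ofList o.run))).sum

/-- all uncut rectangles -/
noncomputable def rects (Q : Multiset Obj) : Multiset (ℝ × ℝ) := Q.map Obj.rect

/-- all cells -/
noncomputable def cellsOf (Q : Multiset Obj) : Multiset (ℝ × ℝ) :=
  (Q.map (fun o => (Multiset.ofList o.cells))).sum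

/-- all potential bits -/
noncomputable def potOf (Q : Multiset Obj) : Multiset (ℝ × ℝ) :=
  (Q.map (fun o => (Multiset.ofList o.pot))).sum

/-- total length of the strips of thickness in `[a, b)` -/
noncomputable def lenIn (a b : ℝ) (s : Multiset (ℝ × ℝ)) : ℝ := by
  classical
  exact ((s.filter (fun p => a ≤ p.1 ∧ p.1 < b)).map Prod.snd).sum

/-- the object made of the slots `a` in a cell of thickness `w` -/
def mkObj (x y : ℕ → ℝ) (w : ℝ) (a : List ℕ) : Obj := ⟨w, a.map (fun n => (x n, y n))⟩

/-- actual bits against potential bits -/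
def BitLe (b p : ℝ × ℝ) : Prop := b.1 = p.1 ∧ 0 ≤ b.2 ∧ b.2 ≤ p.2

theorem cut_sum {ι : Type*} (I : Finset ι) (f g : ι → Multiset (ℝ × ℝ))
    (h : ∀ i ∈ I, Cut (f i) (g i)) : Cut (∑ i ∈ I, f i) (∑ i ∈ I, g i) := by
  classical
  induction I using Finset.induction_on with
  | empty => simpa using Cut.refl 0
  | insert i I hi ih =>
    rw [Finset.sum_insert hi, Finset.sum_insert hi]
    exact Cut.add (h i (Finset.mem_insert_self _ _))
      (ih (fun j hj => h j (Finset.mem_insert_of_mem hj)))

/-- the bits of a carry are bounded by the potential bits -/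
theorem bits_rel (y : ℕ → ℝ) (η t : ℝ) (s : ℝ) (run : List (ℝ × ℝ)) (A : List (List ℕ)) (e : ℝ)
    (hC : Carry y η s (run.map (fun p => (t - p.1, p.2))) A e)
    (hη : ∀ p ∈ run, η ≤ t - p.1) :
    List.Forall₂ BitLe (bitsOf y s (run.map (fun p => (t - p.1, p.2))) A) (Obj.potL t run) := by
  induction run generalizing s A with
  | nil => simp [bitsOf, Obj.potL]
  | cons p run ih =>
    cases run with
    | nil => rcases A with _ | ⟨a, A⟩ <;> simp [bitsOf, Obj.potL]
    | cons q run =>
      rcases A with _ | ⟨a, A⟩
      · simp [Carry] at hC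
      · simp only [List.map_cons, Carry] at hC
        obtain ⟨h1, h2, h3⟩ := hC
        simp only [List.map_cons, bitsOf, Obj.potL]
        refine List.Forall₂.cons ⟨by ring, by linarith, ?_⟩ ?_
        · have := hη p (by simp)
          simp only
          linarith
        · have := ih (s + (a.map y).sum - p.2) A h3 (fun p' hp' => hη p' (by simp [hp']))
          simpa only [List.map_cons] using this

end Pool.Agent.MM2
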