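import Pool.Agent.MP_94f265_co.MM2.Obj

/-!
# Parameters of the tail: thresholds, classes, gaps
-/

namespace Pool.Agent.MM2

/-- the phases: `P_i = {n ≡ i mod 16, T i ≤ n < T (i + 16)}` -/
noncomputable def TT (x : ℝ) : ℝ := 75 * x ^ 3 / 1024

/-- the thresholds: class `K` = thicknesses in `[Th K, Th (K-1))`; `Th K = 1 / TT (K - 1/5)` -/
noncomputable def Th (K : ℕ) : ℝ := 5120 / (3 * (5 * (K : ℝ) - 1) ^ 3)

/-- width of a class -/
noncomputable def om (K : ℕ) : ℝ := Th (K - 1) - Th K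

/-- length of the members of a class -/
noncomputable def lenK (K : ℕ) (s : Multiset (ℝ × ℝ)) : ℝ := lenIn (Th K) (Th (K - 1)) s

/-- the class of a thickness -/
noncomputable def kc (t : ℝ) : ℕ := sInf {K : ℕ | 1 ≤ K ∧ Th K ≤ t}

/-- the first class with due cells -/
def i0 : ℕ := 1600

/-- the first phase -/
def j0 : ℕ := 1585

/-- the first slot of the tail -/
def NN : ℕ := 300000000

/-- lower bound for the slots of the phase `j` -/
noncomputable def Nj (j : ℕ) : ℝ := max (TT (j : ℝ)) (NN : ℝ)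

/-- the unit `n` is `xu n × yu n`, thickness `xu n`, length `yu n` -/
noncomputable def xu (n : ℕ) : ℝ := 1 / (n : ℝ)

noncomputable def yu (n : ℕ) : ℝ := 1 / ((n : ℝ) + 1)

/-- the slots of the phase `i` -/
def PP (i : ℕ) : Finset ℕ :=
  (Finset.Ico NN (75 * (i + 16) ^ 3)).filter
    (fun n => n % 16 = i % 16 ∧ 75 * i ^ 3 ≤ 1024 * n ∧ 1024 * n < 75 * (i + 16) ^ 3)

/-- largest gap of the phase `i` -/
noncomputable def gmax (i : ℕ) : ℝ := Th (i - 1) - 1 / TT ((i : ℝ) + 16)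

/-- least gap of the phase `i` -/
noncomputable def gmin (i : ℕ) : ℝ := Th i - 1 / Nj i

/-- the gaps of the phase `j` meet the class `K` -/
def active (j K : ℕ) : Prop := Th K ≤ gmax j ∧ gmin j < Th (K - 1)

open Classical in
/-- bound for the length of the class `K` made in the phase `j` -/
noncomputable def cL (j K : ℕ) : ℝ := if active j K then om K * TT ((j : ℝ) + 16) / 16 + 1 / Nj j else 0

open Classical in
/-- bound for the length of the bits of the class `K` made by the objects of the phase `j` -/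
noncomputable def cP (j K : ℕ) : ℝ :=
  (53 / 50) * gmax j *
    (((PP j).filter (fun n : ℕ => Th K ≤ 16 / ((n : ℝ) * ((n : ℝ) + 16)) ∧
      16 / ((n : ℝ) * ((n : ℝ) + 16)) < Th (K - 1))).card : ℝ)

/-- the load of the start, as a multiple of `3 / K` -/
noncomputable def betaK (K : ℕ) : ℝ :=
  if K < 4970 then 864 / 1000 else if K < 5138 then 794 / 1000 else if K < 5312 then 724 / 1000 else
  if K < 5492 then 659 / 1000 else if K < 5678 then 599 / 1000 else if K < 5871 then 544 / 1000 else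
  if K < 6070 then 499 / 1000 else if K < 6488 then 414 / 1000 else if K < 6936 then 349 / 1000 else
  if K < 7414 then 294 / 1000 else if K < 7925 then 249 / 1000 else if K < 8471 then 214 / 1000 else
  if K < 9362 then 169 / 1000 else if K < 10347 then 139 / 1000 else if K < 11822 then 109 / 1000 else
  if K < 13967 then 84 / 1000 else if K < 60000 then 7 / 100 else 85 / 1000

/-- the load of the end pieces, as a multiple of `3 / K` -/
noncomputable def rho : ℝ := 1 / 25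

/-- the price of a cell of the class `K` (it pays for the last class of its block) -/
noncomputable def mK (K : ℕ) : ℝ := (151 / 50) * gmax K

theorem TT_mono {x y : ℝ} (hx : 0 ≤ x) (h : x ≤ y) : TT x ≤ TT y := by
  unfold TT
  have : x ^ 3 ≤ y ^ 3 := pow_le_pow_left₀ hx h 3
  linarith

theorem TT_pos {x : ℝ} (hx : 0 < x) : 0 < TT x := by unfold TT; positivity

theorem TT_i0 : TT 1600 = 300000000 := by unfold TT; norm_num

theorem Th_eq (K : ℕ) : Th K = 1 / TT ((K : ℝ) - 1 / 5) := by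
  unfold Th TT
  have h : (75 : ℝ) * ((K : ℝ) - 1 / 5) ^ 3 / 1024 = 3 * (5 * (K : ℝ) - 1) ^ 3 / 5120 := by ring
  rw [h, one_div_div]

theorem Th_pos {K : ℕ} (hK : 1 ≤ K) : 0 < Th K := by
  unfold Th
  have h1 : (1 : ℝ) ≤ K := by exact_mod_cast hK
  have h2 : 0 < 5 * (K : ℝ) - 1 := by linarith
  positivity

theorem Th_anti {K L : ℕ} (hK : 1 ≤ K) (h : K ≤ L) : Th L ≤ Th K := by
  unfold Th
  have h1 : (1 : ℝ) ≤ K := by exact_mod_cast hK
  have h2 : (K : ℝ) ≤ L := by exact_mod_cast h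
  have h3 : 0 < 5 * (K : ℝ) - 1 := by linarith
  have h4 : (5 * (K : ℝ) - 1) ^ 3 ≤ (5 * (L : ℝ) - 1) ^ 3 := pow_le_pow_left₀ h3.le (by linarith) 3
  have h5 : 0 < (5 * (K : ℝ) - 1) ^ 3 := by positivity
  apply div_le_div_of_nonneg_left (by norm_num) (by positivity)
  linarith

theorem Th_lt {K L : ℕ} (hK : 1 ≤ K) (h : K < L) : Th L < Th K := by
  unfold Th
  have h1 : (1 : ℝ) ≤ K := by exact_mod_cast hK
  have h2 : (K : ℝ) < L := by exact_mod_cast h
  have h3 : 0 < 5 * (K : ℝ) - 1 := by linarith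
  have h4 : (5 * (K : ℝ) - 1) ^ 3 < (5 * (L : ℝ) - 1) ^ 3 :=
    pow_lt_pow_left₀ (by linarith) h3.le (by norm_num)
  have h5 : 0 < (5 * (K : ℝ) - 1) ^ 3 := by positivity
  apply div_lt_div_of_pos_left (by norm_num) (by positivity)
  linarith

/-- two different classes are disjoint -/
theorem class_unique {K L : ℕ} {t : ℝ} (hK : 1 ≤ K) (hL : 1 ≤ L) (h1 : Th K ≤ t) (h2 : t < Th (K - 1))
    (h3 : Th L ≤ t) (h4 : t < Th (L - 1)) : K = L := by
  rcases Nat.lt_trichotomy K L with h | h | h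
  · have : Th (L - 1) ≤ Th K := Th_anti hK (by omega)
    linarith
  · exact h
  · have : Th (K - 1) ≤ Th L := Th_anti hL (by omega)
    linarith

/-- thresholds tend to zero -/
theorem exists_Th_le {t : ℝ} (ht : 0 < t) : ∃ K : ℕ, 1 ≤ K ∧ Th K ≤ t := by
  obtain ⟨n, hn⟩ := exists_nat_gt (1 / t)
  refine ⟨n + 1000, by omega, ?_⟩
  have hn' : 1 < n * t := by rwa [div_lt_iff₀ ht] at hn
  unfold Th
  have h0 : (0 : ℝ) ≤ n := Nat.cast_nonneg n
  push_cast
  have h1 : (0 : ℝ) < 5 * ((n : ℝ) + 1000) - 1 := by linarith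
  rw [div_le_iff₀ (by positivity)]
  have h3 : (n : ℝ) * 1000 ^ 2 ≤ (5 * ((n : ℝ) + 1000) - 1) ^ 3 := by
    have h4 : (1000 : ℝ) ^ 2 ≤ (5 * ((n : ℝ) + 1000) - 1) ^ 2 := pow_le_pow_left₀ (by norm_num) (by linarith) 2
    calc (n : ℝ) * 1000 ^ 2 ≤ (5 * ((n : ℝ) + 1000) - 1) * (5 * ((n : ℝ) + 1000) - 1) ^ 2 :=
          mul_le_mul (by linarith) h4 (by positivity) h1.le
      _ = (5 * ((n : ℝ) + 1000) - 1) ^ 3 := by ring
  nlinarith

theorem kc_spec {t : ℝ} (ht : 0 < t) : 1 ≤ kc t ∧ Th (kc t) ≤ t :=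
  Nat.sInf_mem (exists_Th_le ht)

theorem kc_le {t : ℝ} {K : ℕ} (hK : 1 ≤ K) (h : Th K ≤ t) : kc t ≤ K :=
  Nat.sInf_le ⟨hK, h⟩

theorem lt_Th_kc {t : ℝ} (h2 : 2 ≤ kc t) : t < Th (kc t - 1) := by
  by_contra h
  have := kc_le (t := t) (K := kc t - 1) (by omega) (not_lt.1 h)
  omega

theorem kc_eq {t : ℝ} {K : ℕ} (hK : 2 ≤ K) (h1 : Th K ≤ t) (h2 : t < Th (K - 1)) : kc t = K := by
  have ht : 0 < t := lt_of_lt_of_le (Th_pos (by omega)) h1
  have h3 := kc_le (K := K) (by omega) h1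
  by_contra h
  have h4 : kc t ≤ K - 1 := by omega
  have h5 := Th_anti (kc_spec ht).1 h4
  linarith [(kc_spec ht).2]

theorem two_le_kc {t : ℝ} (ht : 0 < t) (h : t < 26) : 2 ≤ kc t := by
  by_contra h2
  have h3 := kc_spec ht
  have h4 : kc t = 1 := by omega
  rw [h4] at h3
  have h5 : Th 1 = 80 / 3 := by unfold Th; norm_num
  linarith [h3.2]

/-- relative width of a class -/
theorem om_le {K : ℕ} (hK : 2 ≤ K) : om K / Th (K - 1) ≤ 3 / K := by
  unfold om
  have h1 : (2 : ℝ) ≤ K := by exact_mod_cast hK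
  have h2 : ((K - 1 : ℕ) : ℝ) = (K : ℝ) - 1 := by rw [Nat.cast_sub (by omega)]; simp
  have ha : 0 < 5 * (K : ℝ) - 6 := by linarith
  have hb : 0 < 5 * (K : ℝ) - 1 := by linarith
  have h3 : Th K = Th (K - 1) * ((5 * (K : ℝ) - 6) / (5 * K - 1)) ^ 3 := by
    unfold Th
    rw [h2]
    have e : 5 * ((K : ℝ) - 1) - 1 = 5 * K - 6 := by ring
    rw [e]
    field_simp
  have h4 : 0 < Th (K - 1) := Th_pos (by omega)
  rw [h3]
  have h5 : (Th (K - 1) - Th (K - 1) * ((5 * (K : ℝ) - 6) / (5 * K - 1)) ^ 3) / Th (K - 1) =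
      1 - ((5 * (K : ℝ) - 6) / (5 * K - 1)) ^ 3 := by
    field_simp
  rw [h5, sub_le_iff_le_add, ← sub_le_iff_le_add', div_pow, le_div_iff₀ (by positivity)]
  have h6 : (1 - 3 / (K : ℝ)) = ((K : ℝ) - 3) / K := by field_simp
  rw [h6, div_mul_eq_mul_div, div_le_iff₀ (by linarith)]
  nlinarith [mul_nonneg (by linarith : (0:ℝ) ≤ (K : ℝ) - 2) (by linarith : (0:ℝ) ≤ (K : ℝ) - 2)]

/-- ratio of neighbouring thresholds -/
theorem Th_ratio {K : ℕ} (hK : 300 ≤ K) : (99 / 100) * Th (K - 1) ≤ Th K := by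
  have h1 := om_le (K := K) (by omega)
  have h2 : 0 < Th (K - 1) := Th_pos (by omega)
  have h3 : (300 : ℝ) ≤ K := by exact_mod_cast hK
  rw [div_le_iff₀ h2] at h1
  have h4 : 3 / (K : ℝ) ≤ 1 / 100 := by
    rw [div_le_div_iff₀ (by linarith) (by norm_num)]; linarith
  unfold om at h1
  nlinarith

theorem mem_PP {n i : ℕ} : n ∈ PP i ↔ NN ≤ n ∧ n % 16 = i % 16 ∧ 75 * i ^ 3 ≤ 1024 * n ∧
    1024 * n < 75 * (i + 16) ^ 3 := by
  unfold PP
  rw [Finset.mem_filter, Finset.mem_Ico]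
  constructor
  · rintro ⟨⟨h1, _⟩, h3, h4, h5⟩
    exact ⟨h1, h3, h4, h5⟩
  · rintro ⟨h1, h3, h4, h5⟩
    exact ⟨⟨h1, by omega⟩, h3, h4, h5⟩

/-- real form of the bounds of a phase -/
theorem mem_PP_real {n i : ℕ} (h : n ∈ PP i) :
    TT (i : ℝ) ≤ n ∧ (n : ℝ) < TT ((i : ℝ) + 16) ∧ (NN : ℝ) ≤ n ∧ Nj i ≤ n := by
  obtain ⟨h1, _, h3, h4⟩ := mem_PP.1 h
  have h3' : (75 : ℝ) * (i : ℝ) ^ 3 ≤ 1024 * n := by exact_mod_cast h3
  have h4' : (1024 : ℝ) * n < 75 * ((i : ℝ) + 16) ^ 3 := by exact_mod_cast h4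
  have h1' : (NN : ℝ) ≤ n := by exact_mod_cast h1
  have h5 : TT (i : ℝ) ≤ n := by unfold TT; linarith
  refine ⟨h5, by unfold TT; linarith, h1', max_le h5 h1'⟩

/-- every slot `n ≥ NN` lies in exactly one phase `i ≥ j0` -/
theorem exists_PP {n : ℕ} (hn : NN ≤ n) : ∃ i, j0 ≤ i ∧ n ∈ PP i := by
  classical
  -- the largest admissible index
  have hne : ∃ i, i % 16 = n % 16 ∧ j0 ≤ i ∧ 75 * i ^ 3 ≤ 1024 * n := by
    refine ⟨1585 + (n % 16 + 15) % 16, by omega, by unfold j0; omega, ?_⟩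
    have h1 : 1585 + (n % 16 + 15) % 16 ≤ 1600 := by omega
    have h2 : (1585 + (n % 16 + 15) % 16) ^ 3 ≤ 1600 ^ 3 := Nat.pow_le_pow_left h1 3
    unfold NN at hn
    omega
  obtain ⟨i1, h1⟩ := hne
  set P : ℕ → Prop := fun i => i % 16 = n % 16 ∧ j0 ≤ i ∧ 75 * i ^ 3 ≤ 1024 * n with hP
  have hb : ∀ i, P i → i ≤ 1024 * n := by
    intro i hi
    have h2 : i ≤ i ^ 3 := by
      calc i = i ^ 1 := (pow_one i).symm
        _ ≤ i ^ 3 := Nat.pow_le_pow_right (by have := hi.2.1; unfold j0 at this; omega) (by norm_num)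
    have := hi.2.2
    omega
  set m := Nat.findGreatest P (1024 * n) with hm
  have hPm : P m := Nat.findGreatest_spec (hb i1 h1) h1
  refine ⟨m, hPm.2.1, mem_PP.2 ⟨hn, hPm.1.symm, hPm.2.2, ?_⟩⟩
  by_contra hcon
  push Not at hcon
  have hP' : P (m + 16) := ⟨by have := hPm.1; omega, by have := hPm.2.1; omega, hcon⟩
  have := Nat.le_findGreatest (hb _ hP') hP'
  omega

theorem PP_unique {n i j : ℕ} (hi : n ∈ PP i) (hj : n ∈ PP j) : i = j := by
  obtain ⟨_, a2, a3, a4⟩ := mem_PP.1 hi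
  obtain ⟨_, b2, b3, b4⟩ := mem_PP.1 hj
  have key : ∀ i j : ℕ, i % 16 = j % 16 → 1024 * n < 75 * (i + 16) ^ 3 → 75 * j ^ 3 ≤ 1024 * n → ¬ i < j := by
    intro i j h1 h2 h3 h4
    have h5 : i + 16 ≤ j := by omega
    have h6 : (i + 16) ^ 3 ≤ j ^ 3 := Nat.pow_le_pow_left h5 3
    omega
  have := key i j (by omega) a4 b3
  have := key j i (by omega) b4 a3
  omega

end Pool.Agent.MM2
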