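import Pool.Agent.MP_94f265_co.MM1.Geom

/-!
# Cuts given by an explicit placement
-/

namespace Pool.Agent.MM1

/-- The side lengths of a placed rectangle. -/
def PR.dims (p : PR) : ℝ × ℝ := (p.a, p.b)

/-- An explicit placement of pairwise separated rectangles inside `[0,A] × [0,B]` with the right
total area is a cut of the rectangle `A × B`. -/
theorem cut_of_placed (A B : ℝ) (L : List PR) (hsep : L.Pairwise PR.Sep)
    (hsub : ∀ q ∈ L, q.Sub ⟨0, 0, A, B⟩)
    (harea : (L.map (fun q => q.a * q.b)).sum = A * B) :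
    Cut {(A, B)} ((L.map PR.dims : List (ℝ × ℝ)) : Multiset (ℝ × ℝ)) := by
  refine ⟨?_, fun P hP hR => ?_⟩
  · simp only [area, Multiset.map_singleton, Multiset.sum_singleton, Multiset.map_coe,
      Multiset.sum_coe, List.map_map]
    rw [← harea]
    rfl
  rw [← Multiset.cons_zero, Multiset.rel_cons_right] at hR
  obtain ⟨p, as', hp, has, hP'⟩ := hR
  rw [Multiset.rel_zero_right] at has
  subst has
  have hP2 : P = [p] := by
    have : (P : Multiset PR) = (([p] : List PR) : Multiset PR) := by rw [hP']; rfl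
    exact List.perm_singleton.1 (Multiset.coe_eq_coe.1 this)
  subst hP2
  have hrel : ∀ (f : PR → PR) (M : List PR), (∀ q ∈ M, (f q).Has q.dims) →
      Multiset.Rel PR.Has ((M.map f : List PR) : Multiset PR)
        ((M.map PR.dims : List (ℝ × ℝ)) : Multiset (ℝ × ℝ)) := by
    intro f M hM
    induction M with
    | nil => exact Multiset.Rel.zero
    | cons q M ih =>
      rw [List.map_cons, List.map_cons, ← Multiset.cons_coe, ← Multiset.cons_coe]
      exact Multiset.Rel.cons (hM q (by simp)) (ih (fun q' hq' => hM q' (by simp [hq'])))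
  rcases hp with hp | hp
  · obtain ⟨h1, h2⟩ := hp
    simp only at h1 h2
    refine ⟨L.map (fun q => ⟨p.x + q.x, p.y + q.y, q.a, q.b⟩), ?_, ?_, ?_⟩
    · rw [List.pairwise_map]
      refine hsep.imp ?_
      intro q q' h
      unfold PR.Sep at *
      simp only
      rcases h with h | h | h | h
      · left; linarith
      · right; left; linarith
      · right; right; left; linarith
      · right; right; right; linarith
    · exact hrel _ L (fun q _ => Or.inl ⟨rfl, rfl⟩)
    · intro q hq
      obtain ⟨q', hq', rfl⟩ := List.mem_map.1 hq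
      obtain ⟨s1, s2, s3, s4⟩ := hsub q' hq'
      simp only at s1 s2 s3 s4
      refine ⟨p, by simp, ?_, ?_, ?_, ?_⟩ <;> simp only [h1, h2] <;> linarith
  · obtain ⟨h1, h2⟩ := hp
    simp only at h1 h2
    refine ⟨L.map (fun q => ⟨p.x + q.y, p.y + q.x, q.b, q.a⟩), ?_, ?_, ?_⟩
    · rw [List.pairwise_map]
      refine hsep.imp ?_
      intro q q' h
      unfold PR.Sep at *
      simp only
      rcases h with h | h | h | h
      · right; right; left; linarith
      · right; right; right; linarith
      · left; linarith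
      · right; left; linarith
    · exact hrel _ L (fun q _ => Or.inr ⟨rfl, rfl⟩)
    · intro q hq
      obtain ⟨q', hq', rfl⟩ := List.mem_map.1 hq
      obtain ⟨s1, s2, s3, s4⟩ := hsub q' hq'
      simp only at s1 s2 s3 s4
      refine ⟨p, by simp, ?_, ?_, ?_, ?_⟩ <;> simp only [h1, h2] <;> linarith

/-- Indexed form of `cut_of_placed`. -/
theorem cut_of_family {ι : Type*} (A B : ℝ) (I : Finset ι) (f : ι → PR)
    (hsep : ∀ i ∈ I, ∀ j ∈ I, i ≠ j → (f i).Sep (f j))
    (hsub : ∀ i ∈ I, (f i).Sub ⟨0, 0, A, B⟩)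
    (harea : ∑ i ∈ I, (f i).a * (f i).b = A * B) :
    Cut {(A, B)} (I.val.map (fun i => ((f i).a, (f i).b))) := by
  have h := cut_of_placed A B (I.toList.map f) ?_ ?_ ?_
  · refine h.trans (Cut.of_eq ?_)
    rw [List.map_map, ← Multiset.map_coe, Finset.coe_toList]
    rfl
  · rw [List.pairwise_map]
    have hnd := I.nodup_toList
    have : I.toList.Pairwise (fun i j => i ∈ I → j ∈ I → (f i).Sep (f j)) :=
      hnd.imp (fun {i j} hij hi hj => hsep i hi j hj hij)
    refine this.imp_of_mem ?_
    intro i j hi hj h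
    exact h (Finset.mem_toList.1 hi) (Finset.mem_toList.1 hj)
  · intro q hq
    obtain ⟨i, hi, rfl⟩ := List.mem_map.1 hq
    exact hsub i (Finset.mem_toList.1 hi)
  · rw [List.map_map, ← harea]
    exact Finset.sum_map_toList I (fun i => (f i).a * (f i).b)

/-- Degenerate pieces may be dropped. -/
theorem Cut.drop (F : Multiset (ℝ × ℝ)) (G : Multiset (ℝ × ℝ))
    (hG : ∀ d ∈ G, d.1 * d.2 = 0) : Cut (F + G) F := by
  refine ⟨?_, fun P hP hR => ?_⟩
  · rw [area_add]
    have : area G = 0 := by
      unfold area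
      apply Multiset.sum_eq_zero
      intro x hx
      obtain ⟨d, hd, rfl⟩ := Multiset.mem_map.1 hx
      exact hG d hd
    rw [this, add_zero]
  · rw [Multiset.rel_add_right] at hR
    obtain ⟨U, V, hU, hV, hUV⟩ := hR
    obtain ⟨P0, rfl⟩ := Quot.exists_rep U
    obtain ⟨P1, rfl⟩ := Quot.exists_rep V
    have hperm : P.Perm (P0 ++ P1) := by
      have : (P : Multiset PR) = ((P0 ++ P1 : List PR) : Multiset PR) := by
        rw [hUV]; rfl
      exact Multiset.coe_eq_coe.1 this
    have hpw : (P0 ++ P1).Pairwise PR.Sep :=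
      (hperm.pairwise_iff (fun h => PR.Sep.symm h)).1 hP
    rw [List.pairwise_append] at hpw
    refine ⟨P0, hpw.1, hU, fun q hq => ⟨q, ?_, PR.Sub.refl q⟩⟩
    exact hperm.mem_iff.2 (List.mem_append_left _ hq)

end Pool.Agent.MM1
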