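import Pool.Agent.MP_94f265_co.MM2.PsiA

/-!
# The potential in one phase
-/

namespace Pool.Agent.MM2

open Pool.Agent.MM1

/-- the final remainder of a carry -/
theorem BCarry.rem_bounds {y : ℕ → ℝ} {κ δ yM : ℝ} (s : ℝ) (c : List (ℝ × ℝ)) (A : List (List ℕ))
    (e : ℝ) (h : BCarry y κ δ yM s c A e) (hc : c ≠ []) : δ ≤ e ∧ e ≤ δ + yM := by
  induction c generalizing s A with
  | nil => exact absurd rfl hc
  | cons p c ih =>
    cases c with
    | nil =>
      match A, h with
      | [a], h =>
        simp only [BCarry] at h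
        exact h.2
      | [], h => simp [BCarry] at h
      | _ :: _ :: _, h => simp [BCarry] at h
    | cons q c =>
      match A, h with
      | [], h => simp [BCarry] at h
      | a :: A, h =>
        simp only [BCarry] at h
        exact ih _ A h.2.2 (by simp)

theorem sum_le_length {α : Type*} (L : List α) (f : α → ℝ) (c : ℝ) (h : ∀ a ∈ L, f a ≤ c) :
    (L.map f).sum ≤ (L.length : ℝ) * c := by
  induction L with
  | nil => simp
  | cons a L ih =>
    have h1 := ih (fun b hb => h b (by simp [hb]))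
    have h2 := h a (by simp)
    rw [List.map_cons, List.sum_cons, List.length_cons]
    push_cast
    linarith

/-- the end of a service -/
theorem Res.end_le {i : ℕ} (hi : 2 ≤ i) {W : ℕ → ℝ} {r : Res} (hok : r.o.Ok)
    (hg : r.Good yu (51 / 50) (del i) (yM i) W) (hcell : ∀ p ∈ r.o.run, r.o.t - p.1 ≤ Th (i - 1)) :
    2 * r.endp.2 + r.endp.1 ≤ wK i := by
  have hne : r.cells ≠ [] := by
    unfold Res.cells Obj.cells
    simpa using hok.ne
  have he := (BCarry.rem_bounds 0 r.cells r.A r.e hg.carry hne).2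
  have hy : yM i < Th i := yM_lt_Th (by omega)
  have hy0 := yM_pos i
  have hT : Th i ≤ Th (i - 1) := Th_anti (by omega) (by omega)
  have htau : r.tau ≤ Th (i - 1) := by
    unfold Res.tau Obj.cells
    have hne' := hok.ne
    cases hrun : r.o.run with
    | nil => exact absurd hrun hne'
    | cons p l =>
      simp only [List.map_cons, List.headD_cons]
      exact hcell p (by rw [hrun]; simp)
  unfold Res.endp wK
  unfold del at he
  simp only
  linarith

section

variable {i : ℕ} {s : TState} {d : PhaseData}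

theorem PhaseOK.mem_RP (h : PhaseOK i s d) : ∀ r ∈ d.RP, ∃ p ∈ s.P, plainObj p = r.o := by
  intro r hr
  have h1 : r.o ∈ s.P.map plainObj := by
    rw [← h.hRP]
    simpa using List.mem_map_of_mem (f := Res.o) hr
  exact Multiset.mem_map.1 h1

theorem PhaseOK.mem_RR (h : PhaseOK i s d) : ∀ r ∈ d.RR, r.o ∈ sufQ (Th i) s.QR := by
  intro r hr
  rw [← h.hRR]
  simpa using List.mem_map_of_mem (f := Res.o) hr

theorem PhaseOK.mem_RQ (h : PhaseOK i s d) : ∀ r ∈ d.RQ, r.o ∈ sufQ (Th i) s.QE := by
  intro r hr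
  rw [← h.hRQ]
  simpa using List.mem_map_of_mem (f := Res.o) hr

theorem PhaseOK.card_RP (h : PhaseOK i s d) : d.RP.length = Multiset.card s.P := by
  have := congrArg Multiset.card h.hRP
  simpa using this

theorem PhaseOK.card_RR (h : PhaseOK i s d) : d.RR.length = Multiset.card (sufQ (Th i) s.QR) := by
  have := congrArg Multiset.card h.hRR
  simpa using this

theorem PhaseOK.card_RQ (h : PhaseOK i s d) : d.RQ.length = Multiset.card (sufQ (Th i) s.QE) := by
  have := congrArg Multiset.card h.hRQ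
  simpa using this

theorem PhaseOK.memRs (_h : PhaseOK i s d) :
    (∀ r ∈ d.RP, r ∈ d.Rs) ∧ (∀ r ∈ d.RR, r ∈ d.Rs) ∧ (∀ r ∈ d.RQ, r ∈ d.Rs) ∧
      (∀ r ∈ d.RE, r ∈ d.Rs) := by
  unfold PhaseData.Rs
  refine ⟨fun r hr => ?_, fun r hr => ?_, fun r hr => ?_, fun r hr => ?_⟩ <;>
    simp only [List.mem_append] <;> tauto

/-- the slots of the services are slots of the phase -/
theorem PhaseOK.mem_A (h : PhaseOK i s d) : ∀ r ∈ d.Rs, ∀ a ∈ r.A, ∀ n ∈ a, n ∈ PP i := by
  intro r hr a ha n hn
  have h1 : a ∈ Multiset.ofList d.Bs := by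
    rw [h.blocks]
    have : ∀ (L : List Res), r ∈ L → a ∈ (L.map (fun r => Multiset.ofList r.A)).sum := by
      intro L hL
      induction L with
      | nil => simp at hL
      | cons r' L ih =>
        rw [List.map_cons, List.sum_cons, Multiset.mem_add]
        rcases List.mem_cons.1 hL with rfl | hL
        · exact Or.inl (by simpa using ha)
        · exact Or.inr (ih hL)
    exact this d.Rs hr
  rw [← mem_slots, h.slots_eq, List.mem_append]
  left
  rw [List.mem_flatten]
  exact ⟨a, by simpa using h1, hn⟩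

theorem PhaseOK.mem_rows (h : PhaseOK i s d) : ∀ a ∈ d.rows, ∀ n ∈ a, n ∈ PP i := by
  intro a ha n hn
  rw [← mem_slots, h.slots_eq, List.mem_append]
  right
  rw [List.mem_flatten]
  exact ⟨a, ha, hn⟩

theorem Res.A_length {W : ℕ → ℝ} {κ δ yM : ℝ} {r : Res} (hg : r.Good yu κ δ yM W) :
    r.A.length = r.o.run.length := by
  have := hg.hW.length_eq
  rw [← this]
  unfold Res.cells Obj.cells
  simp

/-- the classes of the slots of the phase, in the order of the slots -/
theorem PhaseOK.class_mono (h : PhaseOK i s d) (hi : 1585 ≤ i) :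
    (slots i).Pairwise (fun n m => cW d.W n ≤ cW d.W m) := by
  refine (slots_pairwise i).imp_of_mem ?_
  intro n m hn hm hnm
  have hn' := mem_slots.1 hn
  have hm' := mem_slots.1 hm
  have h1 := h.mono m hm' n hn' (le_of_lt hnm)
  have h2 : xu n ≤ xu m := by
    unfold xu
    have h3 := (mem_PP_real hm').2.2.1
    have h4 : ((NN : ℕ) : ℝ) = 300000000 := by norm_num [NN]
    rw [h4] at h3
    exact one_div_le_one_div_of_le (by linarith) (by exact_mod_cast le_of_lt hnm)
  have h5 := gap_ge hm' (h.range m hm').1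
  have h6 := gmin_pos (i := i) (by omega)
  unfold cW
  apply kc_anti (by linarith)
  linarith

theorem PhaseOK.class_nonneg (h : PhaseOK i s d) (hi : 1585 ≤ i) :
    ∀ n ∈ slots i, 0 ≤ wK (cW d.W n) := by
  intro n hn
  have hn' := mem_slots.1 hn
  apply wK_nonneg
  have h1 := (cell_m hi hn' (h.range n hn').1 (h.range n hn').2).2.1
  have hg : 0 < gmax i := by
    have h2 := gap_ge hn' (h.range n hn').1
    have h3 := gap_le hn' (h.range n hn').2
    have h4 := gmin_pos (i := i) (by omega)
    linarith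
  have : i + 1 ≤ kc (gmax i) := kc_ge (by omega) hg (by
    have := gmax_lt_Th hi
    have e : i + 1 - 1 = i := by omega
    rw [e]
    exact this)
  unfold cW
  omega

/-- the excess prices of all blocks and rows -/
theorem PhaseOK.exc_le (h : PhaseOK i s d) (hi : 1585 ≤ i) :
    ((d.RP ++ d.RR ++ d.RQ).map (fun r => (r.A.map (excB wK (cW d.W))).sum)).sum +
      (d.rows.map (excB wK (cW d.W))).sum ≤ ∑ K ∈ Finset.Icc (k1 i) (kc (gmin i)), wK K := by
  have hfl : (d.Bs ++ d.rows).flatten = slots i := by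
    rw [List.flatten_append, ← h.slots_eq]
  set S : Multiset (List ℕ) := ((d.RP ++ d.RR ++ d.RQ).map (fun r => Multiset.ofList r.A)).sum +
    Multiset.ofList d.rows with hS
  have hle : S ≤ ((d.Bs ++ d.rows : List (List ℕ)) : Multiset (List ℕ)) := by
    have e1 : ((d.Bs ++ d.rows : List (List ℕ)) : Multiset (List ℕ)) =
        Multiset.ofList d.Bs + Multiset.ofList d.rows := by simp
    rw [e1, h.blocks, hS]
    apply add_le_add _ le_rfl
    unfold PhaseData.Rs
    rw [List.map_append (l₁ := d.RP ++ d.RR ++ d.RQ), List.sum_append]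
    exact Multiset.le_add_right _ _
  have h1 := span_part wK (cW d.W) (d.Bs ++ d.rows) S hle
    (by rw [hfl]; exact h.class_nonneg hi) (by rw [hfl]; exact h.class_mono hi)
  rw [hfl] at h1
  have e2 : (S.map (excB wK (cW d.W))).sum =
      ((d.RP ++ d.RR ++ d.RQ).map (fun r => (r.A.map (excB wK (cW d.W))).sum)).sum +
      (d.rows.map (excB wK (cW d.W))).sum := by
    rw [hS, Multiset.map_add, Multiset.sum_add, sum_flat]
    simp only [Multiset.map_coe, Multiset.sum_coe]
  rw [← e2]
  refine h1.trans ?_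
  apply Finset.sum_le_sum_of_subset_of_nonneg
  · intro K hK
    rw [List.mem_toFinset, List.mem_map] at hK
    obtain ⟨n, hn, rfl⟩ := hK
    have hn' := mem_slots.1 hn
    obtain ⟨_, h2, h3⟩ := cell_m hi hn' (h.range n hn').1 (h.range n hn').2
    rw [Finset.mem_Icc]
    exact ⟨h2, h3⟩
  · intro K hK _
    rw [Finset.mem_Icc] at hK
    apply wK_nonneg
    by_cases hne : (slots i) = []
    · -- no slot: the window may start low, but its members are still at least `2`
      unfold k1 at hK
      have hg : 0 < gmax i ∨ gmax i ≤ 0 := lt_or_ge _ _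
      rcases hg with hg | hg
      · have : i + 1 ≤ kc (gmax i) := kc_ge (by omega) hg (by
          have := gmax_lt_Th hi
          have e : i + 1 - 1 = i := by omega
          rw [e]
          exact this)
        omega
      · exfalso
        have h2 : gmax i = (1024 / 75) * (1 / ((i : ℝ) - 6 / 5) ^ 3 - 1 / ((i : ℝ) + 16) ^ 3) :=
          gmax_eq (by omega)
        have h3 : (1585 : ℝ) ≤ i := by exact_mod_cast hi
        have ha : 0 < (i : ℝ) - 6 / 5 := by linarith
        have : 1 / ((i : ℝ) + 16) ^ 3 < 1 / ((i : ℝ) - 6 / 5) ^ 3 :=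
          one_div_lt_one_div_of_lt (by positivity)
            (pow_lt_pow_left₀ (by linarith) ha.le (by norm_num))
        linarith
    · obtain ⟨n, hn⟩ := List.exists_mem_of_ne_nil _ hne
      have hn' := mem_slots.1 hn
      have h2 := gap_ge hn' (h.range n hn').1
      have h3 := gap_le hn' (h.range n hn').2
      have h4 := gmin_pos (i := i) (by omega)
      have hg : 0 < gmax i := by linarith
      have : i + 1 ≤ kc (gmax i) := kc_ge (by omega) hg (by
        have := gmax_lt_Th hi
        have e : i + 1 - 1 = i := by omega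
        rw [e]
        exact this)
      unfold k1 at hK
      omega

/-- sum of the lengths of the runs -/
theorem run_sum (R : List Res) (Q : Multiset Obj) (h : Multiset.ofList (R.map Res.o) = Q) :
    (R.map (fun r => (r.o.run.length : ℝ))).sum = ((Multiset.card (cellsOf Q) : ℕ) : ℝ) := by
  rw [card_cellsOf, ← h, Multiset.map_coe, Multiset.sum_coe, List.map_map]
  rfl

/-- the regular new objects -/
theorem PhaseOK.psiR_new (h : PhaseOK i s d) (hi : 1585 ≤ i) (R : List Res)
    (hR : ∀ r ∈ R, r ∈ d.Rs) :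
    psiR ((R.map (fun r => Multiset.ofList (r.news xu yu))).sum) ≤
      (R.map (fun r => (r.A.map (excB wK (cW d.W))).sum)).sum +
        (R.map (fun r => (r.o.run.length : ℝ))).sum * mK i := by
  induction R with
  | nil => simp [psiR]
  | cons r R ih =>
    have ih' := ih (fun r' hr' => hR r' (by simp [hr']))
    have hr := hR r (by simp)
    have h1 := newsL_psiO d.W r.cells r.A (h.good r hr).2.hW
    have h2 := sum_costB_le hi d.W h.range r.A (h.mem_A r hr)
    have h3 : (r.A.length : ℝ) = (r.o.run.length : ℝ) := by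
      exact_mod_cast Res.A_length (h.good r hr).2
    rw [List.map_cons, List.sum_cons, psiR_add, Res.news_eq, h1, List.map_cons, List.sum_cons,
      List.map_cons, List.sum_cons]
    rw [h3] at h2
    nlinarith

/-- the objects of the rows -/
theorem PhaseOK.psiR_rows (h : PhaseOK i s d) (hi : 1585 ≤ i) :
    psiR (d.rowO i) ≤ (d.rows.map (excB wK (cW d.W))).sum + (d.rows.length : ℝ) * mK i := by
  have h1 : psiR (d.rowO i) = (d.rows.map (costB wK (cW d.W))).sum := by
    unfold psiR PhaseData.rowO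
    rw [Multiset.map_coe, Multiset.sum_coe, List.map_map]
    congr 1
    apply List.map_congr_left
    intro a ha
    simp only [Function.comp_apply]
    apply psiO_mkObj
    intro n hn
    exact h.rowW n (List.mem_flatten.2 ⟨a, ha, hn⟩)
  rw [h1]
  exact sum_costB_le hi d.W h.range d.rows h.mem_rows

/-- the class prices of the new objects born in end pieces -/
theorem PhaseOK.psiC_newE (h : PhaseOK i s d) :
    psiC d.newE = (d.RE.map (fun r => (r.A.flatten.map (fun n => wK (cW d.W n))).sum)).sum := by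
  have key : ∀ R : List Res, (∀ r ∈ R, r ∈ d.Rs) →
      psiC ((R.map (fun r => Multiset.ofList (r.news xu yu))).sum) =
      (R.map (fun r => (r.A.flatten.map (fun n => wK (cW d.W n))).sum)).sum := by
    intro R
    induction R with
    | nil => intro _; simp [psiC_zero]
    | cons r R ih =>
      intro hR
      have hr := hR r (by simp)
      rw [List.map_cons, List.sum_cons, psiC_add, ih (fun r' hr' => hR r' (by simp [hr'])),
        List.map_cons, List.sum_cons]
      congr 1
      unfold psiC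
      rw [Res.news_eq, newsL_cells xu yu d.W r.cells r.A (h.good r hr).2.hW, Multiset.map_coe,
        Multiset.sum_coe, List.map_map]
      rfl
  exact key d.RE h.memRs.2.2.2

/-- the prices of all new cells -/
theorem PhaseOK.psiM_new (h : PhaseOK i s d) (hi : 1585 ≤ i) :
    psiM d.newR + psiM d.newE + psiM (d.rowO i) ≤ ((PP i).card : ℝ) * mK (k1 i) := by
  have h1 := h.new_cells
  have h2 : psiM d.newR + psiM d.newE + psiM (d.rowO i) = ∑ n ∈ PP i, mK (cW d.W n) := by
    unfold psiM
    rw [← Multiset.sum_add, ← Multiset.map_add, ← Multiset.sum_add, ← Multiset.map_add, h1,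
      Multiset.map_map]
    rfl
  rw [h2]
  have h3 : ∀ n ∈ PP i, mK (cW d.W n) ≤ mK (k1 i) := fun n hn =>
    (cell_m hi hn (h.range n hn).1 (h.range n hn).2).1
  have h4 := Finset.sum_le_card_nsmul (PP i) (fun n => mK (cW d.W n)) (mK (k1 i)) h3
  rwa [nsmul_eq_mul] at h4

/-- the prices of all new potential bits -/
theorem PhaseOK.psiP_new (h : PhaseOK i s d) :
    psiP d.newR + psiP d.newE + psiP (d.rowO i) ≤ ((PP i).card : ℝ) * (50 / (Nj i) ^ 2) := by
  have h1 := h.new_pots
  have h2 : psiP d.newR + psiP d.newE + psiP (d.rowO i) ≤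
      ∑ n ∈ PP i, potW (xu n - xu (n + 16)) := by
    have h3 := sum_map_le_of_le _ _ h1 (fun p => potW p.1) (by
      intro p hp
      obtain ⟨n, hn, rfl⟩ := Multiset.mem_map.1 hp
      have hn' : n ∈ PP i := by simpa using hn
      apply potW_nonneg
      have h4 := (mem_PP_real hn').2.2.1
      have h5 : ((NN : ℕ) : ℝ) = 300000000 := by norm_num [NN]
      rw [h5] at h4
      unfold xu
      push_cast
      have h6 : 1 / (n : ℝ) ≤ 1 := by
        rw [div_le_one (by linarith)]
        linarith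
      have h7 : 0 ≤ 1 / ((n : ℝ) + 16) := by positivity
      linarith)
    unfold psiP
    rw [← Multiset.sum_add, ← Multiset.map_add, ← Multiset.sum_add, ← Multiset.map_add]
    refine h3.trans (le_of_eq ?_)
    rw [Multiset.map_map]
    rfl
  refine h2.trans ?_
  have h4 := Finset.sum_le_card_nsmul (PP i) (fun n => potW (xu n - xu (n + 16)))
    (50 / (Nj i) ^ 2) (fun n hn => pot_price' hn)
  rwa [nsmul_eq_mul] at h4

/-- prices of the actual bits of a service -/
theorem bits_price (b p : Multiset (ℝ × ℝ)) (h : Multiset.Rel BitLe' b p) :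
    (b.map (fun q => potW q.1)).sum = (p.map (fun q => potW q.1)).sum := by
  induction h with
  | zero => simp
  | @cons a c as cs hac _ ih =>
    rw [Multiset.map_cons, Multiset.sum_cons, Multiset.map_cons, Multiset.sum_cons, ih, hac.1]

theorem bits_due (hi : 2 ≤ i) {W : ℕ → ℝ} {r : Res} (hg : r.Good yu (51 / 50) (del i) (yM i) W)
    {Q : Multiset Obj} (hQ : ∀ o ∈ Q, OInv (Th (i - 1)) o) (hr : r.o ∈ sufQ (Th i) Q) :
    ((r.bits yu).map (fun q => potW q.1)).sum = (r.o.pot.map (fun q => potW q.1)).sum := by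
  obtain ⟨g1, g2⟩ := OInv.sufQ hQ r.o hr
  have h1 := r.bits_rel hg (fun p hp => (yM_lt_Th (by omega)).le.trans (g2 p hp))
    (fun p hp => ⟨g1.pot_nonneg p hp, g1.eta p hp⟩)
  have h2 := bits_price _ _ h1
  simpa using h2

theorem psiP_list (R : List Res) (Q : Multiset Obj) (h : Multiset.ofList (R.map Res.o) = Q) :
    psiP Q = (R.map (fun r => (r.o.pot.map (fun q => potW q.1)).sum)).sum := by
  subst h
  induction R with
  | nil => simp [psiP_zero]
  | cons r R ih =>
    rw [List.map_cons, ← Multiset.cons_coe, ← Multiset.singleton_add, psiP_add, ih, List.map_cons,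
      List.sum_cons]
    congr 1
    unfold psiP
    rw [potOf_single, Multiset.map_coe, Multiset.sum_coe]

theorem bits_plain {y : ℕ → ℝ} {r : Res} {p : ℝ × ℝ} (h : plainObj p = r.o) : r.bits y = [] := by
  unfold Res.bits Res.cells
  rw [← h, plainObj_cells]
  rcases r.A with _ | ⟨a, A⟩ <;> simp [bitsB]

/-- all actual bits -/
theorem PhaseOK.bits_le (h : PhaseOK i s d) (hi : 1585 ≤ i)
    (hR : ∀ o ∈ s.QR, OInv (Th (i - 1)) o) (hQ : ∀ o ∈ s.QE, OInv (Th (i - 1)) o) :
    (d.bitS.map (fun p => potW p.1)).sum ≤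
      psiP (sufQ (Th i) s.QR) + psiP (sufQ (Th i) s.QE) := by
  classical
  have h1 : (((d.Rs.map (fun r => Multiset.ofList (r.bits yu))).sum).map (fun p => potW p.1)).sum =
      psiP (sufQ (Th i) s.QR) + psiP (sufQ (Th i) s.QE) := by
    rw [sum_flat]
    unfold PhaseData.Rs
    rw [List.map_append, List.map_append, List.map_append, List.sum_append, List.sum_append,
      List.sum_append]
    have eP : (d.RP.map (fun r => ((Multiset.ofList (r.bits yu)).map (fun p => potW p.1)).sum)).sum
        = 0 := by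
      apply List.sum_eq_zero
      intro z hz
      obtain ⟨r, hr, rfl⟩ := List.mem_map.1 hz
      obtain ⟨p, _, hp⟩ := h.mem_RP r hr
      rw [bits_plain hp]
      simp
    have eE : (d.RE.map (fun r => ((Multiset.ofList (r.bits yu)).map (fun p => potW p.1)).sum)).sum
        = 0 := by
      apply List.sum_eq_zero
      intro z hz
      obtain ⟨r, hr, rfl⟩ := List.mem_map.1 hz
      have h1 : r.o ∈ (s.E.filter (fun p => Th i ≤ p.1)).map plainObj := by
        rw [← h.hRE]
        simpa using List.mem_map_of_mem (f := Res.o) hr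
      obtain ⟨p, _, hp⟩ := Multiset.mem_map.1 h1
      rw [bits_plain hp]
      simp
    have eR : (d.RR.map (fun r => ((Multiset.ofList (r.bits yu)).map (fun p => potW p.1)).sum)).sum
        = psiP (sufQ (Th i) s.QR) := by
      rw [psiP_list d.RR _ h.hRR]
      congr 1
      apply List.map_congr_left
      intro r hr
      have := bits_due (by omega) (h.good r (h.memRs.2.1 r hr)).2 hR (h.mem_RR r hr)
      rw [Multiset.map_coe, Multiset.sum_coe]
      exact this
    have eQ : (d.RQ.map (fun r => ((Multiset.ofList (r.bits yu)).map (fun p => potW p.1)).sum)).sum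
        = psiP (sufQ (Th i) s.QE) := by
      rw [psiP_list d.RQ _ h.hRQ]
      congr 1
      apply List.map_congr_left
      intro r hr
      have := bits_due (by omega) (h.good r (h.memRs.2.2.1 r hr)).2 hQ (h.mem_RQ r hr)
      rw [Multiset.map_coe, Multiset.sum_coe]
      exact this
    rw [eP, eE, eR, eQ]
    ring
  rw [← h1]
  unfold PhaseData.bitS
  -- dropping the degenerate bits does not change the sum
  apply le_of_eq
  have key : ∀ t : Multiset (ℝ × ℝ), ((t.filter (fun p => 0 < p.1)).map (fun p => potW p.1)).sum =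
      (t.map (fun p => potW p.1)).sum := by
    intro t
    induction t using Multiset.induction_on with
    | empty => simp
    | cons p t ih =>
      by_cases hp : 0 < p.1
      · have e := Multiset.filter_cons_of_pos (p := fun q : ℝ × ℝ => 0 < q.1) (a := p) t hp
        rw [e, Multiset.map_cons, Multiset.sum_cons, ih, Multiset.map_cons, Multiset.sum_cons]
      · have e := Multiset.filter_cons_of_neg (p := fun q : ℝ × ℝ => 0 < q.1) (a := p) t hp
        rw [e, ih, Multiset.map_cons, Multiset.sum_cons]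
        unfold potW
        rw [if_neg hp, zero_add]
  exact key _

/-- the sum over the ends of the phase -/
theorem ends_sum :
    ((d.ends i).map (fun e => 2 * e.2 + e.1)).sum =
      (d.Rs.map (fun r => 2 * r.endp.2 + r.endp.1)).sum +
        (d.es.map (fun e => 2 * Th i + e)).sum := by
  unfold PhaseData.ends
  rw [Multiset.map_add, Multiset.sum_add, Multiset.map_coe, Multiset.sum_coe, Multiset.map_coe,
    Multiset.sum_coe, List.map_map, List.map_map]
  rfl

/-- **The potential in one phase** (the ends are not cut yet). -/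
theorem PhaseOK.psi_pre (h : PhaseOK i s d) (hi : 1585 ≤ i)
    (hR : ∀ o ∈ s.QR, OInv (Th (i - 1)) o) (hQ : ∀ o ∈ s.QE, OInv (Th (i - 1)) o)
    (hE : ∀ p ∈ s.E, 0 < p.1 ∧ p.1 < Th (i - 1) ∧ (13 / 10) * p.1 ≤ p.2)
    (hP : ∀ p ∈ s.P, p.1 = Th (i - 1)) (hPc : Multiset.card s.P ≤ 1)
    (hrows : (d.rows.length : ℝ) + 1 ≤ rowsB i) (F : Multiset (ℝ × ℝ)) :
    psiE (s.E.filter (fun p => ¬ Th i ≤ p.1)) + ((d.ends i).map (fun e => 2 * e.2 + e.1)).sum +
      psiC (nextState i s d F).QE + psiR (nextState i s d F).QR +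
      psiM ((nextState i s d F).QR + (nextState i s d F).QE) +
      psiP ((nextState i s d F).QR + (nextState i s d F).QE) ≤
    psiE s.E + psiC s.QE + psiR s.QR + psiM (s.QR + s.QE) + psiP (s.QR + s.QE) + dPsi i := by
  classical
  have hi2 : 2 ≤ i := by omega
  have hTi : 0 < Th i := Th_pos (by omega)
  have hTi1 : 0 < Th (i - 1) := Th_pos (by omega)
  have hTT : Th i < Th (i - 1) := Th_lt (by omega) (by omega)
  have hwK : 0 ≤ wK i := wK_nonneg hi2
  have hmK : 0 ≤ mK i := mK_nonneg hi2
  have hyM : yM i < Th i := yM_lt_Th (by omega)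
  have hyM0 := yM_pos i
  -- the parts of the next state
  have eQR : (nextState i s d F).QR =
      preQ (Th i) s.QR + d.newR + d.bitS.map plainObj + d.rowO i := rfl
  have eQE : (nextState i s d F).QE = preQ (Th i) s.QE + d.newE := rfl
  have hbpos : ∀ p ∈ d.bitS, 0 < p.1 := by
    intro p hp
    unfold PhaseData.bitS at hp
    exact (Multiset.mem_filter.1 hp).2
  have hbits := psi_bits d.bitS hbpos
  have hbits2 := h.bits_le hi hR hQ
  -- splitting
  have sR := psiR_split hi2 s.QR hR
  have sC := psiC_split hi2 s.QE hQ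
  have sM1 := psiM_split hi2 s.QR hR
  have sM2 := psiM_split hi2 s.QE hQ
  have sP1 := psiP_split hi2 s.QR hR
  have sP2 := psiP_split hi2 s.QE hQ
  -- new objects
  have nM := h.psiM_new hi
  have nP := h.psiP_new
  have nE := h.psiC_newE
  have nR := h.psiR_new hi (d.RP ++ d.RR ++ d.RQ) (by
    intro r hr
    unfold PhaseData.Rs
    exact List.mem_append_left _ hr)
  have nRow := h.psiR_rows hi
  have nX := h.exc_le hi
  have lRR := run_sum d.RR _ h.hRR
  have lRQ := run_sum d.RQ _ h.hRQ
  have lRP : (d.RP.map (fun r => (r.o.run.length : ℝ))).sum = ((Multiset.card s.P : ℕ) : ℝ) := by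
    rw [run_sum d.RP _ h.hRP, cells_plain]
  have lPc : ((Multiset.card s.P : ℕ) : ℝ) ≤ 1 := by exact_mod_cast hPc
  have hlen : ((d.RP ++ d.RR ++ d.RQ).map (fun r => (r.o.run.length : ℝ))).sum =
      ((Multiset.card s.P : ℕ) : ℝ) + ((Multiset.card (cellsOf (sufQ (Th i) s.QR)) : ℕ) : ℝ) +
        ((Multiset.card (cellsOf (sufQ (Th i) s.QE)) : ℕ) : ℝ) := by
    rw [List.map_append, List.map_append, List.sum_append, List.sum_append, lRP, lRR, lRQ]
  rw [hlen] at nR
  have hcQ := card_le_cellsOf (sufQ (Th i) s.QE) (fun o ho => (OInv.sufQ hQ o ho).1.ok)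
  -- the ends
  have hends := ends_sum (i := i) (d := d)
  have eRs : (d.Rs.map (fun r => 2 * r.endp.2 + r.endp.1)).sum =
      (d.RP.map (fun r => 2 * r.endp.2 + r.endp.1)).sum +
      (d.RR.map (fun r => 2 * r.endp.2 + r.endp.1)).sum +
      (d.RQ.map (fun r => 2 * r.endp.2 + r.endp.1)).sum +
      (d.RE.map (fun r => 2 * r.endp.2 + r.endp.1)).sum := by
    unfold PhaseData.Rs
    simp only [List.map_append, List.sum_append]
  have eP : (d.RP.map (fun r => 2 * r.endp.2 + r.endp.1)).sum ≤ (d.RP.length : ℝ) * wK i := by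
    apply sum_le_length
    intro r hr
    have hg := h.good r (h.memRs.1 r hr)
    obtain ⟨p, hp, hpo⟩ := h.mem_RP r hr
    apply Res.end_le hi2 hg.1 hg.2
    intro q hq
    rw [← hpo] at hq ⊢
    have : q = (0, p.2) := by simpa [plainObj] using hq
    subst this
    simp only [plainObj, sub_zero]
    exact (hP p hp).le
  have eR : (d.RR.map (fun r => 2 * r.endp.2 + r.endp.1)).sum ≤ (d.RR.length : ℝ) * wK i := by
    apply sum_le_length
    intro r hr
    have hg := h.good r (h.memRs.2.1 r hr)
    apply Res.end_le hi2 hg.1 hg.2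
    intro q hq
    exact ((OInv.sufQ hR r.o (h.mem_RR r hr)).1.lt q hq).le
  have eQ : (d.RQ.map (fun r => 2 * r.endp.2 + r.endp.1)).sum ≤ (d.RQ.length : ℝ) * wK i := by
    apply sum_le_length
    intro r hr
    have hg := h.good r (h.memRs.2.2.1 r hr)
    apply Res.end_le hi2 hg.1 hg.2
    intro q hq
    exact ((OInv.sufQ hQ r.o (h.mem_RQ r hr)).1.lt q hq).le
  rw [h.card_RP] at eP
  rw [h.card_RR] at eR
  rw [h.card_RQ] at eQ
  have eS : (d.es.map (fun e => 2 * Th i + e)).sum ≤ (d.es.length : ℝ) * wK i := by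
    apply sum_le_length
    intro e he
    have h1 := (h.rowE e he).2
    unfold del at h1
    unfold wK
    linarith
  have eLen : (d.es.length : ℝ) + 1 = (d.rows.length : ℝ) := by exact_mod_cast h.rowLen
  -- the due end pieces
  have hEp := E_phase i hi (51 / 50) (del i) (yM i) d.W (s.E.filter (fun p => Th i ≤ p.1)) d.RE h.hRE
    (by
      intro p hp
      rw [Multiset.mem_filter] at hp
      obtain ⟨a, b, c⟩ := hE p hp.1
      exact ⟨hp.2, b, c⟩)
    (fun r hr => (h.good r (h.memRs.2.2.2 r hr)).2)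
    (fun r hr => h.mem_A r (h.memRs.2.2.2 r hr))
    (by
      unfold del
      linarith)
  have hEs : psiE (s.E.filter (fun p => ¬ Th i ≤ p.1)) +
      ((s.E.filter (fun p => Th i ≤ p.1)).map (fun p => EV p.1 p.2)).sum = psiE s.E := by
    have e1 := Multiset.filter_add_not (fun p : ℝ × ℝ => Th i ≤ p.1) s.E
    have e2 : psiE (s.E.filter (fun p => Th i ≤ p.1) + s.E.filter (fun p => ¬ Th i ≤ p.1)) =
        psiE s.E := by rw [e1]
    rw [psiE_add] at e2
    rw [add_comm]
    exact e2
  have hEp' : (d.RE.map (fun r => 2 * r.endp.2 + r.endp.1)).sum + psiC d.newE ≤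
      ((s.E.filter (fun p => Th i ≤ p.1)).map (fun p => EV p.1 p.2)).sum := by
    rw [nE]
    exact hEp
  -- collect
  rw [eQR, eQE]
  simp only [psiR_add, psiC_add, psiM_add, psiP_add, psiP_plain]
  rw [hends, eRs]
  have hd : dPsi i = (∑ K ∈ Finset.Icc (k1 i) (kc (gmin i)), wK K) +
      rowsB i * (wK i + mK i) + ((PP i).card : ℝ) * (mK (k1 i) + 50 / (Nj i) ^ 2) := rfl
  have hnewR : psiR d.newR ≤
      ((d.RP ++ d.RR ++ d.RQ).map (fun r => (r.A.map (excB wK (cW d.W))).sum)).sum +
      (((Multiset.card s.P : ℕ) : ℝ) + ((Multiset.card (cellsOf (sufQ (Th i) s.QR)) : ℕ) : ℝ) +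
        ((Multiset.card (cellsOf (sufQ (Th i) s.QE)) : ℕ) : ℝ)) * mK i := nR
  have hrw : ((d.rows.length : ℝ) + 1) * (wK i + mK i) ≤ rowsB i * (wK i + mK i) :=
    mul_le_mul_of_nonneg_right hrows (by linarith)
  have hPw : ((Multiset.card s.P : ℕ) : ℝ) * wK i ≤ wK i := by nlinarith
  have hPm : ((Multiset.card s.P : ℕ) : ℝ) * mK i ≤ mK i := by nlinarith
  have hcQ' : ((Multiset.card (sufQ (Th i) s.QE) : ℕ) : ℝ) * wK i ≤
      ((Multiset.card (cellsOf (sufQ (Th i) s.QE)) : ℕ) : ℝ) * wK i :=
    mul_le_mul_of_nonneg_right hcQ hwK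
  rw [hd]
  have e1 : (d.es.length : ℝ) * wK i = (d.rows.length : ℝ) * wK i - wK i := by
    rw [← eLen]; ring
  linarith

/-- the potential bits of the next state have positive height -/
theorem PhaseOK.next_pot (h : PhaseOK i s d) (hR : ∀ o ∈ s.QR, o.Ok) (hQ : ∀ o ∈ s.QE, o.Ok)
    (hpot : ∀ p ∈ potOf (s.QR + s.QE), 0 < p.1) (F : Multiset (ℝ × ℝ)) :
    ∀ p ∈ potOf ((nextState i s d F).QR + (nextState i s d F).QE), 0 < p.1 := by
  classical
  obtain ⟨_, _, _, _, _, h6⟩ := split_spec (Th i) s.QR hR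
  obtain ⟨_, _, _, _, _, h6'⟩ := split_spec (Th i) s.QE hQ
  have eQR : (nextState i s d F).QR =
      preQ (Th i) s.QR + d.newR + d.bitS.map plainObj + d.rowO i := rfl
  have eQE : (nextState i s d F).QE = preQ (Th i) s.QE + d.newE := rfl
  intro p hp
  rw [eQR, eQE] at hp
  simp only [potOf_add, Multiset.mem_add] at hp
  rw [potOf_add] at hpot
  have hnew : p ∈ potOf d.newR + potOf d.newE + potOf (d.rowO i) → 0 < p.1 := by
    intro h1
    obtain ⟨n, hn, rfl⟩ := Multiset.mem_map.1 (Multiset.mem_of_le h.new_pots h1)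
    have hn' : n ∈ PP i := by simpa using hn
    have h4 := (mem_PP_real hn').2.2.1
    have h5 : ((NN : ℕ) : ℝ) = 300000000 := by norm_num [NN]
    rw [h5] at h4
    unfold xu
    push_cast
    have h6 : 1 / ((n : ℝ) + 16) < 1 / (n : ℝ) :=
      one_div_lt_one_div_of_lt (by linarith) (by linarith)
    linarith
  rcases hp with (((hp | hp) | hp) | hp) | (hp | hp)
  · exact hpot p (Multiset.mem_add.2 (Or.inl (Multiset.mem_of_le h6 (Multiset.mem_add.2 (Or.inl hp)))))
  · exact hnew (Multiset.mem_add.2 (Or.inl (Multiset.mem_add.2 (Or.inl hp))))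
  · exfalso
    obtain ⟨o, ho, h1⟩ := mem_potOf hp
    obtain ⟨q, _, rfl⟩ := Multiset.mem_map.1 ho
    rw [plainObj_pot] at h1
    simp at h1
  · exact hnew (Multiset.mem_add.2 (Or.inr hp))
  · exact hpot p (Multiset.mem_add.2 (Or.inr (Multiset.mem_of_le h6' (Multiset.mem_add.2 (Or.inl hp)))))
  · exact hnew (Multiset.mem_add.2 (Or.inl (Multiset.mem_add.2 (Or.inr hp))))

end

/-- the potential in terms of its parts -/
theorem Psi_eq (QR QE : Multiset Obj) (E : Multiset (ℝ × ℝ)) (hpot : ∀ p ∈ potOf (QR + QE), 0 < p.1) :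
    Psi QR QE E = psiE E + psiC QE + psiR QR + psiM (QR + QE) + psiP (QR + QE) := by
  have h : (potOf (QR + QE)).map (fun p => wK (kc p.1) + mK (kc p.1)) =
      (potOf (QR + QE)).map (fun p => potW p.1) := by
    apply Multiset.map_congr rfl
    intro p hp
    unfold potW
    rw [if_pos (hpot p hp)]
  unfold Psi psiE psiC psiR psiM psiP
  rw [h]
  rfl

theorem psiR_nonneg {i : ℕ} (hi : 2 ≤ i) (Q : Multiset Obj) (hQ : ∀ o ∈ Q, OInv (Th (i - 1)) o) :
    0 ≤ psiR Q := by
  unfold psiR
  apply Multiset.sum_nonneg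
  intro z hz
  obtain ⟨o, ho, rfl⟩ := Multiset.mem_map.1 hz
  have := (hQ o ho).psiO_sub hi ∅ (by simp)
  simpa using this

theorem psiC_nonneg {i : ℕ} (hi : 2 ≤ i) (Q : Multiset Obj) (hQ : ∀ o ∈ Q, OInv (Th (i - 1)) o) :
    0 ≤ psiC Q := by
  unfold psiC
  apply Multiset.sum_nonneg
  intro z hz
  obtain ⟨c, hc, rfl⟩ := Multiset.mem_map.1 hz
  obtain ⟨o, ho, p, hp, rfl⟩ := mem_cellsOf' hc
  exact wK_nonneg (hi.trans ((hQ o ho).class_ge hi p hp))

theorem psiM_nonneg {i : ℕ} (hi : 2 ≤ i) (Q : Multiset Obj) (hQ : ∀ o ∈ Q, OInv (Th (i - 1)) o) :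
    0 ≤ psiM Q := by
  unfold psiM
  apply Multiset.sum_nonneg
  intro z hz
  obtain ⟨c, hc, rfl⟩ := Multiset.mem_map.1 hz
  obtain ⟨o, ho, p, hp, rfl⟩ := mem_cellsOf' hc
  exact mK_nonneg (hi.trans ((hQ o ho).class_ge hi p hp))

theorem psiP_nonneg {i : ℕ} (hi : 2 ≤ i) (Q : Multiset Obj) (hQ : ∀ o ∈ Q, OInv (Th (i - 1)) o) :
    0 ≤ psiP Q := by
  unfold psiP
  apply Multiset.sum_nonneg
  intro z hz
  obtain ⟨c, hc, rfl⟩ := Multiset.mem_map.1 hz
  exact potW_nonneg_of hi Q hQ c hc

/-- everything except the end pieces has a nonnegative price -/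
theorem psiE_le_Psi {i : ℕ} (hi : 2 ≤ i) (QR QE : Multiset Obj) (E : Multiset (ℝ × ℝ))
    (hR : ∀ o ∈ QR, OInv (Th (i - 1)) o) (hQ : ∀ o ∈ QE, OInv (Th (i - 1)) o)
    (hpot : ∀ p ∈ potOf (QR + QE), 0 < p.1) : psiE E ≤ Psi QR QE E := by
  have hall : ∀ o ∈ QR + QE, OInv (Th (i - 1)) o := by
    intro o ho
    rcases Multiset.mem_add.1 ho with ho | ho
    · exact hR o ho
    · exact hQ o ho
  rw [Psi_eq QR QE E hpot]
  linarith [psiR_nonneg hi QR hR, psiC_nonneg hi QE hQ, psiM_nonneg hi (QR + QE) hall,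
    psiP_nonneg hi (QR + QE) hall]

/-- the total length of end pieces is at most their price -/
theorem len_le_psiE (E : Multiset (ℝ × ℝ)) (hE : ∀ p ∈ E, 0 ≤ p.1) :
    (E.map Prod.snd).sum ≤ psiE E := by
  unfold psiE
  induction E using Multiset.induction_on with
  | empty => simp
  | cons p E ih =>
    have h1 := ih (fun q hq => hE q (Multiset.mem_cons_of_mem hq))
    have h2 := hE p (Multiset.mem_cons_self _ _)
    have h3 := le_EV p.1 p.2 h2
    rw [Multiset.map_cons, Multiset.sum_cons, Multiset.map_cons, Multiset.sum_cons]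
    linarith

section

variable {i : ℕ} {s : TState} {d : PhaseData}

/-- **Length of the end pieces before the ends are cut** (hypothesis `hlen` of `ends_phase`). -/
theorem PhaseOK.len_pre (h : PhaseOK i s d) (hi : 1585 ≤ i)
    (hR : ∀ o ∈ s.QR, OInv (Th (i - 1)) o) (hQ : ∀ o ∈ s.QE, OInv (Th (i - 1)) o)
    (hE : ∀ p ∈ s.E, 0 < p.1 ∧ p.1 < Th (i - 1) ∧ (13 / 10) * p.1 ≤ p.2)
    (hP : ∀ p ∈ s.P, p.1 = Th (i - 1)) (hPc : Multiset.card s.P ≤ 1)
    (hrows : (d.rows.length : ℝ) + 1 ≤ rowsB i)
    (hpot : ∀ p ∈ potOf (s.QR + s.QE), 0 < p.1)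
    (hNR : ∀ o ∈ (nextState i s d 0).QR, OInv (Th i) o)
    (hNQ : ∀ o ∈ (nextState i s d 0).QE, OInv (Th i) o) :
    ((s.E.filter (fun p => ¬ Th i ≤ p.1)).map Prod.snd).sum + 2 * ((d.ends i).map Prod.snd).sum ≤
      Psi s.QR s.QE s.E + dPsi i := by
  classical
  have h1 := h.psi_pre hi hR hQ hE hP hPc hrows 0
  have hall : ∀ o ∈ (nextState i s d 0).QR + (nextState i s d 0).QE, OInv (Th (i + 1 - 1)) o := by
    intro o ho
    have e : i + 1 - 1 = i := by omega
    rw [e]
    rcases Multiset.mem_add.1 ho with ho | ho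
    · exact hNR o ho
    · exact hNQ o ho
  have n1 := psiR_nonneg (i := i + 1) (by omega) (nextState i s d 0).QR
    (fun o ho => hall o (Multiset.mem_add.2 (Or.inl ho)))
  have n2 := psiC_nonneg (i := i + 1) (by omega) (nextState i s d 0).QE
    (fun o ho => hall o (Multiset.mem_add.2 (Or.inr ho)))
  have n3 := psiM_nonneg (i := i + 1) (by omega) _ hall
  have n4 := psiP_nonneg (i := i + 1) (by omega) _ hall
  rw [Psi_eq _ _ _ hpot]
  have n5 := len_le_psiE (s.E.filter (fun p => ¬ Th i ≤ p.1)) (by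
    intro p hp
    exact (hE p (Multiset.mem_filter.1 hp).1).1.le)
  have n6 : 2 * ((d.ends i).map Prod.snd).sum ≤ ((d.ends i).map (fun e => 2 * e.2 + e.1)).sum := by
    have hpos : ∀ e ∈ d.ends i, 0 ≤ e.1 := by
      intro e he
      unfold PhaseData.ends at he
      rw [Multiset.mem_add] at he
      have hd := del_pos i
      rcases he with he | he
      · have he' : e ∈ d.Rs.map Res.endp := by simpa using he
        obtain ⟨r, hr, rfl⟩ := List.mem_map.1 he'
        have hg := h.good r hr
        have hne : r.cells ≠ [] := by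
          unfold Res.cells Obj.cells
          simpa using hg.1.ne
        have := (BCarry.rem_bounds 0 r.cells r.A r.e hg.2.carry hne).1
        unfold Res.endp
        simp only
        linarith
      · have he' : e ∈ d.es.map (fun e => (e, Th i)) := by simpa using he
        obtain ⟨x, hx, rfl⟩ := List.mem_map.1 he'
        have := (h.rowE x hx).1
        simp only
        linarith
    have e1 : 2 * ((d.ends i).map Prod.snd).sum = ((d.ends i).map (fun e => 2 * e.2)).sum := by
      rw [Multiset.sum_map_mul_left]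
    rw [e1]
    apply Multiset.sum_map_le_sum_map
    intro e he
    linarith [hpos e he]
  linarith

/-- **The potential in one phase.** -/
theorem PhaseOK.psi_step (h : PhaseOK i s d) (hi : 1585 ≤ i)
    (hR : ∀ o ∈ s.QR, OInv (Th (i - 1)) o) (hQ : ∀ o ∈ s.QE, OInv (Th (i - 1)) o)
    (hE : ∀ p ∈ s.E, 0 < p.1 ∧ p.1 < Th (i - 1) ∧ (13 / 10) * p.1 ≤ p.2)
    (hP : ∀ p ∈ s.P, p.1 = Th (i - 1)) (hPc : Multiset.card s.P ≤ 1)
    (hrows : (d.rows.length : ℝ) + 1 ≤ rowsB i)
    (hpot : ∀ p ∈ potOf (s.QR + s.QE), 0 < p.1) (F : Multiset (ℝ × ℝ))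
    (hF : (F.map (fun p => EV p.1 p.2)).sum ≤ ((d.ends i).map (fun e => 2 * e.2 + e.1)).sum) :
    Psi (nextState i s d F).QR (nextState i s d F).QE (nextState i s d F).E ≤
      Psi s.QR s.QE s.E + dPsi i := by
  classical
  have h1 := h.psi_pre hi hR hQ hE hP hPc hrows F
  rw [Psi_eq _ _ _ hpot, Psi_eq _ _ _ (h.next_pot (fun o ho => (hR o ho).ok)
    (fun o ho => (hQ o ho).ok) hpot F)]
  have eE : (nextState i s d F).E = s.E.filter (fun p => ¬ Th i ≤ p.1) + F := rfl
  rw [eE, psiE_add]
  have hF' : psiE F ≤ ((d.ends i).map (fun e => 2 * e.2 + e.1)).sum := hF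
  linarith

end

end Pool.Agent.MM2
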