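import Mathlib

/-!
# The span lemma: the classes touched by the blocks of one phase
-/

namespace Pool.Agent.MM2

/-- cost of a block: all classes which it touches -/
noncomputable def costB (w : ℕ → ℝ) (c : ℕ → ℕ) (b : List ℕ) : ℝ := ∑ K ∈ (b.map c).toFinset, w K

/-- the classes of a block except the class of its first slot -/
noncomputable def excB (w : ℕ → ℝ) (c : ℕ → ℕ) (b : List ℕ) : ℝ :=
  match b with
  | [] => 0
  | n :: b => costB w c (n :: b) - w (c n)

theorem costB_nil (w : ℕ → ℝ) (c : ℕ → ℕ) : costB w c [] = 0 := by simp [costB]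

theorem costB_nonneg (w : ℕ → ℝ) (c : ℕ → ℕ) (b : List ℕ) (hw : ∀ n ∈ b, 0 ≤ w (c n)) :
    0 ≤ costB w c b := by
  unfold costB
  apply Finset.sum_nonneg
  intro K hK
  rw [List.mem_toFinset, List.mem_map] at hK
  obtain ⟨n, hn, rfl⟩ := hK
  exact hw n hn

theorem excB_nonneg (w : ℕ → ℝ) (c : ℕ → ℕ) (b : List ℕ) (hw : ∀ n ∈ b, 0 ≤ w (c n)) :
    0 ≤ excB w c b := by
  cases b with
  | nil => simp [excB]
  | cons n b =>
    unfold excB costB
    rw [sub_nonneg]
    apply Finset.single_le_sum (f := w) _ (by simp)
    intro K hK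
    rw [List.mem_toFinset, List.mem_map] at hK
    obtain ⟨m, hm, rfl⟩ := hK
    exact hw m hm

theorem costB_eq (w : ℕ → ℝ) (c : ℕ → ℕ) (b : List ℕ) (hb : b ≠ []) :
    costB w c b = excB w c b + w (c (b.headD 0)) := by
  cases b with
  | nil => exact absurd rfl hb
  | cons n b => simp [excB]

/-- **Span lemma**, sharp form: the first slot of the first block is not charged. -/
theorem span_sharp (w : ℕ → ℝ) (c : ℕ → ℕ) (b : List ℕ) (Bs : List (List ℕ)) (hb : b ≠ [])
    (hne : ∀ a ∈ Bs, a ≠ [])
    (hw : ∀ n ∈ b ++ Bs.flatten, 0 ≤ w (c n))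
    (hc : (b ++ Bs.flatten).Pairwise (fun n m => c n ≤ c m)) :
    costB w c b + (Bs.map (costB w c)).sum ≤
      ∑ K ∈ ((b ++ Bs.flatten).map c).toFinset, w K + (Bs.map (fun a => w (c (a.headD 0)))).sum := by
  induction Bs generalizing b with
  | nil => simp [costB]
  | cons a Bs ih =>
    rw [List.flatten_cons] at hw hc ⊢
    have ha : a ≠ [] := hne a (by simp)
    obtain ⟨h2, a', rfl⟩ := List.exists_cons_of_ne_nil ha
    have hc' := hc
    rw [List.pairwise_append] at hc'
    obtain ⟨hcb, hcr, hcbr⟩ := hc'
    have ih' := ih (h2 :: a') ha (fun x hx => hne x (by simp [hx]))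
      (fun n hn => hw n (List.mem_append_right _ hn)) hcr
    set R : Finset ℕ := ((h2 :: a' ++ Bs.flatten).map c).toFinset with hR
    have hinter : ∑ K ∈ (b.map c).toFinset ∩ R, w K ≤ w (c h2) := by
      have hsub : (b.map c).toFinset ∩ R ⊆ {c h2} := by
        intro K hK
        rw [hR, Finset.mem_inter, List.mem_toFinset, List.mem_toFinset, List.mem_map, List.mem_map] at hK
        obtain ⟨⟨p, hp, rfl⟩, q, hq, hpq⟩ := hK
        rw [Finset.mem_singleton]
        have h1 : c p ≤ c h2 := hcbr p hp h2 (by simp)
        have h3 : c h2 ≤ c q := by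
          rw [List.cons_append] at hq hcr
          rcases List.mem_cons.1 hq with h | h
          · rw [h]
          · exact (List.pairwise_cons.1 hcr).1 q h
        omega
      refine le_trans (Finset.sum_le_sum_of_subset_of_nonneg hsub ?_) ?_
      · intro K hK _
        rw [Finset.mem_singleton] at hK
        rw [hK]
        exact hw h2 (by simp)
      · rw [Finset.sum_singleton]
    have hun := Finset.sum_union_inter (s₁ := (b.map c).toFinset) (s₂ := R) (f := w)
    have himg : ((b ++ (h2 :: a' ++ Bs.flatten)).map c).toFinset = (b.map c).toFinset ∪ R := by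
      rw [List.map_append, List.toFinset_append, hR]
    rw [himg, List.map_cons, List.sum_cons, List.map_cons, List.sum_cons]
    have hcost : costB w c b = ∑ K ∈ (b.map c).toFinset, w K := rfl
    rw [hcost]
    simp only [List.headD_cons]
    linarith

/-- **Span lemma.**  Blocks of consecutive slots, the class index nondecreasing along the slots: the
total cost is at most the cost of all classes once plus the class of the first slot of every block. -/
theorem span_lemma (w : ℕ → ℝ) (c : ℕ → ℕ) (Bs : List (List ℕ)) (hne : ∀ a ∈ Bs, a ≠ [])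
    (hw : ∀ n ∈ Bs.flatten, 0 ≤ w (c n))
    (hc : Bs.flatten.Pairwise (fun n m => c n ≤ c m)) :
    (Bs.map (costB w c)).sum ≤
      ∑ K ∈ (Bs.flatten.map c).toFinset, w K + (Bs.map (fun a => w (c (a.headD 0)))).sum := by
  cases Bs with
  | nil => simp
  | cons b Bs =>
    rw [List.flatten_cons] at hw hc ⊢
    have hb : b ≠ [] := hne b (by simp)
    have h := span_sharp w c b Bs hb (fun a ha => hne a (by simp [ha])) hw hc
    rw [List.map_cons, List.sum_cons, List.map_cons, List.sum_cons]
    have h0 : 0 ≤ w (c (b.headD 0)) := by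
      obtain ⟨n, b', rfl⟩ := List.exists_cons_of_ne_nil hb
      exact hw n (by simp)
    linarith

/-- The excess form (empty blocks allowed): only the classes that are not the class of the first slot
of the block. -/
theorem span_excess (w : ℕ → ℝ) (c : ℕ → ℕ) (Bs : List (List ℕ))
    (hw : ∀ n ∈ Bs.flatten, 0 ≤ w (c n))
    (hc : Bs.flatten.Pairwise (fun n m => c n ≤ c m)) :
    (Bs.map (excB w c)).sum ≤ ∑ K ∈ (Bs.flatten.map c).toFinset, w K := by
  classical
  set Cs := Bs.filter (fun b => decide (b ≠ [])) with hCs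
  have hfl : Cs.flatten = Bs.flatten := by
    rw [hCs]
    clear hw hc hCs Cs
    induction Bs with
    | nil => rfl
    | cons b Bs ih =>
      by_cases hb : b = []
      · subst hb
        rw [List.filter_cons_of_neg (by simp)]
        simpa using ih
      · rw [List.filter_cons_of_pos (by simpa using hb), List.flatten_cons, List.flatten_cons, ih]
  have hsum : (Bs.map (excB w c)).sum = (Cs.map (excB w c)).sum := by
    rw [hCs]
    clear hw hc hCs hfl Cs
    induction Bs with
    | nil => rfl
    | cons b Bs ih =>
      by_cases hb : b = []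
      · subst hb
        rw [List.filter_cons_of_neg (by simp)]
        simpa [excB] using ih
      · rw [List.filter_cons_of_pos (by simpa using hb), List.map_cons, List.sum_cons, ih,
          List.map_cons, List.sum_cons]
  have hCne : ∀ a ∈ Cs, a ≠ [] := by
    intro a ha
    rw [hCs, List.mem_filter] at ha
    simpa using ha.2
  have h := span_lemma w c Cs hCne (by rw [hfl]; exact hw) (by rw [hfl]; exact hc)
  have h2 : (Cs.map (costB w c)).sum =
      (Cs.map (excB w c)).sum + (Cs.map (fun a => w (c (a.headD 0)))).sum := by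
    clear h hfl hsum hCs
    revert hCne
    induction Cs with
    | nil => intro _; simp
    | cons b Cs ih =>
      intro hCne
      simp only [List.map_cons, List.sum_cons]
      rw [ih (fun a ha => hCne a (by simp [ha])), costB_eq w c b (hCne b (by simp))]
      ring
  rw [hsum]
  rw [h2, hfl] at h
  linarith

/-- Any part of the blocks, with the excess form. -/
theorem span_part (w : ℕ → ℝ) (c : ℕ → ℕ) (Bs : List (List ℕ)) (s : Multiset (List ℕ))
    (hs : s ≤ (Bs : Multiset (List ℕ))) (hw : ∀ n ∈ Bs.flatten, 0 ≤ w (c n))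
    (hc : Bs.flatten.Pairwise (fun n m => c n ≤ c m)) :
    (s.map (excB w c)).sum ≤ ∑ K ∈ (Bs.flatten.map c).toFinset, w K := by
  refine le_trans ?_ (span_excess w c Bs hw hc)
  obtain ⟨u, hu⟩ := Multiset.le_iff_exists_add.1 hs
  have h1 : (Bs.map (excB w c)).sum = (s.map (excB w c)).sum + (u.map (excB w c)).sum := by
    rw [← Multiset.sum_add, ← Multiset.map_add, ← hu]
    simp
  rw [h1]
  have h2 : 0 ≤ (u.map (excB w c)).sum := by
    apply Multiset.sum_nonneg
    intro z hz
    obtain ⟨b, hb, rfl⟩ := Multiset.mem_map.1 hz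
    apply excB_nonneg
    intro n hn
    apply hw
    rw [List.mem_flatten]
    refine ⟨b, ?_, hn⟩
    have : b ∈ (Bs : Multiset (List ℕ)) := by rw [hu]; exact Multiset.mem_add.2 (Or.inr hb)
    simpa using this
  linarith

end Pool.Agent.MM2
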