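import Pool.Agent.MP_94f265_co.MM2.State

/-!
# Existence of a phase; preservation of (I0), (I1) and of the shape of the box
-/

namespace Pool.Agent.MM2

open Pool.Agent.MM1

theorem Th_pred_lt {i : ℕ} (hi : 2 ≤ i) : Th i < Th (i - 1) := Th_lt (by omega) (by omega)

/-- **Existence of the phase `i`.** -/
theorem exists_phase (i : ℕ) (hi : 1585 ≤ i) (s : TState) {T : ℝ} (hT : T ≤ Th (i - 1)) (hs : SInvT T i s)
    (hcap : (s.P.map Prod.snd).sum + lenK i (cellsOf s.QR) + lenK i (cellsOf s.QE) + lenK i s.E <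
      ∑ n ∈ PP i, yu n)
    (hX : 0 < s.X - del i - yM i)
    (hbox : Th i * ((∑ n ∈ PP i, yu n) / (s.X - del i - yM i) + 1) ≤ s.X / 4) :
    ∃ d : PhaseData, PhaseOK i s d := by
  have hTi : 0 < Th i := Th_pos (by omega)
  have hdel : del i ≤ (51 / 50) * Th i := by
    have h1 := yM_lt_Th (i := i) (by omega)
    have h2 := yM_pos i
    unfold del
    linarith
  have hsuf : ∀ Q : Multiset Obj, (∀ o ∈ Q, OInv T o) →
      ∀ o ∈ sufQ (Th i) Q, BLong (51 / 50) (del i) o.cells.reverse := by
    intro Q hQ o ho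
    obtain ⟨h1, h2⟩ := OInv.sufQ hQ o ho
    exact h1.blong h2 hdel
  obtain ⟨W, RP, RR, RQ, RE, Bs, rows, es, ℓ, a1, a2, a3, a4, a5, a6, a7, a8, a9, a10, a11, a12,
    a13, a14, a15, a16, a17⟩ :=
    phase_geom xu yu (51 / 50) (del i) (yM i) (Th i) (Th (i - 1)) s.X s.Y s.QR s.QE s.E s.P
      (slots i) (by norm_num) (del_pos i).le hTi.le (Th_pred_lt (by omega)).le
      (fun o ho => (hs.hR o ho).ok) (fun o ho => (hs.hQ o ho).ok)
      (fun o ho p hp => ((hs.hR o ho).lt p hp).trans_le hT)
      (fun o ho p hp => ((hs.hQ o ho).lt p hp).trans_le hT)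
      (hsuf s.QR hs.hR) (hsuf s.QE hs.hQ)
      (by
        intro p hp
        obtain ⟨h1, h2, h3⟩ := hs.hE p hp
        refine ⟨h2.trans_le hT, fun h4 => ?_⟩
        linarith)
      (fun p hp => hs.hP p hp)
      (slots_pairwise i)
      (fun n hn => ⟨(yu_le (mem_slots.1 hn)).1.le, (yu_le (mem_slots.1 hn)).2⟩)
      (by rw [slots_sum]; exact hcap)
      hX
      (by
        rw [slots_sum]
        have h1 := hs.hXY
        have h2 := hs.hX
        linarith)
  refine ⟨⟨W, RP, RR, RQ, RE, Bs, rows, es, ℓ⟩, ?_⟩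
  refine ⟨a1, a2, a3, a4, a5, a6, a7, ?_, ?_, a10, a11, a12, a13, ⟨a14, a15⟩, ?_, a17⟩
  · intro n hn n' hn' h
    exact a8 n (mem_slots.2 hn) n' (mem_slots.2 hn') h
  · intro n hn
    exact a9 n (mem_slots.2 hn)
  · rw [slots_sum] at a16
    exact a16

section

variable {i : ℕ} {s : TState} {d : PhaseData} {T : ℝ}

/-- the services of regular and other multi-cell objects, of the pending strip, of the end pieces -/
theorem PhaseOK.mem_cases (h : PhaseOK i s d) (hT : T ≤ Th (i - 1)) (hs : SInvT T i s) (hi : 2 ≤ i) :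
    ∀ r ∈ d.Rs, (∀ p ∈ r.o.run, Th i ≤ r.o.t - p.1 ∧ r.o.t - p.1 ≤ Th (i - 1)) ∧
      (∀ p ∈ r.o.pot, 0 < p.1 ∧ p.1 ≤ p.2 / 20 ∧ p.2 ≤ T) := by
  classical
  have hTT := Th_pred_lt hi
  have hTi : 0 < Th i := Th_pos (by omega)
  have plain : ∀ (R : List Res) (S : Multiset (ℝ × ℝ)),
      Multiset.ofList (R.map Res.o) = S.map plainObj →
      (∀ p ∈ S, Th i ≤ p.1 ∧ p.1 ≤ Th (i - 1)) → ∀ r ∈ R,
      (∀ p ∈ r.o.run, Th i ≤ r.o.t - p.1 ∧ r.o.t - p.1 ≤ Th (i - 1)) ∧
      (∀ p ∈ r.o.pot, 0 < p.1 ∧ p.1 ≤ p.2 / 20 ∧ p.2 ≤ T) := by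
    intro R S hRS hS r hr
    have h1 : r.o ∈ S.map plainObj := by
      rw [← hRS]
      simpa using List.mem_map_of_mem (f := Res.o) hr
    obtain ⟨q, hq, hqe⟩ := Multiset.mem_map.1 h1
    rw [← hqe]
    constructor
    · intro p hp
      have : p = (0, q.2) := by simpa [plainObj] using hp
      subst this
      simpa [plainObj] using hS q hq
    · rw [plainObj_pot]
      simp
  have multi : ∀ (R : List Res) (Q : Multiset Obj),
      Multiset.ofList (R.map Res.o) = sufQ (Th i) Q → (∀ o ∈ Q, OInv T o) → ∀ r ∈ R,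
      (∀ p ∈ r.o.run, Th i ≤ r.o.t - p.1 ∧ r.o.t - p.1 ≤ Th (i - 1)) ∧
      (∀ p ∈ r.o.pot, 0 < p.1 ∧ p.1 ≤ p.2 / 20 ∧ p.2 ≤ T) := by
    intro R Q hRQ hQ r hr
    have h1 : r.o ∈ sufQ (Th i) Q := by
      rw [← hRQ]
      simpa using List.mem_map_of_mem (f := Res.o) hr
    obtain ⟨g1, g2⟩ := OInv.sufQ hQ r.o h1
    refine ⟨fun p hp => ⟨g2 p hp, (g1.lt p hp).le.trans hT⟩,
      fun p hp => ⟨g1.epos p hp, g1.eta p hp, ?_⟩⟩
    -- the second entry of a potential bit is a thickness
    have : ∀ (l : List (ℝ × ℝ)), (∀ q ∈ l, r.o.t - q.1 < T) →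
        ∀ p ∈ Obj.potL r.o.t l, p.2 ≤ T := by
      intro l
      induction l with
      | nil => simp [Obj.potL]
      | cons a l ih =>
        cases l with
        | nil => simp [Obj.potL]
        | cons b l =>
          intro hl p hp
          simp only [Obj.potL, List.mem_cons] at hp
          rcases hp with rfl | hp
          · exact (hl a (by simp)).le
          · exact ih (fun q hq => hl q (by simp [hq])) p hp
    exact this r.o.run g1.lt p hp
  intro r hr
  unfold PhaseData.Rs at hr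
  simp only [List.mem_append] at hr
  rcases hr with ((hr | hr) | hr) | hr
  · exact plain d.RP s.P h.hRP (fun p hp => by
      rw [(hs.hP p hp).1]
      exact ⟨hTT.le, le_rfl⟩) r hr
  · exact multi d.RR s.QR h.hRR hs.hR r hr
  · exact multi d.RQ s.QE h.hRQ hs.hQ r hr
  · exact plain d.RE _ h.hRE (fun p hp => by
      rw [Multiset.mem_filter] at hp
      exact ⟨hp.2, (hs.hE p hp.1).2.1.le.trans hT⟩) r hr

/-- the bits of a phase -/
theorem PhaseOK.bits_rel (h : PhaseOK i s d) (hT : T ≤ Th (i - 1)) (hs : SInvT T i s) (hi : 2 ≤ i) :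
    ∀ r ∈ d.Rs, Multiset.Rel BitLe' (Multiset.ofList (r.bits yu)) (Multiset.ofList r.o.pot) := by
  intro r hr
  obtain ⟨g1, g2⟩ := h.mem_cases hT hs hi r hr
  refine (r.bits_rel (h.good r hr).2 ?_ ?_)
  · intro p hp
    exact (yM_lt_Th (by omega)).le.trans (g1 p hp).1
  · intro p hp
    exact ⟨(g2 p hp).1.le, (g2 p hp).2.1⟩

/-- all potential bits of the new objects -/
theorem PhaseOK.new_pots (h : PhaseOK i s d) :
    potOf d.newR + potOf d.newE + potOf (d.rowO i) ≤
      (PP i).val.map (fun n => (xu n - xu (n + 16), d.W n - xu n)) := by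
  have h1 := all_pots xu yu d.W (51 / 50) (del i) (yM i) (Th i) d.Rs d.Bs d.rows (slots i)
    (fun r hr => (h.good r hr).2) h.slots_eq h.blocks h.rowW
  have h2 := potN_chain xu d.W 16 (slots i).reverse (slots_chain i)
  have h3 : Multiset.ofList ((slots i).reverse.map (fun n => (xu n - xu (n + 16), d.W n - xu n))) =
      (PP i).val.map (fun n => (xu n - xu (n + 16), d.W n - xu n)) := by
    rw [← slots_coe, Multiset.map_coe, List.map_reverse, Multiset.coe_reverse]
  rw [h3] at h2
  refine le_trans ?_ (h1.trans h2)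
  apply le_of_eq
  have key : ∀ R : List Res, potOf ((R.map (fun r => Multiset.ofList (r.news xu yu))).sum) =
      (R.map (fun r => potOf (Multiset.ofList (r.news xu yu)))).sum := by
    intro R
    induction R with
    | nil => simp [potOf_zero]
    | cons r R ih => rw [List.map_cons, List.sum_cons, potOf_add, ih, List.map_cons, List.sum_cons]
  unfold PhaseData.newR PhaseData.newE PhaseData.rowO
  rw [key, key]
  unfold PhaseData.Rs
  rw [List.map_append (l₁ := d.RP ++ d.RR ++ d.RQ), List.sum_append]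

/-- all cells of the new objects -/
theorem PhaseOK.new_cells (h : PhaseOK i s d) :
    cellsOf d.newR + cellsOf d.newE + cellsOf (d.rowO i) =
      (PP i).val.map (fun n => (d.W n - xu n, yu n)) := by
  have h1 := all_cells xu yu d.W (51 / 50) (del i) (yM i) (Th i) d.Rs d.Bs d.rows (slots i)
    (fun r hr => (h.good r hr).2) h.slots_eq h.blocks h.rowW
  have h3 : Multiset.ofList ((slots i).map (fun n => (d.W n - xu n, yu n))) =
      (PP i).val.map (fun n => (d.W n - xu n, yu n)) := by
    rw [← slots_coe, Multiset.map_coe]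
  rw [h3] at h1
  rw [← h1]
  have key : ∀ R : List Res, cellsOf ((R.map (fun r => Multiset.ofList (r.news xu yu))).sum) =
      (R.map (fun r => cellsOf (Multiset.ofList (r.news xu yu)))).sum := by
    intro R
    induction R with
    | nil => simp [cellsOf_zero]
    | cons r R ih => rw [List.map_cons, List.sum_cons, cellsOf_add, ih, List.map_cons, List.sum_cons]
  unfold PhaseData.newR PhaseData.newE PhaseData.rowO
  rw [key, key]
  unfold PhaseData.Rs
  rw [List.map_append (l₁ := d.RP ++ d.RR ++ d.RQ), List.sum_append]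

/-- a new object is a list of slots in a cell -/
theorem PhaseOK.mem_new (h : PhaseOK i s d) {o : Obj}
    (ho : o ∈ d.newR ∨ o ∈ d.newE ∨ o ∈ d.rowO i) :
    ∃ (w : ℝ) (a : List ℕ), a ≠ [] ∧ (∀ n ∈ a, n ∈ PP i ∧ d.W n = w) ∧ a.Pairwise (· > ·) ∧
      o = mkObj xu yu w a.reverse := by
  -- members of the lists of slots
  have hmemA : ∀ r ∈ d.Rs, ∀ a ∈ r.A, ∀ n ∈ a, n ∈ PP i := by
    intro r hr a ha n hn
    have h1 : a ∈ Multiset.ofList d.Bs := by
      rw [h.blocks]
      have : ∀ (L : List Res), r ∈ L → a ∈ (L.map (fun r => Multiset.ofList r.A)).sum := by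
        intro L hL
        induction L with
        | nil => simp at hL
        | cons r' L ih =>
          rw [List.map_cons, List.sum_cons, Multiset.mem_add]
          rcases List.mem_cons.1 hL with rfl | hL
          · exact Or.inl (by simpa using ha)
          · exact Or.inr (ih hL)
      exact this d.Rs hr
    rw [← mem_slots, h.slots_eq, List.mem_append]
    left
    rw [List.mem_flatten]
    exact ⟨a, by simpa using h1, hn⟩
  have hnews : ∀ (R : List Res), (∀ r ∈ R, r ∈ d.Rs) →
      o ∈ (R.map (fun r => Multiset.ofList (r.news xu yu))).sum →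
      ∃ (w : ℝ) (a : List ℕ), a ≠ [] ∧ (∀ n ∈ a, n ∈ PP i ∧ d.W n = w) ∧ a.Pairwise (· > ·) ∧
        o = mkObj xu yu w a.reverse := by
    intro R hR hoR
    induction R with
    | nil => simp at hoR
    | cons r R ih =>
      rw [List.map_cons, List.sum_cons, Multiset.mem_add] at hoR
      rcases hoR with hoR | hoR
      · have hr := hR r (by simp)
        have ho1 : o ∈ newsL xu yu r.cells r.A := by
          rw [← Res.news_eq]
          simpa using hoR
        obtain ⟨p, _, a, ha, hane, hW, rfl⟩ := mem_newsL xu yu d.W r.cells r.A (h.good r hr).2.hW o ho1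
        exact ⟨p.1, a, hane, fun n hn => ⟨hmemA r hr a ha n hn, hW n hn⟩,
          (h.good r hr).2.hdec a ha, rfl⟩
      · exact ih (fun r' hr' => hR r' (by simp [hr'])) hoR
  rcases ho with ho | ho | ho
  · apply hnews (d.RP ++ d.RR ++ d.RQ) _ ho
    intro r hr
    unfold PhaseData.Rs
    exact List.mem_append_left _ hr
  · apply hnews d.RE _ ho
    intro r hr
    unfold PhaseData.Rs
    exact List.mem_append_right _ hr
  · unfold PhaseData.rowO at ho
    have ho' : o ∈ d.rows.map (fun a => mkObj xu yu (Th i) a.reverse) := by simpa using ho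
    obtain ⟨a, ha, rfl⟩ := List.mem_map.1 ho'
    have hsub : ∀ n ∈ a, n ∈ d.rows.flatten := fun n hn => List.mem_flatten.2 ⟨a, ha, hn⟩
    refine ⟨Th i, a, h.rowNe a ha, fun n hn => ⟨?_, h.rowW n (hsub n hn)⟩, ?_, rfl⟩
    · rw [← mem_slots, h.slots_eq]
      exact List.mem_append_right _ (hsub n hn)
    · have h1 := slots_pairwise i
      rw [h.slots_eq, List.pairwise_append] at h1
      exact (List.pairwise_flatten.1 h1.2.1).1 a ha

/-- the new objects satisfy (I1) -/
theorem PhaseOK.new_inv (h : PhaseOK i s d) (hi : 1585 ≤ i) (hg : gmax i < T) :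
    ∀ o, (o ∈ d.newR ∨ o ∈ d.newE ∨ o ∈ d.rowO i) → OInv (min T (Th i)) o := by
  intro o ho
  obtain ⟨w, a, hane, hn, hdec, rfl⟩ := h.mem_new ho
  have hpots := h.new_pots
  have hxlt : ∀ n ∈ a, xu n < w := by
    intro n hna
    have h1 := (h.range n (hn n hna).1).1
    rw [(hn n hna).2] at h1
    have h2 := (xu_le (hn n hna).1).2
    have h3 := inv_Nj_lt_Th (i := i) (by omega)
    linarith
  have hrun : ∀ p ∈ (mkObj xu yu w a.reverse).run, ∃ n ∈ a, p = (xu n, yu n) := by
    intro p hp
    obtain ⟨n, hn', rfl⟩ := List.mem_map.1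
      (show p ∈ a.reverse.map (fun n => (xu n, yu n)) from hp)
    exact ⟨n, by simpa using hn', rfl⟩
  have hgap : ∀ n ∈ a, w - xu n ≤ gmax i ∧ gmax i ≤ (34 / 1000) * yu n := by
    intro n hna
    have h1 := (h.range n (hn n hna).1).2
    rw [(hn n hna).2] at h1
    exact ⟨gap_le (hn n hna).1 h1, gmax_le_yu hi (hn n hna).1⟩
  refine ⟨?_, ?_, ?_, ?_, ?_, ?_, ?_⟩
  · apply mkObj_ok
    · simpa using hane
    · rw [List.pairwise_reverse]
      exact hdec
    · intro n hn'
      have hna : n ∈ a := by simpa using hn'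
      exact ⟨(xu_le (hn n hna).1).1.le, (hxlt n hna).le⟩
    · intro n hn' m hm' hnm
      unfold xu
      have hna : n ∈ a := by simpa using hn'
      have h1 := (mem_PP_real (hn n hna).1).2.2.1
      have h2 : (0 : ℝ) < n := by
        have : ((NN : ℕ) : ℝ) = 300000000 := by norm_num [NN]
        rw [this] at h1
        linarith
      exact one_div_le_one_div_of_le h2 (by exact_mod_cast hnm.le)
    · intro n hn'
      have hna : n ∈ a := by simpa using hn'
      exact (yu_le (hn n hna).1).1.le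
  · intro p hp
    obtain ⟨n, hna, rfl⟩ := hrun p hp
    have := hxlt n hna
    simp only [mkObj]
    linarith
  · intro p hp
    obtain ⟨n, hna, rfl⟩ := hrun p hp
    have := hgap n hna
    have h2 := gmax_lt_Th hi
    simp only [mkObj]
    exact lt_min (by linarith [this.1]) (by linarith [this.1])
  · intro p hp
    obtain ⟨n, hna, rfl⟩ := hrun p hp
    have := hgap n hna
    have h2 := (yu_le (hn n hna).1).1
    simp only [mkObj]
    linarith [this.1, this.2]
  · intro _ p hp
    obtain ⟨n, hna, rfl⟩ := hrun p hp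
    have := hgap n hna
    have h2 := (yu_le (hn n hna).1).1
    simp only [mkObj]
    linarith [this.1, this.2]
  · intro p hp
    have h1 : p ∈ potOf d.newR + potOf d.newE + potOf (d.rowO i) := by
      rw [Multiset.mem_add, Multiset.mem_add]
      rcases ho with ho | ho | ho
      · exact Or.inl (Or.inl (mem_potOf_of_mem ho hp))
      · exact Or.inl (Or.inr (mem_potOf_of_mem ho hp))
      · exact Or.inr (mem_potOf_of_mem ho hp)
    obtain ⟨n, hn', rfl⟩ := Multiset.mem_map.1 (Multiset.mem_of_le hpots h1)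
    have hnP : n ∈ PP i := by simpa using hn'
    have h2 := eta_le_gmin hi hnP
    have h3 := gap_ge hnP (h.range n hnP).1
    simp only
    linarith
  · intro p hp
    have h1 : p ∈ potOf d.newR + potOf d.newE + potOf (d.rowO i) := by
      rw [Multiset.mem_add, Multiset.mem_add]
      rcases ho with ho | ho | ho
      · exact Or.inl (Or.inl (mem_potOf_of_mem ho hp))
      · exact Or.inl (Or.inr (mem_potOf_of_mem ho hp))
      · exact Or.inr (mem_potOf_of_mem ho hp)
    obtain ⟨n, hn', rfl⟩ := Multiset.mem_map.1 (Multiset.mem_of_le hpots h1)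
    have hnP : n ∈ PP i := by simpa using hn'
    have h4 := (mem_PP_real hnP).2.2.1
    have h5 : (0 : ℝ) < n := by
      have : ((NN : ℕ) : ℝ) = 300000000 := by norm_num [NN]
      rw [this] at h4
      linarith
    simp only [xu]
    rw [sub_pos]
    apply one_div_lt_one_div_of_lt h5
    push_cast
    linarith

/-- the bits satisfy (I1) -/
theorem PhaseOK.bit_inv (h : PhaseOK i s d) (hT : T ≤ Th (i - 1)) (hs : SInvT T i s) (hi : 1585 ≤ i) :
    ∀ p ∈ d.bitS, 0 < p.1 ∧ p.1 < min T (Th i) ∧ (51 / 50) * p.1 ≤ p.2 := by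
  classical
  intro p hp
  unfold PhaseData.bitS at hp
  rw [Multiset.mem_filter] at hp
  obtain ⟨hp1, hp2⟩ := hp
  obtain ⟨r, hr, hpr⟩ : ∃ r ∈ d.Rs, p ∈ r.bits yu := by
    have : ∀ L : List Res, p ∈ (L.map (fun r => Multiset.ofList (r.bits yu))).sum →
        ∃ r ∈ L, p ∈ r.bits yu := by
      intro L hL
      induction L with
      | nil => simp at hL
      | cons r L ih =>
        rw [List.map_cons, List.sum_cons, Multiset.mem_add] at hL
        rcases hL with hL | hL
        · exact ⟨r, by simp, by simpa using hL⟩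
        · obtain ⟨r', hr', h'⟩ := ih hL
          exact ⟨r', by simp [hr'], h'⟩
    exact this d.Rs hp1
  obtain ⟨q, hq, hpq⟩ := Multiset.exists_mem_of_rel_of_mem (h.bits_rel hT hs (by omega) r hr)
    (show p ∈ Multiset.ofList (r.bits yu) by simpa using hpr)
  have hq' : q ∈ r.o.pot := by simpa using hq
  obtain ⟨g1, g2, g3⟩ := (h.mem_cases hT hs (by omega) r hr).2 q hq'
  obtain ⟨b1, b2, b3⟩ := hpq
  refine ⟨hp2, ?_, b2⟩
  have h4 := Th_ratio (K := i) (by omega)
  have h5 : 0 < Th (i - 1) := Th_pos (by omega)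
  rw [b1] at hp2 ⊢
  exact lt_min (by linarith) (by linarith)

theorem plain_inv {T : ℝ} {p : ℝ × ℝ} (h1 : 0 < p.1) (h2 : p.1 < T) (h3 : (51 / 50) * p.1 ≤ p.2) :
    OInv T (plainObj p) := by
  have hrun : ∀ q ∈ (plainObj p).run, q = (0, p.2) := by
    intro q hq
    simpa [plainObj] using hq
  refine ⟨plainObj_ok p h1.le (by linarith), ?_, ?_, ?_, ?_, ?_, ?_⟩
  · intro q hq; rw [hrun q hq]; simpa [plainObj] using h1
  · intro q hq; rw [hrun q hq]; simpa [plainObj] using h2
  · intro q hq; rw [hrun q hq]; simpa [plainObj] using h3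
  · intro hl; simp [plainObj] at hl
  · intro q hq; rw [plainObj_pot] at hq; simp at hq
  · intro q hq; rw [plainObj_pot] at hq; simp at hq

theorem Nj_mono {i j : ℕ} (h : i ≤ j) : Nj i ≤ Nj j := by
  unfold Nj
  apply max_le_max _ le_rfl
  apply TT_mono (Nat.cast_nonneg i)
  exact_mod_cast h

theorem del_anti {i j : ℕ} (h : i ≤ j) : del j ≤ del i := by
  unfold del yM
  have h1 := Nj_mono h
  have h2 := Nj_pos i
  have : 1 / (Nj j + 1) ≤ 1 / (Nj i + 1) := one_div_le_one_div_of_le (by linarith) (by linarith)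
  linarith

/-- **Preservation of (I1).** -/
theorem PhaseOK.next_inv (h : PhaseOK i s d) (hT : T ≤ Th (i - 1)) (hg : gmax i < T) (hs : SInvT T i s)
    (hi : 1585 ≤ i) (F : Multiset (ℝ × ℝ)) (hF : ∀ p ∈ F, EInv (min T (Th i)) p)
    (hX : 0 < s.X - del i - yM i)
    (hbox : Th i * ((∑ n ∈ PP i, yu n) / (s.X - del i - yM i) + 1) ≤ s.X / 4) :
    SInvT (min T (Th i)) (i + 1) (nextState i s d F) := by
  classical
  have hTi : 0 < Th i := Th_pos (by omega)
  have hrow : (d.rows.length : ℝ) * Th i ≤ s.X / 4 := by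
    have h1 := h.nrows
    have h2 : (d.rows.length : ℝ) - 1 ≤ (∑ n ∈ PP i, yu n) / (s.X - del i - yM i) := by
      rw [le_div_iff₀ hX]
      exact h1
    calc (d.rows.length : ℝ) * Th i ≤ ((∑ n ∈ PP i, yu n) / (s.X - del i - yM i) + 1) * Th i :=
          mul_le_mul_of_nonneg_right (by linarith) hTi.le
      _ = Th i * ((∑ n ∈ PP i, yu n) / (s.X - del i - yM i) + 1) := mul_comm _ _
      _ ≤ _ := hbox
  have hrow0 : 0 ≤ (d.rows.length : ℝ) * Th i := mul_nonneg (Nat.cast_nonneg _) hTi.le
  have e1 : i + 1 - 1 = i := by omega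
  have hX0 := hs.hX
  have hXY := hs.hXY
  have hYX := hs.hYX
  refine ⟨?_, ?_, ?_, ?_, ?_, ?_, ?_, ?_⟩
  · intro o ho
    simp only [nextState, Multiset.mem_add] at ho
    rcases ho with ((ho | ho) | ho) | ho
    · exact OInv.preQ hs.hR o ho
    · exact h.new_inv hi hg o (Or.inl ho)
    · obtain ⟨p, hp, rfl⟩ := Multiset.mem_map.1 ho
      obtain ⟨b1, b2, b3⟩ := h.bit_inv hT hs hi p hp
      exact plain_inv b1 b2 b3
    · exact h.new_inv hi hg o (Or.inr (Or.inr ho))
  · intro o ho
    simp only [nextState, Multiset.mem_add] at ho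
    rcases ho with ho | ho
    · exact OInv.preQ hs.hQ o ho
    · exact h.new_inv hi hg o (Or.inr (Or.inl ho))
  · intro p hp
    simp only [nextState, Multiset.mem_add, Multiset.mem_filter] at hp
    rcases hp with hp | hp
    · obtain ⟨a, b, c⟩ := hs.hE p hp.1
      exact ⟨a, lt_min b (not_le.1 hp.2), c⟩
    · exact hF p hp
  · intro p hp
    simp only [nextState, Multiset.mem_singleton] at hp
    subst hp
    rw [e1]
    exact ⟨rfl, (del_anti (by omega)).trans h.hℓ.1⟩
  · simp [nextState]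
  · simp only [nextState]
    apply lt_min hX0
    linarith
  · simp only [nextState]
    exact min_le_max
  · simp only [nextState]
    apply max_le
    · rcases min_cases s.X (s.Y - d.rows.length * Th i) with ⟨h1, _⟩ | ⟨h1, _⟩ <;> rw [h1] <;>
        linarith
    · rcases min_cases s.X (s.Y - d.rows.length * Th i) with ⟨h1, _⟩ | ⟨h1, _⟩ <;> rw [h1] <;>
        linarith

end

end Pool.Agent.MM2
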