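import Pool.Agent.MP_94f265_co.MM2.PsiN
import Pool.Agent.MP_94f265_co.MM2.Span
import Pool.Agent.MP_94f265_co.MM2.Step
import Pool.Agent.MP_94f265_co.MM2.EndsD

/-!
# The potential of the state: splitting at a threshold, new objects
-/

namespace Pool.Agent.MM2

open Pool.Agent.MM1

/-- price of a regular object: all classes which it touches -/
noncomputable def psiO (o : Obj) : ℝ := ∑ K ∈ touched o, wK K

noncomputable def psiR (Q : Multiset Obj) : ℝ := (Q.map psiO).sum
noncomputable def psiC (Q : Multiset Obj) : ℝ := ((cellsOf Q).map (fun c => wK (kc c.1))).sum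
noncomputable def psiM (Q : Multiset Obj) : ℝ := ((cellsOf Q).map (fun c => mK (kc c.1))).sum
noncomputable def psiP (Q : Multiset Obj) : ℝ := ((potOf Q).map (fun p => potW p.1)).sum
noncomputable def psiE (E : Multiset (ℝ × ℝ)) : ℝ := (E.map (fun p => EV p.1 p.2)).sum

theorem psiR_add (Q R : Multiset Obj) : psiR (Q + R) = psiR Q + psiR R := by simp [psiR]
theorem psiC_add (Q R : Multiset Obj) : psiC (Q + R) = psiC Q + psiC R := by
  simp [psiC, cellsOf_add]
theorem psiM_add (Q R : Multiset Obj) : psiM (Q + R) = psiM Q + psiM R := by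
  simp [psiM, cellsOf_add]
theorem psiP_add (Q R : Multiset Obj) : psiP (Q + R) = psiP Q + psiP R := by
  simp [psiP, potOf_add]
theorem psiE_add (Q R : Multiset (ℝ × ℝ)) : psiE (Q + R) = psiE Q + psiE R := by simp [psiE]

theorem psiR_zero : psiR 0 = 0 := by simp [psiR]
theorem psiC_zero : psiC 0 = 0 := by simp [psiC, cellsOf_zero]
theorem psiM_zero : psiM 0 = 0 := by simp [psiM, cellsOf_zero]
theorem psiP_zero : psiP 0 = 0 := by simp [psiP, potOf_zero]

theorem mem_cellsOf' {Q : Multiset Obj} {c : ℝ × ℝ} (h : c ∈ cellsOf Q) :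
    ∃ o ∈ Q, ∃ p ∈ o.run, c = (o.t - p.1, p.2) := by
  induction Q using Multiset.induction_on with
  | empty => simp [cellsOf_zero] at h
  | cons o Q ih =>
    rw [← Multiset.singleton_add, cellsOf_add, cellsOf_single, Multiset.mem_add] at h
    rcases h with h | h
    · have h' : c ∈ o.run.map (fun p => (o.t - p.1, p.2)) := by simpa [Obj.cells] using h
      obtain ⟨p, hp, rfl⟩ := List.mem_map.1 h'
      exact ⟨o, Multiset.mem_cons_self _ _, p, hp, rfl⟩
    · obtain ⟨o2, ho2, h2⟩ := ih h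
      exact ⟨o2, Multiset.mem_cons_of_mem ho2, h2⟩

theorem card_cellsOf (Q : Multiset Obj) :
    ((Multiset.card (cellsOf Q) : ℕ) : ℝ) = (Q.map (fun o => (o.run.length : ℝ))).sum := by
  induction Q using Multiset.induction_on with
  | empty => simp [cellsOf_zero]
  | cons o Q ih =>
    rw [← Multiset.singleton_add, cellsOf_add, cellsOf_single, Multiset.card_add,
      Multiset.map_add, Multiset.sum_add, ← ih]
    simp [Obj.cells]

theorem card_le_cellsOf (Q : Multiset Obj) (hQ : ∀ o ∈ Q, o.Ok) :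
    ((Multiset.card Q : ℕ) : ℝ) ≤ ((Multiset.card (cellsOf Q) : ℕ) : ℝ) := by
  rw [card_cellsOf]
  induction Q using Multiset.induction_on with
  | empty => simp
  | cons o Q ih =>
    rw [Multiset.card_cons, Multiset.map_cons, Multiset.sum_cons]
    push_cast
    have h1 := ih (fun o' ho' => hQ o' (Multiset.mem_cons_of_mem ho'))
    have h2 : (1 : ℝ) ≤ (o.run.length : ℝ) := by
      have : o.run ≠ [] := (hQ o (Multiset.mem_cons_self _ _)).ne
      have : 1 ≤ o.run.length := List.length_pos_iff.2 this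
      exact_mod_cast this
    linarith

/-- the classes of the cells of an object before phase `i` -/
theorem OInv.class_ge {i : ℕ} (hi : 2 ≤ i) {o : Obj} (ho : OInv (Th (i - 1)) o) :
    ∀ p ∈ o.run, i ≤ kc (o.t - p.1) := by
  intro p hp
  exact kc_ge hi (ho.pos p hp) (ho.lt p hp)

theorem mem_touched {o : Obj} {K : ℕ} : K ∈ touched o ↔ ∃ p ∈ o.run, kc (o.t - p.1) = K := by
  unfold touched Obj.cells
  rw [List.mem_toFinset, List.map_map, List.mem_map]
  rfl

theorem OInv.psiO_sub {i : ℕ} (hi : 2 ≤ i) {o : Obj} (ho : OInv (Th (i - 1)) o) (S : Finset ℕ)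
    (hS : S ⊆ touched o) : ∑ K ∈ S, wK K ≤ psiO o := by
  apply Finset.sum_le_sum_of_subset_of_nonneg hS
  intro K hK _
  obtain ⟨p, hp, rfl⟩ := mem_touched.1 hK
  exact wK_nonneg (hi.trans (ho.class_ge hi p hp))

/-- splitting of one object -/
theorem OInv.psiO_split {i : ℕ} (hi : 2 ≤ i) {o : Obj} (ho : OInv (Th (i - 1)) o) :
    psiR (o.pre (Th i)) + wK i * (Multiset.card (o.suf (Th i)) : ℝ) ≤ psiO o := by
  obtain ⟨s1, s2, c1, c2, _, _, _, _⟩ := o.split_spec (Th i) ho.ok
  have hpre : ∀ o' ∈ o.pre (Th i), touched o' ⊆ touched o ∧ i ∉ touched o' := by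
    intro o' ho'
    obtain ⟨a, b, c⟩ := s1 o' ho'
    constructor
    · intro K hK
      obtain ⟨p, hp, rfl⟩ := mem_touched.1 hK
      rw [b]
      exact mem_touched.2 ⟨p, (c p hp).1, rfl⟩
    · intro hK
      obtain ⟨p, hp, h⟩ := mem_touched.1 hK
      rw [b] at h
      have h1 := ho.pos p (c p hp).1
      have h2 : i + 1 ≤ kc (o.t - p.1) := kc_ge (by omega) h1 (by
        have e : i + 1 - 1 = i := by omega
        rw [e]
        exact (c p hp).2)
      omega
  have hsuf : ∀ o' ∈ o.suf (Th i), i ∈ touched o := by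
    intro o' ho'
    obtain ⟨a, b, c⟩ := s2 o' ho'
    obtain ⟨p, hp⟩ := List.exists_mem_of_ne_nil _ a.ne
    refine mem_touched.2 ⟨p, (c p hp).1, ?_⟩
    exact kc_eq hi (c p hp).2 (ho.lt p (c p hp).1)
  rcases Nat.le_one_iff_eq_zero_or_eq_one.1 c1 with h1 | h1
  · rw [Multiset.card_eq_zero.1 h1, psiR_zero, zero_add]
    rcases Nat.le_one_iff_eq_zero_or_eq_one.1 c2 with h2 | h2
    · rw [Multiset.card_eq_zero.1 h2]
      simp only [Multiset.card_zero, Nat.cast_zero, mul_zero]
      have := ho.psiO_sub hi ∅ (by simp)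
      simpa using this
    · obtain ⟨b, hb⟩ := Multiset.card_eq_one.1 h2
      rw [hb, Multiset.card_singleton, Nat.cast_one, mul_one]
      have hi' : i ∈ touched o := hsuf b (by rw [hb]; simp)
      have := ho.psiO_sub hi {i} (by simpa using hi')
      simpa using this
  · obtain ⟨a, ha⟩ := Multiset.card_eq_one.1 h1
    obtain ⟨g1, g2⟩ := hpre a (by rw [ha]; simp)
    rw [ha]
    have e : psiR {a} = ∑ K ∈ touched a, wK K := by simp [psiR, psiO]
    rw [e]
    rcases Nat.le_one_iff_eq_zero_or_eq_one.1 c2 with h2 | h2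
    · rw [Multiset.card_eq_zero.1 h2]
      simp only [Multiset.card_zero, Nat.cast_zero, mul_zero, add_zero]
      exact ho.psiO_sub hi _ g1
    · obtain ⟨b, hb⟩ := Multiset.card_eq_one.1 h2
      rw [hb, Multiset.card_singleton, Nat.cast_one, mul_one]
      have hi' : i ∈ touched o := hsuf b (by rw [hb]; simp)
      have := ho.psiO_sub hi (insert i (touched a)) (Finset.insert_subset hi' g1)
      rw [Finset.sum_insert g2] at this
      linarith

theorem psiR_split {i : ℕ} (hi : 2 ≤ i) (Q : Multiset Obj) (hQ : ∀ o ∈ Q, OInv (Th (i - 1)) o) :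
    psiR (preQ (Th i) Q) + wK i * (Multiset.card (sufQ (Th i) Q) : ℝ) ≤ psiR Q := by
  induction Q using Multiset.induction_on with
  | empty => simp [preQ, sufQ, psiR]
  | cons o Q ih =>
    have h1 := ih (fun o' ho' => hQ o' (Multiset.mem_cons_of_mem ho'))
    have h2 := (hQ o (Multiset.mem_cons_self _ _)).psiO_split hi
    rw [← Multiset.singleton_add, preQ_add, sufQ_add, preQ_single, sufQ_single, psiR_add, psiR_add,
      Multiset.card_add]
    push_cast
    have e : psiR {o} = psiO o := by simp [psiR]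
    rw [e]
    nlinarith

/-- all due cells have class `i` -/
theorem class_suf {i : ℕ} (hi : 2 ≤ i) (Q : Multiset Obj) (hQ : ∀ o ∈ Q, OInv (Th (i - 1)) o) :
    ∀ c ∈ cellsOf (sufQ (Th i) Q), kc c.1 = i := by
  intro c hc
  obtain ⟨o, ho, p, hp, rfl⟩ := mem_cellsOf' hc
  obtain ⟨h1, h2⟩ := OInv.sufQ hQ o ho
  exact kc_eq hi (h2 p hp) (h1.lt p hp)

theorem sum_const_class {i : ℕ} (s : Multiset (ℝ × ℝ)) (f : ℕ → ℝ) (hs : ∀ c ∈ s, kc c.1 = i) :
    (s.map (fun c => f (kc c.1))).sum = f i * (Multiset.card s : ℝ) := by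
  have : s.map (fun c => f (kc c.1)) = s.map (fun _ => f i) := by
    apply Multiset.map_congr rfl
    intro c hc
    rw [hs c hc]
  rw [this, Multiset.map_const', Multiset.sum_replicate, nsmul_eq_mul, mul_comm]

theorem psiC_split {i : ℕ} (hi : 2 ≤ i) (Q : Multiset Obj) (hQ : ∀ o ∈ Q, OInv (Th (i - 1)) o) :
    psiC (preQ (Th i) Q) + wK i * (Multiset.card (cellsOf (sufQ (Th i) Q)) : ℝ) = psiC Q := by
  obtain ⟨_, _, _, _, h5, _⟩ := split_spec (Th i) Q (fun o ho => (hQ o ho).ok)
  unfold psiC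
  rw [h5, Multiset.map_add, Multiset.sum_add,
    sum_const_class (cellsOf (sufQ (Th i) Q)) wK (class_suf hi Q hQ)]

theorem psiM_split {i : ℕ} (hi : 2 ≤ i) (Q : Multiset Obj) (hQ : ∀ o ∈ Q, OInv (Th (i - 1)) o) :
    psiM (preQ (Th i) Q) + mK i * (Multiset.card (cellsOf (sufQ (Th i) Q)) : ℝ) = psiM Q := by
  obtain ⟨_, _, _, _, h5, _⟩ := split_spec (Th i) Q (fun o ho => (hQ o ho).ok)
  unfold psiM
  rw [h5, Multiset.map_add, Multiset.sum_add,
    sum_const_class (cellsOf (sufQ (Th i) Q)) mK (class_suf hi Q hQ)]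

theorem sum_map_le_of_le (s t : Multiset (ℝ × ℝ)) (h : s ≤ t) (f : ℝ × ℝ → ℝ)
    (hf : ∀ p ∈ t, 0 ≤ f p) : (s.map f).sum ≤ (t.map f).sum := by
  obtain ⟨u, rfl⟩ := Multiset.le_iff_exists_add.1 h
  rw [Multiset.map_add, Multiset.sum_add]
  have : 0 ≤ (u.map f).sum := by
    apply Multiset.sum_nonneg
    intro z hz
    obtain ⟨p, hp, rfl⟩ := Multiset.mem_map.1 hz
    exact hf p (Multiset.mem_add.2 (Or.inr hp))
  linarith

theorem mem_potOf {Q : Multiset Obj} {p : ℝ × ℝ} (h : p ∈ potOf Q) : ∃ o ∈ Q, p ∈ o.pot := by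
  induction Q using Multiset.induction_on with
  | empty => simp [potOf_zero] at h
  | cons o Q ih =>
    rw [← Multiset.singleton_add, potOf_add, potOf_single, Multiset.mem_add] at h
    rcases h with h | h
    · exact ⟨o, Multiset.mem_cons_self _ _, by simpa using h⟩
    · obtain ⟨o2, ho2, h2⟩ := ih h
      exact ⟨o2, Multiset.mem_cons_of_mem ho2, h2⟩

theorem OInv.pot_lt {T : ℝ} {o : Obj} (ho : OInv T o) : ∀ p ∈ o.pot, p.2 ≤ T := by
  have : ∀ (l : List (ℝ × ℝ)), (∀ q ∈ l, o.t - q.1 < T) →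
      ∀ p ∈ Obj.potL o.t l, p.2 ≤ T := by
    intro l
    induction l with
    | nil => simp [Obj.potL]
    | cons a l ih =>
      cases l with
      | nil => simp [Obj.potL]
      | cons b l =>
        intro hl p hp
        simp only [Obj.potL, List.mem_cons] at hp
        rcases hp with rfl | hp
        · exact (hl a (by simp)).le
        · exact ih (fun q hq => hl q (by simp [hq])) p hp
  exact this o.run ho.lt

theorem potW_nonneg_of {i : ℕ} (hi : 2 ≤ i) (Q : Multiset Obj) (hQ : ∀ o ∈ Q, OInv (Th (i - 1)) o) :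
    ∀ p ∈ potOf Q, 0 ≤ potW p.1 := by
  intro p hp
  obtain ⟨o, ho, h⟩ := mem_potOf hp
  have h1 := (hQ o ho).eta p h
  have h2 := (hQ o ho).pot_lt p h
  have h3 : Th (i - 1) ≤ Th 1 := Th_anti (le_refl 1) (by omega)
  have h4 : Th 1 = 80 / 3 := by unfold Th; norm_num
  apply potW_nonneg
  linarith

theorem psiP_split {i : ℕ} (hi : 2 ≤ i) (Q : Multiset Obj) (hQ : ∀ o ∈ Q, OInv (Th (i - 1)) o) :
    psiP (preQ (Th i) Q) + psiP (sufQ (Th i) Q) ≤ psiP Q := by
  obtain ⟨_, _, _, _, _, h6⟩ := split_spec (Th i) Q (fun o ho => (hQ o ho).ok)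
  have := sum_map_le_of_le _ _ h6 (fun p => potW p.1) (potW_nonneg_of hi Q hQ)
  rw [Multiset.map_add, Multiset.sum_add] at this
  exact this

/-! ## plain objects -/

theorem psiO_plain (p : ℝ × ℝ) : psiO (plainObj p) = wK (kc p.1) := by
  unfold psiO touched
  rw [plainObj_cells]
  simp

theorem psi_bits (s : Multiset (ℝ × ℝ)) (hs : ∀ p ∈ s, 0 < p.1) :
    psiR (s.map plainObj) + psiM (s.map plainObj) = (s.map (fun p => potW p.1)).sum := by
  unfold psiR psiM
  rw [cells_plain, Multiset.map_map, ← Multiset.sum_map_add]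
  congr 1
  apply Multiset.map_congr rfl
  intro p hp
  simp only [Function.comp_apply, psiO_plain, potW, if_pos (hs p hp)]

theorem psiP_plain (s : Multiset (ℝ × ℝ)) : psiP (s.map plainObj) = 0 := by
  induction s using Multiset.induction_on with
  | empty => simp [psiP_zero]
  | cons p s ih =>
    rw [Multiset.map_cons, ← Multiset.singleton_add, psiP_add, ih]
    unfold psiP
    rw [potOf_single, plainObj_pot]
    simp

/-! ## new objects -/

/-- the class of the cell above the slot `n` -/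
noncomputable def cW (W : ℕ → ℝ) (n : ℕ) : ℕ := kc (W n - xu n)

theorem psiO_mkObj (W : ℕ → ℝ) (w : ℝ) (a : List ℕ) (h : ∀ n ∈ a, W n = w) :
    psiO (mkObj xu yu w a.reverse) = costB wK (cW W) a := by
  unfold psiO touched costB
  rw [mkObj_cells xu yu W w a.reverse (fun n hn => h n (by simpa using hn))]
  rw [List.map_map, List.map_reverse, List.toFinset_reverse]
  rfl

theorem newsL_psiO (W : ℕ → ℝ) (c : List (ℝ × ℝ)) (A : List (List ℕ))
    (h : List.Forall₂ (fun (p : ℝ × ℝ) (a : List ℕ) => ∀ n ∈ a, W n = p.1) c A) :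
    psiR (Multiset.ofList (newsL xu yu c A)) = (A.map (costB wK (cW W))).sum := by
  induction h with
  | nil => simp [newsL_nil, psiR]
  | @cons p a c A hpa _ ih =>
    by_cases ha : a = []
    · subst ha
      rw [newsL_cons_nil, ih]
      simp [costB_nil]
    · rw [newsL_cons xu yu p a ha, ← Multiset.cons_coe, ← Multiset.singleton_add, psiR_add, ih]
      have : psiR {mkObj xu yu p.1 a.reverse} = costB wK (cW W) a := by
        unfold psiR
        rw [Multiset.map_singleton, Multiset.sum_singleton]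
        exact psiO_mkObj W p.1 a hpa
      rw [this, List.map_cons, List.sum_cons]

theorem sum_flat {α β : Type*} (L : List α) (f : α → Multiset β) (g : β → ℝ) :
    (((L.map f).sum).map g).sum = (L.map (fun a => ((f a).map g).sum)).sum := by
  induction L with
  | nil => simp
  | cons a L ih =>
    rw [List.map_cons, List.sum_cons, Multiset.map_add, Multiset.sum_add, ih, List.map_cons,
      List.sum_cons]

theorem costB_le_exc {i : ℕ} (hi : 1585 ≤ i) (W : ℕ → ℝ)
    (hW : ∀ n ∈ PP i, Th i ≤ W n ∧ W n ≤ Th (i - 1)) (a : List ℕ) (ha : ∀ n ∈ a, n ∈ PP i) :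
    costB wK (cW W) a ≤ excB wK (cW W) a + mK i := by
  cases a with
  | nil =>
    rw [costB_nil]
    unfold excB
    have := mK_nonneg (K := i) (by omega)
    linarith
  | cons n a =>
    rw [costB_eq wK (cW W) (n :: a) (by simp)]
    have hn := ha n (by simp)
    have := head_price hi hn (hW n hn).1 (hW n hn).2
    simp only [List.headD_cons, cW]
    linarith

theorem sum_costB_le {i : ℕ} (hi : 1585 ≤ i) (W : ℕ → ℝ)
    (hW : ∀ n ∈ PP i, Th i ≤ W n ∧ W n ≤ Th (i - 1)) (A : List (List ℕ))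
    (hA : ∀ a ∈ A, ∀ n ∈ a, n ∈ PP i) :
    (A.map (costB wK (cW W))).sum ≤ (A.map (excB wK (cW W))).sum + (A.length : ℝ) * mK i := by
  induction A with
  | nil => simp
  | cons a A ih =>
    have h1 := ih (fun a' ha' => hA a' (by simp [ha']))
    have h2 := costB_le_exc hi W hW a (hA a (by simp))
    rw [List.map_cons, List.sum_cons, List.map_cons, List.sum_cons, List.length_cons]
    push_cast
    nlinarith

end Pool.Agent.MM2
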