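import Pool.Agent.MP_94f265_co.MM2.Psi
import Pool.Agent.MP_94f265_co.MM2.TStepI

/-!
# The field `psi` of the invariants
-/

namespace Pool.Agent.MM2

open Pool.Agent.MM1

variable {i : ℕ} {s : TState} {d : PhaseData} {θ : ℝ}

theorem Inv.potpos (hI : Inv θ i s) : ∀ p ∈ potOf (s.QR + s.QE), 0 < p.1 := by
  intro p hp
  obtain ⟨o, ho, h⟩ := mem_potOf hp
  exact (hI.obj o ho).epos p h

theorem Inv.psi_hyps (hI : Inv θ i s) : (∀ o ∈ s.QR, OInv (Th (i - 1)) o) ∧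
    (∀ o ∈ s.QE, OInv (Th (i - 1)) o) ∧
    (∀ p ∈ s.E, 0 < p.1 ∧ p.1 < Th (i - 1) ∧ (13 / 10) * p.1 ≤ p.2) ∧
    (∀ p ∈ s.P, p.1 = Th (i - 1)) ∧ Multiset.card s.P ≤ 1 :=
  ⟨hI.sinv.hR, hI.sinv.hQ, hI.sinv.hE, fun p hp => (hI.sinv.hP p hp).1, hI.sinv.hPc⟩

/-- **Field `psi` of the next state.** -/
theorem PhaseOK.psi_next (h : PhaseOK i s d) (hI : Inv θ i s) (hi : 1585 ≤ i)
    (hrows : (d.rows.length : ℝ) + 1 ≤ rowsB i) (F : Multiset (ℝ × ℝ))
    (hF : (F.map (fun p => EV p.1 p.2)).sum ≤ ((d.ends i).map (fun e => 2 * e.2 + e.1)).sum) :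
    Psi (nextState i s d F).QR (nextState i s d F).QE (nextState i s d F).E ≤
      61 / 10000 + ∑ j ∈ Finset.Ico j0 (i + 1), dPsi j := by
  obtain ⟨h1, h2, h3, h4, h5⟩ := hI.psi_hyps
  have h6 := h.psi_step hi h1 h2 h3 h4 h5 hrows hI.potpos F hF
  have h7 := hI.psi
  rw [Finset.sum_Ico_succ_top (by unfold j0; omega)]
  linarith

/-- **Total length of the end pieces**, for the hypothesis `hlen` of `ends_phase`. -/
theorem PhaseOK.len_next (h : PhaseOK i s d) (hI : Inv θ i s) (hi : 1585 ≤ i)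
    (hrows : (d.rows.length : ℝ) + 1 ≤ rowsB i)
    (hNR : ∀ o ∈ (nextState i s d 0).QR, OInv (Th i) o)
    (hNQ : ∀ o ∈ (nextState i s d 0).QE, OInv (Th i) o) :
    ((s.E.filter (fun p => ¬ Th i ≤ p.1)).map Prod.snd).sum + 2 * ((d.ends i).map Prod.snd).sum ≤
      61 / 10000 + ∑ j ∈ Finset.Ico j0 (i + 1), dPsi j := by
  obtain ⟨h1, h2, h3, h4, h5⟩ := hI.psi_hyps
  have h6 := h.len_pre hi h1 h2 h3 h4 h5 hrows hI.potpos hNR hNQ
  have h7 := hI.psi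
  rw [Finset.sum_Ico_succ_top (by unfold j0; omega)]
  linarith

/-- the same, the new objects from (I1) -/
theorem PhaseOK.len_next' (h : PhaseOK i s d) (hI : Inv θ i s) (hi : 1585 ≤ i)
    (hrows : (d.rows.length : ℝ) + 1 ≤ rowsB i) (hX : 0 < s.X - del i - yM i)
    (hbox : Th i * ((∑ n ∈ PP i, yu n) / (s.X - del i - yM i) + 1) ≤ s.X / 4) :
    ((s.E.filter (fun p => ¬ Th i ≤ p.1)).map Prod.snd).sum + 2 * ((d.ends i).map Prod.snd).sum ≤
      61 / 10000 + ∑ j ∈ Finset.Ico j0 (i + 1), dPsi j := by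
  obtain ⟨h1, h2, h3⟩ := h.next_fields hI hi 0 (by simp) hX hbox
  have e : i + 1 - 1 = i := by omega
  refine h.len_next hI hi hrows (fun o ho => ?_) (fun o ho => ?_)
  · have := h1.hR o ho
    rwa [e] at this
  · have := h1.hQ o ho
    rwa [e] at this

/-- the end pieces of any state satisfying the invariants -/
theorem Inv.len_le (hI : Inv θ i s) (hi : 1585 ≤ i) :
    (s.E.map Prod.snd).sum ≤ 61 / 10000 + ∑ j ∈ Finset.Ico j0 i, dPsi j := by
  obtain ⟨h1, h2, h3, _, _⟩ := hI.psi_hyps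
  have h4 := len_le_psiE s.E (fun p hp => (h3 p hp).1.le)
  have h5 := psiE_le_Psi (i := i) (by omega) s.QR s.QE s.E h1 h2 hI.potpos
  linarith [hI.psi]

end Pool.Agent.MM2
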