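import Pool.Agent.MP_94f265_co.MM2.TDefs

/-!
# Prices of the classes: numerical facts for the potential
-/

namespace Pool.Agent.MM2

/-- price of a (potential) bit of height `t` -/
noncomputable def potW (t : ℝ) : ℝ := if 0 < t then wK (kc t) + mK (kc t) else 0

theorem kc_ge {t : ℝ} {i : ℕ} (hi : 2 ≤ i) (h0 : 0 < t) (h : t < Th (i - 1)) : i ≤ kc t := by
  by_contra hlt
  push Not at hlt
  have h1 := kc_spec h0
  have h2 : Th (i - 1) ≤ Th (kc t) := Th_anti h1.1 (by omega)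
  linarith [h1.2]

theorem kc_anti {s t : ℝ} (h0 : 0 < s) (h : s ≤ t) : kc t ≤ kc s := by
  have h1 := kc_spec h0
  exact kc_le h1.1 (h1.2.trans h)

theorem wK_nonneg {K : ℕ} (hK : 2 ≤ K) : 0 ≤ wK K := by
  unfold wK
  have := Th_pos (K := K - 1) (by omega)
  linarith

theorem gmax_eq {K : ℕ} (hK : 2 ≤ K) :
    gmax K = (1024 / 75) * (1 / ((K : ℝ) - 6 / 5) ^ 3 - 1 / ((K : ℝ) + 16) ^ 3) := by
  unfold gmax
  have e : ((K - 1 : ℕ) : ℝ) = (K : ℝ) - 1 := by rw [Nat.cast_sub (by omega)]; simp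
  rw [Th_eq, e]
  have h2 : (K : ℝ) - 1 - 1 / 5 = K - 6 / 5 := by ring
  rw [h2]
  have h1 : (2 : ℝ) ≤ K := by exact_mod_cast hK
  have h3 : 0 < (K : ℝ) - 6 / 5 := by linarith
  have h4 : 0 < (K : ℝ) + 16 := by linarith
  unfold TT
  field_simp

theorem gmax_anti' {K L : ℕ} (hK : 2 ≤ K) (h : K ≤ L) : gmax L ≤ gmax K := by
  rw [gmax_eq hK, gmax_eq (hK.trans h)]
  have h1 : (2 : ℝ) ≤ K := by exact_mod_cast hK
  have h2 : (K : ℝ) ≤ L := by exact_mod_cast h
  have key : ∀ a : ℝ, 0 < a → 1 / a ^ 3 - 1 / (a + 86 / 5) ^ 3 =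
      (86 / 5) * (3 / (a * (a + 86 / 5)) ^ 2 + (86 / 5) ^ 2 / (a * (a + 86 / 5)) ^ 3) := by
    intro a ha
    have : 0 < a + 86 / 5 := by linarith
    field_simp
    ring
  have e1 : (K : ℝ) + 16 = ((K : ℝ) - 6 / 5) + 86 / 5 := by ring
  have e2 : (L : ℝ) + 16 = ((L : ℝ) - 6 / 5) + 86 / 5 := by ring
  have ha : 0 < (K : ℝ) - 6 / 5 := by linarith
  have hb : (K : ℝ) - 6 / 5 ≤ (L : ℝ) - 6 / 5 := by linarith
  rw [e1, e2, key _ ha, key _ (by linarith)]
  set a := (K : ℝ) - 6 / 5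
  set b := (L : ℝ) - 6 / 5
  have hu : 0 < a * (a + 86 / 5) := by positivity
  have huv : a * (a + 86 / 5) ≤ b * (b + 86 / 5) :=
    mul_le_mul hb (by linarith) (by linarith) (by linarith)
  have h3 : 3 / (b * (b + 86 / 5)) ^ 2 ≤ 3 / (a * (a + 86 / 5)) ^ 2 :=
    div_le_div_of_nonneg_left (by norm_num) (by positivity) (pow_le_pow_left₀ hu.le huv 2)
  have h4 : (86 / 5 : ℝ) ^ 2 / (b * (b + 86 / 5)) ^ 3 ≤ (86 / 5 : ℝ) ^ 2 / (a * (a + 86 / 5)) ^ 3 :=
    div_le_div_of_nonneg_left (by norm_num) (by positivity) (pow_le_pow_left₀ hu.le huv 3)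
  linarith

theorem gmax_nonneg {K : ℕ} (hK : 2 ≤ K) : 0 ≤ gmax K := by
  rw [gmax_eq hK]
  have h1 : (2 : ℝ) ≤ K := by exact_mod_cast hK
  have ha : 0 < (K : ℝ) - 6 / 5 := by linarith
  have : 1 / ((K : ℝ) + 16) ^ 3 ≤ 1 / ((K : ℝ) - 6 / 5) ^ 3 :=
    one_div_le_one_div_of_le (by positivity) (pow_le_pow_left₀ ha.le (by linarith) 3)
  linarith

theorem mK_nonneg {K : ℕ} (hK : 2 ≤ K) : 0 ≤ mK K := by
  unfold mK
  have := gmax_nonneg hK
  linarith

theorem mK_anti {K L : ℕ} (hK : 2 ≤ K) (h : K ≤ L) : mK L ≤ mK K := by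
  unfold mK
  have := gmax_anti' hK h
  linarith

theorem potW_nonneg (t : ℝ) (ht : t < 26) : 0 ≤ potW t := by
  unfold potW
  split_ifs with h
  · have h2 := two_le_kc h ht
    linarith [wK_nonneg h2, mK_nonneg h2]
  · exact le_rfl

/-- `gmax K ≤ (52 / K) Th (K - 1)` -/
theorem gmax_rel {K : ℕ} (hK : 2 ≤ K) : gmax K ≤ (52 / (K : ℝ)) * Th (K - 1) := by
  have e : ((K - 1 : ℕ) : ℝ) = (K : ℝ) - 1 := by rw [Nat.cast_sub (by omega)]; simp
  have h1 : (2 : ℝ) ≤ K := by exact_mod_cast hK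
  have h3 : 0 < (K : ℝ) - 6 / 5 := by linarith
  have h4 : 0 < (K : ℝ) + 16 := by linarith
  have hTh : Th (K - 1) = (1024 / 75) * (1 / ((K : ℝ) - 6 / 5) ^ 3) := by
    rw [Th_eq, e]
    have h2 : (K : ℝ) - 1 - 1 / 5 = K - 6 / 5 := by ring
    rw [h2]
    unfold TT
    field_simp
  rw [gmax_eq hK, hTh]
  have key : 1 / ((K : ℝ) - 6 / 5) ^ 3 - 1 / ((K : ℝ) + 16) ^ 3 ≤
      (52 / (K : ℝ)) * (1 / ((K : ℝ) - 6 / 5) ^ 3) := by
    rw [sub_le_iff_le_add, ← sub_le_iff_le_add']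
    have e1 : 1 / ((K : ℝ) - 6 / 5) ^ 3 - 52 / (K : ℝ) * (1 / ((K : ℝ) - 6 / 5) ^ 3) =
        ((K : ℝ) - 52) / (K * ((K : ℝ) - 6 / 5) ^ 3) := by
      field_simp
    rw [e1, div_le_div_iff₀ (by positivity) (by positivity), one_mul]
    -- `(K - 52) (K + 16)^3 ≤ K (K - 6/5)^3`
    have : 0 ≤ (K : ℝ) - 2 := by linarith
    nlinarith [mul_nonneg this this, mul_nonneg (mul_nonneg this this) this]
  nlinarith

/-- the relative width, as a lower bound for `Th K` -/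
theorem Th_ge_rel {K : ℕ} (hK : 2 ≤ K) : (1 - 3 / (K : ℝ)) * Th (K - 1) ≤ Th K := by
  have h1 := om_le hK
  have h2 : 0 < Th (K - 1) := Th_pos (by omega)
  rw [div_le_iff₀ h2] at h1
  unfold om at h1
  nlinarith

/-- price of the first class of a block -/
theorem head_price {i n : ℕ} (hi : 1585 ≤ i) (hn : n ∈ PP i) {w : ℝ} (h1 : Th i ≤ w)
    (h2 : w ≤ Th (i - 1)) : wK (kc (w - xu n)) ≤ mK i := by
  have hpos : 0 < w - xu n := by
    have h3 := gap_ge hn h1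
    have h4 := gmin_pos (i := i) (by omega)
    linarith
  have hle := gap_le hn h2
  have hk : i + 1 ≤ kc (w - xu n) :=
    kc_ge (by omega) hpos (by
      have := gmax_lt_Th hi
      have e : i + 1 - 1 = i := by omega
      rw [e]
      linarith)
  set K := kc (w - xu n) with hK
  have h5 := Th_ge_rel (K := K) (by omega)
  have h6 : (1586 : ℝ) ≤ K := by
    have : 1586 ≤ K := by omega
    exact_mod_cast this
  have h7 : 3 / (K : ℝ) ≤ 3 / 1586 := div_le_div_of_nonneg_left (by norm_num) (by norm_num) h6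
  have h8 : 0 < Th (K - 1) := Th_pos (by omega)
  have h9 : Th K ≤ w - xu n := (kc_spec hpos).2
  unfold wK mK
  have h10 : (1 - 3 / 1586) * Th (K - 1) ≤ gmax i := by nlinarith
  nlinarith

/-- price of a new cell -/
theorem cell_m {i n : ℕ} (hi : 1585 ≤ i) (hn : n ∈ PP i) {w : ℝ} (h1 : Th i ≤ w)
    (h2 : w ≤ Th (i - 1)) : mK (kc (w - xu n)) ≤ mK (kc (gmax i)) ∧ kc (gmax i) ≤ kc (w - xu n) ∧
      kc (w - xu n) ≤ kc (gmin i) := by
  have h3 := gap_ge hn h1
  have h4 := gmin_pos (i := i) (by omega)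
  have hle := gap_le hn h2
  have hg : 0 < gmax i := by linarith
  have h5 : 2 ≤ kc (gmax i) := by
    have : i + 1 ≤ kc (gmax i) := kc_ge (by omega) hg (by
      have := gmax_lt_Th hi
      have e : i + 1 - 1 = i := by omega
      rw [e]
      exact this)
    omega
  have h6 : kc (gmax i) ≤ kc (w - xu n) := kc_anti (by linarith) hle
  exact ⟨mK_anti h5 h6, h6, kc_anti h4 h3⟩

/-- price of a new potential bit -/
theorem pot_price' {i n : ℕ} (hn : n ∈ PP i) :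
    potW (xu n - xu (n + 16)) ≤ 50 / (Nj i) ^ 2 := by
  obtain ⟨_, _, h3, h4⟩ := mem_PP_real hn
  have h3' : (300000000 : ℝ) ≤ n := by
    have : ((NN : ℕ) : ℝ) = 300000000 := by norm_num [NN]
    rw [this] at h3
    exact h3
  have hN := Nj_pos i
  have hn0 : (0 : ℝ) < n := by linarith
  have e1 : xu n - xu (n + 16) = 16 / (n * (n + 16)) := by
    unfold xu
    push_cast
    field_simp
    ring
  have ht : 0 < xu n - xu (n + 16) := by
    rw [e1]
    positivity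
  have hle : xu n - xu (n + 16) ≤ 16 / (Nj i) ^ 2 := by
    rw [e1]
    apply div_le_div_of_nonneg_left (by norm_num) (by positivity)
    nlinarith
  have hsm : xu n - xu (n + 16) < Th (6000 - 1) := by
    have h5 : xu n - xu (n + 16) ≤ 16 / (300000000 : ℝ) ^ 2 := by
      rw [e1]
      apply div_le_div_of_nonneg_left (by norm_num) (by norm_num)
      nlinarith
    refine lt_of_le_of_lt h5 ?_
    rw [Th_eq]
    unfold TT
    norm_num
  unfold potW
  rw [if_pos ht]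
  set t := xu n - xu (n + 16) with htdef
  have hk : 6000 ≤ kc t := kc_ge (by norm_num) ht hsm
  set K := kc t with hK
  have h5 := Th_ge_rel (K := K) (by omega)
  have h6 : (6000 : ℝ) ≤ K := by exact_mod_cast hk
  have h7 : 3 / (K : ℝ) ≤ 3 / 6000 := div_le_div_of_nonneg_left (by norm_num) (by norm_num) h6
  have h7' : 52 / (K : ℝ) ≤ 52 / 6000 := div_le_div_of_nonneg_left (by norm_num) (by norm_num) h6
  have h8 : 0 < Th (K - 1) := Th_pos (by omega)
  have h9 : Th K ≤ t := (kc_spec ht).2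
  have h10 : (1 - 3 / 6000) * Th (K - 1) ≤ t := by nlinarith
  have h11 := gmax_rel (K := K) (by omega)
  have h12 : gmax K ≤ (52 / 6000) * Th (K - 1) := by nlinarith
  unfold wK mK
  have h13 : (31 / 10) * (16 / (Nj i) ^ 2) ≤ 50 / (Nj i) ^ 2 := by
    rw [← mul_div_assoc]
    apply div_le_div_of_nonneg_right _ (by positivity)
    norm_num
  nlinarith

end Pool.Agent.MM2
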