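import Pool.Agent.MP_94f265_co.MM2.ServeB

/-!
# Rows of the main box
-/

namespace Pool.Agent.MM2

open Pool.Agent.MM1

/-- Filling the slots `ns ≠ []` into rows of width `w` cut from the box `X × Y` (row length `X`).
`rows` = the slots of the rows, `es` = the ends of all rows but the last one, `ℓ` = the length which
remains in the last row. -/
theorem rows_fill (x y : ℕ → ℝ) (δ yM w X : ℝ) (hδ : 0 ≤ δ) (hw : 0 ≤ w)
    (hX : 0 < X - δ - yM) (Y : ℝ) (ns : List ℕ) (hne : ns ≠ [])
    (hy : ∀ n ∈ ns, 0 ≤ y n ∧ y n ≤ yM)
    (hY : w * ((ns.map y).sum / (X - δ - yM) + 1) ≤ Y) :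
    ∃ (rows : List (List ℕ)) (es : List ℝ) (ℓ : ℝ),
      ns = rows.flatten ∧ (∀ a ∈ rows, a ≠ []) ∧ es.length + 1 = rows.length ∧
      (∀ e ∈ es, δ ≤ e ∧ e ≤ δ + yM) ∧ δ ≤ ℓ ∧ ℓ ≤ X ∧
      ((rows.length : ℝ) - 1) * (X - δ - yM) ≤ (ns.map y).sum ∧
      (rows.map (fun a => (a.map y).sum)).sum + es.sum + ℓ = rows.length * X ∧
      (∀ a ∈ rows, (a.map y).sum ≤ X) ∧
      Cut {(X, Y)}
        (rects (Multiset.ofList (rows.map (fun a => mkObj x y w a.reverse))) +
          Multiset.ofList (es.map (fun e => (e, w))) + {(ℓ, w)} + {(X, Y - rows.length * w)}) := by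
  obtain ⟨N, hN⟩ : ∃ N, ns.length ≤ N := ⟨_, le_rfl⟩
  induction N generalizing ns Y with
  | zero => exact absurd (List.length_eq_zero_iff.1 (Nat.le_zero.1 hN)) hne
  | succ N ih =>
    have hyM : 0 ≤ yM := by
      obtain ⟨n, l, rfl⟩ := List.exists_cons_of_ne_nil hne
      have := hy n (by simp)
      linarith [this.1, this.2]
    have hδX : δ ≤ X := by linarith
    obtain ⟨us, vs, hns, hr1, hr2⟩ := fill_one y δ X ns hδX
    have hmem1 : ∀ n ∈ us, n ∈ ns := fun n hn => by rw [hns]; exact List.mem_append_left _ hn
    have hmem2 : ∀ n ∈ vs, n ∈ ns := fun n hn => by rw [hns]; exact List.mem_append_right _ hn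
    have hsum0 : 0 ≤ (us.map y).sum := by
      apply List.sum_nonneg
      intro z hz
      obtain ⟨m, hm, rfl⟩ := List.mem_map.1 hz
      exact (hy m (hmem1 m hm)).1
    have hsum1 : 0 ≤ (vs.map y).sum := by
      apply List.sum_nonneg
      intro z hz
      obtain ⟨m, hm, rfl⟩ := List.mem_map.1 hz
      exact (hy m (hmem2 m hm)).1
    have hsumns : (ns.map y).sum = (us.map y).sum + (vs.map y).sum := by
      rw [hns, List.map_append, List.sum_append]
    have hwY : 0 ≤ Y - w := by
      have : 0 ≤ w * ((ns.map y).sum / (X - δ - yM)) :=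
        mul_nonneg hw (div_nonneg (by rw [hsumns]; linarith) hX.le)
      rw [mul_add, mul_one] at hY
      linarith
    have hc1 : Cut {(X, Y)} ({(X, w)} + {(X, Y - w)}) := by
      have : Y = w + (Y - w) := by ring
      conv_lhs => rw [this]
      exact Cut.split' hw hwY
    have hc2 : Cut {(X, w)} (rects {mkObj x y w us.reverse} + {(X - (us.map y).sum, w)}) := by
      have e : X = (us.map y).sum + (X - (us.map y).sum) := by ring
      have hs : Cut {(X, w)} ({((us.map y).sum, w)} + {(X - (us.map y).sum, w)}) := by
        conv_lhs => rw [e]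
        exact Cut.split hsum0 (by linarith)
      refine hs.trans (Cut.add ?_ (Cut.refl _))
      rw [rects_single]
      have : (mkObj x y w us.reverse).rect = (w, (us.map y).sum) := by
        simp [Obj.rect, Obj.len, mkObj, Function.comp_def]
      rw [this]
      exact Cut.swap _ _
    have husne : us ≠ [] := by
      rintro rfl
      rcases hr2 with h | ⟨n₀, vs', hvs', hlt⟩
      · rw [h] at hns; exact hne (by simpa using hns)
      · have := (hy n₀ (hmem2 n₀ (by rw [hvs']; simp))).2
        simp only [List.map_nil, List.sum_nil, sub_zero] at hlt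
        linarith
    rcases hr2 with hvs | ⟨n₀, vs', hvs', hlt⟩
    · have hus : ns = us := by rw [hns, hvs, List.append_nil]
      refine ⟨[us], [], X - (us.map y).sum, by simp [hus], ?_, by simp, by simp, hr1,
        by linarith, ?_, ?_, ?_, ?_⟩
      · intro a ha
        rw [List.mem_singleton] at ha
        rw [ha]
        exact husne
      · simp only [List.length_singleton, Nat.cast_one, sub_self, zero_mul]
        rw [hus]
        exact hsum0
      · simp
      · intro a ha
        rw [List.mem_singleton] at ha
        rw [ha]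
        linarith
      · refine hc1.trans ((Cut.add hc2 (Cut.refl _)).trans (Cut.of_eq ?_))
        simp
    · have hyn₀ : y n₀ ≤ yM := (hy n₀ (hmem2 n₀ (by rw [hvs']; simp))).2
      have hlong : X - δ - yM ≤ (us.map y).sum := by linarith
      have hlenN : vs.length ≤ N := by
        have h1 : ns.length = us.length + vs.length := by rw [hns, List.length_append]
        have h2 : 0 < us.length := List.length_pos_of_ne_nil husne
        omega
      have hdiv : (vs.map y).sum / (X - δ - yM) + 1 ≤ (ns.map y).sum / (X - δ - yM) := by
        rw [hsumns, add_div]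
        have : 1 ≤ (us.map y).sum / (X - δ - yM) := by
          rw [le_div_iff₀ hX]
          linarith
        linarith
      have hY' : w * ((vs.map y).sum / (X - δ - yM) + 1) ≤ Y - w := by
        have h1 := mul_le_mul_of_nonneg_left hdiv hw
        have h2 := hY
        rw [mul_add, mul_one] at h2
        linarith
      obtain ⟨rows, es, ℓ, g1, g2, g3, g4, g5, g6, g7, g8, g9, g10⟩ := ih (Y - w) vs
        (by rw [hvs']; simp) (fun n hn => hy n (hmem2 n hn)) hY' hlenN
      refine ⟨us :: rows, (X - (us.map y).sum) :: es, ℓ, ?_, ?_, ?_, ?_, g5, g6, ?_, ?_, ?_, ?_⟩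
      · rw [List.flatten_cons, ← g1, hns]
      · intro a ha
        rcases List.mem_cons.1 ha with rfl | ha
        · exact husne
        · exact g2 a ha
      · simp only [List.length_cons]
        omega
      · intro e he
        rcases List.mem_cons.1 he with rfl | he
        · exact ⟨hr1, by linarith⟩
        · exact g4 e he
      · rw [hsumns]
        simp only [List.length_cons]
        push_cast
        nlinarith [g7]
      · simp only [List.map_cons, List.sum_cons, List.length_cons]
        push_cast
        linarith [g8]
      · intro a ha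
        rcases List.mem_cons.1 ha with rfl | ha
        · linarith
        · exact g9 a ha
      · refine hc1.trans ((Cut.add hc2 g10).trans (Cut.of_eq ?_))
        have e : Y - (((us :: rows).length : ℕ) : ℝ) * w = Y - w - rows.length * w := by
          simp only [List.length_cons]
          push_cast
          ring
        rw [e, List.map_cons, List.map_cons, ← Multiset.cons_coe, ← Multiset.cons_coe,
          ← Multiset.singleton_add, ← Multiset.singleton_add, rects_add]
        abel

end Pool.Agent.MM2
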