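import Pool.Agent.MP_94f265_co.MM2.Serve

/-!
# Cutting the objects at a threshold, service of a class
-/

namespace Pool.Agent.MM2

open Pool.Agent.MM1

open Classical in
/-- the part of the object with cells thinner than `τ` -/
noncomputable def Obj.pre (τ : ℝ) (o : Obj) : Multiset Obj :=
  if o.run.takeWhile (fun p => decide (o.t - p.1 < τ)) = [] then 0
  else {⟨o.t, o.run.takeWhile (fun p => decide (o.t - p.1 < τ))⟩}

open Classical in
/-- the part of the object with cells of thickness at least `τ` -/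
noncomputable def Obj.suf (τ : ℝ) (o : Obj) : Multiset Obj :=
  if o.run.dropWhile (fun p => decide (o.t - p.1 < τ)) = [] then 0
  else {⟨o.t, o.run.dropWhile (fun p => decide (o.t - p.1 < τ))⟩}

/-- all parts thinner than `τ` -/
noncomputable def preQ (τ : ℝ) (Q : Multiset Obj) : Multiset Obj := (Q.map (Obj.pre τ)).sum

/-- all parts of thickness at least `τ` -/
noncomputable def sufQ (τ : ℝ) (Q : Multiset Obj) : Multiset Obj := (Q.map (Obj.suf τ)).sum

theorem potL_append (t : ℝ) (l m : List (ℝ × ℝ)) :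
    (Multiset.ofList (Obj.potL t l)) + Multiset.ofList (Obj.potL t m) ≤
      Multiset.ofList (Obj.potL t (l ++ m)) := by
  induction l with
  | nil => simp [Obj.potL]
  | cons p l ih =>
    cases l with
    | nil =>
      cases m with
      | nil => simp [Obj.potL]
      | cons q m =>
        simp only [List.singleton_append, Obj.potL, Multiset.coe_nil, zero_add]
        rw [← Multiset.cons_coe]
        exact Multiset.le_cons_self _ _
    | cons q l =>
      have e : p :: q :: l ++ m = p :: q :: (l ++ m) := rfl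
      rw [e]
      simp only [Obj.potL]
      rw [← Multiset.cons_coe, ← Multiset.cons_coe, Multiset.cons_add]
      exact Multiset.cons_le_cons _ ih

theorem rects_zero : rects 0 = 0 := by simp [rects]
theorem owed_zero : owed 0 = 0 := by simp [owed]
theorem cellsOf_zero : cellsOf 0 = 0 := by simp [cellsOf]
theorem potOf_zero : potOf 0 = 0 := by simp [potOf]

theorem rects_add (Q R : Multiset Obj) : rects (Q + R) = rects Q + rects R := by simp [rects]
theorem owed_add (Q R : Multiset Obj) : owed (Q + R) = owed Q + owed R := by simp [owed]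
theorem cellsOf_add (Q R : Multiset Obj) : cellsOf (Q + R) = cellsOf Q + cellsOf R := by
  simp [cellsOf]
theorem potOf_add (Q R : Multiset Obj) : potOf (Q + R) = potOf Q + potOf R := by simp [potOf]

theorem rects_single (o : Obj) : rects {o} = {o.rect} := by simp [rects]
theorem owed_single (o : Obj) : owed {o} = Multiset.ofList o.run := by simp [owed]
theorem cellsOf_single (o : Obj) : cellsOf {o} = Multiset.ofList o.cells := by simp [cellsOf]
theorem potOf_single (o : Obj) : potOf {o} = Multiset.ofList o.pot := by simp [potOf]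

theorem preQ_add (τ : ℝ) (Q R : Multiset Obj) : preQ τ (Q + R) = preQ τ Q + preQ τ R := by
  simp [preQ]
theorem sufQ_add (τ : ℝ) (Q R : Multiset Obj) : sufQ τ (Q + R) = sufQ τ Q + sufQ τ R := by
  simp [sufQ]
theorem preQ_single (τ : ℝ) (o : Obj) : preQ τ {o} = o.pre τ := by simp [preQ]
theorem sufQ_single (τ : ℝ) (o : Obj) : sufQ τ {o} = o.suf τ := by simp [sufQ]

open Classical in
theorem dropWhile_due (τ t : ℝ) (run : List (ℝ × ℝ)) (hs : run.Pairwise (fun p q => q.1 ≤ p.1)) :
    ∀ p ∈ run.dropWhile (fun p => decide (t - p.1 < τ)), τ ≤ t - p.1 := by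
  induction run with
  | nil => simp
  | cons q run ih =>
    rw [List.pairwise_cons] at hs
    intro p hp
    by_cases h : t - q.1 < τ
    · rw [List.dropWhile_cons_of_pos (by simpa using h)] at hp
      exact ih hs.2 p hp
    · rw [List.dropWhile_cons_of_neg (by simpa using h)] at hp
      push Not at h
      rcases List.mem_cons.1 hp with rfl | hp
      · exact h
      · have := hs.1 p hp
        linarith

/-- properties of the split of one object -/
theorem Obj.split_spec (τ : ℝ) (o : Obj) (ho : o.Ok) :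
    (∀ o' ∈ o.pre τ, o'.Ok ∧ o'.t = o.t ∧ ∀ p ∈ o'.run, p ∈ o.run ∧ o.t - p.1 < τ) ∧
    (∀ o' ∈ o.suf τ, o'.Ok ∧ o'.t = o.t ∧ ∀ p ∈ o'.run, p ∈ o.run ∧ τ ≤ o.t - p.1) ∧
    Multiset.card (o.pre τ) ≤ 1 ∧ Multiset.card (o.suf τ) ≤ 1 ∧
    Cut {o.rect} (rects (o.pre τ) + rects (o.suf τ)) ∧
    owed {o} = owed (o.pre τ) + owed (o.suf τ) ∧
    cellsOf {o} = cellsOf (o.pre τ) + cellsOf (o.suf τ) ∧
    potOf (o.pre τ) + potOf (o.suf τ) ≤ potOf {o} := by
  classical
  have hsplit := List.takeWhile_append_dropWhile (p := fun p => decide (o.t - p.1 < τ)) (l := o.run)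
  unfold Obj.pre Obj.suf
  set l := o.run.takeWhile (fun p => decide (o.t - p.1 < τ)) with hl
  set m := o.run.dropWhile (fun p => decide (o.t - p.1 < τ)) with hm
  have hlsub : ∀ p ∈ l, p ∈ o.run := fun p hp => by rw [← hsplit]; exact List.mem_append_left _ hp
  have hmsub : ∀ p ∈ m, p ∈ o.run := fun p hp => by rw [← hsplit]; exact List.mem_append_right _ hp
  have hl1 : ∀ p ∈ l, o.t - p.1 < τ := by
    intro p hp
    have := List.mem_takeWhile_imp hp
    simpa using this
  have hm1 : ∀ p ∈ m, τ ≤ o.t - p.1 := dropWhile_due τ o.t o.run ho.hs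
  have hsort := ho.hs
  rw [← hsplit, List.pairwise_append] at hsort
  obtain ⟨s1, s2, _⟩ := hsort
  have okl : l ≠ [] → (⟨o.t, l⟩ : Obj).Ok := fun h =>
    ⟨h, fun p hp => ho.hh p (hlsub p hp), fun p hp => ho.hL p (hlsub p hp), s1⟩
  have okm : m ≠ [] → (⟨o.t, m⟩ : Obj).Ok := fun h =>
    ⟨h, fun p hp => ho.hh p (hmsub p hp), fun p hp => ho.hL p (hmsub p hp), s2⟩
  have hlen : o.len = (l.map Prod.snd).sum + (m.map Prod.snd).sum := by
    unfold Obj.len
    rw [← hsplit, List.map_append, List.sum_append]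
  have hl0 : 0 ≤ (l.map Prod.snd).sum := sum_snd_nonneg l (fun p hp => ho.hL p (hlsub p hp))
  have hm0 : 0 ≤ (m.map Prod.snd).sum := sum_snd_nonneg m (fun p hp => ho.hL p (hmsub p hp))
  have hcells : o.cells = l.map (fun p => (o.t - p.1, p.2)) ++ m.map (fun p => (o.t - p.1, p.2)) := by
    unfold Obj.cells
    rw [← List.map_append, hsplit]
  have hrun : o.run = l ++ m := hsplit.symm
  by_cases h1 : l = []
  · by_cases h2 : m = []
    · exfalso
      apply ho.ne
      rw [hrun, h1, h2]
      rfl
    · rw [if_pos h1, if_neg h2]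
      have hom : (⟨o.t, m⟩ : Obj) = o := by
        have : m = o.run := by rw [hrun, h1]; rfl
        rw [this]
      rw [hom]
      refine ⟨by simp, ?_, by simp, by simp, ?_, ?_, ?_, ?_⟩
      · intro o' ho'
        rw [Multiset.mem_singleton] at ho'
        subst ho'
        refine ⟨ho, rfl, fun p hp => ⟨hp, hm1 p ?_⟩⟩
        rw [hrun, h1] at hp
        exact hp
      · rw [rects_zero, zero_add, rects_single]
        exact Cut.refl _
      · rw [owed_zero, zero_add]
      · rw [cellsOf_zero, zero_add]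
      · rw [potOf_zero, zero_add]
  · by_cases h2 : m = []
    · rw [if_neg h1, if_pos h2]
      have hol : (⟨o.t, l⟩ : Obj) = o := by
        have : l = o.run := by rw [hrun, h2, List.append_nil]
        rw [this]
      rw [hol]
      refine ⟨?_, by simp, by simp, by simp, ?_, ?_, ?_, ?_⟩
      · intro o' ho'
        rw [Multiset.mem_singleton] at ho'
        subst ho'
        refine ⟨ho, rfl, fun p hp => ⟨hp, hl1 p ?_⟩⟩
        rw [hrun, h2, List.append_nil] at hp
        exact hp
      · rw [rects_zero, add_zero, rects_single]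
        exact Cut.refl _
      · rw [owed_zero, add_zero]
      · rw [cellsOf_zero, add_zero]
      · rw [potOf_zero, add_zero]
    · rw [if_neg h1, if_neg h2]
      refine ⟨?_, ?_, by simp, by simp, ?_, ?_, ?_, ?_⟩
      · intro o' ho'
        rw [Multiset.mem_singleton] at ho'
        subst ho'
        exact ⟨okl h1, rfl, fun p hp => ⟨hlsub p hp, hl1 p hp⟩⟩
      · intro o' ho'
        rw [Multiset.mem_singleton] at ho'
        subst ho'
        exact ⟨okm h2, rfl, fun p hp => ⟨hmsub p hp, hm1 p hp⟩⟩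
      · rw [rects_single, rects_single]
        have : o.rect = (o.t, (l.map Prod.snd).sum + (m.map Prod.snd).sum) := by
          unfold Obj.rect
          rw [hlen]
        rw [this]
        exact Cut.split' hl0 hm0
      · rw [owed_single, owed_single, owed_single, Multiset.coe_add, hrun]
      · rw [cellsOf_single, cellsOf_single, cellsOf_single, hcells, ← Multiset.coe_add]
        rfl
      · rw [potOf_single, potOf_single, potOf_single]
        have : o.pot = Obj.potL o.t (l ++ m) := by
          unfold Obj.pot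
          rw [hrun]
        rw [this]
        exact potL_append o.t l m

/-- **Split of all objects at the threshold `τ`.** -/
theorem split_spec (τ : ℝ) (Q : Multiset Obj) (hQ : ∀ o ∈ Q, o.Ok) :
    (∀ o' ∈ preQ τ Q, o'.Ok ∧ ∃ o ∈ Q, o'.t = o.t ∧ ∀ p ∈ o'.run, p ∈ o.run ∧ o.t - p.1 < τ) ∧
    (∀ o' ∈ sufQ τ Q, o'.Ok ∧ ∃ o ∈ Q, o'.t = o.t ∧ ∀ p ∈ o'.run, p ∈ o.run ∧ τ ≤ o.t - p.1) ∧
    Cut (rects Q) (rects (preQ τ Q) + rects (sufQ τ Q)) ∧
    owed Q = owed (preQ τ Q) + owed (sufQ τ Q) ∧
    cellsOf Q = cellsOf (preQ τ Q) + cellsOf (sufQ τ Q) ∧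
    potOf (preQ τ Q) + potOf (sufQ τ Q) ≤ potOf Q := by
  induction Q using Multiset.induction_on with
  | empty =>
    refine ⟨by simp [preQ], by simp [sufQ], ?_, ?_, ?_, ?_⟩ <;>
      simp [preQ, sufQ, rects_zero, owed_zero, cellsOf_zero, potOf_zero, Cut.refl]
  | cons o Q ih =>
    obtain ⟨i1, i2, i3, i4, i5, i6⟩ := ih (fun o' ho' => hQ o' (Multiset.mem_cons_of_mem ho'))
    obtain ⟨s1, s2, _, _, s3, s4, s5, s6⟩ := o.split_spec τ (hQ o (Multiset.mem_cons_self _ _))
    rw [← Multiset.singleton_add, preQ_add, sufQ_add, preQ_single, sufQ_single]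
    simp only [rects_add, owed_add, cellsOf_add, potOf_add]
    refine ⟨?_, ?_, ?_, ?_, ?_, ?_⟩
    · intro o' ho'
      rcases Multiset.mem_add.1 ho' with h | h
      · obtain ⟨a, b, c⟩ := s1 o' h
        exact ⟨a, o, Multiset.mem_add.2 (Or.inl (Multiset.mem_singleton_self _)), b, c⟩
      · obtain ⟨a, o2, h2, c⟩ := i1 o' h
        exact ⟨a, o2, Multiset.mem_add.2 (Or.inr h2), c⟩
    · intro o' ho'
      rcases Multiset.mem_add.1 ho' with h | h
      · obtain ⟨a, b, c⟩ := s2 o' h
        exact ⟨a, o, Multiset.mem_add.2 (Or.inl (Multiset.mem_singleton_self _)), b, c⟩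
      · obtain ⟨a, o2, h2, c⟩ := i2 o' h
        exact ⟨a, o2, Multiset.mem_add.2 (Or.inr h2), c⟩
    · have := Cut.add s3 i3
      rw [rects_single]
      refine this.trans (Cut.of_eq ?_)
      abel
    · rw [s4, i4]
      abel
    · rw [s5, i5]
      abel
    · calc potOf (o.pre τ) + potOf (preQ τ Q) + (potOf (o.suf τ) + potOf (sufQ τ Q))
          = (potOf (o.pre τ) + potOf (o.suf τ)) + (potOf (preQ τ Q) + potOf (sufQ τ Q)) := by abel
        _ ≤ potOf {o} + potOf Q := add_le_add s6 i6

end Pool.Agent.MM2
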