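import Pool.Agent.MP_94f265_co.MM2.CarryBL
import Pool.Agent.MP_94f265_co.MM2.Split

/-!
# Service of due objects from the thick end, with the result object by object
-/

namespace Pool.Agent.MM2

open Pool.Agent.MM1

/-- The service of one object `o` (all cells of it): `A` = the slots placed in its cells, from the
thickest to the thinnest cell (each list decreasing), `e` = the remaining length. -/
structure Res where
  o : Obj
  A : List (List ℕ)
  e : ℝ

namespace Res

/-- the cells from the thickest to the thinnest one -/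
noncomputable def cells (r : Res) : List (ℝ × ℝ) := r.o.cells.reverse

open Classical in
/-- the nonempty lists of slots with the thickness of their cell -/
noncomputable def blks (r : Res) : List (ℝ × List ℕ) :=
  (List.zipWith (fun (p : ℝ × ℝ) (a : List ℕ) => (p.1, a)) r.cells r.A).filter
    (fun b => decide (b.2 ≠ []))

/-- the new objects -/
noncomputable def news (x y : ℕ → ℝ) (r : Res) : List Obj :=
  r.blks.map (fun b => mkObj x y b.1 b.2.reverse)

/-- the bits -/
noncomputable def bits (y : ℕ → ℝ) (r : Res) : List (ℝ × ℝ) := bitsB y 0 r.cells r.A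

/-- thickness of the thinnest cell -/
noncomputable def tau (r : Res) : ℝ := (r.o.cells.headD (0, 0)).1

/-- the end piece -/
noncomputable def endp (r : Res) : ℝ × ℝ := (r.e, r.tau)

/-- `r` is the result of a service in which the slot `n` is placed in a cell of thickness `W n`. -/
structure Good (y : ℕ → ℝ) (κ δ yM : ℝ) (W : ℕ → ℝ) (r : Res) : Prop where
  carry : BCarry y κ δ yM 0 r.cells r.A r.e
  hW : List.Forall₂ (fun p a => ∀ n ∈ a, W n = p.1) r.cells r.A
  hdec : ∀ a ∈ r.A, a.Pairwise (· > ·)
  hy : ∀ a ∈ r.A, ∀ n ∈ a, 0 ≤ y n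

end Res

theorem zip_blks (x y : ℕ → ℝ) (run : List (ℝ × ℝ)) (A : List (List ℕ)) (h : run.length = A.length) :
    Cut ((List.zipWith (fun (p : ℝ × ℝ) (a : List ℕ) => (p.1, (a.map y).sum)) run A :
        List (ℝ × ℝ)) : Multiset (ℝ × ℝ))
      (rects (Multiset.ofList
        (((List.zipWith (fun (p : ℝ × ℝ) (a : List ℕ) => (p.1, a)) run A).filter
          (fun b => decide (b.2 ≠ []))).map (fun b => mkObj x y b.1 b.2.reverse)))) := by
  induction run generalizing A with
  | nil =>
    cases A with
    | nil => simp [rects, Cut.refl]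
    | cons a A => simp at h
  | cons p run ih =>
    cases A with
    | nil => simp at h
    | cons a A =>
      have ih' := ih A (by simpa using h)
      rw [List.zipWith_cons_cons, List.zipWith_cons_cons, ← Multiset.cons_coe,
        ← Multiset.singleton_add]
      by_cases ha : a = []
      · subst ha
        rw [List.filter_cons_of_neg (by simp)]
        have h1 := Cut.drop ((List.zipWith (fun (p : ℝ × ℝ) (a : List ℕ) => (p.1, (a.map y).sum)) run A :
          List (ℝ × ℝ)) : Multiset (ℝ × ℝ)) {(p.1, (([] : List ℕ).map y).sum)} (by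
            intro d hd
            rw [Multiset.mem_singleton] at hd
            subst hd
            simp)
        rw [add_comm]
        exact h1.trans ih'
      · rw [List.filter_cons_of_pos (by simpa using ha), List.map_cons, ← Multiset.cons_coe,
          ← Multiset.singleton_add, rects_add, rects_single]
        refine Cut.add (Cut.of_eq ?_) ih'
        simp [Obj.rect, Obj.len, mkObj, Function.comp_def]

/-- the cut made by the service of one object -/
theorem Res.cut (x : ℕ → ℝ) {y : ℕ → ℝ} {κ δ yM : ℝ} {W : ℕ → ℝ} (r : Res) (ho : r.o.Ok)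
    (hκ : 0 ≤ κ) (hδ : 0 ≤ δ) (hr : r.Good y κ δ yM W) :
    Cut {r.o.rect} (Multiset.ofList r.o.run + rects (Multiset.ofList (r.news x y)) +
      Multiset.ofList (r.bits y) + {r.endp}) := by
  have hne : r.cells ≠ [] := by
    unfold Res.cells Obj.cells
    simpa using ho.ne
  have hc0 : r.o.cells ≠ [] := by
    unfold Obj.cells
    simpa using ho.ne
  have hmem : ∀ p ∈ r.cells, ∃ q ∈ r.o.run, p = (r.o.t - q.1, q.2) := by
    intro p hp
    have hp' : p ∈ r.o.run.map (fun p => (r.o.t - p.1, p.2)) := by
      unfold Res.cells at hp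
      exact List.mem_reverse.1 hp
    obtain ⟨q, hq, rfl⟩ := List.mem_map.1 hp'
    exact ⟨q, hq, rfl⟩
  have hk := carry_back_list r.o.t r.e r.cells r.A hκ hδ hne hr.carry hr.hy
    (by
      unfold Res.cells Obj.cells
      rw [List.pairwise_reverse, List.pairwise_map]
      refine ho.hs.imp ?_
      intro p q h
      simp only
      linarith)
    (by
      intro p hp
      obtain ⟨q, hq, rfl⟩ := hmem p hp
      have := ho.hh q hq
      simp only
      constructor <;> linarith [this.1, this.2])
    (by
      intro p hp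
      obtain ⟨q, hq, rfl⟩ := hmem p hp
      exact ho.hL q hq)
  have e1 : (r.cells.map Prod.snd).sum = r.o.len := by
    unfold Res.cells Obj.cells Obj.len
    rw [List.map_reverse, List.sum_reverse, List.map_map]
    rfl
  have e2 : Multiset.ofList (r.cells.map (fun p => (r.o.t - p.1, p.2))) =
      Multiset.ofList r.o.run := by
    unfold Res.cells Obj.cells
    rw [List.map_reverse, List.map_map]
    rw [Multiset.coe_eq_coe]
    refine (List.reverse_perm _).trans ?_
    have : (r.o.run.map ((fun p => (r.o.t - p.1, p.2)) ∘ fun p => (r.o.t - p.1, p.2))) =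
        r.o.run := by
      conv_rhs => rw [← List.map_id r.o.run]
      apply List.map_congr_left
      intro p _
      simp
    rw [this]
  have e3 : (r.cells.getLast hne).1 = r.tau := by
    have hgen : ∀ (l : List (ℝ × ℝ)) (h : l.reverse ≠ []),
        (l.reverse.getLast h).1 = (l.headD (0, 0)).1 := by
      intro l h
      cases l with
      | nil => simp at h
      | cons c l => simp
    exact hgen r.o.cells hne
  rw [e1, e2, e3] at hk
  refine hk.trans ?_
  refine Cut.add (Cut.add (Cut.add (Cut.refl _) ?_) (Cut.refl _)) (Cut.refl _)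
  exact zip_blks x y r.cells r.A (hr.hW.length_eq)

/-- **Service of the due objects, from the thick end.** -/
theorem serve_back (x y : ℕ → ℝ) (κ δ yM : ℝ) (hκ : 0 ≤ κ) (hδ : 0 ≤ δ)
    (Os : List Obj) (hok : ∀ o ∈ Os, o.Ok) (hlong : ∀ o ∈ Os, BLong κ δ o.cells.reverse)
    (ns : List ℕ) (hns : ns.Pairwise (· > ·))
    (hy : ∀ n ∈ ns, 0 ≤ y n ∧ y n ≤ yM)
    (hcap : (Os.map Obj.len).sum < (ns.map y).sum) :
    ∃ (us vs : List ℕ) (W : ℕ → ℝ) (Rs : List Res),
      ns = us ++ vs ∧ vs ≠ [] ∧ (us.map y).sum ≤ (Os.map Obj.len).sum ∧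
      Rs.map Res.o = Os ∧ (∀ r ∈ Rs, r.Good y κ δ yM W) ∧
      (∀ n ∈ us, ∀ n' ∈ us, n ≤ n' → W n ≤ W n') ∧
      (∀ n ∈ us, ∃ o ∈ Os, ∃ p ∈ o.run, W n = o.t - p.1) ∧
      (∃ Bs : List (List ℕ), us = Bs.flatten ∧
        Multiset.ofList Bs = (Rs.map (fun r => Multiset.ofList r.A)).sum) ∧
      Cut (Multiset.ofList (Os.map Obj.rect))
        ((Rs.map (fun r => Multiset.ofList r.o.run + rects (Multiset.ofList (r.news x y)) +
          Multiset.ofList (r.bits y) + {r.endp})).sum) := by
  classical
  have hmem : ∀ i : Fin Os.length, Os.get i ∈ Os := fun i => List.get_mem Os i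
  have hlen : ∀ i : Fin Os.length, ndB (Os.get i).cells.reverse 0 = (Os.get i).len := by
    intro i
    have hgen : ∀ l : List (ℝ × ℝ), l ≠ [] → ndB l 0 = (l.map Prod.snd).sum := by
      intro l hl
      obtain ⟨p, r, rfl⟩ := List.exists_cons_of_ne_nil hl
      simp [ndB]
    have hne : (Os.get i).cells.reverse ≠ [] := by
      unfold Obj.cells
      simpa using (hok _ (hmem i)).ne
    rw [hgen _ hne]
    unfold Obj.cells Obj.len
    rw [List.map_reverse, List.sum_reverse, List.map_map]
    rfl
  have hsumlen : ∑ i : Fin Os.length, ndB (Os.get i).cells.reverse 0 = (Os.map Obj.len).sum := by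
    rw [← ofList_sum_fin Os Obj.len]
    exact Finset.sum_congr rfl (fun i _ => hlen i)
  obtain ⟨us, vs, W, A, e, h1, h2, h3, h4, h6, h7, h8, h9, Bs, hB1, hB2⟩ :=
    fill_back (Finset.univ : Finset (Fin Os.length)) y κ δ yM hκ hδ
      _ (fun i => (Os.get i).cells.reverse) (fun _ => 0) ns rfl
      (by
        intro i _
        unfold Obj.cells
        rw [List.pairwise_reverse, List.pairwise_map]
        refine (hok _ (hmem i)).hs.imp ?_
        intro p q h
        simp only
        linarith)
      (fun i _ => le_rfl)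
      (by
        intro i _ p hp
        rw [List.mem_reverse] at hp
        unfold Obj.cells at hp
        obtain ⟨q, hq, rfl⟩ := List.mem_map.1 hp
        exact (hok _ (hmem i)).hL q hq)
      (fun i _ => hlong _ (hmem i))
      hns hy
      (by rw [hsumlen]; exact hcap)
  rw [hsumlen] at h3
  have hAmem : ∀ i : Fin Os.length, ∀ a ∈ A i, ∀ n ∈ a, n ∈ us := by
    intro i a ha n hn
    have : a ∈ (Bs : Multiset (List ℕ)) := by
      rw [hB2, Multiset.mem_sum]
      exact ⟨i, Finset.mem_univ _, by simpa using ha⟩
    rw [hB1, List.mem_flatten]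
    exact ⟨a, by simpa using this, hn⟩
  have husns : ∀ n ∈ us, n ∈ ns := fun n hn => by rw [h1]; exact List.mem_append_left _ hn
  set f : Fin Os.length → Res := fun i => ⟨Os.get i, A i, e i⟩ with hf
  have hgood : ∀ i, (f i).Good y κ δ yM W := by
    intro i
    refine ⟨h4 i (Finset.mem_univ _), h8 i (Finset.mem_univ _), h9 i (Finset.mem_univ _), ?_⟩
    intro a ha n hn
    exact (hy n (husns n (hAmem i a ha n hn))).1
  have hsum : ∀ {β : Type} [AddCommMonoid β] (g : Res → β),
      ((List.ofFn f).map g).sum = ∑ i, g (f i) := by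
    intro β _ g
    rw [List.map_ofFn, List.sum_ofFn]
    rfl
  refine ⟨us, vs, W, List.ofFn f, h1, h2, h3, ?_, ?_, h6, ?_, ⟨Bs, hB1, ?_⟩, ?_⟩
  · rw [List.map_ofFn]
    have : (Res.o ∘ f) = Os.get := by
      funext i
      rfl
    rw [this, List.ofFn_get]
  · intro r hr
    rw [List.mem_ofFn] at hr
    obtain ⟨i, rfl⟩ := hr
    exact hgood i
  · intro n hn
    obtain ⟨i, _, p, hp, hWp⟩ := h7 n hn
    rw [List.mem_reverse] at hp
    unfold Obj.cells at hp
    obtain ⟨q, hq, rfl⟩ := List.mem_map.1 hp
    exact ⟨_, hmem i, q, hq, hWp⟩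
  · rw [hsum, hB2]
  · rw [hsum]
    have hall := cut_sum (Finset.univ : Finset (Fin Os.length))
      (fun i => ({(Os.get i).rect} : Multiset (ℝ × ℝ))) _
      (fun i _ => Res.cut x (f i) (hok _ (hmem i)) hκ hδ (hgood i))
    have eL : ∑ i : Fin Os.length, ({(Os.get i).rect} : Multiset (ℝ × ℝ)) =
        Multiset.ofList (Os.map Obj.rect) := by
      rw [ofList_sum_fin Os (fun o => ({o.rect} : Multiset (ℝ × ℝ)))]
      clear hall
      generalize Os = l
      induction l with
      | nil => rfl
      | cons o l ih =>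
        rw [List.map_cons, List.sum_cons, ih, List.map_cons, ← Multiset.cons_coe,
          Multiset.singleton_add]
    rw [eL] at hall
    exact hall

end Pool.Agent.MM2
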