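import Pool.Agent.MP_94f265_co.MM2.Slots

/-!
# States of the tail, the data of a phase, the next state
-/

namespace Pool.Agent.MM2

open Pool.Agent.MM1

/-- State before a phase: regular objects, objects born in end pieces, end pieces
(thickness, length), pending strips (thickness, length; at most one), the box `X × Y`. -/
structure TState where
  QR : Multiset Obj
  QE : Multiset Obj
  E : Multiset (ℝ × ℝ)
  P : Multiset (ℝ × ℝ)
  X : ℝ
  Y : ℝ

namespace TState

/-- all free rectangles (the rectangles of the objects contain their owed pieces) -/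
noncomputable def free (s : TState) : Multiset (ℝ × ℝ) :=
  rects s.QR + rects s.QE + s.E + s.P + {(s.X, s.Y)}

end TState

open Classical in
/-- the owed pieces without the void ones -/
noncomputable def owedR (Q : Multiset Obj) : Multiset (ℝ × ℝ) := (owed Q).filter (fun p => p.1 ≠ 0)

/-- The data of a phase, see `PhaseOK`. -/
structure PhaseData where
  W : ℕ → ℝ
  RP : List Res
  RR : List Res
  RQ : List Res
  RE : List Res
  Bs : List (List ℕ)
  rows : List (List ℕ)
  es : List ℝ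
  ℓ : ℝ

namespace PhaseData

/-- all services -/
def Rs (d : PhaseData) : List Res := d.RP ++ d.RR ++ d.RQ ++ d.RE

/-- the new regular objects (without the bits and the rows) -/
noncomputable def newR (d : PhaseData) : Multiset Obj :=
  ((d.RP ++ d.RR ++ d.RQ).map (fun r => Multiset.ofList (r.news xu yu))).sum

/-- the new objects born in end pieces -/
noncomputable def newE (d : PhaseData) : Multiset Obj :=
  (d.RE.map (fun r => Multiset.ofList (r.news xu yu))).sum

/-- the objects of the rows -/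
noncomputable def rowO (i : ℕ) (d : PhaseData) : Multiset Obj :=
  Multiset.ofList (d.rows.map (fun a => mkObj xu yu (Th i) a.reverse))

open Classical in
/-- the bits (degenerate ones are dropped) -/
noncomputable def bitS (d : PhaseData) : Multiset (ℝ × ℝ) :=
  ((d.Rs.map (fun r => Multiset.ofList (r.bits yu))).sum).filter (fun p => 0 < p.1)

/-- the ends (before they are cut in two) -/
noncomputable def ends (i : ℕ) (d : PhaseData) : Multiset (ℝ × ℝ) :=
  Multiset.ofList (d.Rs.map Res.endp) + Multiset.ofList (d.es.map (fun e => (e, Th i)))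

open Classical in
/-- the pieces emitted in the phase -/
noncomputable def em (d : PhaseData) : Multiset (ℝ × ℝ) :=
  ((d.Rs.map (fun r => Multiset.ofList r.o.run)).sum).filter (fun p => p.1 ≠ 0)

end PhaseData

open Classical in
/-- `d` describes the phase `i` applied to the state `s`. -/
structure PhaseOK (i : ℕ) (s : TState) (d : PhaseData) : Prop where
  hRP : Multiset.ofList (d.RP.map Res.o) = s.P.map plainObj
  hRR : Multiset.ofList (d.RR.map Res.o) = sufQ (Th i) s.QR
  hRQ : Multiset.ofList (d.RQ.map Res.o) = sufQ (Th i) s.QE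
  hRE : Multiset.ofList (d.RE.map Res.o) = (s.E.filter (fun p => Th i ≤ p.1)).map plainObj
  good : ∀ r ∈ d.Rs, r.o.Ok ∧ r.Good yu (51 / 50) (del i) (yM i) d.W
  slots_eq : slots i = d.Bs.flatten ++ d.rows.flatten
  blocks : Multiset.ofList d.Bs = (d.Rs.map (fun r => Multiset.ofList r.A)).sum
  mono : ∀ n ∈ PP i, ∀ n' ∈ PP i, n ≤ n' → d.W n ≤ d.W n'
  range : ∀ n ∈ PP i, Th i ≤ d.W n ∧ d.W n ≤ Th (i - 1)
  rowW : ∀ n ∈ d.rows.flatten, d.W n = Th i
  rowNe : ∀ a ∈ d.rows, a ≠ []
  rowLen : d.es.length + 1 = d.rows.length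
  rowE : ∀ e ∈ d.es, del i ≤ e ∧ e ≤ del i + yM i
  hℓ : del i ≤ d.ℓ ∧ d.ℓ ≤ s.X
  nrows : ((d.rows.length : ℝ) - 1) * (s.X - del i - yM i) ≤ ∑ n ∈ PP i, yu n
  cut : Cut s.free
    (rects (preQ (Th i) s.QR) + rects (preQ (Th i) s.QE) +
      s.E.filter (fun p => ¬ Th i ≤ p.1) + (d.Rs.map (Res.out xu yu)).sum +
      rects (d.rowO i) + Multiset.ofList (d.es.map (fun e => (e, Th i))) + {(d.ℓ, Th i)} +
      {(s.X, s.Y - d.rows.length * Th i)})

open Classical in
/-- The next state; `F` = the halves of the ends. -/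
noncomputable def nextState (i : ℕ) (s : TState) (d : PhaseData) (F : Multiset (ℝ × ℝ)) : TState where
  QR := preQ (Th i) s.QR + d.newR + d.bitS.map plainObj + d.rowO i
  QE := preQ (Th i) s.QE + d.newE
  E := s.E.filter (fun p => ¬ Th i ≤ p.1) + F
  P := {(Th i, d.ℓ)}
  X := min s.X (s.Y - d.rows.length * Th i)
  Y := max s.X (s.Y - d.rows.length * Th i)

/-- The due part of an object list satisfies the threshold condition. -/
theorem blong_of (κ δ : ℝ) (l : List (ℝ × ℝ)) (hδ : ∀ p ∈ l, δ ≤ p.2)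
    (hκ : ∀ p ∈ potC l, 0 ≤ p.1 ∧ κ * p.1 ≤ p.2) (hL : 2 ≤ l.length → ∀ p ∈ l, p.1 ≤ p.2)
    (hsort : l.Pairwise (fun p q => q.1 ≤ p.1)) : BLong κ δ l := by
  induction l with
  | nil => trivial
  | cons p l ih =>
    cases l with
    | nil => exact hδ p (by simp)
    | cons q l =>
      refine ⟨?_, ih (fun r hr => hδ r (by simp [hr])) (fun r hr => hκ r (by
        simp only [potC, List.mem_cons]; exact Or.inr hr)) (fun _ r hr => hL (by simp) r (by simp [hr]))
        (List.pairwise_cons.1 hsort).2⟩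
      have h1 := hκ (p.1 - q.1, q.1) (by simp [potC])
      have h2 := hL (by simp) p (by simp)
      have h3 := (List.pairwise_cons.1 hsort).1 q (by simp)
      simp only at h1
      linarith [h1.2]

/-- (I1) for one object: all cells have thickness in `(0, T)`. -/
structure OInv (T : ℝ) (o : Obj) : Prop where
  ok : o.Ok
  pos : ∀ p ∈ o.run, 0 < o.t - p.1
  lt : ∀ p ∈ o.run, o.t - p.1 < T
  asp : ∀ p ∈ o.run, (51 / 50) * (o.t - p.1) ≤ p.2
  multi : 2 ≤ o.run.length → ∀ p ∈ o.run, 4 * (o.t - p.1) ≤ p.2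
  eta : ∀ p ∈ o.pot, p.1 ≤ p.2 / 20
  epos : ∀ p ∈ o.pot, 0 < p.1

/-- the end pieces -/
def EInv (T : ℝ) (p : ℝ × ℝ) : Prop := 0 < p.1 ∧ p.1 < T ∧ (13 / 10) * p.1 ≤ p.2

/-- (I1) and the pending strip and the shape of the box, before phase `i`. -/
structure SInv (i : ℕ) (s : TState) : Prop where
  hR : ∀ o ∈ s.QR, OInv (Th (i - 1)) o
  hQ : ∀ o ∈ s.QE, OInv (Th (i - 1)) o
  hE : ∀ p ∈ s.E, EInv (Th (i - 1)) p
  hP : ∀ p ∈ s.P, p.1 = Th (i - 1) ∧ del i ≤ p.2
  hPc : Multiset.card s.P ≤ 1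
  hX : 0 < s.X
  hXY : s.X ≤ s.Y
  hYX : s.Y ≤ 2 * s.X

/-- The same with another bound `T` for the thickness of the cells and of the end pieces. -/
structure SInvT (T : ℝ) (i : ℕ) (s : TState) : Prop where
  hR : ∀ o ∈ s.QR, OInv T o
  hQ : ∀ o ∈ s.QE, OInv T o
  hE : ∀ p ∈ s.E, EInv T p
  hP : ∀ p ∈ s.P, p.1 = Th (i - 1) ∧ del i ≤ p.2
  hPc : Multiset.card s.P ≤ 1
  hX : 0 < s.X
  hXY : s.X ≤ s.Y
  hYX : s.Y ≤ 2 * s.X

theorem OInv.mono {T T' : ℝ} {o : Obj} (h : OInv T o) (hT : T ≤ T') : OInv T' o :=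
  ⟨h.ok, h.pos, fun p hp => (h.lt p hp).trans_le hT, h.asp, h.multi, h.eta, h.epos⟩

theorem EInv.mono {T T' : ℝ} {p : ℝ × ℝ} (h : EInv T p) (hT : T ≤ T') : EInv T' p :=
  ⟨h.1, h.2.1.trans_le hT, h.2.2⟩

theorem SInvT.toSInv {T : ℝ} {i : ℕ} {s : TState} (h : SInvT T i s) (hT : T ≤ Th (i - 1)) : SInv i s :=
  ⟨fun o ho => (h.hR o ho).mono hT, fun o ho => (h.hQ o ho).mono hT, fun p hp => (h.hE p hp).mono hT,
    h.hP, h.hPc, h.hX, h.hXY, h.hYX⟩

theorem SInv.toSInvT {i : ℕ} {s : TState} (h : SInv i s) : SInvT (Th (i - 1)) i s :=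
  ⟨h.hR, h.hQ, h.hE, h.hP, h.hPc, h.hX, h.hXY, h.hYX⟩

theorem SInv.toSInvT' {T : ℝ} {i : ℕ} {s : TState} (h : SInv i s) (h1 : ∀ o ∈ s.QR + s.QE, OInv T o)
    (h2 : ∀ p ∈ s.E, EInv T p) : SInvT T i s :=
  ⟨fun o ho => h1 o (Multiset.mem_add.2 (Or.inl ho)), fun o ho => h1 o (Multiset.mem_add.2 (Or.inr ho)),
    h2, h.hP, h.hPc, h.hX, h.hXY, h.hYX⟩

theorem potL_nonneg (t : ℝ) (l : List (ℝ × ℝ)) (hs : l.Pairwise (fun p q => q.1 ≤ p.1)) :
    ∀ p ∈ Obj.potL t l, 0 ≤ p.1 := by
  induction l with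
  | nil => simp [Obj.potL]
  | cons p l ih =>
    cases l with
    | nil => simp [Obj.potL]
    | cons q l =>
      intro r hr
      simp only [Obj.potL, List.mem_cons] at hr
      rw [List.pairwise_cons] at hs
      rcases hr with rfl | hr
      · have := hs.1 q (by simp)
        simp only
        linarith
      · exact ih hs.2 r hr

theorem OInv.pot_nonneg {T : ℝ} {o : Obj} (h : OInv T o) : ∀ p ∈ o.pot, 0 ≤ p.1 :=
  potL_nonneg o.t o.run h.ok.hs

/-- an object with all its cells at least `τ` thick can be filled -/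
theorem OInv.blong {T τ δ : ℝ} {o : Obj} (h : OInv T o) (hτ : ∀ p ∈ o.run, τ ≤ o.t - p.1)
    (hδ : δ ≤ (51 / 50) * τ) : BLong (51 / 50) δ o.cells.reverse := by
  have hmem : ∀ c ∈ o.cells.reverse, ∃ q ∈ o.run, c = (o.t - q.1, q.2) := by
    intro c hc
    rw [List.mem_reverse] at hc
    obtain ⟨q, hq, rfl⟩ := List.mem_map.1
      (show c ∈ o.run.map (fun p => (o.t - p.1, p.2)) from hc)
    exact ⟨q, hq, rfl⟩
  have hpot : potC o.cells.reverse = o.pot.reverse := by
    unfold Obj.cells Obj.pot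
    exact (potL_reverse o.t o.run).symm
  apply blong_of
  · intro c hc
    obtain ⟨q, hq, rfl⟩ := hmem c hc
    have h1 := h.asp q hq
    have h2 := hτ q hq
    simp only
    linarith
  · intro p hp
    rw [hpot, List.mem_reverse] at hp
    have h1 := h.eta p hp
    have h2 := h.pot_nonneg p hp
    refine ⟨h2, ?_⟩
    linarith
  · intro hlen c hc
    obtain ⟨q, hq, rfl⟩ := hmem c hc
    have h3 : 2 ≤ o.run.length := by
      unfold Obj.cells at hlen
      simpa using hlen
    have h1 := h.multi h3 q hq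
    have h2 := h.pos q hq
    simp only
    linarith
  · unfold Obj.cells
    rw [List.pairwise_reverse, List.pairwise_map]
    refine h.ok.hs.imp ?_
    intro p q h
    simp only
    linarith

/-- parts of an object -/
theorem OInv.part {T T' : ℝ} {o o' : Obj} (h : OInv T o) (hok : o'.Ok) (ht : o'.t = o.t)
    (hrun : ∀ p ∈ o'.run, p ∈ o.run ∧ o.t - p.1 < T') (hlen : o'.run.length ≤ o.run.length)
    (hpot : ∀ p ∈ o'.pot, p ∈ o.pot) : OInv T' o' := by
  refine ⟨hok, ?_, ?_, ?_, ?_, ?_, ?_⟩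
  · intro p hp
    rw [ht]
    exact h.pos p (hrun p hp).1
  · intro p hp
    rw [ht]
    exact (hrun p hp).2
  · intro p hp
    rw [ht]
    exact h.asp p (hrun p hp).1
  · intro h2 p hp
    rw [ht]
    exact h.multi (h2.trans hlen) p (hrun p hp).1
  · intro p hp
    exact h.eta p (hpot p hp)
  · intro p hp
    exact h.epos p (hpot p hp)

theorem mem_preQ {τ : ℝ} {Q : Multiset Obj} {o' : Obj} (h : o' ∈ preQ τ Q) :
    ∃ o ∈ Q, o' ∈ o.pre τ := by
  induction Q using Multiset.induction_on with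
  | empty => simp [preQ] at h
  | cons o Q ih =>
    rw [← Multiset.singleton_add, preQ_add, preQ_single, Multiset.mem_add] at h
    rcases h with h | h
    · exact ⟨o, Multiset.mem_cons_self _ _, h⟩
    · obtain ⟨o2, ho2, h2⟩ := ih h
      exact ⟨o2, Multiset.mem_cons_of_mem ho2, h2⟩

theorem mem_sufQ {τ : ℝ} {Q : Multiset Obj} {o' : Obj} (h : o' ∈ sufQ τ Q) :
    ∃ o ∈ Q, o' ∈ o.suf τ := by
  induction Q using Multiset.induction_on with
  | empty => simp [sufQ] at h
  | cons o Q ih =>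
    rw [← Multiset.singleton_add, sufQ_add, sufQ_single, Multiset.mem_add] at h
    rcases h with h | h
    · exact ⟨o, Multiset.mem_cons_self _ _, h⟩
    · obtain ⟨o2, ho2, h2⟩ := ih h
      exact ⟨o2, Multiset.mem_cons_of_mem ho2, h2⟩

theorem pre_length {τ : ℝ} {o o' : Obj} (h : o' ∈ o.pre τ) : o'.run.length ≤ o.run.length := by
  classical
  unfold Obj.pre at h
  split_ifs at h
  · simp at h
  · rw [Multiset.mem_singleton] at h
    subst h
    exact (List.takeWhile_prefix _).length_le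

theorem suf_length {τ : ℝ} {o o' : Obj} (h : o' ∈ o.suf τ) : o'.run.length ≤ o.run.length := by
  classical
  unfold Obj.suf at h
  split_ifs at h
  · simp at h
  · rw [Multiset.mem_singleton] at h
    subst h
    exact (List.dropWhile_suffix _).length_le

theorem mem_potOf_of_mem {Q : Multiset Obj} {o : Obj} {p : ℝ × ℝ} (ho : o ∈ Q) (hp : p ∈ o.pot) :
    p ∈ potOf Q := by
  induction Q using Multiset.induction_on with
  | empty => simp at ho
  | cons o2 Q ih =>
    rw [← Multiset.singleton_add, potOf_add, potOf_single, Multiset.mem_add]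
    rcases Multiset.mem_cons.1 ho with rfl | ho
    · exact Or.inl (by simpa using hp)
    · exact Or.inr (ih ho)

/-- the parts which stay -/
theorem OInv.preQ {T τ : ℝ} {Q : Multiset Obj} (hQ : ∀ o ∈ Q, OInv T o) :
    ∀ o' ∈ preQ τ Q, OInv (min T τ) o' := by
  intro o' ho'
  obtain ⟨o, ho, h'⟩ := mem_preQ ho'
  obtain ⟨s1, s2, _, _, _, _, _, s6⟩ := o.split_spec τ (hQ o ho).ok
  obtain ⟨a, b, c⟩ := s1 o' h'
  refine (hQ o ho).part a b (fun p hp => ⟨(c p hp).1, lt_min ((hQ o ho).lt p (c p hp).1) (c p hp).2⟩)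
    (pre_length h') ?_
  intro p hp
  have h1 := mem_potOf_of_mem h' hp
  have h2 : p ∈ potOf {o} := Multiset.mem_of_le s6 (Multiset.mem_add.2 (Or.inl h1))
  rw [potOf_single] at h2
  simpa using h2

/-- the parts which are served -/
theorem OInv.sufQ {T τ : ℝ} {Q : Multiset Obj} (hQ : ∀ o ∈ Q, OInv T o) :
    ∀ o' ∈ sufQ τ Q, OInv T o' ∧ ∀ p ∈ o'.run, τ ≤ o'.t - p.1 := by
  intro o' ho'
  obtain ⟨o, ho, h'⟩ := mem_sufQ ho'
  obtain ⟨s1, s2, _, _, _, _, _, s6⟩ := o.split_spec τ (hQ o ho).ok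
  obtain ⟨a, b, c⟩ := s2 o' h'
  refine ⟨(hQ o ho).part a b (fun p hp => ⟨(c p hp).1, (hQ o ho).lt p (c p hp).1⟩)
    (suf_length h') ?_, ?_⟩
  · intro p hp
    have h1 := mem_potOf_of_mem h' hp
    have h2 : p ∈ potOf {o} := Multiset.mem_of_le s6 (Multiset.mem_add.2 (Or.inr h1))
    rw [potOf_single] at h2
    simpa using h2
  · intro p hp
    rw [b]
    exact (c p hp).2

end Pool.Agent.MM2
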