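import Pool.Agent.MP_94f265_co.MM2.Step
import Pool.Agent.MP_94f265_co.MM2.TDefs

/-!
# Bookkeeping of the owed pieces in one phase
-/

namespace Pool.Agent.MM2

open Pool.Agent.MM1

theorem owedR_add (Q R : Multiset Obj) : owedR (Q + R) = owedR Q + owedR R := by
  classical
  unfold owedR
  rw [owed_add, Multiset.filter_add]

theorem owedR_zero : owedR 0 = 0 := by
  classical
  unfold owedR
  rw [owed_zero, Multiset.filter_zero]

/-- plain rectangles owe nothing -/
theorem owedR_plain (s : Multiset (ℝ × ℝ)) : owedR (s.map plainObj) = 0 := by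
  classical
  induction s using Multiset.induction_on with
  | empty => simpa using owedR_zero
  | cons p s ih =>
    rw [Multiset.map_cons, ← Multiset.singleton_add, owedR_add, ih, add_zero]
    unfold owedR
    rw [owed_single]
    simp [plainObj]

/-- the owed pieces of the new objects -/
theorem newsL_owed (x y W : ℕ → ℝ) (c : List (ℝ × ℝ)) (A : List (List ℕ))
    (h : List.Forall₂ (fun (p : ℝ × ℝ) (a : List ℕ) => ∀ n ∈ a, W n = p.1) c A) :
    owed (Multiset.ofList (newsL x y c A)) =
      Multiset.ofList (A.flatten.map (fun n => (x n, y n))) := by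
  induction h with
  | nil => simp [newsL_nil, owed_zero]
  | @cons p a c A hpa _ ih =>
    by_cases ha : a = []
    · subst ha
      rw [newsL_cons_nil, ih]
      simp
    · rw [newsL_cons x y p a ha, ← Multiset.cons_coe, ← Multiset.singleton_add, owed_add, ih,
        owed_single, List.flatten_cons, List.map_append, ← Multiset.coe_add]
      congr 1
      rw [Multiset.coe_eq_coe]
      exact (List.reverse_perm a).map _

/-- the owed pieces of the rows -/
theorem rows_owed (x y : ℕ → ℝ) (τ : ℝ) (rows : List (List ℕ)) :
    owed (Multiset.ofList (rows.map (fun a => mkObj x y τ a.reverse))) =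
      Multiset.ofList (rows.flatten.map (fun n => (x n, y n))) := by
  induction rows with
  | nil => simp [owed_zero]
  | cons a rows ih =>
    rw [List.map_cons, ← Multiset.cons_coe, ← Multiset.singleton_add, owed_add, ih,
      owed_single, List.flatten_cons, List.map_append, ← Multiset.coe_add]
    congr 1
    rw [Multiset.coe_eq_coe]
    exact (List.reverse_perm a).map _

/-- the owed pieces of all objects made in a phase -/
theorem all_owed (x y W : ℕ → ℝ) (κ δ yM τ : ℝ) (Rs : List Res) (Bs rows : List (List ℕ))
    (ns : List ℕ) (hG : ∀ r ∈ Rs, r.Good y κ δ yM W)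
    (hns : ns = Bs.flatten ++ rows.flatten)
    (hB : Multiset.ofList Bs = (Rs.map (fun r => Multiset.ofList r.A)).sum) :
    (Rs.map (fun r => owed (Multiset.ofList (r.news x y)))).sum +
      owed (Multiset.ofList (rows.map (fun a => mkObj x y τ a.reverse))) =
      Multiset.ofList (ns.map (fun n => (x n, y n))) := by
  have key : ∀ C : List (List ℕ), Multiset.ofList (C.flatten.map (fun n => (x n, y n))) =
      ((Multiset.ofList C).map (fun a => Multiset.ofList (a.map (fun n => (x n, y n))))).sum := by
    intro C
    induction C with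
    | nil => simp
    | cons a C ih =>
      rw [List.flatten_cons, List.map_append, ← Multiset.coe_add, ih, ← Multiset.cons_coe,
        Multiset.map_cons, Multiset.sum_cons]
  have h1 : (Rs.map (fun r => owed (Multiset.ofList (r.news x y)))).sum =
      Multiset.ofList (Bs.flatten.map (fun n => (x n, y n))) := by
    rw [key, hB]
    clear hB hns
    induction Rs with
    | nil => simp
    | cons r Rs ih =>
      rw [List.map_cons, List.sum_cons, List.map_cons, List.sum_cons, Multiset.map_add,
        Multiset.sum_add, ih (fun r' hr' => hG r' (by simp [hr'])), ← key]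
      congr 1
      rw [Res.news_eq]
      exact newsL_owed x y W r.cells r.A (hG r (by simp)).hW
  rw [h1, rows_owed x y τ rows, hns, List.map_append, ← Multiset.coe_add]

section

variable {i : ℕ} {s : TState} {d : PhaseData} {T : ℝ}

/-- the owed pieces of the new objects -/
theorem PhaseOK.new_owed (h : PhaseOK i s d) :
    owed d.newR + owed d.newE + owed (d.rowO i) = unitsT (PP i) := by
  have h1 := all_owed xu yu d.W (51 / 50) (del i) (yM i) (Th i) d.Rs d.Bs d.rows (slots i)
    (fun r hr => (h.good r hr).2) h.slots_eq h.blocks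
  have h3 : Multiset.ofList ((slots i).map (fun n => (xu n, yu n))) = unitsT (PP i) := by
    unfold unitsT
    rw [← slots_coe, Multiset.map_coe]
  rw [h3] at h1
  rw [← h1]
  have key : ∀ R : List Res, owed ((R.map (fun r => Multiset.ofList (r.news xu yu))).sum) =
      (R.map (fun r => owed (Multiset.ofList (r.news xu yu)))).sum := by
    intro R
    induction R with
    | nil => simp [owed_zero]
    | cons r R ih => rw [List.map_cons, List.sum_cons, owed_add, ih, List.map_cons, List.sum_cons]
  unfold PhaseData.newR PhaseData.newE PhaseData.rowO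
  rw [key, key]
  unfold PhaseData.Rs
  rw [List.map_append (l₁ := d.RP ++ d.RR ++ d.RQ), List.sum_append]

theorem units_ne (i : ℕ) : ∀ p ∈ unitsT (PP i), p.1 ≠ 0 := by
  intro p hp
  unfold unitsT at hp
  obtain ⟨n, hn, rfl⟩ := Multiset.mem_map.1 hp
  have hn' : n ∈ PP i := by simpa using hn
  exact (xu_le hn').1.ne'

theorem PhaseOK.new_owedR (h : PhaseOK i s d) :
    owedR d.newR + owedR d.newE + owedR (d.rowO i) = unitsT (PP i) := by
  classical
  rw [← owedR_add, ← owedR_add]
  unfold owedR
  rw [owed_add, owed_add, h.new_owed]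
  exact Multiset.filter_eq_self.2 (units_ne i)

/-- the pieces emitted in the phase -/
theorem PhaseOK.em_eq (h : PhaseOK i s d) :
    d.em = owedR (sufQ (Th i) s.QR) + owedR (sufQ (Th i) s.QE) := by
  classical
  have key : ∀ R : List Res, ((R.map (fun r => Multiset.ofList r.o.run)).sum).filter (fun p => p.1 ≠ 0) =
      owedR (Multiset.ofList (R.map Res.o)) := by
    intro R
    induction R with
    | nil =>
      rw [List.map_nil, List.map_nil, List.sum_nil, Multiset.filter_zero]
      exact owedR_zero.symm
    | cons r R ih =>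
      rw [List.map_cons, List.sum_cons, Multiset.filter_add, ih, List.map_cons, ← Multiset.cons_coe,
        ← Multiset.singleton_add, owedR_add]
      congr 1
      unfold owedR
      rw [owed_single]
  have e1 : d.em = owedR (Multiset.ofList (d.Rs.map Res.o)) := by
    rw [← key]
    rfl
  rw [e1]
  unfold PhaseData.Rs
  rw [List.map_append, List.map_append, List.map_append, ← Multiset.coe_add, ← Multiset.coe_add,
    ← Multiset.coe_add, owedR_add, owedR_add, owedR_add, h.hRP, h.hRR, h.hRQ, h.hRE, owedR_plain,
    owedR_plain, zero_add, add_zero]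

theorem owedR_split (τ : ℝ) (Q : Multiset Obj) (hQ : ∀ o ∈ Q, o.Ok) :
    owedR Q = owedR (preQ τ Q) + owedR (sufQ τ Q) := by
  classical
  unfold owedR
  rw [(split_spec τ Q hQ).2.2.2.1, Multiset.filter_add]

/-- **Bookkeeping of the owed pieces.** -/
theorem PhaseOK.owed_step (h : PhaseOK i s d) (hs : SInvT T i s) (F : Multiset (ℝ × ℝ)) :
    owedR (s.QR + s.QE) + unitsT (PP i) =
      d.em + owedR ((nextState i s d F).QR + (nextState i s d F).QE) := by
  rw [h.em_eq, ← h.new_owedR]
  unfold nextState
  simp only [owedR_add, owedR_plain, owedR_split (Th i) s.QR (fun o ho => (hs.hR o ho).ok),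
    owedR_split (Th i) s.QE (fun o ho => (hs.hQ o ho).ok)]
  abel

/-- a bit that is not positive is void -/
theorem PhaseOK.bits_void (h : PhaseOK i s d) (hT : T ≤ Th (i - 1)) (hs : SInvT T i s) (hi : 2 ≤ i) :
    ∀ p ∈ (d.Rs.map (fun r => Multiset.ofList (r.bits yu))).sum, ¬ 0 < p.1 → p.1 * p.2 = 0 := by
  intro p hp hp0
  obtain ⟨r, hr, hpr⟩ : ∃ r ∈ d.Rs, p ∈ r.bits yu := by
    have : ∀ L : List Res, p ∈ (L.map (fun r => Multiset.ofList (r.bits yu))).sum →
        ∃ r ∈ L, p ∈ r.bits yu := by
      intro L hL
      induction L with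
      | nil => simp at hL
      | cons r L ih =>
        rw [List.map_cons, List.sum_cons, Multiset.mem_add] at hL
        rcases hL with hL | hL
        · exact ⟨r, by simp, by simpa using hL⟩
        · obtain ⟨r', hr', h'⟩ := ih hL
          exact ⟨r', by simp [hr'], h'⟩
    exact this d.Rs hp
  obtain ⟨q, hq, hpq⟩ := Multiset.exists_mem_of_rel_of_mem (h.bits_rel hT hs hi r hr)
    (show p ∈ Multiset.ofList (r.bits yu) by simpa using hpr)
  have hq' : q ∈ r.o.pot := by simpa using hq
  have g1 := ((h.mem_cases hT hs hi r hr).2 q hq').1.le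
  have g2 : p.1 = 0 := le_antisymm (not_lt.1 hp0) (by rw [hpq.1]; exact g1)
  rw [g2, zero_mul]

/-- an owed piece of thickness zero is void; the others are emitted -/
theorem cut_sum_out (R : List Res) :
    ((R.map (Res.out xu yu)).sum) =
      (R.map (fun r => Multiset.ofList r.o.run)).sum +
        rects ((R.map (fun r => Multiset.ofList (r.news xu yu))).sum) +
        (R.map (fun r => Multiset.ofList (r.bits yu))).sum + Multiset.ofList (R.map Res.endp) := by
  induction R with
  | nil => simp [rects_zero]
  | cons r R ih =>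
    rw [List.map_cons, List.sum_cons, ih]
    unfold Res.out
    simp only [List.map_cons, List.sum_cons, rects_add]
    rw [← Multiset.cons_coe, ← Multiset.singleton_add]
    abel

/-- **The cut of the phase.** -/
theorem PhaseOK.cut_step (h : PhaseOK i s d) (hT : T ≤ Th (i - 1)) (hs : SInvT T i s) (hi : 2 ≤ i)
    (F : Multiset (ℝ × ℝ)) (hF : Cut (d.ends i) F) :
    Cut s.free (d.em + (nextState i s d F).free) := by
  classical
  refine h.cut.trans ?_
  rw [cut_sum_out]
  -- names
  set A := (d.Rs.map (fun r => Multiset.ofList r.o.run)).sum with hA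
  set B := (d.Rs.map (fun r => Multiset.ofList (r.bits yu))).sum with hB
  have e1 : rects ((d.Rs.map (fun r => Multiset.ofList (r.news xu yu))).sum) =
      rects d.newR + rects d.newE := by
    rw [← rects_add]
    congr 1
    unfold PhaseData.newR PhaseData.newE PhaseData.Rs
    rw [List.map_append (l₁ := d.RP ++ d.RR ++ d.RQ), List.sum_append]
  rw [e1]
  have eA : A = d.em + A.filter (fun p => ¬ p.1 ≠ 0) := by
    have := (Multiset.filter_add_not (fun p : ℝ × ℝ => p.1 ≠ 0) A).symm
    exact this
  have eB : B = d.bitS + B.filter (fun p => ¬ 0 < p.1) := by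
    have := (Multiset.filter_add_not (fun p : ℝ × ℝ => 0 < p.1) B).symm
    exact this
  -- the box
  have hbox : Cut {(s.X, s.Y - d.rows.length * Th i)}
      {(min s.X (s.Y - d.rows.length * Th i), max s.X (s.Y - d.rows.length * Th i))} := by
    rcases le_total s.X (s.Y - d.rows.length * Th i) with hle | hle
    · rw [min_eq_left hle, max_eq_right hle]
      exact Cut.refl _
    · rw [min_eq_right hle, max_eq_left hle]
      exact Cut.swap _ _
  have hvoid : ∀ p ∈ A.filter (fun p => ¬ p.1 ≠ 0) + B.filter (fun p => ¬ 0 < p.1), p.1 * p.2 = 0 := by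
    intro p hp
    rcases Multiset.mem_add.1 hp with hp | hp
    · rw [Multiset.mem_filter] at hp
      have : p.1 = 0 := not_not.1 hp.2
      rw [this, zero_mul]
    · rw [Multiset.mem_filter] at hp
      exact h.bits_void hT hs hi p hp.1 hp.2
  have hnext : (nextState i s d F).free = rects (preQ (Th i) s.QR) + rects d.newR + d.bitS +
      rects (d.rowO i) + (rects (preQ (Th i) s.QE) + rects d.newE) +
      (s.E.filter (fun p => ¬ Th i ≤ p.1) + F) + {(Th i, d.ℓ)} +
      {(min s.X (s.Y - d.rows.length * Th i), max s.X (s.Y - d.rows.length * Th i))} := by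
    unfold nextState TState.free
    simp only [rects_add, rects_plain]
  have start : rects (preQ (Th i) s.QR) + rects (preQ (Th i) s.QE) +
        s.E.filter (fun p => ¬ Th i ≤ p.1) +
        (A + (rects d.newR + rects d.newE) + B + Multiset.ofList (d.Rs.map Res.endp)) +
        rects (d.rowO i) + Multiset.ofList (d.es.map (fun e => (e, Th i))) + {(d.ℓ, Th i)} +
        {(s.X, s.Y - d.rows.length * Th i)} =
      (d.em + rects (preQ (Th i) s.QR) + rects d.newR + d.bitS + rects (d.rowO i) +
        (rects (preQ (Th i) s.QE) + rects d.newE) + s.E.filter (fun p => ¬ Th i ≤ p.1)) +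
        d.ends i + {(d.ℓ, Th i)} + {(s.X, s.Y - d.rows.length * Th i)} +
        (A.filter (fun p => ¬ p.1 ≠ 0) + B.filter (fun p => ¬ 0 < p.1)) := by
    unfold PhaseData.ends
    conv_lhs => rw [eA, eB]
    abel
  rw [start]
  refine (Cut.drop _ _ hvoid).trans ?_
  refine (Cut.add (Cut.add (Cut.add_left hF _) (Cut.swap d.ℓ (Th i))) hbox).trans ?_
  rw [hnext]
  apply Cut.of_eq
  abel

/-- **One phase of the tail.** -/
theorem PhaseOK.tstep (h : PhaseOK i s d) (hT : T ≤ Th (i - 1)) (hs : SInvT T i s) (hi : 2 ≤ i)
    (F : Multiset (ℝ × ℝ)) (hF : Cut (d.ends i) F) :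
    TStep i s (nextState i s d F) d.em :=
  ⟨h.cut_step hT hs hi F hF, h.owed_step hs F⟩

end

end Pool.Agent.MM2
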