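import Pool.Agent.MP_94f265_co.MM2.EndsG
import Pool.Agent.MP_94f265_co.MM2.Init
import Pool.Agent.MP_94f265_co.MM2.LimitF

/-!
# The tail: one phase, infinite recursion, the full packing from a good start
-/

namespace Pool.Agent.MM2

open Pool.Agent.MM1

/-- dependent choice from an arbitrary first index -/
theorem run_states {S E : Type*} (m : ℕ) (I : ℕ → S → Prop) (T : ℕ → S → S → E → Prop) (s0 : S)
    (e0 : E) (h0 : I m s0)
    (h : ∀ i, m ≤ i → ∀ s, I i s → ∃ (t : S) (e : E), T i s t e ∧ I (i + 1) t) :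
    ∃ (s : ℕ → S) (e : ℕ → E), s m = s0 ∧ (∀ i, m ≤ i → T i (s i) (s (i + 1)) (e i)) ∧
      ∀ i, m ≤ i → I i (s i) := by
  classical
  have hstep : ∀ i (s : S), ∃ (te : S × E), m ≤ i → I i s → T i s te.1 te.2 ∧ I (i + 1) te.1 := by
    intro i s
    by_cases hh : m ≤ i ∧ I i s
    · obtain ⟨t, e, h1, h2⟩ := h i hh.1 s hh.2
      exact ⟨(t, e), fun _ _ => ⟨h1, h2⟩⟩
    · exact ⟨(s, e0), fun a b => absurd ⟨a, b⟩ hh⟩
  choose nx hnx using hstep
  let s' : ℕ → S := fun k => Nat.rec s0 (fun k s => (nx (m + k) s).1) k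
  have hInv' : ∀ k, I (m + k) (s' k) := by
    intro k
    induction k with
    | zero => exact h0
    | succ k ih => exact (hnx (m + k) (s' k) (by omega) ih).2
  have hInv : ∀ i, m ≤ i → I i (s' (i - m)) := by
    intro i hi
    have := hInv' (i - m)
    rw [show m + (i - m) = i by omega] at this
    exact this
  refine ⟨fun i => s' (i - m), fun i => (nx i (s' (i - m))).2, ?_, ?_, hInv⟩
  · simp [s']
  · intro i hi
    have e1 : i + 1 - m = (i - m) + 1 := by omega
    have e2 : m + (i - m) = i := by omega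
    have e3 : s' (i + 1 - m) = (nx i (s' (i - m))).1 := by
      rw [e1]
      show (nx (m + (i - m)) (s' (i - m))).1 = _
      rw [e2]
    show T i (s' (i - m)) (s' (i + 1 - m)) _
    rw [e3]
    exact (hnx i (s' (i - m)) hi (hInv i hi)).1

/-- **One phase** preserves the invariants. -/
theorem tstep (θ : ℝ) (i : ℕ) (hi : j0 ≤ i) (s : TState) (hI : Inv θ i s) :
    ∃ (t : TState) (e : Multiset (ℝ × ℝ)), TStep i s t e ∧ Inv θ (i + 1) t := by
  have hi' : 1585 ≤ i := hi
  obtain ⟨d, h⟩ := hI.phase hi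
  obtain ⟨hX, hbox, hrB⟩ := hI.rows hi
  have hrows : (d.rows.length : ℝ) + 1 ≤ rowsB i := by
    have h1 := h.nrows
    have h2 : (d.rows.length : ℝ) - 1 ≤ (∑ n ∈ PP i, yu n) / (s.X - del i - yM i) := by
      rw [le_div_iff₀ hX]
      exact h1
    linarith
  obtain ⟨F, f1, f2, f3, f4⟩ := h.exists_F hI hi hrows
  have hstep := h.tstep' hI hi' F f1
  obtain ⟨n1, n2, n3⟩ := h.next_fields hI hi' F f3 hX hbox
  refine ⟨nextState i s d F, d.em, hstep, ?_⟩
  exact
    { sinv := n1
      obj := n2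
      epc := n3
      pend := h.next_pend hI F (hI.box_le hi)
      load := load_next h (Tmax_le hi') hI.sinvT hi' F hI.load
      eload := f2
      psi := h.psi_next hI hi' hrows F f4
      net := hstep.net hi hI.net
      gap := h.next_gap hI hi' F }

/-- **Tail theorem**: a good start gives the full packing. -/
theorem tail (Q : Multiset Obj) (X Y : ℝ) (h : StartOK Q X Y) : FullPacking := by
  obtain ⟨θ, hθ, h0⟩ := inv_init Q X Y h
  obtain ⟨s, e, hs0, hs1, hs2⟩ := run_states j0 (Inv θ) TStep ⟨Q, 0, 0, 0, X, Y⟩ 0 h0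
    (fun i hi s hs => tstep θ i hi s hs)
  exact limit Q X Y θ h hθ s e hs0 hs1 hs2

end Pool.Agent.MM2
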